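import Mathlib

/-!
# Project RHK (MP_c2409d_nt): definitions for the blocks CORE and ARITH

Papers: /team-store/rohk_core_h98.md, /team-store/rohk_h22.md.

`E = ι → ℂ` (`g = card ι`), `V = E × E` with coordinates `(z, w)`; the real points are `w = conj z`;
`d = w - conj z`. `Y : Finset ι` is the set of the places where the two types differ (`y = card Y`),
`sw Y` exchanges `z_i` and `w_i` for `i ∈ Y`.
-/

set_option autoImplicit false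

namespace Pool.Agent.RHK

open Complex ComplexConjugate Finset

noncomputable section

/-- `V = E × E`, `E = ι → ℂ` -/
abbrev VV (ι : Type) := (ι → ℂ) × (ι → ℂ)

variable {ι : Type} [Fintype ι] [DecidableEq ι]

/-- partial derivative in the coordinate `z_i` -/
def dz (i : ι) (Φ : VV ι → ℂ) (v : VV ι) : ℂ := fderiv ℂ Φ v (Pi.single i 1, 0)

/-- partial derivative in the coordinate `w_i` -/
def dw (i : ι) (Φ : VV ι → ℂ) (v : VV ι) : ℂ := fderiv ℂ Φ v (0, Pi.single i 1)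

/-- the operator `A_i = ∂_{z_i} - a_i w_i` -/
def opA (a : ι → ℝ) (i : ι) (Φ : VV ι → ℂ) (v : VV ι) : ℂ := dz i Φ v - a i * v.2 i * Φ v

/-- apply `D i` `m i` times, for all `i` -/
def iter (D : ι → (VV ι → ℂ) → (VV ι → ℂ)) (m : ι → ℕ) (Φ : VV ι → ℂ) : VV ι → ℂ :=
  (Finset.univ : Finset ι).toList.foldr (fun i Ψ => (D i)^[m i] Ψ) Φ

/-- exchange `z_i` and `w_i` for `i ∈ Y` -/
def sw (Y : Finset ι) (v : VV ι) : VV ι :=
  (fun i => if i ∈ Y then v.2 i else v.1 i, fun i => if i ∈ Y then v.1 i else v.2 i)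

/-- conjugate the coordinates in `Y` -/
def swu (Y : Finset ι) (u : ι → ℂ) : ι → ℂ := fun i => if i ∈ Y then conj (u i) else u i

/-- complex conjugation of all coordinates -/
def cj (z : ι → ℂ) : ι → ℂ := fun i => conj (z i)

/-- `T(z+u) = e exp (∑ a_i (conj u_i z_i + |u_i|²/2)) T(z)`, `|e| = 1` -/
def QPn (T : (ι → ℂ) → ℂ) (a : ι → ℝ) (u : ι → ℂ) : Prop :=
  ∃ e : ℂ, ‖e‖ = 1 ∧ ∀ z : ι → ℂ, T (z + u) =
    e * cexp (∑ i, (a i : ℂ) * (conj (u i) * z i + ((‖u i‖ ^ 2 / 2 : ℝ) : ℂ))) * T z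

/-- every box of volume `≥ C0` contains a representative of every point modulo `O` -/
def CovG (O : Set (ι → ℂ)) : Prop :=
  ∃ C0 : ℝ, 0 < C0 ∧ ∀ R : ι → ℝ, (∀ i, 0 < R i) → C0 ≤ ∏ i, R i → ∀ z : ι → ℂ,
    ∃ u ∈ O, ∀ i, ‖z i - u i‖ ≤ R i

variable (ι) in
/-- the analytic core data -/
structure CoreG where
  Y : Finset ι
  hY : Y.Nonempty
  a : ι → ℝ
  b : ι → ℝ
  ha : ∀ i, 0 < a i
  hb : ∀ i, 0 < b i
  T1 : (ι → ℂ) → ℂ
  T2 : (ι → ℂ) → ℂ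
  d1 : Differentiable ℂ T1
  d2 : Differentiable ℂ T2
  n1 : ∃ z, T1 z ≠ 0
  n2 : ∃ z, T2 z ≠ 0
  O : AddSubgroup (ι → ℂ)
  q1 : ∀ u ∈ O, QPn T1 a u
  q2 : ∀ u ∈ O, QPn T2 b (swu Y u)
  cov : CovG (O : Set (ι → ℂ))

/-- `F_m = ∏ (∂_{z_i} - a_i w_i)^{m_i} T(z)` -/
def FF (a : ι → ℝ) (T : (ι → ℂ) → ℂ) (m : ι → ℕ) : VV ι → ℂ :=
  iter (opA a) m (fun v => T v.1)

/-- `f_p = ∑ p_{m,l} F_m(v) H_l(sw v)` -/
def ff (Y : Finset ι) (a b : ι → ℝ) (T1 T2 : (ι → ℂ) → ℂ) {K : ℕ}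
    (p : (ι → Fin K) → (ι → Fin K) → ℂ) (v : VV ι) : ℂ :=
  ∑ m, ∑ l, p m l * (FF a T1 (fun i => (m i : ℕ)) v * FF b T2 (fun i => (l i : ℕ)) (sw Y v))

/-- iterated partial derivative at `0`: `∂_z^A ∂_w^B` -/
def jet (Φ : VV ι → ℂ) (A B : ι → ℕ) : ℂ := iter dz A (iter dw B Φ) 0

/-- `|A| + |B|` -/
def ord (A B : ι → ℕ) : ℕ := ∑ i, (A i + B i)

namespace CoreG

variable (c : CoreG ι)

/-- `f_p = ∑ p_{m,l} F_m(v) H_l(sw v)` -/
def f {K : ℕ} (p : (ι → Fin K) → (ι → Fin K) → ℂ) : VV ι → ℂ := ff c.Y c.a c.b c.T1 c.T2 p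

/-- the weight -/
def wt (v : VV ι) : ℝ :=
  Real.exp (-(∑ i, (c.a i * ‖v.1 i‖ ^ 2 + c.b i * ‖(sw c.Y v).1 i‖ ^ 2) / 2))

/-- the `O`-invariant norm of `f` -/
def nf {K : ℕ} (p : (ι → Fin K) → (ι → Fin K) → ℂ) (v : VV ι) : ℝ := ‖c.f p v‖ * c.wt v

/-- `S(d)`: the supremum of the invariant norm over all points with `w = conj z + d` -/
def S {K : ℕ} (p : (ι → Fin K) → (ι → Fin K) → ℂ) (d : ι → ℂ) : ℝ :=
  ⨆ z : ι → ℂ, c.nf p (z, cj z + d)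

end CoreG

end

end Pool.Agent.RHK
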