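import Pool.Agent.RHK.L1
import Pool.Agent.RHK.CDefs

/-!
# Project RHK (MP_c2409d_nt): statements of the block theorems

CORE: `CoreEst`; PIG: `PigForm`; CRIT: `CritForm`; ARITH: `ArithForm`; III: `ThetaForm`.
-/

set_option autoImplicit false

namespace Pool.Agent.RHK

open Complex ComplexConjugate Finset MvPolynomial

noncomputable section

/-! ## CORE -/

/-- the analytic estimates for the family `f_p`, `K ^ (2g)` functions, `L = log K`,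
`G = K ^ (1 + g / y)` -/
def CoreEst : Prop := ∀ (ι : Type) [Fintype ι] [DecidableEq ι] (c : CoreG ι) (ε : ℝ), 0 < ε →
  ∃ K0 : ℕ, 3 ≤ K0 ∧ ∀ K : ℕ, K0 ≤ K → ∀ p : (ι → Fin K) → (ι → Fin K) → ℂ,
    (∀ B : ℝ, (∀ m l, ‖p m l‖ ≤ B) → c.S p 0 ≤ B * Real.exp (K * Real.log K ^ 3)) ∧
    (∀ A B : ι → ℕ, (ord A B : ℝ) ≤ K * Real.log K →
      ‖jet (c.f p) A B‖ ≤ Real.exp (K * Real.log K ^ 3) * c.S p 0) ∧
    (∀ m l, ‖p m l‖ ≤
      Real.exp ((K : ℝ) ^ (1 + (Fintype.card ι : ℝ) / c.Y.card) * Real.log K ^ 3) * c.S p 0) ∧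
    (∀ B : ℝ, (∀ m l, ‖p m l‖ ≤ B) →
      (∀ A B : ι → ℕ, (ord A B : ℝ) < ε * K →
        ‖jet (c.f p) A B‖ ≤ Real.exp (-(K * Real.log K ^ 3)) * c.S p 0) →
      c.S p 0 ≤ B *
        Real.exp (-((K : ℝ) ^ (1 + (Fintype.card ι : ℝ) / c.Y.card) / Real.log K))) ∧
    (∃ A B : ι → ℕ, (ord A B : ℝ) ≤ K * Real.log K ∧
      Real.exp (-(K * Real.log K ^ 3)) * c.S p 0 ≤ ‖jet (c.f p) A B‖)

/-! ## PIG and CRIT -/

/-- the input of the pigeonhole argument: for all large `K` functions indexed by `κ`, conditions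
indexed by `α`, integer polynomials `t`; `ξ_A(q) = ∑ q_k t_{A,k}(x)`; `n = K (log K)^e`,
`G = K^r` -/
def Est {m : ℕ} (x : Fin m → ℂ) (r : ℝ) (e : ℕ) : Prop := ∀ ε : ℝ, 0 < ε →
  ∃ K0 : ℕ, ∀ K : ℕ, K0 ≤ K → ∃ (κ α : Type) (_ : Fintype κ) (small all : Finset α)
    (t : α → κ → MvPolynomial (Fin m) ℤ) (S : (κ → ℂ) → ℝ),
    small ⊆ all ∧ (small.card : ℝ) ≤ ε * Fintype.card κ ∧ 0 < Fintype.card κ ∧
    (Fintype.card κ : ℝ) ≤ Real.exp (K * Real.log K ^ e) ∧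
    (∀ A ∈ all, ∀ k, Bd (K * Real.log K ^ e) (t A k)) ∧
    (∀ q : κ → ℂ,
      (∀ B : ℝ, (∀ k, ‖q k‖ ≤ B) → S q ≤ B * Real.exp (K * Real.log K ^ e)) ∧
      (∀ A ∈ all, ‖∑ k, q k * aeval x (t A k)‖ ≤ Real.exp (K * Real.log K ^ e) * S q) ∧
      (∀ k, ‖q k‖ ≤ Real.exp ((K : ℝ) ^ r * Real.log K ^ e) * S q) ∧
      (∀ B : ℝ, (∀ k, ‖q k‖ ≤ B) →
        (∀ A ∈ small, ‖∑ k, q k * aeval x (t A k)‖ ≤ Real.exp (-(K * Real.log K ^ e)) * S q) →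
        S q ≤ B * Real.exp (-((K : ℝ) ^ r / Real.log K ^ e))) ∧
      (∃ A ∈ all, Real.exp (-(K * Real.log K ^ e)) * S q ≤ ‖∑ k, q k * aeval x (t A k)‖))

/-- two-sided small values of integer polynomials for all large `K` -/
def TwoSided {m : ℕ} (x : Fin m → ℂ) (r : ℝ) (e : ℕ) : Prop :=
  ∃ K0 : ℕ, ∀ K : ℕ, K0 ≤ K → ∃ P : MvPolynomial (Fin m) ℤ, Bd (K * Real.log K ^ e) P ∧
    Real.exp (-((K : ℝ) ^ r * Real.log K ^ e)) ≤ ‖aeval x P‖ ∧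
    ‖aeval x P‖ ≤ Real.exp (-((K : ℝ) ^ r / Real.log K ^ e))

/-- block PIG -/
def PigForm : Prop := ∀ (m : ℕ) (x : Fin m → ℂ) (r : ℝ) (e : ℕ), 1 < r → Est x r e →
  ∃ e' : ℕ, TwoSided x r e'

/-- block CRIT: `k ≥ r - 1` for every system of `k` numbers over which all `x_i` are algebraic -/
def CritForm : Prop := ∀ (m : ℕ) (x : Fin m → ℂ) (r : ℝ) (e : ℕ), 1 < r → TwoSided x r e →
  ∀ (k : ℕ) (θ : Fin k → ℂ),
    (∀ i, IsAlgebraic (IntermediateField.adjoin ℚ (Set.range θ)) (x i)) → r - 1 ≤ k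

/-! ## ARITH -/

/-- the partial derivatives at `0` of `s : (ι → ℂ) → ℂ` -/
def jet1 {ι : Type} [Fintype ι] [DecidableEq ι] (s : (ι → ℂ) → ℂ) (A : ι → ℕ) : ℂ :=
  jet (fun v : VV ι => s v.1) A 0

/-- the partial derivatives at `0` of the entire function `s` are values at a fixed tuple `w` of
algebraic numbers of integer polynomials of size `≤ C N log² N` with common denominators
`≤ exp (C N log² N)` for all orders `≤ N` -/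
def AlgTay {ι : Type} [Fintype ι] [DecidableEq ι] (s : (ι → ℂ) → ℂ) : Prop :=
  ∃ (q : ℕ) (w : Fin q → ℂ) (C : ℝ), (∀ i, IsAlgebraic ℚ (w i)) ∧ 0 ≤ C ∧
    ∀ N : ℕ, ∃ D : ℕ, 0 < D ∧ (D : ℝ) ≤ Real.exp (C * (N + 1) * Real.log (N + 2) ^ 2) ∧
      ∀ A : ι → ℕ, ∑ i, A i ≤ N → ∃ P : MvPolynomial (Fin q) ℤ,
        Bd (C * (N + 1) * Real.log (N + 2) ^ 2) P ∧ (D : ℂ) * jet1 s A = aeval w P

/-- the numbers `c_i` (`i ∉ Y`: quotient of the periods; `i ∈ Y`: `π` divided by the product) -/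
def cc {ι : Type} [DecidableEq ι] (Y : Finset ι) (v1 v2 : ι → ℝ) (i : ι) : ℝ :=
  if i ∈ Y then Real.pi / (v1 i * v2 i) else v2 i / v1 i

/-- block ARITH: two entire functions with algebraic Taylor coefficients, quasi-periodic after
scaling by the periods `v1`, `v2` for the same lattice. Conclusion: `trdeg ℚ(c_i) ≥ g / y`. -/
def ArithForm : Prop := ∀ (g : ℕ) (Y : Finset (Fin g)) (v1 v2 κ1 κ2 : Fin g → ℝ)
  (s1 s2 : (Fin g → ℂ) → ℂ) (O : AddSubgroup (Fin g → ℂ)), Y.Nonempty →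
  (∀ i, 0 < v1 i) → (∀ i, 0 < v2 i) → (∀ i, 0 < κ1 i) → (∀ i, 0 < κ2 i) →
  (∀ i, IsAlgebraic ℚ (κ1 i / Real.pi)) → (∀ i, IsAlgebraic ℚ (κ2 i / Real.pi)) →
  Differentiable ℂ s1 → Differentiable ℂ s2 → (∃ z, s1 z ≠ 0) → (∃ z, s2 z ≠ 0) →
  AlgTay s1 → AlgTay s2 →
  (∀ u ∈ O, QPn (fun z => s1 (fun i => v1 i * z i)) κ1 u) →
  (∀ u ∈ O, QPn (fun z => s2 (fun i => v2 i * z i)) κ2 (swu Y u)) →
  CovG (O : Set (Fin g → ℂ)) →
  ∀ (k : ℕ) (θ : Fin k → ℂ),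
    (∀ i, IsAlgebraic (IntermediateField.adjoin ℚ (Set.range θ)) ((cc Y v1 v2 i : ℝ) : ℂ)) →
    (g : ℝ) / Y.card ≤ k

/-! ## III -/

/-- the Galois conjugates `σ_t(μ)`, `μ = ∑_{j<D} c_j ζ^j`, `ζ = exp(2πi/D)` -/
def emb (D : ℕ) (c : ℕ → ℤ) (t : ℕ) : ℂ :=
  ∑ j ∈ range D, (c j : ℂ) * cexp (2 * Real.pi * I * (t * j : ℕ) / D)

/-- `t` runs through the CM type of `(a, b)`: a unit `t` mod `D` with `{ta/D} + {tb/D} > 1` -/
def InType (D a b t : ℕ) : Prop := Nat.Coprime t D ∧ D < (t * a) % D + (t * b) % D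

/-- block III: for every Fermat type an entire function with algebraic Taylor coefficients,
quasi-periodic after scaling by Beta values. `t` enumerates the type (`g = φ(D)/2` values). -/
def ThetaForm : Prop := ∀ (D a b g : ℕ) (t : Fin g → ℕ), 2 < D → 0 < g → ¬ D ∣ a → ¬ D ∣ b →
  ¬ D ∣ a + b → (Nat.Coprime a D ∨ Nat.Coprime b D ∨ Nat.Coprime (a + b) D) →
  Function.Injective (fun i => t i % D) → (∀ i, InType D a b (t i)) → 2 * g = Nat.totient D →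
  ∃ (s : (Fin g → ℂ) → ℂ) (κ v α : Fin g → ℝ) (N : ℕ), 0 < N ∧ (∀ i, 0 < κ i) ∧ (∀ i, 0 < v i) ∧
    (∀ i, IsAlgebraic ℚ (κ i / Real.pi)) ∧ (∀ i, IsAlgebraic ℚ (α i)) ∧ (∀ i, α i ≠ 0) ∧
    (∀ i, v i = α i * (Real.Gamma (1 - ((t i * a) % D : ℕ) / (D : ℝ)) *
      Real.Gamma (1 - ((t i * b) % D : ℕ) / (D : ℝ)) /
      Real.Gamma (2 - ((t i * a) % D : ℕ) / (D : ℝ) - ((t i * b) % D : ℕ) / (D : ℝ)))) ∧
    Differentiable ℂ s ∧ (∃ z, s z ≠ 0) ∧ AlgTay s ∧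
    ∀ c : ℕ → ℤ, QPn (fun z => s (fun i => v i * z i)) κ (fun i => (N : ℂ) * emb D c (t i))

end

end Pool.Agent.RHK
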