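import Pool.Agent.RHK.CDefs

/-!
# Project RHK, MV: iterated commuting operators

`P` is a class of functions stable under the operators `D i`, which commute on it.
-/

set_option autoImplicit false

namespace Pool.Agent.RHK

open Finset

variable {ι : Type} [Fintype ι] [DecidableEq ι]

/-- the operators `D i` preserve `P` and commute on `P` -/
structure Comm (P : (VV ι → ℂ) → Prop) (D : ι → (VV ι → ℂ) → (VV ι → ℂ)) : Prop where
  st : ∀ i Φ, P Φ → P (D i Φ)
  cm : ∀ i j Φ, P Φ → D i (D j Φ) = D j (D i Φ)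

/-- the same along a list -/
private def fo (D : ι → (VV ι → ℂ) → (VV ι → ℂ)) (l : List ι) (m : ι → ℕ) (Φ : VV ι → ℂ) : VV ι → ℂ :=
  l.foldr (fun i Ψ => (D i)^[m i] Ψ) Φ

omit [Fintype ι] [DecidableEq ι] in
private lemma fo_cons (D : ι → (VV ι → ℂ) → (VV ι → ℂ)) (i : ι) (l : List ι) (m : ι → ℕ)
    (Φ : VV ι → ℂ) : fo D (i :: l) m Φ = (D i)^[m i] (fo D l m Φ) := rfl

omit [Fintype ι] [DecidableEq ι] in
private lemma pow_mem {P : (VV ι → ℂ) → Prop} {D : ι → (VV ι → ℂ) → (VV ι → ℂ)} (h : Comm P D)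
    (i : ι) (k : ℕ) {Φ : VV ι → ℂ} (hΦ : P Φ) : P ((D i)^[k] Φ) := by
  induction k with
  | zero => exact hΦ
  | succ k ih =>
    rw [Function.iterate_succ_apply']
    exact h.st i _ ih

private lemma fo_mem {P : (VV ι → ℂ) → Prop} {D : ι → (VV ι → ℂ) → (VV ι → ℂ)} (h : Comm P D)
    (l : List ι) (m : ι → ℕ) {Φ : VV ι → ℂ} (hΦ : P Φ) : P (fo D l m Φ) := by
  induction l with
  | nil => exact hΦ
  | cons i l ih =>
    rw [fo_cons]
    exact pow_mem h i _ ih

private lemma pow_comm {P : (VV ι → ℂ) → Prop} {D : ι → (VV ι → ℂ) → (VV ι → ℂ)} (h : Comm P D)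
    (E : (VV ι → ℂ) → (VV ι → ℂ)) (i : ι) (hc : ∀ Φ, P Φ → E (D i Φ) = D i (E Φ)) (k : ℕ)
    {Φ : VV ι → ℂ} (hΦ : P Φ) : E ((D i)^[k] Φ) = (D i)^[k] (E Φ) := by
  induction k with
  | zero => rfl
  | succ k ih =>
    rw [Function.iterate_succ_apply', Function.iterate_succ_apply', hc _ (pow_mem h i k hΦ), ih]

private lemma fo_comm {P : (VV ι → ℂ) → Prop} {D : ι → (VV ι → ℂ) → (VV ι → ℂ)} (h : Comm P D)
    (l : List ι) (m : ι → ℕ) (E : (VV ι → ℂ) → (VV ι → ℂ))
    (hc : ∀ i Φ, P Φ → E (D i Φ) = D i (E Φ)) {Φ : VV ι → ℂ} (hΦ : P Φ) :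
    E (fo D l m Φ) = fo D l m (E Φ) := by
  induction l with
  | nil => rfl
  | cons i l ih =>
    rw [fo_cons, fo_cons, pow_comm h E i (hc i) (m i) (fo_mem h l m hΦ), ih]

omit [Fintype ι] in
private lemma fo_notMem (D : ι → (VV ι → ℂ) → (VV ι → ℂ)) (l : List ι) (m : ι → ℕ) (j : ι)
    (hj : j ∉ l) (Φ : VV ι → ℂ) : fo D l (m + Pi.single j 1) Φ = fo D l m Φ := by
  induction l with
  | nil => rfl
  | cons i l ih =>
    rw [List.mem_cons, not_or] at hj
    have hm : (m + Pi.single j 1 : ι → ℕ) i = m i := by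
      rw [Pi.add_apply, Pi.single_eq_of_ne (fun e => hj.1 e.symm), add_zero]
    rw [fo_cons, fo_cons, ih hj.2, hm]

private lemma fo_single {P : (VV ι → ℂ) → Prop} {D : ι → (VV ι → ℂ) → (VV ι → ℂ)} (h : Comm P D)
    (l : List ι) (hl : l.Nodup) (m : ι → ℕ) (j : ι) (hj : j ∈ l) {Φ : VV ι → ℂ} (hΦ : P Φ) :
    fo D l (m + Pi.single j 1) Φ = D j (fo D l m Φ) := by
  induction l with
  | nil => exact absurd hj List.not_mem_nil
  | cons i l ih =>
    rw [List.nodup_cons] at hl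
    rw [fo_cons, fo_cons]
    by_cases hij : j = i
    · subst hij
      rw [fo_notMem D l m j hl.1, Pi.add_apply, Pi.single_eq_same, Function.iterate_succ_apply']
    · have hj2 : j ∈ l := by
        rcases List.mem_cons.1 hj with h1 | h1
        · exact absurd h1 hij
        · exact h1
      have hm : (m + Pi.single j 1 : ι → ℕ) i = m i := by
        rw [Pi.add_apply, Pi.single_eq_of_ne (fun e => hij e.symm), add_zero]
      rw [ih hl.2 hj2, hm, pow_comm h (D j) i (fun Ψ hΨ => h.cm j i Ψ hΨ) (m i) (fo_mem h l m hΦ)]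

theorem iter_mem {P : (VV ι → ℂ) → Prop} {D : ι → (VV ι → ℂ) → (VV ι → ℂ)} (h : Comm P D)
    (m : ι → ℕ) {Φ : VV ι → ℂ} (hΦ : P Φ) : P (iter D m Φ) := by
  exact fo_mem h _ m hΦ

theorem iter_zero (D : ι → (VV ι → ℂ) → (VV ι → ℂ)) (Φ : VV ι → ℂ) : iter D 0 Φ = Φ := by
  show fo D (Finset.univ : Finset ι).toList 0 Φ = Φ
  induction (Finset.univ : Finset ι).toList with
  | nil => rfl
  | cons i l ih =>
    rw [fo_cons, ih]
    rfl

theorem iter_comm {P : (VV ι → ℂ) → Prop} {D : ι → (VV ι → ℂ) → (VV ι → ℂ)} (h : Comm P D)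
    (m : ι → ℕ) (E : (VV ι → ℂ) → (VV ι → ℂ)) (hE : ∀ Φ, P Φ → P (E Φ))
    (hc : ∀ i Φ, P Φ → E (D i Φ) = D i (E Φ)) {Φ : VV ι → ℂ} (hΦ : P Φ) :
    E (iter D m Φ) = iter D m (E Φ) := by
  exact fo_comm h _ m E hc hΦ

theorem iter_add_single {P : (VV ι → ℂ) → Prop} {D : ι → (VV ι → ℂ) → (VV ι → ℂ)}
    (h : Comm P D) (m : ι → ℕ) (j : ι) {Φ : VV ι → ℂ} (hΦ : P Φ) :
    iter D (m + Pi.single j 1) Φ = D j (iter D m Φ) := by
  exact fo_single h _ (Finset.nodup_toList _) m j (Finset.mem_toList.2 (Finset.mem_univ j)) hΦ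

theorem iter_add_single' {P : (VV ι → ℂ) → Prop} {D : ι → (VV ι → ℂ) → (VV ι → ℂ)}
    (h : Comm P D) (m : ι → ℕ) (j : ι) {Φ : VV ι → ℂ} (hΦ : P Φ) :
    iter D (m + Pi.single j 1) Φ = iter D m (D j Φ) := by
  rw [iter_add_single h m j hΦ]
  exact iter_comm h m (D j) (h.st j) (fun i Ψ hΨ => h.cm j i Ψ hΨ) hΦ

/-- induction principle for exponents -/
theorem exp_induction {Q : (ι → ℕ) → Prop} (h0 : Q 0) (h1 : ∀ m j, Q m → Q (m + Pi.single j 1))
    (m : ι → ℕ) : Q m := by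
  have key : ∀ n (m : ι → ℕ), ∑ i, m i = n → Q m := by
    intro n
    induction n with
    | zero =>
      intro m hm
      have h2 : m = 0 := by
        funext i
        exact (Finset.sum_eq_zero_iff.1 hm) i (Finset.mem_univ i)
      rw [h2]
      exact h0
    | succ n ih =>
      intro m hm
      obtain ⟨j, hj⟩ : ∃ j, m j ≠ 0 := by
        by_contra hno
        push Not at hno
        rw [Finset.sum_eq_zero fun i _ => hno i] at hm
        omega
      have e : m = Function.update m j (m j - 1) + Pi.single j 1 := by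
        funext i
        rw [Pi.add_apply]
        by_cases hij : i = j
        · subst hij
          rw [Function.update_self, Pi.single_eq_same]
          omega
        · rw [Function.update_of_ne hij, Pi.single_eq_of_ne hij, add_zero]
      have hs : ∑ i, m i = ∑ i, Function.update m j (m j - 1) i + 1 := by
        have h3 : ∑ i, m i = ∑ i, (Function.update m j (m j - 1) + Pi.single j 1 : ι → ℕ) i := by rw [← e]
        rw [h3]
        simp only [Pi.add_apply]
        rw [Finset.sum_add_distrib, Finset.sum_pi_single', if_pos (Finset.mem_univ j)]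
      rw [e]
      exact h1 _ j (ih _ (by omega))
  exact key _ m rfl

end Pool.Agent.RHK
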