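import Pool.Agent.RHK.EntC
import Pool.Agent.RHK.Iter

/-!
# Project RHK, MV: iterated partial derivatives at `0`
-/

set_option autoImplicit false

namespace Pool.Agent.RHK

open Complex Finset

variable {ι : Type} [Fintype ι] [DecidableEq ι]

theorem comm_dz : Comm (fun Φ : VV ι → ℂ => Differentiable ℂ Φ) dz :=
  ⟨fun i _ h => ent_dz i h, fun i j _ h => dz_dz i j h⟩

theorem comm_dw : Comm (fun Φ : VV ι → ℂ => Differentiable ℂ Φ) dw :=
  ⟨fun i _ h => ent_dw i h, fun i j _ h => dw_dw i j h⟩

theorem comm_opA (a : ι → ℝ) : Comm (fun Φ : VV ι → ℂ => Differentiable ℂ Φ) (opA a) :=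
  ⟨fun i _ h => ent_opA a i h, fun i j _ h => opA_opA a i j h⟩

theorem jet_zero (Φ : VV ι → ℂ) : jet Φ 0 0 = Φ 0 := by
  unfold jet
  rw [iter_zero, iter_zero]

/-- PLAN: `iter_add_single'` for `dz` (after `iter_mem` for `dw`), `iter_comm` to exchange `dz j` with `iter dw B`. -/
theorem jet_addz {Φ : VV ι → ℂ} (h : Differentiable ℂ Φ) (A B : ι → ℕ) (i : ι) :
    jet Φ (A + Pi.single i 1) B = jet (dz i Φ) A B := by
  unfold jet
  rw [iter_add_single' comm_dz A i (iter_mem comm_dw B h),
    iter_comm comm_dw B (dz i) (fun Ψ hΨ => ent_dz i hΨ) (fun j Ψ hΨ => dz_dw i j hΨ) h]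

theorem jet_addw {Φ : VV ι → ℂ} (h : Differentiable ℂ Φ) (A B : ι → ℕ) (i : ι) :
    jet Φ A (B + Pi.single i 1) = jet (dw i Φ) A B := by
  unfold jet
  rw [iter_add_single' comm_dw B i h]

private theorem jr_diff_add {Φ Ψ : VV ι → ℂ} (h : Differentiable ℂ Φ) (h' : Differentiable ℂ Ψ) :
    Differentiable ℂ (fun v => Φ v + Ψ v) := h.add h'

private theorem jr_diff_cmul (c : ℂ) {Φ : VV ι → ℂ} (h : Differentiable ℂ Φ) :
    Differentiable ℂ (fun v => c * Φ v) := h.const_mul c

private theorem jr_coord (i : ι) : Differentiable ℂ (fun v : VV ι => v.2 i) := by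
  have h1 : Differentiable ℂ (fun w : ι → ℂ => w i) := differentiable_pi.1 differentiable_id i
  exact h1.comp differentiable_snd

private theorem jr_diff_coord (i : ι) {Φ : VV ι → ℂ} (h : Differentiable ℂ Φ) :
    Differentiable ℂ (fun v : VV ι => v.2 i * Φ v) := (jr_coord i).mul h

private theorem jr_zadd (A : ι → ℕ) {Φ Ψ : VV ι → ℂ} (h : Differentiable ℂ Φ)
    (h' : Differentiable ℂ Ψ) :
    iter dz A (fun v => Φ v + Ψ v) = fun v => iter dz A Φ v + iter dz A Ψ v := by
  refine exp_induction (Q := fun A => iter dz A (fun v => Φ v + Ψ v) =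
    fun v => iter dz A Φ v + iter dz A Ψ v) ?_ ?_ A
  · simp only [iter_zero]
  · intro m j ih
    rw [iter_add_single comm_dz m j (jr_diff_add h h'), ih,
      dz_add j (iter_mem comm_dz m h) (iter_mem comm_dz m h'),
      iter_add_single comm_dz m j h, iter_add_single comm_dz m j h']

private theorem jr_wadd (A : ι → ℕ) {Φ Ψ : VV ι → ℂ} (h : Differentiable ℂ Φ)
    (h' : Differentiable ℂ Ψ) :
    iter dw A (fun v => Φ v + Ψ v) = fun v => iter dw A Φ v + iter dw A Ψ v := by
  refine exp_induction (Q := fun A => iter dw A (fun v => Φ v + Ψ v) =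
    fun v => iter dw A Φ v + iter dw A Ψ v) ?_ ?_ A
  · simp only [iter_zero]
  · intro m j ih
    rw [iter_add_single comm_dw m j (jr_diff_add h h'), ih,
      dw_add j (iter_mem comm_dw m h) (iter_mem comm_dw m h'),
      iter_add_single comm_dw m j h, iter_add_single comm_dw m j h']

private theorem jr_zmul (A : ι → ℕ) (c : ℂ) {Φ : VV ι → ℂ} (h : Differentiable ℂ Φ) :
    iter dz A (fun v => c * Φ v) = fun v => c * iter dz A Φ v := by
  refine exp_induction (Q := fun A => iter dz A (fun v => c * Φ v) =
    fun v => c * iter dz A Φ v) ?_ ?_ A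
  · simp only [iter_zero]
  · intro m j ih
    rw [iter_add_single comm_dz m j (jr_diff_cmul c h), ih,
      dz_const_mul j c (iter_mem comm_dz m h), iter_add_single comm_dz m j h]

private theorem jr_wmul (A : ι → ℕ) (c : ℂ) {Φ : VV ι → ℂ} (h : Differentiable ℂ Φ) :
    iter dw A (fun v => c * Φ v) = fun v => c * iter dw A Φ v := by
  refine exp_induction (Q := fun A => iter dw A (fun v => c * Φ v) =
    fun v => c * iter dw A Φ v) ?_ ?_ A
  · simp only [iter_zero]
  · intro m j ih
    rw [iter_add_single comm_dw m j (jr_diff_cmul c h), ih,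
      dw_const_mul j c (iter_mem comm_dw m h), iter_add_single comm_dw m j h]

theorem jet_add {Φ Ψ : VV ι → ℂ} (h : Differentiable ℂ Φ) (h' : Differentiable ℂ Ψ)
    (A B : ι → ℕ) : jet (fun v => Φ v + Ψ v) A B = jet Φ A B + jet Ψ A B := by
  unfold jet
  rw [jr_wadd B h h', jr_zadd A (iter_mem comm_dw B h) (iter_mem comm_dw B h')]

theorem jet_const_mul (c : ℂ) {Φ : VV ι → ℂ} (h : Differentiable ℂ Φ) (A B : ι → ℕ) :
    jet (fun v => c * Φ v) A B = c * jet Φ A B := by
  unfold jet
  rw [jr_wmul B c h, jr_zmul A c (iter_mem comm_dw B h)]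

private theorem jr_jet_zero (A B : ι → ℕ) : jet (fun _ : VV ι => (0 : ℂ)) A B = 0 := by
  have h := jet_const_mul (ι := ι) 0 (Φ := fun _ => (0 : ℂ)) (differentiable_const 0) A B
  simpa only [zero_mul] using h

theorem jet_sum {κ : Type} (s : Finset κ) (Φ : κ → VV ι → ℂ) (h : ∀ k, Differentiable ℂ (Φ k))
    (A B : ι → ℕ) : jet (fun v => ∑ k ∈ s, Φ k v) A B = ∑ k ∈ s, jet (Φ k) A B := by
  classical
  induction s using Finset.induction_on with
  | empty => simp only [Finset.sum_empty, jr_jet_zero]
  | insert k s hk ih =>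
    simp only [Finset.sum_insert hk]
    have hd : Differentiable ℂ (fun v => ∑ k ∈ s, Φ k v) :=
      Differentiable.fun_sum fun i _ => h i
    rw [jet_add (h k) hd, ih]

private theorem jr_dz_coord (i j : ι) {Φ : VV ι → ℂ} (h : Differentiable ℂ Φ) :
    dz j (fun v => v.2 i * Φ v) = fun v => v.2 i * dz j Φ v := by
  rw [dz_mul j (jr_coord i) h, dz_coord_w]
  funext v
  simp only [zero_mul, zero_add]

/-- multiplication by the coordinate `w_i` -/
theorem jet_coord_mul {Φ : VV ι → ℂ} (h : Differentiable ℂ Φ) (A B : ι → ℕ) (i : ι) :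
    jet (fun v => v.2 i * Φ v) A B = if B i = 0 then 0 else B i * jet Φ A (B - Pi.single i 1) := by
  have key : ∀ A : ι → ℕ, ∀ Φ : VV ι → ℂ, Differentiable ℂ Φ →
      jet (fun v => v.2 i * Φ v) A B =
        if B i = 0 then 0 else B i * jet Φ A (B - Pi.single i 1) := by
    intro A
    refine exp_induction (Q := fun A => ∀ Φ : VV ι → ℂ, Differentiable ℂ Φ →
      jet (fun v => v.2 i * Φ v) A B =
        if B i = 0 then 0 else B i * jet Φ A (B - Pi.single i 1)) ?_ ?_ A
    · refine exp_induction (Q := fun B => ∀ Φ : VV ι → ℂ, Differentiable ℂ Φ →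
        jet (fun v => v.2 i * Φ v) 0 B =
          if B i = 0 then 0 else B i * jet Φ 0 (B - Pi.single i 1)) ?_ ?_ B
      · intro Φ _
        rw [jet_zero]
        simp
      · intro B j ih Φ hΦ
        rw [jet_addw (jr_diff_coord i hΦ), dw_mul j (jr_coord i) hΦ, dw_coord_w]
        by_cases hji : j = i
        · subst hji
          have hne : (B + (Pi.single j 1 : ι → ℕ)) j ≠ 0 := by simp
          rw [if_neg hne]
          have h1 : (fun v : VV ι => (if j = j then (1 : ℂ) else 0) * Φ v + v.2 j * dw j Φ v) =
              fun v => Φ v + v.2 j * dw j Φ v := by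
            funext v
            simp only [if_true, one_mul]
          rw [h1, jet_add hΦ (jr_diff_coord j (ent_dw j hΦ)), ih _ (ent_dw j hΦ)]
          have h2 : B + Pi.single j 1 - Pi.single j 1 = B := by
            funext k
            simp
          rw [h2]
          by_cases hB : B j = 0
          · rw [if_pos hB]
            simp [hB]
          · rw [if_neg hB, ← jet_addw hΦ]
            have h3 : B - Pi.single j 1 + Pi.single j 1 = B := by
              funext k
              by_cases hk : k = j
              · subst hk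
                simp only [Pi.add_apply, Pi.sub_apply, Pi.single_eq_same]
                omega
              · simp [Pi.single_eq_of_ne hk]
            rw [h3]
            simp only [Pi.add_apply, Pi.single_eq_same]
            push_cast
            ring
        · have hne : (B + (Pi.single j 1 : ι → ℕ)) i = B i := by
            simp [Pi.single_eq_of_ne (Ne.symm hji)]
          rw [hne]
          have h1 : (fun v : VV ι => (if j = i then (1 : ℂ) else 0) * Φ v + v.2 i * dw j Φ v) =
              fun v => v.2 i * dw j Φ v := by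
            funext v
            rw [if_neg hji]
            ring
          rw [h1, ih _ (ent_dw j hΦ)]
          by_cases hB : B i = 0
          · rw [if_pos hB, if_pos hB]
          · rw [if_neg hB, if_neg hB, ← jet_addw hΦ]
            have h3 : B - Pi.single i 1 + Pi.single j 1 = B + Pi.single j 1 - Pi.single i 1 := by
              funext k
              by_cases hk : k = i
              · subst hk
                simp only [Pi.add_apply, Pi.sub_apply, Pi.single_eq_same]
                rw [Pi.single_eq_of_ne (Ne.symm hji)]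
                omega
              · simp [Pi.single_eq_of_ne hk]
            rw [h3]
    · intro A j ih Φ hΦ
      rw [jet_addz (jr_diff_coord i hΦ), jr_dz_coord i j hΦ, ih _ (ent_dz j hΦ)]
      by_cases hB : B i = 0
      · rw [if_pos hB, if_pos hB]
      · rw [if_neg hB, if_neg hB, ← jet_addz hΦ]
  exact key A Φ h

theorem jet_opA (a : ι → ℝ) {Φ : VV ι → ℂ} (h : Differentiable ℂ Φ) (A B : ι → ℕ) (i : ι) :
    jet (opA a i Φ) A B = jet Φ (A + Pi.single i 1) B -
      (if B i = 0 then 0 else a i * (B i * jet Φ A (B - Pi.single i 1))) := by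
  have h1 : opA a i Φ = fun v => dz i Φ v + (-(a i : ℂ)) * (v.2 i * Φ v) := by
    funext v
    unfold opA
    ring
  rw [h1, jet_add (ent_dz i h) (jr_diff_cmul _ (jr_diff_coord i h)),
    jet_const_mul _ (jr_diff_coord i h), jet_coord_mul h, jet_addz h]
  by_cases hB : B i = 0
  · rw [if_pos hB, if_pos hB]
    ring
  · rw [if_neg hB, if_neg hB]
    ring

theorem jet_fst {s : (ι → ℂ) → ℂ} (h : Differentiable ℂ s) (A B : ι → ℕ) :
    jet (fun v : VV ι => s v.1) A B = if B = 0 then jet (fun v : VV ι => s v.1) A 0 else 0 := by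
  by_cases hB : B = 0
  · rw [if_pos hB, hB]
  · rw [if_neg hB]
    obtain ⟨i, hi⟩ : ∃ i, B i ≠ 0 := by
      by_contra hc
      push Not at hc
      exact hB (funext hc)
    have h3 : B - Pi.single i 1 + Pi.single i 1 = B := by
      funext k
      by_cases hk : k = i
      · subst hk
        simp only [Pi.add_apply, Pi.sub_apply, Pi.single_eq_same]
        omega
      · simp [Pi.single_eq_of_ne hk]
    have hd : Differentiable ℂ (fun v : VV ι => s v.1) := h.comp differentiable_fst
    rw [← h3, jet_addw hd, dw_fst i h, jr_jet_zero]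

end Pool.Agent.RHK
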