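import Pool.Agent.RHK.Jet

/-!
# Project RHK, MV: Cauchy estimates and the Taylor expansion along lines
-/

set_option autoImplicit false

namespace Pool.Agent.RHK

open Complex Finset

variable {ι : Type} [Fintype ι] [DecidableEq ι]

omit [DecidableEq ι] in
private lemma jl_line {Φ : VV ι → ℂ} (h : Differentiable ℂ Φ) (v w : VV ι) (s : ℂ) :
    HasDerivAt (fun t : ℂ => Φ (v + t • w)) (fderiv ℂ Φ (v + s • w) w) s := by
  have h1 : HasDerivAt (fun t : ℂ => v + t • w) w s := by
    simpa using ((hasDerivAt_id s).smul_const w).const_add v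
  exact (h (v + s • w)).hasFDerivAt.comp_hasDerivAt s h1

omit [DecidableEq ι] in
private lemma jl_line_diff {Φ : VV ι → ℂ} (h : Differentiable ℂ Φ) (v w : VV ι) :
    Differentiable ℂ (fun t : ℂ => Φ (v + t • w)) := fun s =>
  (jl_line h v w s).differentiableAt

/-- derivative in the direction `e` -/
private noncomputable def jl_D (e : VV ι) (Φ : VV ι → ℂ) (v : VV ι) : ℂ := fderiv ℂ Φ v e

private lemma jl_D_ent (e : VV ι) {Φ : VV ι → ℂ} (h : Differentiable ℂ Φ) :
    Differentiable ℂ (jl_D e Φ) := ent_fderiv h e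

private lemma jl_iter (e : VV ι) (k : ℕ) : ∀ {Φ : VV ι → ℂ}, Differentiable ℂ Φ → ∀ (v : VV ι) (s : ℂ),
    iteratedDeriv k (fun t : ℂ => Φ (v + t • e)) s = ((jl_D e)^[k] Φ) (v + s • e) := by
  induction k with
  | zero =>
    intro Φ _ v s
    simp
  | succ k ih =>
    intro Φ h v s
    rw [iteratedDeriv_succ', Function.iterate_succ_apply]
    have h1 : deriv (fun t : ℂ => Φ (v + t • e)) = fun t : ℂ => (jl_D e Φ) (v + t • e) := by
      funext t
      exact (jl_line h v e t).deriv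
    rw [h1]
    exact ih (jl_D_ent e h) v s

private lemma jl_cauchy {Φ : VV ι → ℂ} (h : Differentiable ℂ Φ) (e v : VV ι) {r : ℝ} (hr : 0 < r)
    {M : ℝ} (hM : ∀ t : ℂ, ‖t‖ = r → ‖Φ (v + t • e)‖ ≤ M) (k : ℕ) :
    ‖((jl_D e)^[k] Φ) v‖ ≤ k.factorial * M / r ^ k := by
  have h1 := jl_iter e k h v 0
  rw [zero_smul, add_zero] at h1
  rw [← h1]
  refine Complex.norm_iteratedDeriv_le_of_forall_mem_sphere_norm_le k hr
    (jl_line_diff h v e).diffContOnCl ?_
  intro t ht
  rw [mem_sphere_iff_norm, sub_zero] at ht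
  exact hM t ht

private lemma jl_listw {Φ : VV ι → ℂ} (h : Differentiable ℂ Φ) (ρ σ : ι → ℝ)
    (hσ : ∀ i, 0 < σ i) (M : ℝ)
    (hM : ∀ v : VV ι, (∀ i, ‖v.1 i‖ ≤ ρ i) → (∀ i, ‖v.2 i‖ ≤ σ i) → ‖Φ v‖ ≤ M) (B : ι → ℕ)
    (l : List ι) (hl : l.Nodup) :
    Differentiable ℂ (l.foldr (fun i Ψ => (dw i)^[B i] Ψ) Φ) ∧
    ∀ v : VV ι, (∀ i, ‖v.1 i‖ ≤ ρ i) → (∀ i, ‖v.2 i‖ ≤ if i ∈ l then 0 else σ i) →
      ‖(l.foldr (fun i Ψ => (dw i)^[B i] Ψ) Φ) v‖ ≤
        M * (l.map (fun i => ((B i).factorial : ℝ) / σ i ^ B i)).prod := by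
  induction l with
  | nil =>
    refine ⟨h, fun v h1 h2 => ?_⟩
    simp only [List.foldr_nil, List.map_nil, List.prod_nil, mul_one]
    exact hM v h1 (fun i => by simpa using h2 i)
  | cons j l ih =>
    rw [List.nodup_cons] at hl
    obtain ⟨ih1, ih2⟩ := ih hl.2
    have hit : ∀ k : ℕ, Differentiable ℂ ((dw j)^[k] (l.foldr (fun i Ψ => (dw i)^[B i] Ψ) Φ)) := by
      intro k
      induction k with
      | zero => exact ih1
      | succ k ihk =>
        rw [Function.iterate_succ_apply']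
        exact ent_dw j ihk
    refine ⟨hit (B j), fun v h1 h2 => ?_⟩
    rw [List.foldr_cons, List.map_cons, List.prod_cons]
    have hc := jl_cauchy ih1 ((0, Pi.single j 1) : VV ι) v (hσ j)
      (M := M * (l.map (fun i => ((B i).factorial : ℝ) / σ i ^ B i)).prod) ?_ (B j)
    · have hD : (jl_D ((0, Pi.single j 1) : VV ι)) = dw j := rfl
      rw [hD] at hc
      refine hc.trans (le_of_eq ?_)
      ring
    · intro t ht
      refine ih2 _ (fun i => ?_) (fun i => ?_)
      · simpa using h1 i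
      · have h3 := h2 i
        by_cases hij : i = j
        · subst hij
          rw [if_pos List.mem_cons_self] at h3
          have h4 : v.2 i = 0 := by
            rw [← norm_eq_zero]
            exact le_antisymm h3 (norm_nonneg _)
          rw [if_neg hl.1]
          simp [h4, ht]
        · have h5 : (v + t • ((0, Pi.single j 1) : VV ι)).2 i = v.2 i := by
            simp [Pi.single_eq_of_ne hij]
          rw [h5]
          refine h3.trans (le_of_eq ?_)
          by_cases hi : i ∈ l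
          · rw [if_pos hi, if_pos (List.mem_cons_of_mem j hi)]
          · rw [if_neg hi, if_neg]
            rw [List.mem_cons, not_or]
            exact ⟨hij, hi⟩

private lemma jl_listz {Φ : VV ι → ℂ} (h : Differentiable ℂ Φ) (ρ : ι → ℝ)
    (hρ : ∀ i, 0 < ρ i) (M : ℝ)
    (hM : ∀ v : VV ι, (∀ i, ‖v.1 i‖ ≤ ρ i) → v.2 = 0 → ‖Φ v‖ ≤ M) (A : ι → ℕ)
    (l : List ι) (hl : l.Nodup) :
    Differentiable ℂ (l.foldr (fun i Ψ => (dz i)^[A i] Ψ) Φ) ∧
    ∀ v : VV ι, (∀ i, ‖v.1 i‖ ≤ if i ∈ l then 0 else ρ i) → v.2 = 0 →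
      ‖(l.foldr (fun i Ψ => (dz i)^[A i] Ψ) Φ) v‖ ≤
        M * (l.map (fun i => ((A i).factorial : ℝ) / ρ i ^ A i)).prod := by
  induction l with
  | nil =>
    refine ⟨h, fun v h1 h2 => ?_⟩
    simp only [List.foldr_nil, List.map_nil, List.prod_nil, mul_one]
    exact hM v (fun i => by simpa using h1 i) h2
  | cons j l ih =>
    rw [List.nodup_cons] at hl
    obtain ⟨ih1, ih2⟩ := ih hl.2
    have hit : ∀ k : ℕ, Differentiable ℂ ((dz j)^[k] (l.foldr (fun i Ψ => (dz i)^[A i] Ψ) Φ)) := by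
      intro k
      induction k with
      | zero => exact ih1
      | succ k ihk =>
        rw [Function.iterate_succ_apply']
        exact ent_dz j ihk
    refine ⟨hit (A j), fun v h1 h2 => ?_⟩
    rw [List.foldr_cons, List.map_cons, List.prod_cons]
    have hc := jl_cauchy ih1 ((Pi.single j 1, 0) : VV ι) v (hρ j)
      (M := M * (l.map (fun i => ((A i).factorial : ℝ) / ρ i ^ A i)).prod) ?_ (A j)
    · have hD : (jl_D ((Pi.single j 1, 0) : VV ι)) = dz j := rfl
      rw [hD] at hc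
      refine hc.trans (le_of_eq ?_)
      ring
    · intro t ht
      refine ih2 _ (fun i => ?_) ?_
      · have h3 := h1 i
        by_cases hij : i = j
        · subst hij
          rw [if_pos List.mem_cons_self] at h3
          have h4 : v.1 i = 0 := by
            rw [← norm_eq_zero]
            exact le_antisymm h3 (norm_nonneg _)
          rw [if_neg hl.1]
          simp [h4, ht]
        · have h5 : (v + t • ((Pi.single j 1, 0) : VV ι)).1 i = v.1 i := by
            simp [Pi.single_eq_of_ne hij]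
          rw [h5]
          refine h3.trans (le_of_eq ?_)
          by_cases hi : i ∈ l
          · rw [if_pos hi, if_pos (List.mem_cons_of_mem j hi)]
          · rw [if_neg hi, if_neg]
            rw [List.mem_cons, not_or]
            exact ⟨hij, hi⟩
      · simp [h2]

private lemma jl_list_prod (f : ι → ℝ) : ((Finset.univ : Finset ι).toList.map f).prod = ∏ i, f i := by
  rw [Finset.prod_map_toList]

private lemma jl_dir (v : VV ι) :
    v = ∑ i, (v.1 i • ((Pi.single i 1, 0) : VV ι) + v.2 i • ((0, Pi.single i 1) : VV ι)) := by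
  rw [Finset.sum_add_distrib]
  refine Prod.ext ?_ ?_
  · rw [Prod.fst_add, Prod.fst_sum, Prod.fst_sum]
    funext k
    simp [Finset.sum_apply, Pi.single_apply]
  · rw [Prod.snd_add, Prod.snd_sum, Prod.snd_sum]
    funext k
    simp [Finset.sum_apply, Pi.single_apply]

private lemma jl_fderiv {Φ : VV ι → ℂ} (v u : VV ι) :
    fderiv ℂ Φ u v = ∑ i, (v.1 i * dz i Φ u + v.2 i * dw i Φ u) := by
  conv_lhs => rw [jl_dir v]
  rw [map_sum]
  refine Finset.sum_congr rfl fun i _ => ?_
  rw [map_add, map_smul, map_smul, smul_eq_mul, smul_eq_mul]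
  rfl

omit [DecidableEq ι] in
private lemma jl_ray {Φ : VV ι → ℂ} (h : Differentiable ℂ Φ) (v : VV ι) (s : ℂ) :
    HasDerivAt (fun t : ℂ => Φ (t • v)) (fderiv ℂ Φ (s • v) v) s := by
  have h1 := jl_line h 0 v s
  simpa only [zero_add] using h1

omit [DecidableEq ι] in
private lemma jl_ray_diff {Φ : VV ι → ℂ} (h : Differentiable ℂ Φ) (v : VV ι) :
    Differentiable ℂ (fun t : ℂ => Φ (t • v)) := fun s => (jl_ray h v s).differentiableAt

/-- Cauchy's estimate on a polydisc. PLAN. Induction over the exponents is NOT enough; prove for one variable: if `Φ` is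
entire, `|Φ| ≤ M` on the closed polydisc with radii `ρ, σ`, then `((dz i)^[k] Φ)(v)`, with `v` in the closed polydisc with
the radius in the coordinate `z_i` replaced by `0`, is `≤ k! M / ρ_i^k` (`iteratedDeriv` along the line
`t ↦ Φ (v + t e_i)`, Mathlib `Complex.norm_iteratedDeriv_le_of_forall_mem_sphere_norm_le`), then go through the lists of
`iter dw B`, `iter dz A` one coordinate after the other. -/
theorem jet_cauchy {Φ : VV ι → ℂ} (h : Differentiable ℂ Φ) (ρ σ : ι → ℝ) (hρ : ∀ i, 0 < ρ i)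
    (hσ : ∀ i, 0 < σ i) (M : ℝ)
    (hM : ∀ v : VV ι, (∀ i, ‖v.1 i‖ ≤ ρ i) → (∀ i, ‖v.2 i‖ ≤ σ i) → ‖Φ v‖ ≤ M) (A B : ι → ℕ) :
    ‖jet Φ A B‖ ≤ M * (∏ i, ((A i).factorial : ℝ) * ((B i).factorial : ℝ)) /
      (∏ i, ρ i ^ A i * σ i ^ B i) := by
  obtain ⟨w1, w2⟩ := jl_listw h ρ σ hσ M hM B (Finset.univ : Finset ι).toList
    (Finset.nodup_toList _)
  obtain ⟨_, z2⟩ := jl_listz w1 ρ hρ _ (fun v h1 h2 => w2 v h1 (fun i => by
    rw [if_pos (Finset.mem_toList.2 (Finset.mem_univ i)), h2]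
    simp)) A (Finset.univ : Finset ι).toList (Finset.nodup_toList _)
  have h3 := z2 0 (fun i => by
    rw [if_pos (Finset.mem_toList.2 (Finset.mem_univ i))]
    simp) rfl
  rw [jl_list_prod, jl_list_prod] at h3
  refine h3.trans (le_of_eq ?_)
  rw [Finset.prod_div_distrib, Finset.prod_div_distrib, Finset.prod_mul_distrib,
    Finset.prod_mul_distrib]
  have e1 : (∏ i, ρ i ^ A i) ≠ 0 := (Finset.prod_pos fun i _ => pow_pos (hρ i) _).ne'
  have e2 : (∏ i, σ i ^ B i) ≠ 0 := (Finset.prod_pos fun i _ => pow_pos (hσ i) _).ne'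
  field_simp

/-- the `n`-th derivative along a line is a polynomial in the direction whose coefficients are the jets. The sum is over
sequences of `n` coordinate directions. PLAN. Induction on `n` for all `Φ`:
`iteratedDeriv (n+1) (fun t => Φ (t • v)) = iteratedDeriv n (fun t => ∑ i, (v.1 i * dz i Φ (t • v) + v.2 i * dw i Φ (t • v)))`
and linearity. Consequence for `|v.1 i|, |v.2 i| ≤ R`: next theorem. -/
theorem line_bound {Φ : VV ι → ℂ} (h : Differentiable ℂ Φ) (n : ℕ) (v : VV ι) (R E : ℝ)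
    (hR : 0 ≤ R) (h1 : ∀ i, ‖v.1 i‖ ≤ R) (h2 : ∀ i, ‖v.2 i‖ ≤ R)
    (hE : ∀ A B : ι → ℕ, ord A B = n → ‖jet Φ A B‖ ≤ E) :
    ‖iteratedDeriv n (fun t : ℂ => Φ (t • v)) 0‖ ≤ (2 * Fintype.card ι * R) ^ n * E := by
  induction n generalizing Φ with
  | zero =>
    rw [iteratedDeriv_zero, zero_smul, pow_zero, one_mul, ← jet_zero Φ]
    exact hE 0 0 (by simp [ord])
  | succ n ih =>
    rw [iteratedDeriv_succ']
    have h3 : deriv (fun t : ℂ => Φ (t • v)) =
        fun t : ℂ => ∑ i, (v.1 i * dz i Φ (t • v) + v.2 i * dw i Φ (t • v)) := by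
      funext t
      rw [(jl_ray h v t).deriv, jl_fderiv]
    rw [h3]
    have cz : ∀ i, ContDiff ℂ n (fun t : ℂ => dz i Φ (t • v)) := fun i =>
      (jl_ray_diff (ent_dz i h) v).contDiff
    have cw : ∀ i, ContDiff ℂ n (fun t : ℂ => dw i Φ (t • v)) := fun i =>
      (jl_ray_diff (ent_dw i h) v).contDiff
    have h4 : iteratedDeriv n (fun t : ℂ => ∑ i, (v.1 i * dz i Φ (t • v) + v.2 i * dw i Φ (t • v))) 0 =
        ∑ i, (v.1 i * iteratedDeriv n (fun t : ℂ => dz i Φ (t • v)) 0 +
          v.2 i * iteratedDeriv n (fun t : ℂ => dw i Φ (t • v)) 0) := by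
      rw [iteratedDeriv_fun_sum]
      · refine Finset.sum_congr rfl fun i _ => ?_
        rw [iteratedDeriv_fun_add (contDiff_const.mul (cz i)).contDiffAt
          (contDiff_const.mul (cw i)).contDiffAt, iteratedDeriv_const_mul_field,
          iteratedDeriv_const_mul_field]
      · intro i _
        exact ((contDiff_const.mul (cz i)).add (contDiff_const.mul (cw i))).contDiffAt
    rw [h4]
    have b1 : ∀ i, ‖iteratedDeriv n (fun t : ℂ => dz i Φ (t • v)) 0‖ ≤
        (2 * Fintype.card ι * R) ^ n * E := by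
      intro i
      refine ih (ent_dz i h) (fun A B hAB => ?_)
      rw [← jet_addz h]
      refine hE _ _ ?_
      rw [← hAB]
      simp only [ord, Pi.add_apply]
      rw [show (∑ k, (A k + (Pi.single i 1 : ι → ℕ) k + B k)) =
        ∑ k, ((A k + B k) + (Pi.single i 1 : ι → ℕ) k) from
          Finset.sum_congr rfl fun k _ => by ring, Finset.sum_add_distrib]
      simp [Pi.single_apply]
    have b2 : ∀ i, ‖iteratedDeriv n (fun t : ℂ => dw i Φ (t • v)) 0‖ ≤
        (2 * Fintype.card ι * R) ^ n * E := by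
      intro i
      refine ih (ent_dw i h) (fun A B hAB => ?_)
      rw [← jet_addw h]
      refine hE _ _ ?_
      rw [← hAB]
      simp only [ord, Pi.add_apply]
      rw [show (∑ k, (A k + (B k + (Pi.single i 1 : ι → ℕ) k))) =
        ∑ k, ((A k + B k) + (Pi.single i 1 : ι → ℕ) k) from
          Finset.sum_congr rfl fun k _ => by ring, Finset.sum_add_distrib]
      simp [Pi.single_apply]
    calc ‖∑ i, (v.1 i * iteratedDeriv n (fun t : ℂ => dz i Φ (t • v)) 0 +
          v.2 i * iteratedDeriv n (fun t : ℂ => dw i Φ (t • v)) 0)‖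
        ≤ ∑ i : ι, (R * ((2 * Fintype.card ι * R) ^ n * E) +
            R * ((2 * Fintype.card ι * R) ^ n * E)) := by
          refine (norm_sum_le _ _).trans (Finset.sum_le_sum fun i _ => ?_)
          refine (norm_add_le _ _).trans (add_le_add ?_ ?_)
          · rw [norm_mul]
            exact mul_le_mul (h1 i) (b1 i) (norm_nonneg _) hR
          · rw [norm_mul]
            exact mul_le_mul (h2 i) (b2 i) (norm_nonneg _) hR
      _ = (2 * Fintype.card ι * R) ^ (n + 1) * E := by
          rw [Finset.sum_const, Finset.card_univ, nsmul_eq_mul, pow_succ]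
          ring

/-- Schwarz: `Φ` entire, `|Φ| ≤ M` on the points `t • v`, `|t| ≤ q` (`q ≥ 2`), jets of order `< T` at `0` bounded by `E`.
PLAN. One-variable Taylor series of `t ↦ Φ (t • v)` at `t = 1`: terms `< T` by `line_bound`
(`∑_{n<T} (2 g R)^n E / n! ≤ exp (2 g R) E`), terms `≥ T` by Cauchy: `∑_{n ≥ T} M q^{-n} ≤ 2 M q^{-T}`. -/
theorem schwarz_line {Φ : VV ι → ℂ} (h : Differentiable ℂ Φ) (T : ℕ) (v : VV ι) (R E M q : ℝ)
    (hR : 0 ≤ R) (hq : 2 ≤ q) (h1 : ∀ i, ‖v.1 i‖ ≤ R) (h2 : ∀ i, ‖v.2 i‖ ≤ R) (hE0 : 0 ≤ E)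
    (hE : ∀ A B : ι → ℕ, ord A B < T → ‖jet Φ A B‖ ≤ E)
    (hM : ∀ t : ℂ, ‖t‖ ≤ q → ‖Φ (t • v)‖ ≤ M) :
    ‖Φ v‖ ≤ Real.exp (2 * Fintype.card ι * R) * E + 2 * M / q ^ T := by
  have hq0 : 0 < q := by linarith
  have hM0 : 0 ≤ M := (norm_nonneg _).trans (hM 0 (by simpa using hq0.le))
  have hd := jl_ray_diff h v
  set g : ℂ → ℂ := fun t => Φ (t • v) with hg
  set a : ℕ → ℂ := fun n => (n.factorial : ℂ)⁻¹ * iteratedDeriv n g 0 with ha
  have hcau : ∀ n, ‖a n‖ ≤ M / q ^ n := by
    intro n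
    have h3 := Complex.norm_iteratedDeriv_le_of_forall_mem_sphere_norm_le (c := 0) (R := q) n hq0
      (f := g) hd.diffContOnCl (C := M) (by
        intro t ht
        rw [mem_sphere_iff_norm, sub_zero] at ht
        exact hM t ht.le)
    rw [ha]
    simp only [norm_mul, norm_inv, Complex.norm_natCast]
    have h4 : (0 : ℝ) < n.factorial := by exact_mod_cast n.factorial_pos
    calc ((n.factorial : ℝ))⁻¹ * ‖iteratedDeriv n g 0‖ ≤
        ((n.factorial : ℝ))⁻¹ * (n.factorial * M / q ^ n) :=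
          mul_le_mul_of_nonneg_left h3 (by positivity)
      _ = M / q ^ n := by field_simp
  have hqi : q⁻¹ < 1 := inv_lt_one_of_one_lt₀ (by linarith)
  have hqi0 : 0 ≤ q⁻¹ := by positivity
  have hgeo : HasSum (fun n : ℕ => M * q⁻¹ ^ n) (M * (1 - q⁻¹)⁻¹) :=
    (hasSum_geometric_of_lt_one hqi0 hqi).mul_left M
  have hsum : Summable a := by
    refine Summable.of_norm_bounded hgeo.summable (fun n => ?_)
    refine (hcau n).trans (le_of_eq ?_)
    rw [inv_pow, div_eq_mul_inv]
  have hval : ∑' n, a n = Φ v := by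
    have h5 := Complex.taylorSeries_eq_of_entire' (c := 0) (z := 1) hd
    rw [show g 1 = Φ v by rw [hg]; simp] at h5
    rw [← h5]
    refine tsum_congr fun n => ?_
    rw [ha]
    simp
  have hsplit := hsum.sum_add_tsum_nat_add T
  rw [← hval, ← hsplit]
  refine (norm_add_le _ _).trans (add_le_add ?_ ?_)
  · refine (norm_sum_le _ _).trans ?_
    calc ∑ n ∈ Finset.range T, ‖a n‖
        ≤ ∑ n ∈ Finset.range T, ((2 * Fintype.card ι * R) ^ n / n.factorial) * E := by
          refine Finset.sum_le_sum fun n hn => ?_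
          rw [Finset.mem_range] at hn
          have h6 := line_bound h n v R E hR h1 h2 (fun A B hAB => hE A B (by omega))
          rw [ha]
          simp only [norm_mul, norm_inv, Complex.norm_natCast]
          have h4 : (0 : ℝ) < n.factorial := by exact_mod_cast n.factorial_pos
          calc ((n.factorial : ℝ))⁻¹ * ‖iteratedDeriv n g 0‖ ≤
              ((n.factorial : ℝ))⁻¹ * ((2 * Fintype.card ι * R) ^ n * E) :=
                mul_le_mul_of_nonneg_left h6 (by positivity)
            _ = _ := by ring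
      _ = (∑ n ∈ Finset.range T, (2 * Fintype.card ι * R) ^ n / n.factorial) * E := by
          rw [Finset.sum_mul]
      _ ≤ Real.exp (2 * Fintype.card ι * R) * E :=
          mul_le_mul_of_nonneg_right (Real.sum_le_exp_of_nonneg (by positivity) T) hE0
  · have hgeo2 : HasSum (fun n : ℕ => M / q ^ T * q⁻¹ ^ n) (M / q ^ T * (1 - q⁻¹)⁻¹) :=
      (hasSum_geometric_of_lt_one hqi0 hqi).mul_left _
    refine (tsum_of_norm_bounded hgeo2 (fun n => ?_)).trans ?_
    · refine (hcau (n + T)).trans (le_of_eq ?_)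
      rw [inv_pow, pow_add]
      field_simp
    · have h7 : (1 - q⁻¹)⁻¹ ≤ 2 := by
        have h8 : q⁻¹ ≤ 2⁻¹ := inv_anti₀ (by norm_num) hq
        have h9 : (2 : ℝ)⁻¹ ≤ 1 - q⁻¹ := by linarith
        calc (1 - q⁻¹)⁻¹ ≤ ((2 : ℝ)⁻¹)⁻¹ := inv_anti₀ (by norm_num) h9
          _ = 2 := by norm_num
      calc M / q ^ T * (1 - q⁻¹)⁻¹ ≤ M / q ^ T * 2 :=
            mul_le_mul_of_nonneg_left h7 (by positivity)
        _ = 2 * M / q ^ T := by ring

end Pool.Agent.RHK
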