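import Pool.Agent.RHK.Jet

/-!
# Project RHK, MV: Leibniz rule for the jets at `0`

The multi-indices `C ≤ A` are the elements of `Fintype.piFinset (fun i => range (A i + 1))`.
-/

set_option autoImplicit false

namespace Pool.Agent.RHK

open Complex Finset

variable {ι : Type} [Fintype ι] [DecidableEq ι]

/-- the multi-indices `C ≤ A` -/
def below (A : ι → ℕ) : Finset (ι → ℕ) := Fintype.piFinset (fun i => range (A i + 1))

/-- product of binomial coefficients -/
def bin (A C : ι → ℕ) : ℕ := ∏ i, (A i).choose (C i)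

/-- `∑_{C ≤ A} bin A C = 2^|A|` -/
theorem sum_bin (A : ι → ℕ) : ∑ C ∈ below A, bin A C = 2 ^ (∑ i, A i) := by
  unfold below bin
  rw [← Finset.prod_univ_sum]
  simp only [Nat.sum_range_choose]
  exact Finset.prod_pow_eq_pow_sum _ _ _

private theorem mem_below {A C : ι → ℕ} : C ∈ below A ↔ ∀ j, C j ≤ A j := by
  unfold below
  rw [Fintype.mem_piFinset]
  simp only [Finset.mem_range, Nat.lt_succ_iff]

private theorem bin_zero_of_not {A C : ι → ℕ} (h : C ∉ below A) : bin A C = 0 := by
  rw [mem_below] at h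
  push Not at h
  obtain ⟨j, hj⟩ := h
  exact Finset.prod_eq_zero (Finset.mem_univ j) (Nat.choose_eq_zero_of_lt hj)

private theorem bin_pascal (A C : ι → ℕ) (i : ι) : bin (A + Pi.single i 1) C =
    bin A C + if C i = 0 then 0 else bin A (C - Pi.single i 1) := by
  have e (f : ι → ℕ) : ∏ j, f j = f i * ∏ j ∈ Finset.univ.erase i, f j :=
    (Finset.mul_prod_erase Finset.univ f (Finset.mem_univ i)).symm
  have E1 : bin (A + Pi.single i 1) C = ((A + Pi.single i 1 : ι → ℕ) i).choose (C i) *
      ∏ j ∈ Finset.univ.erase i, ((A + Pi.single i 1 : ι → ℕ) j).choose (C j) := e _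
  have E2 : bin A C = (A i).choose (C i) *
      ∏ j ∈ Finset.univ.erase i, (A j).choose (C j) := e _
  have E3 : bin A (C - Pi.single i 1) = (A i).choose ((C - Pi.single i 1 : ι → ℕ) i) *
      ∏ j ∈ Finset.univ.erase i, (A j).choose ((C - Pi.single i 1 : ι → ℕ) j) := e _
  have h1 : ∏ j ∈ Finset.univ.erase i, ((A + Pi.single i 1 : ι → ℕ) j).choose (C j) =
      ∏ j ∈ Finset.univ.erase i, (A j).choose (C j) := by
    refine Finset.prod_congr rfl fun j hj => ?_
    have hji : j ≠ i := Finset.ne_of_mem_erase hj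
    simp [hji]
  have h2 : ∏ j ∈ Finset.univ.erase i, (A j).choose ((C - Pi.single i 1 : ι → ℕ) j) =
      ∏ j ∈ Finset.univ.erase i, (A j).choose (C j) := by
    refine Finset.prod_congr rfl fun j hj => ?_
    have hji : j ≠ i := Finset.ne_of_mem_erase hj
    simp [hji]
  rw [E1, E2, E3, h1, h2]
  simp only [Pi.add_apply, Pi.single_eq_same, Pi.sub_apply]
  split_ifs with h
  · rw [h]
    simp
  · obtain ⟨c, hc⟩ := Nat.exists_eq_succ_of_ne_zero h
    rw [hc, Nat.succ_eq_add_one, Nat.add_sub_cancel, Nat.choose_succ_succ' (A i) c]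
    ring

/-- Pascal's rule for sums over `C ≤ A`. PLAN: `below (A + e_i)` is the product over `i` of ranges; split the `i`-th
factor (`Fintype.piFinset`, `Function.update`) and use `Nat.succ` Pascal rule; or induction. -/
theorem sum_below_succ (A : ι → ℕ) (i : ι) (φ : (ι → ℕ) → (ι → ℕ) → ℂ) :
    ∑ C ∈ below (A + Pi.single i 1), (bin (A + Pi.single i 1) C : ℂ) * φ C (A + Pi.single i 1 - C) =
      ∑ C ∈ below A, (bin A C : ℂ) * φ (C + Pi.single i 1) (A - C) +
      ∑ C ∈ below A, (bin A C : ℂ) * φ C (A - C + Pi.single i 1) := by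
  have hsub : below A ⊆ below (A + Pi.single i 1) := by
    intro C hC
    rw [mem_below] at hC ⊢
    intro j
    exact (hC j).trans (by simp)
  have hinj : Function.Injective (fun D : ι → ℕ => D + Pi.single i 1) :=
    add_left_injective _
  have himg : (below A).image (fun D => D + Pi.single i 1) ⊆ below (A + Pi.single i 1) := by
    intro C hC
    obtain ⟨D, hD, rfl⟩ := Finset.mem_image.1 hC
    rw [mem_below] at hD ⊢
    intro j
    simp only [Pi.add_apply]
    exact Nat.add_le_add_right (hD j) _
  have e1 : ∑ C ∈ below (A + Pi.single i 1), (bin A C : ℂ) * φ C (A + Pi.single i 1 - C) =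
      ∑ C ∈ below A, (bin A C : ℂ) * φ C (A - C + Pi.single i 1) := by
    rw [← Finset.sum_subset hsub (fun C _ hC => by rw [bin_zero_of_not hC]; simp)]
    refine Finset.sum_congr rfl fun C hC => ?_
    rw [mem_below] at hC
    have : A + Pi.single i 1 - C = A - C + Pi.single i 1 := by
      funext j
      simp only [Pi.sub_apply, Pi.add_apply]
      have := hC j
      omega
    rw [this]
  have e2 : ∑ C ∈ below (A + Pi.single i 1),
      ((if C i = 0 then 0 else bin A (C - Pi.single i 1) : ℕ) : ℂ) *
        φ C (A + Pi.single i 1 - C) =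
      ∑ C ∈ below A, (bin A C : ℂ) * φ (C + Pi.single i 1) (A - C) := by
    rw [← Finset.sum_subset himg (fun C hC hC' => by
      split_ifs with h
      · simp
      · exfalso
        apply hC'
        rw [Finset.mem_image]
        refine ⟨C - Pi.single i 1, ?_, ?_⟩
        · rw [mem_below] at hC ⊢
          intro j
          have h3 := hC j
          simp only [Pi.sub_apply, Pi.add_apply] at h3 ⊢
          omega
        · funext j
          simp only [Pi.sub_apply, Pi.add_apply]
          rcases eq_or_ne j i with rfl | hji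
          · simp only [Pi.single_eq_same]
            omega
          · simp [hji])]
    rw [Finset.sum_image (fun a _ b _ hab => hinj hab)]
    refine Finset.sum_congr rfl fun C hC => ?_
    have h4 : (C + Pi.single i 1 : ι → ℕ) i ≠ 0 := by simp
    have h5 : (C + Pi.single i 1 - Pi.single i 1 : ι → ℕ) = C := by
      funext j
      simp
    have h6 : A + Pi.single i 1 - (C + Pi.single i 1) = A - C := by
      funext j
      simp only [Pi.sub_apply, Pi.add_apply]
      omega
    rw [if_neg h4, h5, h6]
  rw [← e1, ← e2, ← Finset.sum_add_distrib]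
  refine Finset.sum_congr rfl fun C _ => ?_
  rw [bin_pascal]
  push_cast
  ring

private theorem below_zero : below (0 : ι → ℕ) = {0} := by
  ext C
  rw [mem_below, Finset.mem_singleton]
  constructor
  · intro h
    funext j
    have := h j
    simpa using this
  · rintro rfl
    intro j
    exact le_refl _

private theorem bin_zero_zero : bin (0 : ι → ℕ) 0 = 1 := by
  simp [bin]

private theorem jet_mul0 (B : ι → ℕ) : ∀ {Φ Ψ : VV ι → ℂ}, Differentiable ℂ Φ →
    Differentiable ℂ Ψ → jet (fun v => Φ v * Ψ v) 0 B =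
      ∑ D ∈ below B, (bin B D : ℂ) * (jet Φ 0 D * jet Ψ 0 (B - D)) := by
  refine exp_induction (Q := fun B => ∀ {Φ Ψ : VV ι → ℂ}, Differentiable ℂ Φ →
    Differentiable ℂ Ψ → jet (fun v => Φ v * Ψ v) 0 B =
      ∑ D ∈ below B, (bin B D : ℂ) * (jet Φ 0 D * jet Ψ 0 (B - D))) ?_ ?_ B
  · intro Φ Ψ _ _
    rw [below_zero, Finset.sum_singleton, bin_zero_zero, jet_zero, jet_zero, tsub_zero, jet_zero]
    simp
  · intro B i ih Φ Ψ h h'
    have hd : Differentiable ℂ (fun v => Φ v * Ψ v) := h.mul h'
    have hi := ent_dw i h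
    have hi' := ent_dw i h'
    have ha : Differentiable ℂ (fun v => dw i Φ v * Ψ v) := hi.mul h'
    have hb : Differentiable ℂ (fun v => Φ v * dw i Ψ v) := h.mul hi'
    rw [jet_addw hd, dw_mul i h h', jet_add ha hb, ih hi h', ih h hi',
      sum_below_succ B i (fun C C' => jet Φ 0 C * jet Ψ 0 C')]
    congr 1
    · refine Finset.sum_congr rfl fun D _ => ?_
      rw [jet_addw h]
    · refine Finset.sum_congr rfl fun D _ => ?_
      rw [jet_addw h']

/-- PLAN. Induction on `A` and `B` (`exp_induction`) for all pairs `(Φ, Ψ)` at the same time: `jet_addz`, `dz_mul`,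
`jet_add`, `sum_below_succ`. -/
theorem jet_mul {Φ Ψ : VV ι → ℂ} (h : Differentiable ℂ Φ) (h' : Differentiable ℂ Ψ)
    (A B : ι → ℕ) : jet (fun v => Φ v * Ψ v) A B =
      ∑ C ∈ below A, ∑ D ∈ below B, (bin A C : ℂ) * (bin B D : ℂ) *
        (jet Φ C D * jet Ψ (A - C) (B - D)) := by
  have key : ∀ {Φ Ψ : VV ι → ℂ}, Differentiable ℂ Φ → Differentiable ℂ Ψ →
      jet (fun v => Φ v * Ψ v) A B = ∑ C ∈ below A, (bin A C : ℂ) *
        ∑ D ∈ below B, (bin B D : ℂ) * (jet Φ C D * jet Ψ (A - C) (B - D)) := by
    refine exp_induction (Q := fun A => ∀ {Φ Ψ : VV ι → ℂ}, Differentiable ℂ Φ →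
      Differentiable ℂ Ψ → jet (fun v => Φ v * Ψ v) A B = ∑ C ∈ below A, (bin A C : ℂ) *
        ∑ D ∈ below B, (bin B D : ℂ) * (jet Φ C D * jet Ψ (A - C) (B - D))) ?_ ?_ A
    · intro Φ Ψ h h'
      rw [below_zero, Finset.sum_singleton, bin_zero_zero, jet_mul0 B h h', tsub_zero]
      simp
    · intro A i ih Φ Ψ h h'
      have hd : Differentiable ℂ (fun v => Φ v * Ψ v) := h.mul h'
      have hi := ent_dz i h
      have hi' := ent_dz i h'
      have ha : Differentiable ℂ (fun v => dz i Φ v * Ψ v) := hi.mul h'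
      have hb : Differentiable ℂ (fun v => Φ v * dz i Ψ v) := h.mul hi'
      rw [jet_addz hd, dz_mul i h h', jet_add ha hb, ih hi h', ih h hi',
        sum_below_succ A i (fun C C' => ∑ D ∈ below B, (bin B D : ℂ) *
          (jet Φ C D * jet Ψ C' (B - D)))]
      congr 1
      · refine Finset.sum_congr rfl fun C _ => ?_
        congr 1
        refine Finset.sum_congr rfl fun D _ => ?_
        rw [jet_addz h]
      · refine Finset.sum_congr rfl fun C _ => ?_
        congr 1
        refine Finset.sum_congr rfl fun D _ => ?_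
        rw [jet_addz h']
  rw [key h h']
  refine Finset.sum_congr rfl fun C _ => ?_
  rw [Finset.mul_sum]
  refine Finset.sum_congr rfl fun D _ => ?_
  ring

end Pool.Agent.RHK
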