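import Pool.Agent.RHK.FSpan

/-!
Project RHK, block FIN, part 4: Rohrlich's question for all tuples with class function of level `D`
when `φ(D)/2` of the numbers `Γ(j/D)/√π` are algebraically independent.
-/

set_option autoImplicit false

namespace Pool.Agent.RHK

open Finset Pool.Agent.Helper99.Rohr Pool.Agent.ROH Pool.Agent.ROH8

/-- the class function `m ↦ ∑ {m a_i}` only depends on `m` modulo `D` -/
def ClassLevel (D M : ℕ) {r : ℕ} (a : Fin r → ℚ) : Prop :=
  ∀ m m' : ℕ, m.Coprime (M * D) → m'.Coprime (M * D) → m ≡ m' [MOD D] →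
    ∑ i, Int.fract ((m : ℚ) * a i) = ∑ i, Int.fract ((m' : ℚ) * a i)

theorem classLevel_of_dvd {D M : ℕ} {r : ℕ} {a : Fin r → ℚ} (h : ∀ i, ∃ z : ℤ, (D : ℚ) * a i = z) :
    ClassLevel D M a := by
  intro m m' _ _ hmm
  exact sum_congr rfl fun i _ => ROH.fract_congr hmm (h i)

theorem saw_neg' {r : ℕ} {a : Fin r → ℚ} {N : ℕ} (hNa : ∀ i, ∃ z : ℤ, (N : ℚ) * a i = z)
    {m m' : ℕ} (hm : m.Coprime N) (h : N ∣ m + m') :
    ∑ i ∈ nonInt a, saw m' (Int.fract (a i)) = -∑ i ∈ nonInt a, saw m (Int.fract (a i)) := by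
  rw [← sum_neg_distrib]
  exact sum_congr rfl fun i hi =>
    saw_neg_pt hm h (isPt_fract (hNa i) (mem_filter.1 hi).2)

theorem exists_neg {N m : ℕ} (hN : 0 < N) (hm : m.Coprime N) : ∃ m' : ℕ, m'.Coprime N ∧ N ∣ m + m' := by
  refine ⟨(m + 1) * N - m, ?_, ?_⟩
  · have hle : m ≤ (m + 1) * N := by nlinarith
    have h1 : Nat.Coprime ((m + 1) * N - m) N ↔ Nat.Coprime m N := by
      rw [Nat.coprime_comm, Nat.coprime_comm (n := m)]
      unfold Nat.Coprime
      have : Nat.gcd N ((m + 1) * N - m) = Nat.gcd N m := by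
        apply Nat.dvd_antisymm
        · refine Nat.dvd_gcd (Nat.gcd_dvd_left _ _) ?_
          have h2 : Nat.gcd N ((m + 1) * N - m) ∣ (m + 1) * N :=
            (Nat.gcd_dvd_left _ _).trans (Dvd.intro_left _ rfl)
          have h3 := Nat.gcd_dvd_right N ((m + 1) * N - m)
          have h4 := Nat.dvd_sub h2 h3
          rwa [Nat.sub_sub_self hle] at h4
        · refine Nat.dvd_gcd (Nat.gcd_dvd_left _ _) ?_
          exact Nat.dvd_sub ((Nat.gcd_dvd_left _ _).trans (Dvd.intro_left _ rfl))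
            (Nat.gcd_dvd_right _ _)
      rw [this]
    exact h1.2 hm
  · have hle : m ≤ (m + 1) * N := by nlinarith
    rw [Nat.add_sub_cancel' hle]
    exact Dvd.intro_left _ rfl

section

variable {D : ℕ} {J : Finset ℕ}

/-- the class function of the non-integral entries in terms of the sawtooth functions of `J` -/
theorem Ind.class_eq (h : Ind D J) (hfull : D.totient ≤ 2 * J.card) {r : ℕ} {a : Fin r → ℚ} {M : ℕ}
    (hM : 0 < M) (hMa : ∀ i, ∃ z : ℤ, (M : ℚ) * a i = z) (hcl : ClassLevel D M a) :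
    ∃ c : ℕ → ℚ, ∀ m : ℕ, m.Coprime (M * D) → ∑ i ∈ nonInt a, saw m (Int.fract (a i)) =
      ∑ j ∈ J, c j * saw m ((j : ℚ) / D) := by
  classical
  have hD := h.two
  have : NeZero D := ⟨by omega⟩
  have hN : 0 < M * D := Nat.mul_pos hM (by omega)
  have hNa : ∀ i, ∃ z : ℤ, ((M * D : ℕ) : ℚ) * a i = z := by
    intro i
    obtain ⟨z, hz⟩ := hMa i
    refine ⟨D * z, ?_⟩
    push_cast
    rw [mul_comm (M : ℚ), mul_assoc, hz]
  set S : ℕ → ℚ := fun m => ∑ i ∈ nonInt a, saw m (Int.fract (a i)) with hS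
  have hScl : ∀ m m' : ℕ, m.Coprime (M * D) → m'.Coprime (M * D) → m ≡ m' [MOD D] → S m = S m' := by
    intro m m' hm hm' hmm
    have h1 := hcl m m' hm hm' hmm
    rw [sum_frac', sum_frac'] at h1
    exact add_right_cancel h1
  -- representatives
  have hrep : ∀ t : (ZMod D)ˣ, ∃ m : ℕ, m.Coprime (M * D) ∧ m ≡ (t : ZMod D).val [MOD D] :=
    fun t => lift_coprime hN (Dvd.intro_left _ rfl) (ZMod.val_coe_unit_coprime t)
  choose R hR1 hR2 using hrep
  set f : (ZMod D)ˣ → ℚ := fun t => S (R t) with hf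
  have hfodd : f ∈ oddW D := by
    intro t
    obtain ⟨m', hm', hdvd⟩ := exists_neg hN (hR1 t)
    have h1 : S m' = -S (R t) := saw_neg' hNa (hR1 t) hdvd
    have h2 : m' ≡ R (-t) [MOD D] := by
      have h3 : D ∣ R t + m' := (Dvd.intro_left _ rfl).trans hdvd
      have h4 := unit_neg_val t
      have h5 : R t + R (-t) ≡ R t + m' [MOD D] := by
        have h6 : R t + R (-t) ≡ (t : ZMod D).val + ((-t : (ZMod D)ˣ) : ZMod D).val [MOD D] :=
          (hR2 t).add (hR2 (-t))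
        have h7 : (t : ZMod D).val + ((-t : (ZMod D)ˣ) : ZMod D).val ≡ 0 [MOD D] :=
          (Nat.modEq_zero_iff_dvd).2 h4
        have h8 : R t + m' ≡ 0 [MOD D] := (Nat.modEq_zero_iff_dvd).2 h3
        exact h6.trans (h7.trans h8.symm)
      exact (Nat.ModEq.add_left_cancel' _ h5).symm
    show S (R (-t)) = -S (R t)
    rw [← hScl m' _ hm' (hR1 _) h2, h1]
  rw [← h.spJ_eq hfull] at hfodd
  obtain ⟨c, hc⟩ := mem_spJ hfodd
  refine ⟨c, fun m hm => ?_⟩
  have hmD : m.Coprime D := hm.coprime_dvd_right (Dvd.intro_left _ rfl)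
  obtain ⟨t, ht⟩ := unit_of hmD
  have h1 := congrFun hc t
  rw [Finset.sum_apply] at h1
  have h2 : m ≡ R t [MOD D] := by
    refine Nat.ModEq.trans ?_ (hR2 t).symm
    rw [← ZMod.natCast_eq_natCast_iff, ZMod.natCast_zmod_val, ht]
  have h3 : S m = f t := hScl m _ hm (hR1 t) h2
  change S m = _
  rw [h3, h1]
  refine sum_congr rfl fun j hj => ?_
  have hj' := h.mem j hj
  rw [Pi.smul_apply, smul_eq_mul, Sf_apply ht (pt_div hj'.1 hj'.2).2.2]

/-- the gamma product -/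
theorem Ind.gamma_iff (h : Ind D J) {r : ℕ} {a : Fin r → ℚ} {M : ℕ} (hM : 0 < M)
    (hMa : ∀ i, ∃ z : ℤ, (M : ℚ) * a i = z) (hnp : ∀ (i : Fin r) (n : ℕ), a i ≠ -(n : ℚ))
    {c : ℕ → ℚ} (hc : ∀ m : ℕ, m.Coprime (M * D) → ∑ i ∈ nonInt a, saw m (Int.fract (a i)) =
      ∑ j ∈ J, c j * saw m ((j : ℚ) / D)) :
    GammaMult a ↔ ∑ j ∈ J, (c j : ℝ) * lg ((j : ℚ) / D) -
      (intCount a : ℝ) / 2 * Real.log Real.pi ∈ LogAlg := by
  have hD := h.two
  have hN : 0 < M * D := Nat.mul_pos hM (by omega)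
  have hNa : ∀ i, ∃ z : ℤ, ((M * D : ℕ) : ℚ) * a i = z := by
    intro i
    obtain ⟨z, hz⟩ := hMa i
    refine ⟨D * z, ?_⟩
    push_cast
    rw [mul_comm (M : ℚ), mul_assoc, hz]
  have hko := tuple_ko' a hN hNa (s := J) (c := c) (y := fun j => (j : ℚ) / D)
    (fun j hj => (pt_div (h.mem j hj).1 (h.mem j hj).2).mono (Dvd.intro_left _ rfl)) hc
  have h2 : 2 ≤ M * D := by nlinarith
  rw [gammaMult_iff ⟨h2, hnp, hNa⟩]
  have e : ∑ i ∈ univ.filter (fun i => Int.fract (a i) ≠ 0), lg (Int.fract (a i)) -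
      (intCount a : ℝ) / 2 * Real.log Real.pi =
      (∑ i ∈ nonInt a, lg (Int.fract (a i)) - ∑ j ∈ J, (c j : ℝ) * lg ((j : ℚ) / D)) +
        (∑ j ∈ J, (c j : ℝ) * lg ((j : ℚ) / D) - (intCount a : ℝ) / 2 * Real.log Real.pi) := by
    unfold nonInt
    ring
  rw [e]
  constructor
  · intro h
    have h1 := LogAlg.sub_mem h hko
    rwa [add_sub_cancel_left] at h1
  · intro h
    exact LogAlg.add_mem hko h

theorem sum_saw_eq (h : Ind D J) {N : ℕ} (hDN : D ∣ N) (hN : 0 < N) {c : ℕ → ℚ}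
    (hc : ∀ m : ℕ, m.Coprime N → ∑ j ∈ J, c j * saw m ((j : ℚ) / D) = 0) : ∀ j ∈ J, c j = 0 := by
  apply h.sawZero
  intro m hm
  obtain ⟨m', hm', hmm⟩ := lift_coprime hN hDN hm
  rw [← hc m' hm']
  refine sum_congr rfl fun j hj => ?_
  rw [saw_congr hmm (pt_div (h.mem j hj).1 (h.mem j hj).2).2.2]

/-- the fractional part identity -/
theorem Ind.frac_iff (h : Ind D J) {r : ℕ} {a : Fin r → ℚ} {M : ℕ} (hM : 0 < M)
    (hMa : ∀ i, ∃ z : ℤ, (M : ℚ) * a i = z)
    {c : ℕ → ℚ} (hc : ∀ m : ℕ, m.Coprime (M * D) → ∑ i ∈ nonInt a, saw m (Int.fract (a i)) =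
      ∑ j ∈ J, c j * saw m ((j : ℚ) / D)) :
    (∀ m : ℕ, 1 ≤ m → m ≤ M → Nat.Coprime m M → ∑ i, Int.fract ((m : ℚ) * a i) = (r : ℚ) / 2) ↔
      (∀ j ∈ J, c j = 0) ∧ intCount a = 0 := by
  have hD := h.two
  have hN : 0 < M * D := Nat.mul_pos hM (by omega)
  have hNa : ∀ i, ∃ z : ℤ, ((M * D : ℕ) : ℚ) * a i = z := by
    intro i
    obtain ⟨z, hz⟩ := hMa i
    refine ⟨D * z, ?_⟩
    push_cast
    rw [mul_comm (M : ℚ), mul_assoc, hz]
  constructor
  · intro hfr
    -- the identity for all `m` prime to `M D`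
    have hm : ∀ m : ℕ, m.Coprime (M * D) → ∑ i ∈ nonInt a, saw m (Int.fract (a i)) =
        (intCount a : ℚ) / 2 := by
      intro m hm
      have hmM : Nat.Coprime m M := hm.coprime_dvd_right (Dvd.intro _ rfl)
      have hm1 : 1 ≤ m := by
        rcases Nat.eq_zero_or_pos m with h0 | h0
        · rw [h0, Nat.coprime_zero_left] at hm
          nlinarith
        · exact h0
      have hk : (m - 1) % M + 1 ≡ m [MOD M] := by
        have h1 : (m - 1) % M ≡ m - 1 [MOD M] := Nat.mod_modEq _ _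
        have h2 := h1.add_right 1
        rwa [Nat.sub_add_cancel hm1] at h2
      have h1 := hfr ((m - 1) % M + 1) (by omega) (by have := Nat.mod_lt (m - 1) hM; omega) (by
        exact hk.gcd_eq.trans hmM)
      rw [sum_congr rfl fun i _ => ROH.fract_congr hk (hMa i), sum_frac'] at h1
      linarith
    have hn : intCount a = 0 := by
      have h1 := hm 1 (Nat.coprime_one_left _)
      obtain ⟨m', hm', hdvd⟩ := exists_neg hN (Nat.coprime_one_left (M * D))
      have h2 := hm m' hm'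
      rw [saw_neg' hNa (Nat.coprime_one_left _) hdvd, h1] at h2
      have h3 : (intCount a : ℚ) = 0 := by linarith
      exact_mod_cast h3
    refine ⟨?_, hn⟩
    apply sum_saw_eq h (Dvd.intro_left _ rfl : D ∣ M * D) hN
    intro m hmc
    rw [← hc m hmc, hm m hmc, hn]
    simp
  · rintro ⟨hc0, hn⟩ m _ _ hmM
    obtain ⟨m', hm', hmm⟩ := lift_coprime hN (Dvd.intro _ rfl : M ∣ M * D) hmM
    rw [← sum_congr rfl fun i _ => ROH.fract_congr hmm (hMa i), sum_frac', hc m' hm', hn]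
    rw [sum_eq_zero fun j hj => by rw [hc0 j hj, zero_mul]]
    push_cast
    ring

theorem log_pi_not {n : ℕ} (hn : 0 < n) (h : -((n : ℝ) / 2 * Real.log Real.pi) ∈ LogAlg) : False := by
  have hG4 : 0 < Real.Gamma (1 / 4) := Real.Gamma_pos_of_pos (by norm_num)
  apply no_pi_rat (div_pos hG4 (Real.sqrt_pos.2 Real.pi_pos)) (trans_div gamma4) 0 n hn
  rw [Rat.cast_zero, zero_mul, zero_sub]
  exact h

/-- **full levels**: at most one line of exceptions, all with integral entries -/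
theorem Ind.line (h : Ind D J) (hfull : D.totient ≤ 2 * J.card) : ∃ U : ℕ → ℚ,
    (∃ m : ℕ, m.Coprime D ∧ U m ≠ 0) ∧ ∀ (r : ℕ) (a : Fin r → ℚ) (M : ℕ), 0 < M →
      (∀ i, ∃ z : ℤ, (M : ℚ) * a i = z) → (∀ (i : Fin r) (n : ℕ), a i ≠ -(n : ℚ)) →
      ClassLevel D M a →
      ¬ (GammaMult a ↔ ∀ m : ℕ, 1 ≤ m → m ≤ M → Nat.Coprime m M →
        ∑ i, Int.fract ((m : ℚ) * a i) = (r : ℚ) / 2) →
      0 < intCount a ∧ ∀ m : ℕ, m.Coprime (M * D) → ∑ i, Int.fract ((m : ℚ) * a i) =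
        ((r : ℚ) - intCount a) / 2 + intCount a * U m := by
  classical
  have hD := h.two
  have : NeZero D := ⟨by omega⟩
  -- a violating tuple
  have viol : ∀ (r : ℕ) (a : Fin r → ℚ) (M : ℕ), 0 < M →
      (∀ i, ∃ z : ℤ, (M : ℚ) * a i = z) → (∀ (i : Fin r) (n : ℕ), a i ≠ -(n : ℚ)) →
      ClassLevel D M a →
      ¬ (GammaMult a ↔ ∀ m : ℕ, 1 ≤ m → m ≤ M → Nat.Coprime m M →
        ∑ i, Int.fract ((m : ℚ) * a i) = (r : ℚ) / 2) → ∃ c : ℕ → ℚ, 0 < intCount a ∧
      (∀ m : ℕ, m.Coprime (M * D) → ∑ i ∈ nonInt a, saw m (Int.fract (a i)) =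
        ∑ j ∈ J, c j * saw m ((j : ℚ) / D)) ∧
      ∑ j ∈ J, (c j : ℝ) * lg ((j : ℚ) / D) - (intCount a : ℝ) / 2 * Real.log Real.pi ∈ LogAlg := by
    intro r a M hM hMa hnp hcl hne
    obtain ⟨c, hc⟩ := h.class_eq hfull hM hMa hcl
    have hg := h.gamma_iff hM hMa hnp hc
    rw [h.frac_iff hM hMa hc] at hne
    have h0 : 0 < intCount a := by
      by_contra h0
      have h0' : intCount a = 0 := Nat.eq_zero_of_not_pos h0
      apply hne
      rw [hg, h0']
      constructor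
      · intro h1
        refine ⟨h.mult ?_, rfl⟩
        have e : ∑ j ∈ J, (c j : ℝ) * lg ((j : ℚ) / D) = ∑ j ∈ J, (c j : ℝ) * lg ((j : ℚ) / D) -
            ((0 : ℕ) : ℝ) / 2 * Real.log Real.pi := by push_cast; ring
        rw [e]
        exact h1
      · rintro ⟨h1, -⟩
        rw [sum_eq_zero fun j hj => by rw [h1 j hj, Rat.cast_zero, zero_mul]]
        have e : (0 : ℝ) - ((0 : ℕ) : ℝ) / 2 * Real.log Real.pi = 0 := by push_cast; ring
        rw [e]
        exact LogAlg.zero_mem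
    refine ⟨c, h0, hc, ?_⟩
    by_contra hG
    apply hne
    rw [hg]
    constructor
    · intro h1
      exact absurd h1 hG
    · rintro ⟨-, h2⟩
      omega
  by_cases hex : ∃ (n : ℕ) (c : ℕ → ℚ), 0 < n ∧
      ∑ j ∈ J, (c j : ℝ) * lg ((j : ℚ) / D) - (n : ℝ) / 2 * Real.log Real.pi ∈ LogAlg
  · obtain ⟨n, c, hn, hcn⟩ := hex
    have hnq : (0 : ℚ) < n := by exact_mod_cast hn
    refine ⟨fun m => ∑ j ∈ J, (c j / n) * saw m ((j : ℚ) / D), ?_, ?_⟩
    · by_contra hcon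
      push Not at hcon
      have h1 := h.sawZero (c := fun j => c j / n) hcon
      have h2 : ∀ j ∈ J, c j = 0 := fun j hj => by
        have := h1 j hj
        simp only [div_eq_zero_iff] at this
        exact this.resolve_right hnq.ne'
      rw [sum_eq_zero fun j hj => by rw [h2 j hj, Rat.cast_zero, zero_mul], zero_sub] at hcn
      exact log_pi_not hn hcn
    · intro r a M hM hMa hnp hcl hne
      obtain ⟨d, h0, hd, hl⟩ := viol r a M hM hMa hnp hcl hne
      refine ⟨h0, fun m hm => ?_⟩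
      set n' := intCount a with hn'
      have h7 := LogAlg_rsmul (n : ℚ) hl
      have h8 := LogAlg_rsmul (n' : ℚ) hcn
      have h9 := LogAlg.sub_mem h7 h8
      have e : ((n : ℚ) : ℝ) * (∑ j ∈ J, (d j : ℝ) * lg ((j : ℚ) / D) -
          (n' : ℝ) / 2 * Real.log Real.pi) - ((n' : ℚ) : ℝ) * (∑ j ∈ J, (c j : ℝ) * lg ((j : ℚ) / D) -
          (n : ℝ) / 2 * Real.log Real.pi) =
          ∑ j ∈ J, ((n * d j - n' * c j : ℚ) : ℝ) * lg ((j : ℚ) / D) := by
        rw [mul_sub, mul_sub, mul_sum, mul_sum]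
        have e1 : ∀ j, ((n * d j - n' * c j : ℚ) : ℝ) * lg ((j : ℚ) / D) =
            ((n : ℚ) : ℝ) * ((d j : ℝ) * lg ((j : ℚ) / D)) -
              ((n' : ℚ) : ℝ) * ((c j : ℝ) * lg ((j : ℚ) / D)) := fun j => by push_cast; ring
        rw [sum_congr rfl fun j _ => e1 j, sum_sub_distrib]
        push_cast
        ring
      rw [e] at h9
      have h10 := h.mult (c := fun j => n * d j - n' * c j) h9
      rw [sum_frac', hd m hm, ← hn', mul_sum, add_comm]
      congr 1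
      refine sum_congr rfl fun j hj => ?_
      have h11 : (n : ℚ) * d j - n' * c j = 0 := h10 j hj
      have h12 : d j = n' * (c j / n) := by
        field_simp
        linarith
      rw [h12]
      ring
  · refine ⟨fun m => 1, ⟨1, Nat.coprime_one_left _, one_ne_zero⟩, ?_⟩
    intro r a M hM hMa hnp hcl hne
    obtain ⟨c, h0, -, hl⟩ := viol r a M hM hMa hnp hcl hne
    exact absurd ⟨_, c, h0, hl⟩ hex

end

end Pool.Agent.RHK
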