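import Pool.Agent.RHK.CritR
import Pool.Agent.RHK.Ifc

/-!
# Project RHK: block CRIT, the theorem `critForm`
-/

set_option autoImplicit false

namespace Pool.Agent.RHK

open MvPolynomial

/-- Elements of the field generated by `T` are algebraic over the ring generated by `T`. -/
private theorem alg_of_mem (T : Set ℂ) (y : ℂ) (hy : y ∈ IntermediateField.adjoin ℚ T) :
    IsAlgebraic (Algebra.adjoin ℤ T) y := by
  have hinj : Function.Injective (algebraMap ℤ (Algebra.adjoin ℤ T)) := by
    intro a b hab
    have h1 := congrArg (fun z : Algebra.adjoin ℤ T => (z : ℂ)) hab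
    simpa using h1
  have hq : ∀ q : ℚ, IsAlgebraic (Algebra.adjoin ℤ T) (q : ℂ) := by
    intro q
    have h1 : IsAlgebraic ℤ ((q : ℚ) : ℂ) := by
      have h2 : IsAlgebraic ℚ ((q : ℚ) : ℂ) := isAlgebraic_algebraMap q
      exact (IsFractionRing.isAlgebraic_iff ℤ ℚ ℂ).2 h2
    exact h1.extendScalars hinj
  induction hy using IntermediateField.adjoin_induction with
  | mem z hz =>
    exact isAlgebraic_algebraMap (⟨z, Algebra.subset_adjoin hz⟩ : Algebra.adjoin ℤ T)
  | algebraMap q => exact hq q
  | add a b _ _ ha hb => exact ha.add hb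
  | inv a _ ha => exact ha.inv
  | mul a b _ _ ha hb => exact ha.mul hb

/-- Algebraic over the field implies algebraic over the ring. -/
private theorem alg_trans (T : Set ℂ) (y : ℂ)
    (hy : IsAlgebraic (IntermediateField.adjoin ℚ T) y) : IsAlgebraic (Algebra.adjoin ℤ T) y := by
  obtain ⟨p, hp0, hp⟩ := hy
  let B : Subalgebra (Algebra.adjoin ℤ T) ℂ := Subalgebra.algebraicClosure (Algebra.adjoin ℤ T) ℂ
  let f : IntermediateField.adjoin ℚ T →+* B :=
    (algebraMap (IntermediateField.adjoin ℚ T) ℂ).codRestrict B (fun z => alg_of_mem T z z.2)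
  have h1 : IsAlgebraic B y := by
    refine ⟨p.map f, ?_, ?_⟩
    · rwa [Polynomial.map_ne_zero_iff f.injective]
    · rw [Polynomial.aeval_def, Polynomial.eval₂_map]
      exact hp
  exact h1.restrictScalars (Algebra.adjoin ℤ T)

/-- Block CRIT. -/
theorem critForm : CritForm := by
  intro m x r e hr h k θ hx
  by_contra hcon
  push Not at hcon
  exact critR x θ (fun j => alg_trans _ _ (hx j)) r hcon e h

end Pool.Agent.RHK
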