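import Pool.Agent.RHK.Ifc

/-!
# Project RHK (MP_c2409d_nt): block PIG, the theorem `pigForm`

Two-sided small values of integer polynomials by the pigeonhole principle (paper
/team-store/rohk_h22.md, section B): a splitting of polynomials into smaller ones, a maximal
separated set of values as box of coefficients, and the estimates of `Est`.
-/

set_option autoImplicit false

namespace Pool.Agent.RHK

open MvPolynomial Finset

/-! ### digits -/

private theorem nat_digits (E a : ℕ) (J : ℕ) :
    a = ∑ j ∈ range J, (a / E ^ j % E) * E ^ j + a / E ^ J * E ^ J := by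
  induction J with
  | zero => simp
  | succ J ih =>
    rw [sum_range_succ]
    have h1 : a / E ^ J * E ^ J = (a / E ^ J % E) * E ^ J + a / E ^ (J + 1) * E ^ (J + 1) := by
      have h2 : a / E ^ (J + 1) = a / E ^ J / E := by
        rw [pow_succ, Nat.div_div_eq_div_mul]
      rw [h2, pow_succ]
      have h3 := Nat.mod_add_div (a / E ^ J) E
      calc a / E ^ J * E ^ J = (a / E ^ J % E + E * (a / E ^ J / E)) * E ^ J := by rw [h3]
        _ = _ := by ring
    rw [add_assoc, ← h1]
    exact ih

/-- signed digits -/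
private def dig (E j : ℕ) (c : ℤ) : ℤ := c.sign * ((c.natAbs / E ^ j % E : ℕ) : ℤ)

private theorem dig_sum (E J : ℕ) (c : ℤ) (hc : c.natAbs < E ^ J) :
    ∑ j : Fin J, ((E : ℤ) ^ (j : ℕ)) * dig E j c = c := by
  have h1 := nat_digits E c.natAbs J
  rw [Nat.div_eq_of_lt hc, zero_mul, add_zero] at h1
  rw [Fin.sum_univ_eq_sum_range (fun j => ((E : ℤ) ^ j) * dig E j c) J]
  unfold dig
  have h2 : (c.natAbs : ℤ) = ∑ j ∈ range J, ((c.natAbs / E ^ j % E : ℕ) : ℤ) * (E : ℤ) ^ j := by
    conv_lhs => rw [h1]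
    push_cast
    rfl
  calc ∑ j ∈ range J, (E : ℤ) ^ j * (c.sign * ((c.natAbs / E ^ j % E : ℕ) : ℤ))
      = c.sign * ∑ j ∈ range J, ((c.natAbs / E ^ j % E : ℕ) : ℤ) * (E : ℤ) ^ j := by
        rw [mul_sum]
        apply sum_congr rfl
        intro j _
        ring
    _ = c.sign * (c.natAbs : ℤ) := by rw [← h2]
    _ = c := Int.sign_mul_natAbs c

private theorem abs_dig_le (E j : ℕ) (hE : 0 < E) (c : ℤ) : |((dig E j c : ℤ) : ℝ)| ≤ E := by
  unfold dig
  rw [Int.cast_mul, abs_mul, Int.cast_natCast]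
  have h1 : |((c.sign : ℤ) : ℝ)| ≤ 1 := by
    rcases lt_trichotomy c 0 with h | h | h
    · rw [Int.sign_eq_neg_one_of_neg h]; norm_num
    · rw [h]; norm_num
    · rw [Int.sign_eq_one_of_pos h]; norm_num
  have h2 : |((c.natAbs / E ^ j % E : ℕ) : ℝ)| ≤ E := by
    have h3 : c.natAbs / E ^ j % E < E := Nat.mod_lt _ hE
    rw [abs_of_nonneg (Nat.cast_nonneg _)]
    exact_mod_cast h3.le
  calc |((c.sign : ℤ) : ℝ)| * |((c.natAbs / E ^ j % E : ℕ) : ℝ)| ≤ 1 * E := by
        apply mul_le_mul h1 h2 (abs_nonneg _) (by norm_num)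
    _ = E := one_mul _

/-! ### splitting -/

private theorem exists_large (m : ℕ) : ∃ N0 : ℝ, ∀ n : ℝ, N0 ≤ n →
    4 * ((m : ℝ) + 1) ≤ n ∧ 6 ≤ n ∧ n ^ m ≤ Real.exp (n / 2) := by
  have h1 := (isLittleO_pow_exp_pos_mul_atTop (k := m) (b := 1 / 2) (by norm_num)).def
    (c := 1) (by norm_num)
  obtain ⟨N1, hN1⟩ := Filter.eventually_atTop.1 h1
  refine ⟨max (max N1 6) (4 * ((m : ℝ) + 1)), fun n hn => ?_⟩
  have h2 : N1 ≤ n := (le_max_left _ _).trans ((le_max_left _ _).trans hn)
  have h3 : 6 ≤ n := (le_max_right _ _).trans ((le_max_left _ _).trans hn)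
  have h4 : 4 * ((m : ℝ) + 1) ≤ n := (le_max_right _ _).trans hn
  refine ⟨h4, h3, ?_⟩
  have h5 := hN1 n h2
  rw [Real.norm_of_nonneg (by positivity), Real.norm_of_nonneg (Real.exp_pos _).le, one_mul] at h5
  have h6 : (1 / 2 : ℝ) * n = n / 2 := by ring
  rw [← h6]
  exact h5

/-- the exponent with the entries `e_i % D` -/
private noncomputable def rho (m D : ℕ) (e : Fin m →₀ ℕ) : Fin m →₀ ℕ :=
  Finsupp.equivFunOnFinite.symm (fun i => e i % D)

/-- the exponent with the entries `D * q_i` -/
private noncomputable def big (m D : ℕ) (q : Fin m → Fin (12 * m + 13)) : Fin m →₀ ℕ :=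
  Finsupp.equivFunOnFinite.symm (fun i => D * (q i : ℕ))

/-- the cell of the exponent `e` -/
private def cell (m D : ℕ) (e : Fin m →₀ ℕ) : Fin m → Fin (12 * m + 13) :=
  fun i => ⟨min (e i / D) (12 * m + 12), by omega⟩

/-- the number of pieces -/
private abbrev SI (m : ℕ) : Type := (Fin m → Fin (12 * m + 13)) × Fin 8

private theorem totalDegree_sum_le {m : ℕ} {ι : Type} (s : Finset ι)
    (f : ι → MvPolynomial (Fin m) ℤ) (d : ℕ) (h : ∀ i ∈ s, (f i).totalDegree ≤ d) :
    (∑ i ∈ s, f i).totalDegree ≤ d :=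
  (MvPolynomial.totalDegree_finsetSum s f).trans (Finset.sup_le h)

private theorem exp_le_degree {m : ℕ} (e : Fin m →₀ ℕ) (i : Fin m) :
    e i ≤ e.sum fun _ n => n := by
  rw [Finsupp.sum_fintype _ _ (fun _ => rfl)]
  exact Finset.single_le_sum (f := fun i => e i) (fun _ _ => Nat.zero_le _) (Finset.mem_univ i)

private theorem split (m : ℕ) : ∃ N0 : ℝ, ∀ n : ℝ, N0 ≤ n →
    ∃ M : SI m → MvPolynomial (Fin m) ℤ, (∀ i, Bd ((6 * m + 4) * n) (M i)) ∧
      ∀ Q : MvPolynomial (Fin m) ℤ, Bd (3 * n) Q →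
        ∃ R : SI m → MvPolynomial (Fin m) ℤ, (∀ i, Bd n (R i)) ∧ Q = ∑ i, M i * R i := by
  classical
  obtain ⟨N0, hN0⟩ := exists_large m
  refine ⟨N0, fun n hn => ?_⟩
  obtain ⟨hn1, hn2, hn3⟩ := hN0 n hn
  set D : ℕ := ⌊n / (2 * ((m : ℝ) + 1))⌋₊ with hD
  set E : ℕ := ⌊Real.exp (n / 2)⌋₊ with hE
  have hm0 : (0 : ℝ) < (m : ℝ) + 1 := by positivity
  have hDle : (D : ℝ) ≤ n / (2 * ((m : ℝ) + 1)) := Nat.floor_le (by positivity)
  have hDge : n / (4 * ((m : ℝ) + 1)) ≤ D := by
    have h1 := Nat.lt_floor_add_one (n / (2 * ((m : ℝ) + 1)))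
    rw [← hD] at h1
    have h2 : 1 ≤ n / (4 * ((m : ℝ) + 1)) := by
      rw [le_div_iff₀ (by positivity)]
      linarith
    have h3 : n / (2 * ((m : ℝ) + 1)) = 2 * (n / (4 * ((m : ℝ) + 1))) := by
      field_simp
      ring
    linarith
  have hDpos : 0 < D := by
    have h2 : 1 ≤ n / (4 * ((m : ℝ) + 1)) := by
      rw [le_div_iff₀ (by positivity)]
      linarith
    have h3 : (1 : ℝ) ≤ D := h2.trans hDge
    exact_mod_cast h3
  have hEle : (E : ℝ) ≤ Real.exp (n / 2) := Nat.floor_le (Real.exp_pos _).le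
  have hEge : Real.exp (n / 2) / 2 ≤ E := by
    have h1 := Nat.lt_floor_add_one (Real.exp (n / 2))
    rw [← hE] at h1
    have h2 : 2 ≤ Real.exp (n / 2) := by
      have := Real.add_one_le_exp (n / 2)
      linarith
    linarith
  have hEpos : 0 < E := by
    have h2 : 2 ≤ Real.exp (n / 2) := by
      have := Real.add_one_le_exp (n / 2)
      linarith
    have h3 : (1 : ℝ) ≤ E := by linarith
    exact_mod_cast h3
  have hmD : (m : ℝ) * D ≤ n / 2 := by
    have h1 : (m : ℝ) * (n / (2 * ((m : ℝ) + 1))) ≤ n / 2 := by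
      rw [mul_div_assoc', div_le_div_iff₀ (by positivity) (by norm_num)]
      nlinarith
    exact (mul_le_mul_of_nonneg_left hDle (by positivity)).trans h1
  have hEj : ∀ j : Fin 8, ((E : ℝ) ^ (j : ℕ)) ≤ Real.exp (4 * n) := by
    intro j
    have hE1 : (1 : ℝ) ≤ E := by exact_mod_cast hEpos
    calc ((E : ℝ) ^ (j : ℕ)) ≤ (E : ℝ) ^ 8 := pow_le_pow_right₀ hE1 (by omega)
      _ ≤ (Real.exp (n / 2)) ^ 8 := pow_le_pow_left₀ (by positivity) hEle 8
      _ = Real.exp (4 * n) := by
        rw [← Real.exp_nat_mul]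
        congr 1
        push_cast
        ring
  have hE8 : Real.exp (3 * n) < (E : ℝ) ^ 8 := by
    have h1 : (Real.exp (n / 2) / 2) ^ 8 ≤ (E : ℝ) ^ 8 :=
      pow_le_pow_left₀ (by positivity) hEge 8
    have h2 : (Real.exp (n / 2) / 2) ^ 8 = Real.exp (3 * n) * (Real.exp n / 256) := by
      rw [div_pow, ← Real.exp_nat_mul]
      have h3 : ((8 : ℕ) : ℝ) * (n / 2) = 3 * n + n := by push_cast; ring
      rw [h3, Real.exp_add]
      ring
    have h4 : 256 < Real.exp n := by
      have h5 : Real.exp 6 ≤ Real.exp n := Real.exp_le_exp.2 hn2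
      have h6 : (256 : ℝ) < Real.exp 6 := by
        have h7 : Real.exp 6 = Real.exp 1 ^ 6 := by
          rw [← Real.exp_nat_mul]
          norm_num
        rw [h7]
        have h8 := Real.exp_one_gt_d9
        have h9 : (2.7 : ℝ) ^ 6 ≤ Real.exp 1 ^ 6 := pow_le_pow_left₀ (by norm_num) (by linarith) 6
        have h10 : (256 : ℝ) < (2.7 : ℝ) ^ 6 := by norm_num
        linarith
      linarith
    have h11 : Real.exp (3 * n) < Real.exp (3 * n) * (Real.exp n / 256) := by
      have h12 : 1 < Real.exp n / 256 := by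
        rw [lt_div_iff₀ (by norm_num)]
        linarith
      exact lt_mul_of_one_lt_right (Real.exp_pos _) h12
    linarith
  refine ⟨fun i => C ((E : ℤ) ^ (i.2 : ℕ)) * monomial (big m D i.1) 1, ?_, ?_⟩
  · rintro ⟨q, j⟩
    have h0 : (C ((E : ℤ) ^ (j : ℕ)) * monomial (big m D q) 1 : MvPolynomial (Fin m) ℤ)
        = monomial (big m D q) ((E : ℤ) ^ (j : ℕ)) := by
      rw [C_mul_monomial, mul_one]
    show Bd ((6 * m + 4) * n) (C ((E : ℤ) ^ (j : ℕ)) * monomial (big m D q) 1)
    rw [h0]
    refine ⟨?_, ?_⟩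
    · have h1 := totalDegree_monomial_le (big m D q) ((E : ℤ) ^ (j : ℕ))
      have h2 : (big m D q).sum (fun _ k => k) = ∑ i, D * (q i : ℕ) :=
        Finsupp.sum_fintype _ _ (fun _ => rfl)
      have h3 : ∑ i, D * (q i : ℕ) ≤ m * (D * (12 * m + 12)) := by
        calc ∑ i, D * (q i : ℕ) ≤ ∑ _i : Fin m, D * (12 * m + 12) := by
              apply sum_le_sum
              intro i _
              exact Nat.mul_le_mul_left _ (by omega)
          _ = m * (D * (12 * m + 12)) := by simp
      have h4 : ((monomial (big m D q) ((E : ℤ) ^ (j : ℕ))).totalDegree : ℝ)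
          ≤ (m : ℝ) * (D * (12 * m + 12)) := by
        have h5 : (monomial (big m D q) ((E : ℤ) ^ (j : ℕ))).totalDegree
            ≤ m * (D * (12 * m + 12)) := by
          rw [← h2] at h3
          exact h1.trans h3
        exact_mod_cast h5
      have h6 : (D : ℝ) * (12 * m + 12) ≤ 6 * n := by
        calc (D : ℝ) * (12 * m + 12) ≤ (n / (2 * ((m : ℝ) + 1))) * (12 * m + 12) := by
              apply mul_le_mul_of_nonneg_right hDle (by positivity)
          _ = 6 * n := by field_simp; ring
      have h7 : (m : ℝ) * (D * (12 * m + 12)) ≤ m * (6 * n) :=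
        mul_le_mul_of_nonneg_left h6 (by positivity)
      nlinarith
    · rw [L1_monomial]
      have h1 : |(((E : ℤ) ^ (j : ℕ) : ℤ) : ℝ)| = (E : ℝ) ^ (j : ℕ) := by
        push_cast
        exact abs_of_nonneg (by positivity)
      rw [h1]
      refine (hEj j).trans (Real.exp_le_exp.2 ?_)
      have : (0 : ℝ) ≤ 6 * m * n := by positivity
      nlinarith
  · intro Q hQ
    have hcell : ∀ e ∈ Q.support, ∀ i, e i / D ≤ 12 * m + 12 := by
      intro e he i
      apply Nat.div_le_of_le_mul
      have h1 : e i ≤ Q.totalDegree := (exp_le_degree e i).trans (le_totalDegree he)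
      have h2 : (e i : ℝ) ≤ 3 * n := by
        have : (e i : ℝ) ≤ Q.totalDegree := by exact_mod_cast h1
        exact this.trans hQ.1
      have h3 : 3 * n ≤ (D : ℝ) * (12 * m + 12) := by
        have h4 : (n / (4 * ((m : ℝ) + 1))) * (12 * m + 12) ≤ (D : ℝ) * (12 * m + 12) :=
          mul_le_mul_of_nonneg_right hDge (by positivity)
        have h5 : (n / (4 * ((m : ℝ) + 1))) * (12 * m + 12) = 3 * n := by
          field_simp
          ring
        linarith
      have h6 : (e i : ℝ) ≤ ((D * (12 * m + 12) : ℕ) : ℝ) := by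
        push_cast
        linarith
      exact_mod_cast h6
    have hadd : ∀ e ∈ Q.support, big m D (cell m D e) + rho m D e = e := by
      intro e he
      ext i
      have h1 := hcell e he i
      have h2 : ((big m D (cell m D e) + rho m D e) i : ℕ)
          = D * (min (e i / D) (12 * m + 12)) + e i % D := rfl
      rw [h2, min_eq_left h1]
      exact Nat.div_add_mod (e i) D
    refine ⟨fun i => ∑ e ∈ Q.support with cell m D e = i.1,
      monomial (rho m D e) (dig E i.2 (Q.coeff e)), ?_, ?_⟩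
    · rintro ⟨q, j⟩
      refine ⟨?_, ?_⟩
      · have h1 : (∑ e ∈ Q.support with cell m D e = q,
            monomial (rho m D e) (dig E j (Q.coeff e))).totalDegree ≤ m * D := by
          apply totalDegree_sum_le
          intro e _
          refine (totalDegree_monomial_le _ _).trans ?_
          rw [Finsupp.sum_fintype _ _ (fun _ => rfl)]
          calc ∑ i, (rho m D e) i ≤ ∑ _i : Fin m, D := by
                apply sum_le_sum
                intro i _
                exact (Nat.mod_lt (e i) hDpos).le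
            _ = m * D := by simp
        have h2 : ((∑ e ∈ Q.support with cell m D e = q,
            monomial (rho m D e) (dig E j (Q.coeff e))).totalDegree : ℝ) ≤ m * D := by
          exact_mod_cast h1
        show ((∑ e ∈ Q.support with cell m D e = q,
            monomial (rho m D e) (dig E j (Q.coeff e))).totalDegree : ℝ) ≤ n
        linarith
      · have hcard : (Q.support.filter (fun e => cell m D e = q)).card ≤ D ^ m := by
          have h1 : (Fintype.piFinset (fun _ : Fin m => range D)).card = D ^ m := by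
            rw [Fintype.card_piFinset]
            simp
          rw [← h1]
          apply Finset.card_le_card_of_injOn (fun e => fun i => e i % D)
          · intro e _
            rw [Finset.mem_coe, Fintype.mem_piFinset]
            intro i
            exact Finset.mem_range.2 (Nat.mod_lt _ hDpos)
          · intro e he e' he' hee
            rw [Finset.mem_coe, Finset.mem_filter] at he he'
            have h2 := hadd e he.1
            have h3 := hadd e' he'.1
            have h4 : rho m D e = rho m D e' := congrArg Finsupp.equivFunOnFinite.symm hee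
            rw [← h2, ← h3, he.2, he'.2, h4]
        show L1 (∑ e ∈ Q.support with cell m D e = q,
            monomial (rho m D e) (dig E j (Q.coeff e))) ≤ Real.exp n
        calc L1 (∑ e ∈ Q.support with cell m D e = q,
              monomial (rho m D e) (dig E j (Q.coeff e)))
            ≤ ∑ e ∈ Q.support with cell m D e = q,
              L1 (monomial (rho m D e) (dig E j (Q.coeff e))) := L1_sum_le _ _
          _ ≤ ∑ e ∈ Q.support with cell m D e = q, (E : ℝ) := by
              apply sum_le_sum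
              intro e _
              rw [L1_monomial]
              exact abs_dig_le E j hEpos _
          _ = ((Q.support.filter (fun e => cell m D e = q)).card : ℝ) * E := by
              rw [sum_const, nsmul_eq_mul]
          _ ≤ ((D ^ m : ℕ) : ℝ) * E := by
              apply mul_le_mul_of_nonneg_right _ (by positivity)
              exact_mod_cast hcard
          _ ≤ n ^ m * Real.exp (n / 2) := by
              push_cast
              apply mul_le_mul _ hEle (by positivity) (by positivity)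
              apply pow_le_pow_left₀ (by positivity)
              refine hDle.trans ?_
              rw [div_le_iff₀ (by positivity)]
              nlinarith
          _ ≤ Real.exp (n / 2) * Real.exp (n / 2) :=
              mul_le_mul_of_nonneg_right hn3 (Real.exp_pos _).le
          _ = Real.exp n := by
              rw [← Real.exp_add]
              congr 1
              ring
    · have h1 : ∀ e ∈ Q.support, ∑ j : Fin 8, ((E : ℤ) ^ (j : ℕ)) * dig E j (Q.coeff e)
          = Q.coeff e := by
        intro e _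
        apply dig_sum
        have h2 : ((Q.coeff e).natAbs : ℝ) < ((E ^ 8 : ℕ) : ℝ) := by
          have h3 := abs_coeff_le Q e
          have h4 : ((Q.coeff e).natAbs : ℝ) = |((Q.coeff e : ℤ) : ℝ)| := by
            rw [Nat.cast_natAbs, Int.cast_abs]
          rw [h4]
          push_cast
          exact (h3.trans hQ.2).trans_lt hE8
        exact_mod_cast h2
      calc Q = ∑ e ∈ Q.support, monomial e (Q.coeff e) := Q.as_sum
        _ = ∑ q, ∑ e ∈ Q.support with cell m D e = q, monomial e (Q.coeff e) :=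
            (Finset.sum_fiberwise _ _ _).symm
        _ = ∑ q, ∑ e ∈ Q.support with cell m D e = q, ∑ j : Fin 8,
              C ((E : ℤ) ^ (j : ℕ)) * monomial (big m D q) 1 *
                monomial (rho m D e) (dig E j (Q.coeff e)) := by
            apply sum_congr rfl
            intro q _
            apply sum_congr rfl
            intro e he
            rw [Finset.mem_filter] at he
            have h2 : ∀ j : Fin 8, (C ((E : ℤ) ^ (j : ℕ)) * monomial (big m D q) 1 *
                monomial (rho m D e) (dig E j (Q.coeff e)) : MvPolynomial (Fin m) ℤ)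
                = monomial e (((E : ℤ) ^ (j : ℕ)) * dig E j (Q.coeff e)) := by
              intro j
              rw [C_mul_monomial, mul_one, monomial_mul]
              have h3 := hadd e he.1
              rw [he.2] at h3
              rw [h3]
            rw [sum_congr rfl (fun j _ => h2 j)]
            have h4 := map_sum (monomial e : ℤ →ₗ[ℤ] MvPolynomial (Fin m) ℤ)
              (fun j : Fin 8 => ((E : ℤ) ^ (j : ℕ)) * dig E j (Q.coeff e)) Finset.univ
            rw [h1 e he.1] at h4
            exact h4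
        _ = ∑ i : SI m, C ((E : ℤ) ^ (i.2 : ℕ)) * monomial (big m D i.1) 1 *
              ∑ e ∈ Q.support with cell m D e = i.1,
                monomial (rho m D e) (dig E i.2 (Q.coeff e)) := by
            rw [Fintype.sum_prod_type]
            apply sum_congr rfl
            intro q _
            rw [Finset.sum_comm]
            apply sum_congr rfl
            intro j _
            rw [mul_sum]

/-! ### the box of coefficients -/

private theorem finite_Bd (m : ℕ) (n : ℝ) :
    {P : MvPolynomial (Fin m) ℤ | Bd n P}.Finite := by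
  classical
  set N : ℕ := ⌊n⌋₊
  set H : ℕ := ⌊Real.exp n⌋₊
  let F : MvPolynomial (Fin m) ℤ → ((Fin m → Fin (N + 1)) → ℤ) :=
    fun P e => P.coeff (Finsupp.equivFunOnFinite.symm (fun i => (e i : ℕ)))
  have hdeg : ∀ P : MvPolynomial (Fin m) ℤ, Bd n P → P.totalDegree ≤ N := by
    intro P hP
    exact Nat.le_floor hP.1
  apply Set.Finite.of_finite_image (f := F)
  · apply Set.Finite.subset (Set.Finite.pi' (fun _ : (Fin m → Fin (N + 1)) =>
      Set.finite_Icc (-(H : ℤ)) H))
    rintro _ ⟨P, hP, rfl⟩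
    intro e
    have h1 := abs_coeff_le P (Finsupp.equivFunOnFinite.symm (fun i => (e i : ℕ)))
    have h2 : |((F P e : ℤ) : ℝ)| ≤ Real.exp n := h1.trans hP.2
    have h3 : ((F P e).natAbs : ℝ) ≤ Real.exp n := by
      rw [Nat.cast_natAbs, Int.cast_abs]
      exact h2
    have h4 : (F P e).natAbs ≤ H := Nat.le_floor h3
    rw [Set.mem_Icc]
    omega
  · intro P hP P' hP' h
    ext e
    by_cases he : ∀ i, e i ≤ N
    · have h1 := congrFun h (fun i => ⟨e i, by have := he i; omega⟩)
      have h2 : (Finsupp.equivFunOnFinite.symm (fun i => e i) : Fin m →₀ ℕ) = e := by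
        ext i; rfl
      have h3 : P.coeff (Finsupp.equivFunOnFinite.symm (fun i => e i)) =
          P'.coeff (Finsupp.equivFunOnFinite.symm (fun i => e i)) := h1
      rwa [h2] at h3
    · push Not at he
      obtain ⟨i, hi⟩ := he
      have h1 : N < e.sum fun _ k => k := lt_of_lt_of_le hi (exp_le_degree e i)
      have h2 : ∀ R : MvPolynomial (Fin m) ℤ, Bd n R → R.coeff e = 0 := by
        intro R hR
        by_contra h3
        have h4 : e ∈ R.support := mem_support_iff.2 h3
        have h5 := le_totalDegree h4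
        have h6 := hdeg R hR
        omega
      rw [h2 P hP, h2 P' hP']

private theorem exists_sep (m : ℕ) (x : Fin m → ℂ) (n δ : ℝ) (hδ : 0 ≤ δ) :
    ∃ Sg : Finset (MvPolynomial (Fin m) ℤ), (∀ P ∈ Sg, Bd n P) ∧
      (∀ P ∈ Sg, ∀ P' ∈ Sg, P ≠ P' → δ < ‖aeval x P - aeval x P'‖) ∧
      ∀ P, Bd n P → ∃ P' ∈ Sg, ‖aeval x P - aeval x P'‖ ≤ δ := by
  classical
  set B : Finset (MvPolynomial (Fin m) ℤ) := (finite_Bd m n).toFinset with hB
  have hmem : ∀ P, P ∈ B ↔ Bd n P := fun P => by
    rw [hB, Set.Finite.mem_toFinset]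
    rfl
  set F := B.powerset.filter (fun T => ∀ P ∈ T, ∀ P' ∈ T, P ≠ P' → δ < ‖aeval x P - aeval x P'‖)
    with hF
  have hne : F.Nonempty := ⟨∅, by
    rw [hF, Finset.mem_filter]
    exact ⟨Finset.empty_mem_powerset _, fun P hP => absurd hP (Finset.notMem_empty P)⟩⟩
  obtain ⟨T, hT, hmax⟩ := F.exists_max_image (fun T => T.card) hne
  rw [hF, Finset.mem_filter, Finset.mem_powerset] at hT
  refine ⟨T, fun P hP => (hmem P).1 (hT.1 hP), hT.2, ?_⟩
  intro P hP
  by_contra hcon
  push Not at hcon
  have hPT : P ∉ T := by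
    intro h
    have h1 := hcon P h
    rw [sub_self, norm_zero] at h1
    linarith
  have h1 : insert P T ∈ F := by
    rw [hF, Finset.mem_filter, Finset.mem_powerset]
    refine ⟨?_, ?_⟩
    · intro R hR
      rcases Finset.mem_insert.1 hR with h2 | h2
      · rw [h2]; exact (hmem _).2 hP
      · exact hT.1 h2
    · intro R hR R' hR' hne
      rcases Finset.mem_insert.1 hR with h2 | h2
      · rcases Finset.mem_insert.1 hR' with h3 | h3
        · exact absurd (h2.trans h3.symm) hne
        · rw [h2]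
          exact hcon R' h3
      · rcases Finset.mem_insert.1 hR' with h3 | h3
        · rw [h3, norm_sub_rev]
          exact hcon R h2
        · exact hT.2 R h2 R' h3 hne
  have h2 := hmax _ h1
  rw [Finset.card_insert_of_notMem hPT] at h2
  omega

private theorem norm_Bd_le {m : ℕ} (x : Fin m → ℂ) : ∃ C0 : ℝ, 1 ≤ C0 ∧
    ∀ (S : ℝ) (P : MvPolynomial (Fin m) ℤ), Bd S P → ‖aeval x P‖ ≤ Real.exp (C0 * S) := by
  obtain ⟨B, hB1, hB⟩ : ∃ B : ℝ, 1 ≤ B ∧ ∀ i, ‖x i‖ ≤ B := by
    refine ⟨1 + ∑ i, ‖x i‖, ?_, fun i => ?_⟩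
    · have : 0 ≤ ∑ i, ‖x i‖ := sum_nonneg (fun _ _ => norm_nonneg _)
      linarith
    · have : ‖x i‖ ≤ ∑ i, ‖x i‖ :=
        single_le_sum (f := fun i => ‖x i‖) (fun _ _ => norm_nonneg _) (mem_univ i)
      linarith
  have hB0 : 0 < B := by linarith
  have hlog : 0 ≤ Real.log B := Real.log_nonneg hB1
  refine ⟨1 + Real.log B, by linarith, fun S P hP => ?_⟩
  have h1 := norm_aeval_le x B hB1 hB P P.totalDegree le_rfl
  have h2 : B ^ P.totalDegree ≤ Real.exp (Real.log B * S) := by
    rw [← Real.exp_log (pow_pos hB0 P.totalDegree), Real.log_pow]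
    apply Real.exp_le_exp.2
    have := mul_le_mul_of_nonneg_left hP.1 hlog
    linarith
  calc ‖aeval x P‖ ≤ L1 P * B ^ P.totalDegree := h1
    _ ≤ Real.exp S * Real.exp (Real.log B * S) :=
        mul_le_mul hP.2 h2 (by positivity) (Real.exp_pos _).le
    _ = Real.exp ((1 + Real.log B) * S) := by
        rw [← Real.exp_add]
        congr 1
        ring

private theorem Bd_zero {m : ℕ} {n : ℝ} (hn : 0 ≤ n) : Bd n (0 : MvPolynomial (Fin m) ℤ) := by
  refine ⟨by simpa using hn, ?_⟩
  rw [L1_zero]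
  exact (Real.exp_pos _).le

private theorem Bd_one {m : ℕ} {n : ℝ} (hn : 0 ≤ n) : Bd n (1 : MvPolynomial (Fin m) ℤ) := by
  refine ⟨by simpa using hn, ?_⟩
  rw [L1_one]
  exact Real.one_le_exp hn

/-- sums of products are in the box of size `3n` -/
private theorem Bd_comb {m : ℕ} {n : ℝ} {κ : Type} [Fintype κ] (p t : κ → MvPolynomial (Fin m) ℤ)
    (hn : 0 ≤ n) (hp : ∀ k, Bd n (p k)) (ht : ∀ k, Bd n (t k))
    (hκ : (Fintype.card κ : ℝ) ≤ Real.exp n) : Bd (3 * n) (∑ k, p k * t k) := by
  have h1 : ∀ k, Bd (n + n) (p k * t k) := fun k => (hp k).mul (ht k)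
  refine ⟨?_, ?_⟩
  · have h2 : (∑ k, p k * t k).totalDegree ≤ ⌊n + n⌋₊ := by
      apply totalDegree_sum_le
      intro k _
      exact Nat.le_floor (h1 k).1
    have h3 : ((∑ k, p k * t k).totalDegree : ℝ) ≤ (⌊n + n⌋₊ : ℝ) := by exact_mod_cast h2
    have h4 : (⌊n + n⌋₊ : ℝ) ≤ n + n := Nat.floor_le (by linarith)
    linarith
  · calc L1 (∑ k, p k * t k) ≤ ∑ k, L1 (p k * t k) := L1_sum_le _ _
      _ ≤ ∑ _k : κ, Real.exp (n + n) := sum_le_sum (fun k _ => (h1 k).2)
      _ = (Fintype.card κ : ℝ) * Real.exp (n + n) := by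
          rw [sum_const, nsmul_eq_mul, card_univ]
      _ ≤ Real.exp n * Real.exp (n + n) := mul_le_mul_of_nonneg_right hκ (Real.exp_pos _).le
      _ = Real.exp (3 * n) := by
          rw [← Real.exp_add]
          congr 1
          ring

private theorem collision {m : ℕ} (x : Fin m → ℂ) : ∃ C1 N0 : ℝ, 1 ≤ C1 ∧ 0 ≤ N0 ∧
    ∀ (n δ : ℝ), N0 ≤ n → 0 ≤ δ → δ < 1 / 2 → ∀ (κ α : Type) [Fintype κ] (small : Finset α)
      (t : α → κ → MvPolynomial (Fin m) ℤ), (∀ A ∈ small, ∀ k, Bd n (t A k)) →
      (Fintype.card κ : ℝ) ≤ Real.exp n → small.card * Fintype.card (SI m) < Fintype.card κ →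
      ∃ p p' : κ → MvPolynomial (Fin m) ℤ, (∀ k, Bd n (p k)) ∧ (∀ k, Bd n (p' k)) ∧
        (∃ k, δ < ‖aeval x (p k) - aeval x (p' k)‖) ∧
        ∀ A ∈ small, ‖∑ k, (aeval x (p k) - aeval x (p' k)) * aeval x (t A k)‖ ≤
          Real.exp (C1 * n) * δ := by
  classical
  obtain ⟨N0, hN0⟩ := split m
  obtain ⟨C0, hC0, hC0'⟩ := norm_Bd_le x
  refine ⟨C0 * (6 * m + 4) + 2 * Fintype.card (SI m), max N0 1, ?_, ?_, ?_⟩
  · have h1 : (0 : ℝ) ≤ 2 * Fintype.card (SI m) := by positivity
    have h2 : (1 : ℝ) ≤ 6 * m + 4 := by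
      have : (0 : ℝ) ≤ m := Nat.cast_nonneg m
      linarith
    nlinarith
  · exact zero_le_one.trans (le_max_right _ _)
  intro n δ hn hδ hδ2 κ α _ small t ht hκ hcard
  have hn0 : N0 ≤ n := (le_max_left _ _).trans hn
  have hn1 : 1 ≤ n := (le_max_right _ _).trans hn
  obtain ⟨M, hM, hsplit⟩ := hN0 n hn0
  choose! R hR hQR using hsplit
  obtain ⟨Sg, hSg, hsep, hcov⟩ := exists_sep m x n δ hδ
  choose! nr hnr hnr' using hcov
  -- at least two elements
  have h2 : 1 < Sg.card := by
    by_contra hcon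
    push Not at hcon
    have h3 := hnr 0 (Bd_zero (by linarith))
    have h4 := hnr 1 (Bd_one (by linarith))
    have h5 : nr 0 = nr 1 := by
      rw [Finset.card_le_one] at hcon
      exact hcon _ h3 _ h4
    have h6 := hnr' 0 (Bd_zero (by linarith))
    have h7 := hnr' 1 (Bd_one (by linarith))
    rw [h5] at h6
    have h8 : ‖(aeval x (1 : MvPolynomial (Fin m) ℤ) : ℂ) - aeval x (0 : MvPolynomial (Fin m) ℤ)‖
        ≤ δ + δ := by
      calc _ = ‖(aeval x (1 : MvPolynomial (Fin m) ℤ) - aeval x (nr 1)) -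
            (aeval x (0 : MvPolynomial (Fin m) ℤ) - aeval x (nr 1))‖ := by congr 1; ring
        _ ≤ _ := norm_sub_le _ _
        _ ≤ δ + δ := add_le_add h7 h6
    rw [map_one, map_zero, sub_zero, norm_one] at h8
    linarith
  have hcomb : ∀ (p : κ → Sg) (A : α), A ∈ small → Bd (3 * n) (∑ k, (p k).1 * t A k) := by
    intro p A hA
    exact Bd_comb _ _ (by linarith) (fun k => hSg _ (p k).2) (ht A hA) hκ
  let Φ : (κ → Sg) → (small × SI m → Sg) := fun p Ai =>
    ⟨nr (R (∑ k, (p k).1 * t Ai.1.1 k) Ai.2),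
      hnr _ (hR _ (hcomb p Ai.1.1 Ai.1.2) Ai.2)⟩
  have hlt : Fintype.card (small × SI m → Sg) < Fintype.card (κ → Sg) := by
    rw [Fintype.card_fun, Fintype.card_fun, Fintype.card_prod, Fintype.card_coe, Fintype.card_coe]
    exact Nat.pow_lt_pow_right h2 hcard
  obtain ⟨p, p', hpp, hΦ⟩ := Fintype.exists_ne_map_eq_of_card_lt Φ hlt
  refine ⟨fun k => (p k).1, fun k => (p' k).1, fun k => hSg _ (p k).2, fun k => hSg _ (p' k).2,
    ?_, ?_⟩
  · by_contra hcon
    push Not at hcon
    apply hpp
    funext k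
    by_contra hk
    have h3 := hsep _ (p k).2 _ (p' k).2 (fun h => hk (Subtype.ext h))
    linarith [hcon k]
  · intro A hA
    set Q := ∑ k, (p k).1 * t A k with hQ
    set Q' := ∑ k, (p' k).1 * t A k with hQ'
    have hb : Bd (3 * n) Q := hcomb p A hA
    have hb' : Bd (3 * n) Q' := hcomb p' A hA
    have e1 : ∑ k, ((aeval x (p k).1 : ℂ) - aeval x (p' k).1) * aeval x (t A k)
        = aeval x Q - aeval x Q' := by
      rw [hQ, hQ', map_sum, map_sum, ← sum_sub_distrib]
      apply sum_congr rfl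
      intro k _
      rw [map_mul, map_mul]
      ring
    have e2 : (aeval x Q : ℂ) - aeval x Q'
        = ∑ i, aeval x (M i) * (aeval x (R Q i) - aeval x (R Q' i)) := by
      conv_lhs => rw [hQR Q hb, hQR Q' hb']
      rw [map_sum, map_sum, ← sum_sub_distrib]
      apply sum_congr rfl
      intro i _
      rw [map_mul, map_mul]
      ring
    show ‖∑ k, ((aeval x (p k).1 : ℂ) - aeval x (p' k).1) * aeval x (t A k)‖ ≤ _
    rw [e1, e2]
    have h3 : ∀ i, ‖(aeval x (M i) : ℂ) * (aeval x (R Q i) - aeval x (R Q' i))‖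
        ≤ Real.exp (C0 * ((6 * m + 4) * n)) * (2 * δ) := by
      intro i
      rw [norm_mul]
      apply mul_le_mul (hC0' _ _ (hM i)) _ (norm_nonneg _) (Real.exp_pos _).le
      have h4 : nr (R Q i) = nr (R Q' i) := by
        have h5 := congrFun hΦ (⟨A, hA⟩, i)
        exact congrArg Subtype.val h5
      have h5 := hnr' _ (hR Q hb i)
      have h6 := hnr' _ (hR Q' hb' i)
      rw [h4] at h5
      calc ‖(aeval x (R Q i) : ℂ) - aeval x (R Q' i)‖
          = ‖((aeval x (R Q i) : ℂ) - aeval x (nr (R Q' i))) -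
            (aeval x (R Q' i) - aeval x (nr (R Q' i)))‖ := by congr 1; ring
        _ ≤ _ := norm_sub_le _ _
        _ ≤ δ + δ := add_le_add h5 h6
        _ = 2 * δ := by ring
    have h7 : (2 * (Fintype.card (SI m) : ℝ)) ≤ Real.exp (2 * Fintype.card (SI m) * n) := by
      have h8 := Real.add_one_le_exp (2 * (Fintype.card (SI m) : ℝ) * n)
      have h9 : (2 * (Fintype.card (SI m) : ℝ)) ≤ 2 * (Fintype.card (SI m) : ℝ) * n := by
        have : (0 : ℝ) ≤ 2 * (Fintype.card (SI m) : ℝ) := by positivity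
        nlinarith
      linarith
    calc ‖∑ i, (aeval x (M i) : ℂ) * (aeval x (R Q i) - aeval x (R Q' i))‖
        ≤ ∑ i, ‖(aeval x (M i) : ℂ) * (aeval x (R Q i) - aeval x (R Q' i))‖ := norm_sum_le _ _
      _ ≤ ∑ _i : SI m, Real.exp (C0 * ((6 * m + 4) * n)) * (2 * δ) := sum_le_sum (fun i _ => h3 i)
      _ = (2 * (Fintype.card (SI m) : ℝ)) * (Real.exp (C0 * ((6 * m + 4) * n)) * δ) := by
          rw [sum_const, nsmul_eq_mul, card_univ]
          ring
      _ ≤ Real.exp (2 * Fintype.card (SI m) * n) * (Real.exp (C0 * ((6 * m + 4) * n)) * δ) :=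
          mul_le_mul_of_nonneg_right h7 (by positivity)
      _ = Real.exp ((C0 * (6 * m + 4) + 2 * Fintype.card (SI m)) * n) * δ := by
          rw [← mul_assoc, ← Real.exp_add]
          congr 2
          ring

private theorem ev_large (r C0 C1 N0 : ℝ) (e : ℕ) (hr : 1 < r) (hC0 : 1 ≤ C0) :
    ∃ K0 : ℕ, ∀ K : ℕ, K0 ≤ K → 3 ≤ Real.log K ∧
      2 * (C0 + 2) * Real.log K ^ (2 * e) ≤ (K : ℝ) ^ (r - 1) ∧ C1 + 1 ≤ (K : ℝ) ^ (r - 1) ∧
      N0 ≤ K ∧ 1 ≤ (K : ℝ) := by
  have hr1 : 0 < r - 1 := by linarith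
  have t1 : Filter.Tendsto (fun K : ℕ => (K : ℝ)) Filter.atTop Filter.atTop :=
    tendsto_natCast_atTop_atTop
  have t2 : Filter.Tendsto (fun K : ℕ => Real.log (K : ℝ)) Filter.atTop Filter.atTop :=
    Real.tendsto_log_atTop.comp t1
  have t3 : Filter.Tendsto (fun K : ℕ => (K : ℝ) ^ (r - 1)) Filter.atTop Filter.atTop :=
    (tendsto_rpow_atTop hr1).comp t1
  have h1 := (isLittleO_log_rpow_rpow_atTop ((2 * e : ℕ) : ℝ) hr1).def
    (c := 1 / (2 * (C0 + 2))) (by positivity)
  have h2 := t1.eventually h1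
  have h3 := ((((t2.eventually_ge_atTop 3).and h2).and (t3.eventually_ge_atTop (C1 + 1))).and
    (t1.eventually_ge_atTop N0)).and (t1.eventually_ge_atTop 1)
  obtain ⟨K0, hK0⟩ := Filter.eventually_atTop.1 h3
  refine ⟨K0, fun K hK => ?_⟩
  obtain ⟨⟨⟨⟨h4, h5⟩, h6⟩, h7⟩, h8⟩ := hK0 K hK
  refine ⟨h4, ?_, h6, h7, h8⟩
  rw [Real.rpow_natCast] at h5
  have h9 : 0 ≤ Real.log (K : ℝ) := by linarith
  rw [Real.norm_of_nonneg (by positivity), Real.norm_of_nonneg (by positivity)] at h5
  have h10 : 0 < 2 * (C0 + 2) := by linarith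
  rw [div_mul_eq_mul_div, one_mul, le_div_iff₀ h10] at h5
  linarith

/-- block PIG -/
theorem pigForm : PigForm := by
  classical
  intro m x r e hr hE
  obtain ⟨C1, N0, hC1, hN0, hcol⟩ := collision x
  obtain ⟨C0, hC0, hC0'⟩ := norm_Bd_le x
  obtain ⟨K1, hK1⟩ := hE (1 / ((Fintype.card (SI m) : ℝ) + 1)) (by positivity)
  obtain ⟨K2, hK2⟩ := ev_large r C0 C1 N0 e hr hC0
  refine ⟨e + 2, max K1 K2, fun K hK => ?_⟩
  obtain ⟨κ, α, _, small, all, t, S, hsa, hsm, hκ0, hκ, ht, hS⟩ :=
    hK1 K ((le_max_left _ _).trans hK)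
  obtain ⟨hL3, hLr, hCr, hKN, hKge⟩ := hK2 K ((le_max_right _ _).trans hK)
  set L : ℝ := Real.log K with hL
  set n : ℝ := K * L ^ e with hn
  set G : ℝ := (K : ℝ) ^ r with hG
  have hKpos : (0 : ℝ) < K := by linarith
  have hLe1 : 1 ≤ L ^ e := one_le_pow₀ (by linarith)
  have hLe0 : 0 < L ^ e := by linarith
  have hnK : (K : ℝ) ≤ n := by
    rw [hn]
    nlinarith
  have hn1 : 1 ≤ n := hKge.trans hnK
  have hGK : G = K * (K : ℝ) ^ (r - 1) := by
    rw [hG, Real.rpow_sub_one hKpos.ne']
    field_simp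
  have hG0 : 0 < G := Real.rpow_pos_of_pos hKpos r
  -- consequences
  have hnG : (C1 + 1) * n ≤ G * L ^ e := by
    rw [hn, hGK]
    have h1 : (C1 + 1) * K ≤ K * (K : ℝ) ^ (r - 1) := by
      rw [mul_comm]
      exact mul_le_mul_of_nonneg_left hCr hKpos.le
    calc (C1 + 1) * (K * L ^ e) = ((C1 + 1) * K) * L ^ e := by ring
      _ ≤ _ := mul_le_mul_of_nonneg_right h1 hLe0.le
  have hnG2 : 2 * (C0 + 2) * n ≤ G / L ^ e := by
    rw [le_div_iff₀ hLe0, hn, hGK]
    calc 2 * (C0 + 2) * (K * L ^ e) * L ^ e = K * (2 * (C0 + 2) * L ^ (2 * e)) := by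
          rw [two_mul e, pow_add]
          ring
      _ ≤ K * (K : ℝ) ^ (r - 1) := mul_le_mul_of_nonneg_left hLr hKpos.le
  have hL2 : L ^ (e + 2) = L ^ e * L ^ 2 := pow_add _ _ _
  have hL1 : L ^ (e + 1) = L ^ e * L := pow_succ _ _
  have hLL : 9 ≤ L ^ 2 := by nlinarith
  have hGL : G / L ^ (e + 2) ≤ (G / L ^ e) / 9 := by
    rw [hL2, ← div_div]
    exact div_le_div_of_nonneg_left (by positivity) (by norm_num) hLL
  have hGL0 : 0 < G / L ^ e := by positivity
  have hGLe : G / L ^ (e + 2) ≤ G * L ^ e := by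
    have h1 : G / L ^ e ≤ G := div_le_self hG0.le hLe1
    have h2 : G ≤ G * L ^ e := by nlinarith
    linarith
  set δ : ℝ := Real.exp (-(G * L ^ (e + 1))) with hδ
  have hGL1 : 1 ≤ G * L ^ (e + 1) := by
    rw [hL1]
    have h1 : n ≤ G * L ^ e := by nlinarith
    nlinarith
  have hδ2 : δ < 1 / 2 := by
    have h1 : δ ≤ Real.exp (-1) := Real.exp_le_exp.2 (by linarith)
    have h2 : Real.exp (-1) < 1 / 2 := by
      rw [Real.exp_neg, inv_lt_comm₀ (Real.exp_pos _) (by norm_num)]
      have := Real.exp_one_gt_d9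
      norm_num
      linarith
    linarith
  have hcard : small.card * Fintype.card (SI m) < Fintype.card κ := by
    have h1 : (0 : ℝ) < Fintype.card κ := by exact_mod_cast hκ0
    have h2 : (small.card : ℝ) * Fintype.card (SI m) < Fintype.card κ := by
      have h3 : (small.card : ℝ) * ((Fintype.card (SI m) : ℝ) + 1) ≤ Fintype.card κ := by
        rw [one_div, inv_mul_eq_div, le_div_iff₀ (by positivity)] at hsm
        exact hsm
      rcases Nat.eq_zero_or_pos (small.card) with h0 | h0
      · rw [h0]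
        simpa using h1
      · have h4 : (0 : ℝ) < small.card := by exact_mod_cast h0
        nlinarith
    exact_mod_cast h2
  obtain ⟨p, p', hp, hp', ⟨k0, hk0⟩, hξ⟩ := hcol n δ (hKN.trans hnK) (Real.exp_pos _).le hδ2 κ α
    small t (fun A hA k => ht A (hsa hA) k) hκ hcard
  set q : κ → ℂ := fun k => aeval x (p k) - aeval x (p' k) with hq
  obtain ⟨hU1, hU2, hLow, hE1, A, hA, hE2⟩ := hS q
  have hqB : ∀ k, ‖q k‖ ≤ Real.exp ((C0 + 1) * n) := by
    intro k
    have h1 := hC0' n (p k) (hp k)
    have h2 := hC0' n (p' k) (hp' k)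
    have h3 : ‖q k‖ ≤ 2 * Real.exp (C0 * n) := by
      calc ‖q k‖ ≤ _ := norm_sub_le _ _
        _ ≤ Real.exp (C0 * n) + Real.exp (C0 * n) := add_le_add h1 h2
        _ = 2 * Real.exp (C0 * n) := by ring
    have h4 : (2 : ℝ) ≤ Real.exp n := by
      have := Real.add_one_le_exp n
      linarith
    calc ‖q k‖ ≤ 2 * Real.exp (C0 * n) := h3
      _ ≤ Real.exp n * Real.exp (C0 * n) := mul_le_mul_of_nonneg_right h4 (Real.exp_pos _).le
      _ = Real.exp ((C0 + 1) * n) := by
          rw [← Real.exp_add]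
          congr 1
          ring
  by_cases hcase : ∀ k, ‖q k‖ ≤ Real.exp (-(G / L ^ (e + 2)))
  · refine ⟨p k0 - p' k0, ?_, ?_, ?_⟩
    · have h1 : Bd (n + 1) (p k0 - p' k0) := by
        refine ⟨?_, ?_⟩
        · have h2 := totalDegree_sub (p k0) (p' k0)
          have h3 : ((p k0 - p' k0).totalDegree : ℝ) ≤ n := by
            have h4 : ((p k0 - p' k0).totalDegree : ℝ) ≤
                max ((p k0).totalDegree : ℝ) ((p' k0).totalDegree : ℝ) := by exact_mod_cast h2
            exact h4.trans (max_le (hp k0).1 (hp' k0).1)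
          linarith
        · have h2 : (2 : ℝ) ≤ Real.exp 1 := by
            have := Real.add_one_le_exp (1 : ℝ)
            linarith
          calc L1 (p k0 - p' k0) ≤ L1 (p k0) + L1 (p' k0) := L1_sub_le _ _
            _ ≤ Real.exp n + Real.exp n := add_le_add (hp k0).2 (hp' k0).2
            _ = 2 * Real.exp n := by ring
            _ ≤ Real.exp 1 * Real.exp n := mul_le_mul_of_nonneg_right h2 (Real.exp_pos _).le
            _ = Real.exp (n + 1) := by
                rw [← Real.exp_add, add_comm]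
      apply h1.mono
      rw [hL2]
      have h2 : (K : ℝ) * (L ^ e * L ^ 2) = n * L ^ 2 := by rw [hn]; ring
      rw [h2]
      nlinarith
    · rw [map_sub]
      refine le_trans ?_ hk0.le
      rw [hδ]
      apply Real.exp_le_exp.2
      rw [hL1, hL2]
      have h1 : G * (L ^ e * L) ≤ G * (L ^ e * L ^ 2) := by
        apply mul_le_mul_of_nonneg_left _ hG0.le
        apply mul_le_mul_of_nonneg_left _ hLe0.le
        nlinarith
      linarith
    · rw [map_sub]
      exact hcase k0
  · push Not at hcase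
    obtain ⟨k1, hk1⟩ := hcase
    have hSge : Real.exp (-(2 * (G * L ^ e))) ≤ S q := by
      have h1 := hLow k1
      have h2 : Real.exp (-(G / L ^ (e + 2))) ≤ Real.exp (G * L ^ e) * S q := hk1.le.trans h1
      have h3 : Real.exp (-(G * L ^ e)) * Real.exp (-(G / L ^ (e + 2))) ≤ S q := by
        calc Real.exp (-(G * L ^ e)) * Real.exp (-(G / L ^ (e + 2)))
            ≤ Real.exp (-(G * L ^ e)) * (Real.exp (G * L ^ e) * S q) :=
              mul_le_mul_of_nonneg_left h2 (Real.exp_pos _).le
          _ = S q := by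
              rw [← mul_assoc, ← Real.exp_add]
              simp
      refine le_trans ?_ h3
      rw [← Real.exp_add]
      apply Real.exp_le_exp.2
      linarith
    have hSup : S q ≤ Real.exp ((C0 + 1) * n) * Real.exp (-(G / L ^ e)) := by
      apply hE1 _ hqB
      intro A hA
      refine (hξ A hA).trans ?_
      calc Real.exp (C1 * n) * δ ≤ Real.exp (-n) * Real.exp (-(2 * (G * L ^ e))) := by
            rw [hδ, ← Real.exp_add, ← Real.exp_add]
            apply Real.exp_le_exp.2
            rw [hL1]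
            have h1 : 3 * (G * L ^ e) ≤ G * (L ^ e * L) := by
              have h2 : G * (L ^ e * L) = (G * L ^ e) * L := by ring
              rw [h2, mul_comm]
              exact mul_le_mul_of_nonneg_left hL3 (by positivity)
            linarith
        _ ≤ Real.exp (-n) * S q := mul_le_mul_of_nonneg_left hSge (Real.exp_pos _).le
    refine ⟨∑ k, p k * t A k - ∑ k, p' k * t A k, ?_, ?_, ?_⟩
    · have hb := Bd_comb p (t A) (by linarith) hp (ht A hA) hκ
      have hb' := Bd_comb p' (t A) (by linarith) hp' (ht A hA) hκ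
      have h1 : Bd (3 * n + 1) (∑ k, p k * t A k - ∑ k, p' k * t A k) := by
        refine ⟨?_, ?_⟩
        · have h2 := totalDegree_sub (∑ k, p k * t A k) (∑ k, p' k * t A k)
          have h4 : ((∑ k, p k * t A k - ∑ k, p' k * t A k).totalDegree : ℝ) ≤
              max ((∑ k, p k * t A k).totalDegree : ℝ) ((∑ k, p' k * t A k).totalDegree : ℝ) := by
            exact_mod_cast h2
          have h5 := h4.trans (max_le hb.1 hb'.1)
          linarith
        · have h2 : (2 : ℝ) ≤ Real.exp 1 := by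
            have := Real.add_one_le_exp (1 : ℝ)
            linarith
          calc L1 (∑ k, p k * t A k - ∑ k, p' k * t A k)
              ≤ L1 (∑ k, p k * t A k) + L1 (∑ k, p' k * t A k) := L1_sub_le _ _
            _ ≤ Real.exp (3 * n) + Real.exp (3 * n) := add_le_add hb.2 hb'.2
            _ = 2 * Real.exp (3 * n) := by ring
            _ ≤ Real.exp 1 * Real.exp (3 * n) :=
                mul_le_mul_of_nonneg_right h2 (Real.exp_pos _).le
            _ = Real.exp (3 * n + 1) := by
                rw [← Real.exp_add, add_comm]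
      apply h1.mono
      rw [hL2]
      have h2 : (K : ℝ) * (L ^ e * L ^ 2) = n * L ^ 2 := by rw [hn]; ring
      rw [h2]
      nlinarith
    · have h1 : (aeval x (∑ k, p k * t A k - ∑ k, p' k * t A k) : ℂ)
          = ∑ k, q k * aeval x (t A k) := by
        rw [map_sub, map_sum, map_sum, ← sum_sub_distrib]
        apply sum_congr rfl
        intro k _
        rw [map_mul, map_mul, hq]
        ring
      rw [h1]
      refine le_trans ?_ hE2
      calc Real.exp (-(G * L ^ (e + 2))) ≤ Real.exp (-n) * Real.exp (-(2 * (G * L ^ e))) := by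
            rw [← Real.exp_add]
            apply Real.exp_le_exp.2
            rw [hL2]
            have h2 : n ≤ G * L ^ e := by nlinarith
            have h3 : 9 * (G * L ^ e) ≤ G * (L ^ e * L ^ 2) := by
              have h4 : G * (L ^ e * L ^ 2) = (G * L ^ e) * L ^ 2 := by ring
              rw [h4, mul_comm]
              exact mul_le_mul_of_nonneg_left hLL (by positivity)
            have h5 : 0 < G * L ^ e := by positivity
            linarith
        _ ≤ Real.exp (-n) * S q := mul_le_mul_of_nonneg_left hSge (Real.exp_pos _).le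
    · have h1 : (aeval x (∑ k, p k * t A k - ∑ k, p' k * t A k) : ℂ)
          = ∑ k, q k * aeval x (t A k) := by
        rw [map_sub, map_sum, map_sum, ← sum_sub_distrib]
        apply sum_congr rfl
        intro k _
        rw [map_mul, map_mul, hq]
        ring
      rw [h1]
      calc ‖∑ k, q k * aeval x (t A k)‖ ≤ Real.exp n * S q := hU2 A hA
        _ ≤ Real.exp n * (Real.exp ((C0 + 1) * n) * Real.exp (-(G / L ^ e))) :=
            mul_le_mul_of_nonneg_left hSup (Real.exp_pos _).le
        _ ≤ Real.exp (-(G / L ^ (e + 2))) := by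
            rw [← Real.exp_add, ← Real.exp_add]
            apply Real.exp_le_exp.2
            nlinarith

end Pool.Agent.RHK
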