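import Pool.Agent.RHK.FOdd

/-!
Project RHK, block FIN, part 3: the level `D` with algebraically independent numbers
`Γ(j/D)/√π`, `j ∈ J`.
-/

set_option autoImplicit false

namespace Pool.Agent.RHK

open Finset Pool.Agent.Helper99.Rohr Pool.Agent.ROH Pool.Agent.ROH8

/-- algebraically independent normalised gamma values of level `D` -/
structure Ind (D : ℕ) (J : Finset ℕ) : Prop where
  two : 2 < D
  mem : ∀ j ∈ J, 0 < j ∧ j < D
  ind : AlgebraicIndependent ℚ (fun j : J => Real.Gamma ((j : ℕ) / D) / Real.sqrt Real.pi)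

section

variable {D : ℕ} {J : Finset ℕ}

theorem pt_div {D j : ℕ} (h0 : 0 < j) (h1 : j < D) : IsPt D ((j : ℚ) / D) := by
  have hD : (0 : ℚ) < D := by
    have : 0 < D := by omega
    exact_mod_cast this
  have hj : (0 : ℚ) < j := by exact_mod_cast h0
  refine ⟨by positivity, ?_, j, ?_⟩
  · rw [div_lt_one hD]
    exact_mod_cast h1
  · rw [mul_div_cancel₀ _ hD.ne']
    simp

theorem lg_div {D j : ℕ} (h0 : 0 < j) (h1 : j < D) :
    lg ((j : ℚ) / D) = Real.log (Real.Gamma (j / D) / Real.sqrt Real.pi) := by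
  have hD : (0 : ℝ) < D := by
    have : 0 < D := by omega
    exact_mod_cast this
  have hj : (0 : ℝ) < j := by exact_mod_cast h0
  unfold lg
  push_cast
  rw [Real.log_div (Real.Gamma_pos_of_pos (by positivity)).ne' (Real.sqrt_pos.2 Real.pi_pos).ne',
    Real.log_sqrt Real.pi_pos.le]

theorem Ind.mult (h : Ind D J) {c : ℕ → ℚ} (hc : ∑ j ∈ J, (c j : ℝ) * lg ((j : ℚ) / D) ∈ LogAlg) :
    ∀ j ∈ J, c j = 0 := by
  have hpos : ∀ j : J, 0 < Real.Gamma ((j : ℕ) / D) / Real.sqrt Real.pi := by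
    intro j
    have hj := h.mem j j.2
    have h1 : (0 : ℝ) < ((j : ℕ) : ℝ) := by exact_mod_cast hj.1
    have h2 : (0 : ℝ) < D := by
      have : 0 < D := by omega
      exact_mod_cast this
    exact div_pos (Real.Gamma_pos_of_pos (by positivity)) (Real.sqrt_pos.2 Real.pi_pos)
  have h1 := mult_ind_fam hpos h.ind (c := fun j : J => c j) (by
    have h2 : ∑ j : J, (c j : ℝ) * Real.log (Real.Gamma ((j : ℕ) / D) / Real.sqrt Real.pi) =
        ∑ j ∈ J, (c j : ℝ) * lg ((j : ℚ) / D) := by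
      rw [← Finset.sum_coe_sort J (fun j => (c j : ℝ) * lg ((j : ℚ) / D))]
      refine sum_congr rfl fun j _ => ?_
      rw [lg_div (h.mem j j.2).1 (h.mem j j.2).2]
    rw [h2]
    exact hc)
  intro j hj
  exact h1 ⟨j, hj⟩

/-- vanishing combinations of the sawtooth functions are trivial -/
theorem Ind.sawZero (h : Ind D J) {c : ℕ → ℚ}
    (hc : ∀ m : ℕ, m.Coprime D → ∑ j ∈ J, c j * saw m ((j : ℚ) / D) = 0) : ∀ j ∈ J, c j = 0 := by
  apply h.mult
  have hD : 0 < D := by have := h.two; omega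
  exact ko hD J c (fun j => (j : ℚ) / D) (fun j hj => pt_div (h.mem j hj).1 (h.mem j hj).2) hc

/-- the span of the sawtooth functions of `J` -/
def spJ (D : ℕ) (J : Finset ℕ) : Submodule ℚ ((ZMod D)ˣ → ℚ) :=
  Submodule.span ℚ (Set.range fun j : J => Sf D (((j : ℕ) : ℚ) / D))

theorem unit_of {D m : ℕ} (hm : m.Coprime D) : ∃ t : (ZMod D)ˣ, (t : ZMod D) = (m : ZMod D) :=
  ⟨ZMod.unitOfCoprime m hm, ZMod.coe_unitOfCoprime m hm⟩

theorem Sf_apply [NeZero D] {m : ℕ} {t : (ZMod D)ˣ} (ht : (t : ZMod D) = (m : ZMod D)) {x : ℚ}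
    (hx : ∃ z : ℤ, (D : ℚ) * x = z) : Sf D x t = saw m x := by
  unfold Sf
  apply saw_congr _ hx
  rw [← ZMod.natCast_eq_natCast_iff, ZMod.natCast_zmod_val, ht]

theorem Ind.linInd (h : Ind D J) :
    LinearIndependent ℚ (fun j : J => Sf D (((j : ℕ) : ℚ) / D)) := by
  classical
  have : NeZero D := ⟨by have := h.two; omega⟩
  rw [Fintype.linearIndependent_iff]
  intro g hg j
  have h1 := h.sawZero (c := fun i => if hi : i ∈ J then g ⟨i, hi⟩ else 0) (by
    intro m hm
    obtain ⟨t, ht⟩ := unit_of hm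
    have h2 := congrFun hg t
    rw [Finset.sum_apply, Pi.zero_apply] at h2
    rw [← h2, ← Finset.sum_coe_sort J]
    refine sum_congr rfl fun i _ => ?_
    have hi := h.mem i i.2
    rw [dif_pos i.2, Pi.smul_apply, smul_eq_mul, Sf_apply ht (pt_div hi.1 hi.2).2.2])
  have h3 := h1 j j.2
  simpa using h3

theorem Ind.finrank_spJ (h : Ind D J) : Module.finrank ℚ (spJ D J) = J.card := by
  unfold spJ
  rw [finrank_span_eq_card h.linInd, Fintype.card_coe]

theorem Ind.spJ_le (h : Ind D J) : spJ D J ≤ oddW D := by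
  have : NeZero D := ⟨by have := h.two; omega⟩
  unfold spJ
  rw [Submodule.span_le]
  rintro _ ⟨j, rfl⟩
  have hj := h.mem j j.2
  exact Sf_odd (pt_div hj.1 hj.2)

theorem Ind.card_le (h : Ind D J) : 2 * J.card ≤ D.totient := by
  have h1 := Submodule.finrank_mono h.spJ_le
  rw [h.finrank_spJ] at h1
  have h2 := finrank_odd h.two
  omega

theorem Ind.spJ_eq (h : Ind D J) (hfull : D.totient ≤ 2 * J.card) : spJ D J = oddW D := by
  apply Submodule.eq_of_le_of_finrank_le h.spJ_le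
  rw [h.finrank_spJ]
  have h2 := finrank_odd h.two
  omega

theorem mem_spJ {f : (ZMod D)ˣ → ℚ} (hf : f ∈ spJ D J) :
    ∃ c : ℕ → ℚ, f = ∑ j ∈ J, c j • Sf D ((j : ℚ) / D) := by
  classical
  unfold spJ at hf
  rw [Submodule.mem_span_range_iff_exists_fun] at hf
  obtain ⟨c, hc⟩ := hf
  refine ⟨fun i => if hi : i ∈ J then c ⟨i, hi⟩ else 0, ?_⟩
  rw [← hc, ← Finset.sum_coe_sort J]
  refine sum_congr rfl fun j _ => ?_
  show c j • _ = (dite ((j : ℕ) ∈ J) (fun hi => c ⟨j, hi⟩) (fun _ => 0)) • _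
  rw [dif_pos j.2]

end

/-- the class function of a tuple (of level `D`, without integral entries) -/
def cls (D : ℕ) {r : ℕ} (a : Fin r → ℚ) : (ZMod D)ˣ → ℚ :=
  fun t => ∑ i, Int.fract (((t : ZMod D).val : ℚ) * a i) - (r : ℚ) / 2

/-- the span of the class functions of the tuples of level `D` without integral entries whose
gamma product is an algebraic multiple of the power of `π` -/
def Rel (D : ℕ) : Submodule ℚ ((ZMod D)ˣ → ℚ) :=
  Submodule.span ℚ {f | ∃ (r : ℕ) (a : Fin r → ℚ), (∀ i, ∃ z : ℤ, (D : ℚ) * a i = z) ∧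
    (∀ (i : Fin r) (z : ℤ), a i ≠ z) ∧ GammaMult a ∧ f = cls D a}

/-- a relation: a combination of the sawtooth functions of level `D` such that the corresponding
gamma product is algebraic -/
def RelP (D : ℕ) (f : (ZMod D)ˣ → ℚ) : Prop := ∃ c : ℕ → ℚ,
  f = ∑ j ∈ Ioo 0 D, c j • Sf D ((j : ℚ) / D) ∧ ∑ j ∈ Ioo 0 D, (c j : ℝ) * lg ((j : ℚ) / D) ∈ LogAlg

theorem relP_of_mem {D : ℕ} (hD : 2 < D) {f : (ZMod D)ˣ → ℚ} (hf : f ∈ Rel D) : RelP D f := by
  classical
  have : NeZero D := ⟨by omega⟩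
  have hDq : (0 : ℚ) < D := by
    have : 0 < D := by omega
    exact_mod_cast this
  unfold Rel at hf
  induction hf using Submodule.span_induction with
  | mem f hf =>
    obtain ⟨r, a, hDa, hni, hG, rfl⟩ := hf
    have h0 : intCount a = 0 := intCount_eq_zero hni
    have hnp : ∀ (i : Fin r) (n : ℕ), a i ≠ -(n : ℚ) := fun i n h =>
      hni i (-(n : ℤ)) (by push_cast; exact h)
    rw [gammaMult_iff ⟨by omega, hnp, hDa⟩, h0] at hG
    have hG' : ∑ i ∈ nonInt a, lg (Int.fract (a i)) ∈ LogAlg := by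
      have e : ∑ i ∈ nonInt a, lg (Int.fract (a i)) =
          ∑ i ∈ univ.filter (fun i => Int.fract (a i) ≠ 0), lg (Int.fract (a i)) -
            ((0 : ℕ) : ℝ) / 2 * Real.log Real.pi := by
        unfold nonInt
        push_cast
        ring
      rw [e]
      exact hG
    -- the index of an entry
    have hidx : ∀ i, ∃ j : ℕ, i ∈ nonInt a → j ∈ Ioo 0 D ∧ Int.fract (a i) = (j : ℚ) / D := by
      intro i
      by_cases hi : i ∈ nonInt a
      · obtain ⟨h1, h2, z, hz⟩ := isPt_fract (hDa i) (mem_filter.1 hi).2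
        have h3 : (0 : ℚ) < z := by rw [← hz]; positivity
        have h4 : (z : ℚ) < D := by rw [← hz]; exact mul_lt_of_lt_one_right hDq h2
        have h5 : 0 < z := by exact_mod_cast h3
        have h6 : z < D := by exact_mod_cast h4
        obtain ⟨j, rfl⟩ : ∃ j : ℕ, z = j := ⟨z.toNat, (Int.toNat_of_nonneg h5.le).symm⟩
        refine ⟨j, fun _ => ⟨mem_Ioo.2 ⟨by exact_mod_cast h5, by exact_mod_cast h6⟩, ?_⟩⟩
        rw [eq_div_iff hDq.ne', mul_comm]
        exact_mod_cast hz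
      · exact ⟨0, fun h => absurd h hi⟩
    choose idx hidx using hidx
    have hcount : ∀ {A : Type} [AddCommGroup A] [Module ℚ A] (F : ℚ → A),
        ∑ i ∈ nonInt a, F (Int.fract (a i)) =
          ∑ j ∈ Ioo 0 D, (((nonInt a).filter fun i => idx i = j).card : ℚ) • F ((j : ℚ) / D) := by
      intro A _ _ F
      rw [← sum_fiberwise_of_maps_to (g := idx) (t := Ioo 0 D) (fun i hi => (hidx i hi).1)]
      refine sum_congr rfl fun j _ => ?_
      rw [sum_congr rfl (fun i hi => by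
        rw [(hidx i (mem_filter.1 hi).1).2, (mem_filter.1 hi).2]), sum_const, Nat.cast_smul_eq_nsmul]
    refine ⟨fun j => (((nonInt a).filter fun i => idx i = j).card : ℚ), ?_, ?_⟩
    · rw [← hcount (fun x => Sf D x)]
      funext t
      unfold cls
      rw [sum_frac', h0, Finset.sum_apply]
      unfold Sf
      push_cast
      ring
    · have h1 := hcount lg
      have h2 : ∀ j, ((((nonInt a).filter fun i => idx i = j).card : ℚ)) • lg ((j : ℚ) / D) =
          (((((nonInt a).filter fun i => idx i = j).card : ℚ)) : ℝ) * lg ((j : ℚ) / D) :=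
        fun j => Rat.smul_def _ _
      rw [sum_congr rfl fun j _ => h2 j] at h1
      rw [← h1]
      exact hG'
  | zero => exact ⟨0, by simp, by simp [LogAlg.zero_mem]⟩
  | add f g _ _ hf hg =>
    obtain ⟨c, rfl, hc⟩ := hf
    obtain ⟨d, rfl, hd⟩ := hg
    refine ⟨fun j => c j + d j, ?_, ?_⟩
    · rw [← sum_add_distrib]
      refine sum_congr rfl fun j _ => by rw [add_smul]
    · have h1 := LogAlg.add_mem hc hd
      rw [← sum_add_distrib] at h1
      have h2 : ∀ j, ((c j + d j : ℚ) : ℝ) * lg ((j : ℚ) / D) =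
          (c j : ℝ) * lg ((j : ℚ) / D) + (d j : ℝ) * lg ((j : ℚ) / D) := fun j => by
        push_cast; ring
      rw [sum_congr rfl fun j _ => h2 j]
      exact h1
  | smul q f _ hf =>
    obtain ⟨c, rfl, hc⟩ := hf
    refine ⟨fun j => q * c j, ?_, ?_⟩
    · rw [smul_sum]
      refine sum_congr rfl fun j _ => by rw [smul_smul]
    · have h1 := LogAlg_rsmul q hc
      rw [mul_sum] at h1
      have h2 : ∀ j, ((q * c j : ℚ) : ℝ) * lg ((j : ℚ) / D) =
          (q : ℝ) * ((c j : ℝ) * lg ((j : ℚ) / D)) := fun j => by push_cast; ring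
      rw [sum_congr rfl fun j _ => h2 j]
      exact h1

theorem relP_odd {D : ℕ} (hD : 2 < D) {f : (ZMod D)ˣ → ℚ} (hf : RelP D f) : f ∈ oddW D := by
  have : NeZero D := ⟨by omega⟩
  obtain ⟨c, rfl, -⟩ := hf
  exact Submodule.sum_mem _ fun j hj =>
    (oddW D).smul_mem _ (Sf_odd (pt_div (mem_Ioo.1 hj).1 (mem_Ioo.1 hj).2))

theorem Ind.disjoint {D : ℕ} {J : Finset ℕ} (h : Ind D J) : Rel D ⊓ spJ D J = ⊥ := by
  classical
  have hD := h.two
  have : NeZero D := ⟨by omega⟩
  rw [Submodule.eq_bot_iff]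
  rintro f ⟨hf1, hf2⟩
  obtain ⟨c, hc, hlc⟩ := relP_of_mem hD hf1
  obtain ⟨d, hd⟩ := mem_spJ hf2
  -- the difference of the two combinations is a relation of sawtooth functions
  have hsub : J ⊆ Ioo 0 D := fun j hj => mem_Ioo.2 (h.mem j hj)
  have hd' : ∀ {A : Type} [AddCommGroup A] [Module ℚ A] (F : ℕ → A), ∑ j ∈ J, d j • F j =
      ∑ j ∈ Ioo 0 D, (if j ∈ J then d j else 0) • F j := by
    intro A _ _ F
    rw [← sum_subset hsub]
    · exact sum_congr rfl fun j hj => by rw [if_pos hj]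
    · intro j _ hj
      rw [if_neg hj, zero_smul]
  have h1 := ko (by omega : 0 < D) (Ioo 0 D) (fun j => c j - (if j ∈ J then d j else 0))
    (fun j => (j : ℚ) / D) (fun j hj => pt_div (mem_Ioo.1 hj).1 (mem_Ioo.1 hj).2) (by
      intro m hm
      obtain ⟨t, ht⟩ := unit_of hm
      have h2 := congrFun (hc.symm.trans hd) t
      rw [hd' (fun j => Sf D ((j : ℚ) / D)), Finset.sum_apply, Finset.sum_apply] at h2
      have h3 : ∀ j ∈ Ioo 0 D, (c j - (if j ∈ J then d j else 0)) * saw m ((j : ℚ) / D) =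
          (c j • Sf D ((j : ℚ) / D)) t - ((if j ∈ J then d j else 0) • Sf D ((j : ℚ) / D)) t := by
        intro j hj
        rw [Pi.smul_apply, Pi.smul_apply, smul_eq_mul, smul_eq_mul,
          Sf_apply ht (pt_div (mem_Ioo.1 hj).1 (mem_Ioo.1 hj).2).2.2]
        ring
      rw [sum_congr rfl h3, sum_sub_distrib, h2, sub_self])
  have h4 : ∑ j ∈ J, (d j : ℝ) * lg ((j : ℚ) / D) ∈ LogAlg := by
    have h5 := hd' (fun j => lg ((j : ℚ) / D))
    simp only [Rat.smul_def] at h5
    rw [h5]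
    have h6 := LogAlg.sub_mem hlc h1
    rw [← sum_sub_distrib] at h6
    have h7 : ∀ j, (((if j ∈ J then d j else 0 : ℚ)) : ℝ) * lg ((j : ℚ) / D) =
        (c j : ℝ) * lg ((j : ℚ) / D) -
          ((c j - (if j ∈ J then d j else 0) : ℚ) : ℝ) * lg ((j : ℚ) / D) := fun j => by
      push_cast; ring
    rw [sum_congr rfl fun j _ => h7 j]
    exact h6
  have h8 := h.mult h4
  rw [hd]
  exact sum_eq_zero fun j hj => by rw [h8 j hj, zero_smul]

/-- **the space of relations** -/
theorem Ind.rel {D : ℕ} {J : Finset ℕ} (h : Ind D J) :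
    2 * (Module.finrank ℚ (Rel D) + J.card) ≤ D.totient := by
  have h1 := Submodule.finrank_sup_add_finrank_inf_eq (Rel D) (spJ D J)
  rw [h.disjoint, finrank_bot, add_zero, h.finrank_spJ] at h1
  have h2 : Rel D ⊔ spJ D J ≤ oddW D :=
    sup_le (fun f hf => relP_odd h.two (relP_of_mem h.two hf)) h.spJ_le
  have h3 := Submodule.finrank_mono h2
  have h4 := finrank_odd h.two
  omega

end Pool.Agent.RHK
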