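import Pool.Agent.RHK.FCov
import Pool.Agent.RHK.FLine

/-!
Project RHK, block FIN, part 7: algebraically independent gamma values from the blocks ARITH and III.
-/

set_option autoImplicit false

namespace Pool.Agent.RHK

open Complex ComplexConjugate Finset Pool.Agent.ROH Pool.Agent.ROH8

noncomputable section

/-- `D ∤ a, b, a + b`, and one of them is prime to `D` -/
def Triple (D a b : ℕ) : Prop := ¬ D ∣ a ∧ ¬ D ∣ b ∧ ¬ D ∣ a + b ∧
  (Nat.Coprime a D ∨ Nat.Coprime b D ∨ Nat.Coprime (a + b) D)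

section types

variable {D a b : ℕ}

theorem mod_neg {D s s' a : ℕ} (hD : 0 < D) (h : D ∣ s + s') (hs : ¬ D ∣ s * a) :
    (s' * a) % D = D - (s * a) % D := by
  have h1 : D ∣ s * a + s' * a := by
    rw [← add_mul]
    exact h.mul_right a
  have h2 : (s * a % D + s' * a % D) % D = 0 := by
    rw [← Nat.add_mod]
    exact Nat.mod_eq_zero_of_dvd h1
  have h3 : 0 < s * a % D := Nat.pos_of_ne_zero fun h0 => hs (Nat.dvd_of_mod_eq_zero h0)
  have h4 := Nat.mod_lt (s * a) hD
  have h5 := Nat.mod_lt (s' * a) hD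
  have h6 : D ∣ s * a % D + s' * a % D := Nat.dvd_of_mod_eq_zero h2
  obtain ⟨k, hk⟩ := h6
  have h7 : k = 1 := by
    have : k < 2 := by
      by_contra hk2
      push Not at hk2
      nlinarith
    have : 0 < k := by
      rcases Nat.eq_zero_or_pos k with h0 | h0
      · rw [h0] at hk; omega
      · exact h0
    omega
  rw [h7, mul_one] at hk
  omega

theorem not_dvd_mul {s a : ℕ} (hs : s.Coprime D) (ha : ¬ D ∣ a) : ¬ D ∣ s * a := fun h =>
  ha ((Nat.Coprime.dvd_mul_left hs.symm).1 h)

theorem inType_neg (hD : 0 < D) (h : Triple D a b) {s s' : ℕ} (hs : s.Coprime D)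
    (hs' : s'.Coprime D) (hss : D ∣ s + s') : InType D a b s' ↔ ¬ InType D a b s := by
  obtain ⟨ha, hb, hab, -⟩ := h
  have na := not_dvd_mul hs ha
  have nb := not_dvd_mul hs hb
  have nab := not_dvd_mul hs hab
  unfold InType
  rw [mod_neg hD hss na, mod_neg hD hss nb]
  have h1 : s * a % D + s * b % D ≠ D := by
    intro h0
    apply nab
    have : (s * (a + b)) % D = 0 := by
      rw [mul_add, Nat.add_mod, h0, Nat.mod_self]
    exact Nat.dvd_of_mod_eq_zero this
  have ha1 := Nat.mod_lt (s * a) hD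
  have hb1 := Nat.mod_lt (s * b) hD
  constructor
  · rintro ⟨-, h2⟩ ⟨-, h3⟩
    omega
  · intro h2
    refine ⟨hs', ?_⟩
    have : ¬ (D < s * a % D + s * b % D) := fun h3 => h2 ⟨hs, h3⟩
    omega

theorem coprime_sub {s : ℕ} (hs : s.Coprime D) (hsD : s ≤ D) : (D - s).Coprime D := by
  rw [Nat.coprime_comm, Nat.coprime_self_sub_right hsD]
  exact hs.symm

end types

section

open Classical in
/-- the units in the type -/
def tyS (D a b : ℕ) : Finset ℕ := (range D).filter (InType D a b)

theorem tyS_card {D a b : ℕ} (hD : 2 < D) (h : Triple D a b) : 2 * (tyS D a b).card = D.totient := by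
  classical
  set U : Finset ℕ := (range D).filter fun s => s.Coprime D with hU
  have hsub : tyS D a b ⊆ U := by
    intro s hs
    rw [tyS, mem_filter] at hs
    rw [hU, mem_filter]
    exact ⟨hs.1, hs.2.1⟩
  have hpos : ∀ s ∈ U, 0 < s := by
    intro s hs
    rw [hU, mem_filter] at hs
    rcases Nat.eq_zero_or_pos s with h0 | h0
    · rw [h0, Nat.coprime_zero_left] at hs
      omega
    · exact h0
  have h1 : (U \ tyS D a b).card = (tyS D a b).card := by
    refine card_nbij' (fun s => D - s) (fun s => D - s) ?_ ?_ ?_ ?_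
    · intro s hs
      rw [coe_sdiff, Set.mem_sdiff, mem_coe, mem_coe] at hs
      have hs0 := hpos s hs.1
      have hs1 := hs.1
      rw [hU, mem_filter, mem_range] at hs1
      rw [mem_coe, tyS, mem_filter, mem_range]
      have hlt : D - s < D := by omega
      refine ⟨hlt, ?_⟩
      have hc := coprime_sub hs1.2 hs1.1.le
      rw [inType_neg (by omega) h hs1.2 hc ⟨1, by omega⟩]
      intro h2
      apply hs.2
      rw [tyS, mem_filter, mem_range]
      exact ⟨hs1.1, h2⟩
    · intro s hs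
      rw [mem_coe] at hs
      have hsU := hsub hs
      have hs0 := hpos s hsU
      rw [tyS, mem_filter, mem_range] at hs
      have hc := coprime_sub hs.2.1 hs.1.le
      rw [coe_sdiff, Set.mem_sdiff, mem_coe, mem_coe, hU, mem_filter, mem_range]
      have hlt : D - s < D := by omega
      refine ⟨⟨hlt, hc⟩, ?_⟩
      intro h2
      rw [tyS, mem_filter] at h2
      have h3 := h2.2
      rw [inType_neg (by omega) h hs.2.1 hc ⟨1, by omega⟩] at h3
      exact h3 hs.2
    · intro s hs
      rw [coe_sdiff, Set.mem_sdiff, mem_coe, hU, mem_filter, mem_range] at hs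
      have := hs.1.1
      show D - (D - s) = s
      omega
    · intro s hs
      rw [mem_coe, tyS, mem_filter, mem_range] at hs
      have := hs.1
      show D - (D - s) = s
      omega
  have h2 := card_sdiff_add_card_eq_card hsub
  have h3 : U.card = D.totient := by
    rw [hU, Nat.totient_eq_card_coprime]
    congr 1
    ext s
    rw [mem_filter, mem_filter, Nat.coprime_comm]
  omega

open Classical in
/-- the number of places where the types differ -/
def dst (D a b a' b' : ℕ) : ℕ :=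
  ((range D).filter fun s => InType D a b s ∧ ¬ InType D a' b' s).card

theorem emb_mul {D : ℕ} (n : ℕ) (c : ℕ → ℤ) (s : ℕ) :
    emb D (fun j => n * c j) s = n * emb D c s := by
  unfold emb
  rw [mul_sum]
  refine sum_congr rfl fun j _ => ?_
  push_cast
  ring

theorem emb_conj {D : ℕ} (hD : 0 < D) (c : ℕ → ℤ) {s s' : ℕ} (h : D ∣ s + s') :
    conj (emb D c s) = emb D c s' := by
  rw [emb_eq, emb_eq, map_sum]
  refine sum_congr rfl fun j _ => ?_
  rw [map_mul, map_pow, zt_conj hD h, map_intCast]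

/-- the lattice -/
def latO (D : ℕ) {g : ℕ} (t : Fin g → ℕ) (N : ℕ) : AddSubgroup (Fin g → ℂ) where
  carrier := {u | ∃ c : ℕ → ℤ, u = fun i => (N : ℂ) * emb D c (t i)}
  add_mem' := by
    rintro _ _ ⟨c, rfl⟩ ⟨d, rfl⟩
    refine ⟨fun j => c j + d j, ?_⟩
    funext i
    simp only [Pi.add_apply, emb]
    rw [← mul_add, ← sum_add_distrib]
    congr 1
    refine sum_congr rfl fun j _ => ?_
    push_cast
    ring
  zero_mem' := ⟨fun _ => 0, by funext i; simp [emb]⟩
  neg_mem' := by
    rintro _ ⟨c, rfl⟩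
    refine ⟨fun j => -c j, ?_⟩
    funext i
    simp only [Pi.neg_apply, emb]
    rw [← mul_neg, ← sum_neg_distrib]
    congr 1
    refine sum_congr rfl fun j _ => ?_
    push_cast
    ring

/-- the shape of the Beta values -/
theorem v_form {D a b s : ℕ} (hD : 2 < D) (h : Triple D a b) (hs : InType D a b s) {α v : ℝ}
    {k : ℕ} {θ : Fin k → ℂ}
    (hx : ∀ j ∈ Ioo 0 D, IsAlgebraic (IntermediateField.adjoin ℚ (Set.range θ))
      ((Real.Gamma ((j : ℕ) / D) / Real.sqrt Real.pi : ℝ) : ℂ))
    (hα : IsAlgebraic ℚ α) (hα0 : α ≠ 0)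
    (hv : v = α * (Real.Gamma (1 - ((s * a) % D : ℕ) / (D : ℝ)) *
      Real.Gamma (1 - ((s * b) % D : ℕ) / (D : ℝ)) /
      Real.Gamma (2 - ((s * a) % D : ℕ) / (D : ℝ) - ((s * b) % D : ℕ) / (D : ℝ)))) :
    ∃ w : ℝ, v = w * Real.sqrt Real.pi ∧ w ≠ 0 ∧
      IsAlgebraic (IntermediateField.adjoin ℚ (Set.range θ)) ((w : ℝ) : ℂ) := by
  have hDR : (0 : ℝ) < D := by
    have : 0 < D := by omega
    exact_mod_cast this
  have hD0 : 0 < D := by omega
  have hsp : 0 < Real.sqrt Real.pi := Real.sqrt_pos.2 Real.pi_pos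
  obtain ⟨ha, hb, hab, -⟩ := h
  have na := not_dvd_mul hs.1 ha
  have nb := not_dvd_mul hs.1 hb
  obtain ⟨A, hA⟩ : ∃ A, A = s * a % D := ⟨_, rfl⟩
  obtain ⟨B, hB⟩ : ∃ B, B = s * b % D := ⟨_, rfl⟩
  have hA0 : 0 < A := by
    rw [hA]; exact Nat.pos_of_ne_zero fun h0 => na (Nat.dvd_of_mod_eq_zero h0)
  have hB0 : 0 < B := by
    rw [hB]; exact Nat.pos_of_ne_zero fun h0 => nb (Nat.dvd_of_mod_eq_zero h0)
  have hAD : A < D := by rw [hA]; exact Nat.mod_lt _ hD0
  have hBD : B < D := by rw [hB]; exact Nat.mod_lt _ hD0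
  have hAB : D < A + B := by rw [hA, hB]; exact hs.2
  rw [← hA, ← hB] at hv
  have e1 : (1 : ℝ) - (A : ℕ) / (D : ℝ) = ((D - A : ℕ) : ℝ) / D := by
    rw [Nat.cast_sub hAD.le]; field_simp
  have e2 : (1 : ℝ) - (B : ℕ) / (D : ℝ) = ((D - B : ℕ) : ℝ) / D := by
    rw [Nat.cast_sub hBD.le]; field_simp
  have e3 : (2 : ℝ) - (A : ℕ) / (D : ℝ) - (B : ℕ) / (D : ℝ) = ((2 * D - A - B : ℕ) : ℝ) / D := by
    rw [Nat.cast_sub (by omega), Nat.cast_sub (by omega)]
    push_cast
    field_simp
  rw [e1, e2, e3] at hv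
  have m1 : D - A ∈ Ioo 0 D := mem_Ioo.2 ⟨by omega, by omega⟩
  have m2 : D - B ∈ Ioo 0 D := mem_Ioo.2 ⟨by omega, by omega⟩
  have m3 : 2 * D - A - B ∈ Ioo 0 D := mem_Ioo.2 ⟨by omega, by omega⟩
  have gpos : ∀ j ∈ Ioo 0 D, 0 < Real.Gamma ((j : ℕ) / (D : ℝ)) := by
    intro j hj
    have : (0 : ℝ) < ((j : ℕ) : ℝ) := by exact_mod_cast (mem_Ioo.1 hj).1
    exact Real.Gamma_pos_of_pos (by positivity)
  have g1 := (gpos _ m1).ne'
  have g2 := (gpos _ m2).ne'
  have g3 := (gpos _ m3).ne'
  refine ⟨α * ((Real.Gamma (((D - A : ℕ)) / D) / Real.sqrt Real.pi) *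
    (Real.Gamma (((D - B : ℕ)) / D) / Real.sqrt Real.pi) *
    (Real.Gamma (((2 * D - A - B : ℕ)) / D) / Real.sqrt Real.pi)⁻¹), ?_, ?_, ?_⟩
  · rw [hv]
    have := hsp.ne'
    field_simp
  · exact mul_ne_zero hα0 (mul_ne_zero (mul_ne_zero (div_ne_zero g1 hsp.ne')
      (div_ne_zero g2 hsp.ne')) (inv_ne_zero (div_ne_zero g3 hsp.ne')))
  · rw [ofReal_mul, ofReal_mul, ofReal_mul, ofReal_inv]
    exact ((Pool.Agent.GP.DedM.alg_complex hα).tower_top _).mul
      (((hx _ m1).mul (hx _ m2)).mul (hx _ m3).inv)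

theorem aux_cc {w1 w2 p q : ℝ} (h1 : w1 ≠ 0) (h2 : w2 ≠ 0) (hp : p ≠ 0) (hq : p * p = q) :
    q / (w1 * p * (w2 * p)) = (w1 * w2)⁻¹ := by
  subst hq
  field_simp

/-- **the lower bound of the transcendence degree** -/
theorem trdeg_bound (hA : ArithForm) (hT : ThetaForm) {D a b a' b' : ℕ} (hD : 2 < D)
    (h : Triple D a b) (h' : Triple D a' b') (hy : 0 < dst D a b a' b') (k : ℕ) (θ : Fin k → ℂ)
    (hx : ∀ j ∈ Ioo 0 D, IsAlgebraic (IntermediateField.adjoin ℚ (Set.range θ))
      ((Real.Gamma ((j : ℕ) / D) / Real.sqrt Real.pi : ℝ) : ℂ)) :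
    D.totient ≤ 2 * dst D a b a' b' * k := by
  classical
  have hD0 : 0 < D := by omega
  obtain ⟨g, hgdef⟩ : ∃ g, g = (tyS D a b).card := ⟨_, rfl⟩
  have hcard : 2 * g = D.totient := by rw [hgdef]; exact tyS_card hD h
  have htot : 0 < D.totient := Nat.totient_pos.2 hD0
  have hg : 0 < g := by omega
  let e : tyS D a b ≃ Fin g := (tyS D a b).equivFinOfCardEq hgdef.symm
  set t : Fin g → ℕ := fun i => (e.symm i : ℕ) with ht
  have htm : ∀ i, t i < D ∧ InType D a b (t i) := by
    intro i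
    have h1 : (e.symm i : ℕ) ∈ tyS D a b := (e.symm i).2
    unfold tyS at h1
    rw [mem_filter, mem_range] at h1
    exact h1
  have htpos : ∀ i, 0 < t i := by
    intro i
    rcases Nat.eq_zero_or_pos (t i) with h0 | h0
    · have := (htm i).2.1
      rw [h0, Nat.coprime_zero_left] at this
      omega
    · exact h0
  have htinj : Function.Injective t := fun i j hij => e.symm.injective (Subtype.ext hij)
  set Y : Finset (Fin g) := univ.filter fun i => ¬ InType D a' b' (t i) with hY
  have hYcard : Y.card = dst D a b a' b' := by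
    unfold dst
    refine card_nbij t ?_ (htinj.injOn) ?_
    · intro i hi
      rw [mem_coe, hY, mem_filter] at hi
      rw [mem_coe, mem_filter, mem_range]
      exact ⟨(htm i).1, (htm i).2, hi.2⟩
    · intro s hs
      rw [mem_coe, mem_filter, mem_range] at hs
      have hsT : s ∈ tyS D a b := by
        rw [tyS, mem_filter, mem_range]
        exact ⟨hs.1, hs.2.1⟩
      have hts : t (e ⟨s, hsT⟩) = s := by simp [ht]
      refine ⟨e ⟨s, hsT⟩, ?_, hts⟩
      rw [mem_coe, hY, mem_filter, hts]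
      exact ⟨mem_univ _, hs.2.2⟩
  have hYne : Y.Nonempty := by
    rw [← card_pos, hYcard]
    exact hy
  set t' : Fin g → ℕ := fun i => if i ∈ Y then D - t i else t i with ht'
  have hsum : ∀ i, D ∣ t i + (D - t i) := fun i => ⟨1, by have := (htm i).1; omega⟩
  have ht'type : ∀ i, InType D a' b' (t' i) := by
    intro i
    by_cases hi : i ∈ Y
    · rw [ht']
      simp only [if_pos hi]
      rw [inType_neg hD0 h' (htm i).2.1 (coprime_sub (htm i).2.1 (htm i).1.le) (hsum i)]
      rw [hY, mem_filter] at hi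
      exact hi.2
    · rw [ht']
      simp only [if_neg hi]
      by_contra h0
      apply hi
      rw [hY, mem_filter]
      exact ⟨mem_univ _, h0⟩
  have ht'lt : ∀ i, t' i < D := by
    intro i
    have h1 := htpos i
    have h2 := (htm i).1
    rw [ht']
    simp only
    split_ifs <;> omega
  have ht'inj : Function.Injective (fun i => t' i % D) := by
    intro i j hij
    simp only [Nat.mod_eq_of_lt (ht'lt _)] at hij
    have hneg : ∀ i j, D - t i = t j → False := by
      intro i j hij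
      have h1 := (inType_neg hD0 h (htm i).2.1 (htm j).2.1 ⟨1, by have := (htm i).1; omega⟩).1 (htm j).2
      exact h1 (htm i).2
    rw [ht'] at hij
    simp only at hij
    split_ifs at hij with h1 h2 h2
    · apply htinj
      have a1 := (htm i).1
      have a2 := (htm j).1
      omega
    · exact absurd hij fun h0 => hneg i j h0
    · exact absurd hij.symm fun h0 => hneg j i h0
    · exact htinj hij
  obtain ⟨s1, κ1, v1, α1, N1, hN1, hκ1, hv1, hκ1a, hα1, hα10, hv1e, hd1, hn1, hta1, hq1⟩ :=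
    hT D a b g t hD hg h.1 h.2.1 h.2.2.1 h.2.2.2
      (fun i j hij => by
        simp only [Nat.mod_eq_of_lt (htm _).1] at hij
        exact htinj hij) (fun i => (htm i).2) hcard
  obtain ⟨s2, κ2, v2, α2, N2, hN2, hκ2, hv2, hκ2a, hα2, hα20, hv2e, hd2, hn2, hta2, hq2⟩ :=
    hT D a' b' g t' hD hg h'.1 h'.2.1 h'.2.2.1 h'.2.2.2 ht'inj ht'type hcard
  have hemb : Emb D g t := by
    refine ⟨hD0, fun i => (htm i).2.1, hcard, fun s hs => ?_⟩
    have hcop : (s % D).Coprime D := by
      have h1 : s % D ≡ s [MOD D] := Nat.mod_modEq _ _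
      exact h1.gcd_eq.trans hs
    have hlt := Nat.mod_lt s hD0
    by_cases hin : InType D a b (s % D)
    · have hm : s % D ∈ tyS D a b := by
        rw [tyS, mem_filter, mem_range]
        exact ⟨hlt, hin⟩
      refine ⟨e ⟨s % D, hm⟩, Or.inl ?_⟩
      have : t (e ⟨s % D, hm⟩) = s % D := by simp [ht]
      rw [this]
      exact (Nat.mod_modEq _ _).symm
    · have hcop' := coprime_sub hcop hlt.le
      have hs0 : 0 < s % D := by
        rcases Nat.eq_zero_or_pos (s % D) with h0 | h0
        · rw [h0, Nat.coprime_zero_left] at hcop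
          omega
        · exact h0
      have hin' : InType D a b (D - s % D) :=
        (inType_neg hD0 h hcop hcop' ⟨1, by omega⟩).2 hin
      have hm : D - s % D ∈ tyS D a b := by
        rw [tyS, mem_filter, mem_range]
        exact ⟨by omega, hin'⟩
      refine ⟨e ⟨D - s % D, hm⟩, Or.inr ?_⟩
      have h1 : t (e ⟨D - s % D, hm⟩) = D - s % D := by simp [ht]
      rw [h1]
      have h2 : s + (D - s % D) ≡ 0 [MOD D] := by
        have h3 : s + (D - s % D) ≡ s % D + (D - s % D) [MOD D] :=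
          (Nat.mod_modEq s D).symm.add_right _
        have h4 : s % D + (D - s % D) = D := by omega
        rw [h4] at h3
        exact h3.trans (by simp [Nat.ModEq])
      exact (Nat.modEq_zero_iff_dvd).1 h2
  -- the lattice
  have hNN : 0 < N1 * N2 := Nat.mul_pos hN1 hN2
  have hcov := cov_emb hemb hg hNN
  have hQ1 : ∀ u ∈ latO D t (N1 * N2), QPn (fun z => s1 (fun i => v1 i * z i)) κ1 u := by
    rintro u ⟨c, rfl⟩
    have h1 := hq1 (fun j => (N2 : ℤ) * c j)
    have h2 : (fun i => (N1 : ℂ) * emb D (fun j => (N2 : ℤ) * c j) (t i)) =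
        fun i => ((N1 * N2 : ℕ) : ℂ) * emb D c (t i) := by
      funext i
      rw [emb_mul]
      push_cast
      ring
    rw [h2] at h1
    exact h1
  have hQ2 : ∀ u ∈ latO D t (N1 * N2),
      QPn (fun z => s2 (fun i => v2 i * z i)) κ2 (swu Y u) := by
    rintro u ⟨c, rfl⟩
    have h1 := hq2 (fun j => (N1 : ℤ) * c j)
    have h2 : (fun i => (N2 : ℂ) * emb D (fun j => (N1 : ℤ) * c j) (t' i)) =
        swu Y (fun i => ((N1 * N2 : ℕ) : ℂ) * emb D c (t i)) := by
      funext i
      rw [emb_mul]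
      unfold swu
      by_cases hi : i ∈ Y
      · rw [if_pos hi, map_mul, emb_conj hD0 c (hsum i), map_natCast, ht']
        simp only [if_pos hi]
        push_cast
        ring
      · rw [if_neg hi, ht']
        simp only [if_neg hi]
        push_cast
        ring
    rw [h2] at h1
    exact h1
  have key := hA g Y v1 v2 κ1 κ2 s1 s2 (latO D t (N1 * N2)) hYne hv1 hv2 hκ1 hκ2 hκ1a hκ2a hd1 hd2
    hn1 hn2 hta1 hta2 hQ1 hQ2 hcov k θ (by
      intro i
      have hsp : Real.sqrt Real.pi ≠ 0 := (Real.sqrt_pos.2 Real.pi_pos).ne'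
      have hs2 : Real.sqrt Real.pi * Real.sqrt Real.pi = Real.pi := Real.mul_self_sqrt Real.pi_pos.le
      obtain ⟨w1, e1, hw1, hw1a⟩ := v_form hD h (htm i).2 hx (hα1 i) (hα10 i) (hv1e i)
      obtain ⟨w2, e2, hw2, hw2a⟩ := v_form hD h' (ht'type i) hx (hα2 i) (hα20 i) (hv2e i)
      unfold cc
      split_ifs with hi
      · have e3 : Real.pi / (v1 i * v2 i) = (w1 * w2)⁻¹ := by
          rw [e1, e2]
          exact aux_cc hw1 hw2 hsp hs2
        rw [e3, ofReal_inv, ofReal_mul]
        exact (hw1a.mul hw2a).inv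
      · have e3 : v2 i / v1 i = w2 * w1⁻¹ := by
          rw [e1, e2]
          field_simp
        rw [e3, ofReal_mul, ofReal_inv]
        exact hw2a.mul hw1a.inv)
  rw [hYcard] at key
  have hyR : (0 : ℝ) < dst D a b a' b' := by exact_mod_cast hy
  rw [div_le_iff₀ hyR] at key
  have h1 : g ≤ k * dst D a b a' b' := by exact_mod_cast key
  calc D.totient = 2 * g := hcard.symm
    _ ≤ 2 * (k * dst D a b a' b') := Nat.mul_le_mul_left 2 h1
    _ = _ := by ring

/-- **algebraically independent gamma values** -/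
theorem exists_ind (hA : ArithForm) (hT : ThetaForm) {D a b a' b' : ℕ} (hD : 2 < D)
    (h : Triple D a b) (h' : Triple D a' b') (hy : 0 < dst D a b a' b') :
    ∃ J : Finset ℕ, Ind D J ∧ D.totient ≤ 2 * dst D a b a' b' * J.card := by
  classical
  obtain ⟨J, hJ, hc⟩ := extract (ι := {j // j ∈ Ioo 0 D})
    (fun j => Real.Gamma ((j : ℕ) / D) / Real.sqrt Real.pi)
    ((D.totient : ℝ) / (2 * dst D a b a' b')) (by
      intro k θ hx
      have h1 := trdeg_bound hA hT hD h h' hy k θ (fun j hj => hx ⟨j, hj⟩)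
      have hyR : (0 : ℝ) < dst D a b a' b' := by exact_mod_cast hy
      rw [div_le_iff₀ (by positivity)]
      have h2 : (D.totient : ℝ) ≤ ((2 * dst D a b a' b' * k : ℕ) : ℝ) := by exact_mod_cast h1
      push_cast at h2
      linarith)
  have hyR : (0 : ℝ) < dst D a b a' b' := by exact_mod_cast hy
  refine ⟨J.image Subtype.val, ⟨hD, ?_, ?_⟩, ?_⟩
  · intro j hj
    rw [mem_image] at hj
    obtain ⟨x, -, rfl⟩ := hj
    exact mem_Ioo.1 x.2
  · have hmem : ∀ j : J.image Subtype.val, ∃ x : J, ((x : {j // j ∈ Ioo 0 D}) : ℕ) = j := by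
      intro j
      have := j.2
      rw [mem_image] at this
      obtain ⟨x, hx, hxj⟩ := this
      exact ⟨⟨x, hx⟩, hxj⟩
    choose f hf using hmem
    have h1 := hJ.comp f (by
      intro i j hij
      apply Subtype.ext
      rw [← hf i, ← hf j, hij])
    have h2 : (fun j : J.image Subtype.val =>
        Real.Gamma ((j : ℕ) / D) / Real.sqrt Real.pi) =
        (fun j : J => Real.Gamma (((j : {j // j ∈ Ioo 0 D}) : ℕ) / D) / Real.sqrt Real.pi) ∘ f := by
      funext j
      simp only [Function.comp]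
      rw [hf j]
    rw [h2]
    exact h1
  · rw [card_image_of_injective _ Subtype.val_injective]
    rw [div_le_iff₀ (by positivity)] at hc
    have h2 : (D.totient : ℝ) ≤ ((2 * dst D a b a' b' * J.card : ℕ) : ℝ) := by
      push_cast
      linarith
    exact_mod_cast h2

end

end

end Pool.Agent.RHK
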