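import Pool.Agent.RHK.Ifc

/-!
# Project RHK, ARITH: the core data of two functions with periods; sizes of the scaling factors
-/

set_option autoImplicit false

namespace Pool.Agent.RHK

open Complex Finset

private lemma CoreMk_d {g : ℕ} (v : Fin g → ℝ) {s : (Fin g → ℂ) → ℂ} (h : Differentiable ℂ s) :
    Differentiable ℂ (fun z : Fin g → ℂ => s (fun i => v i * z i)) := by
  have h1 : Differentiable ℂ (fun z : Fin g → ℂ => (fun i => (v i : ℂ) * z i)) := by
    rw [differentiable_pi]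
    intro i
    exact (differentiable_apply i).const_mul _
  exact h.comp h1

private lemma CoreMk_n {g : ℕ} (v : Fin g → ℝ) (hv : ∀ i, 0 < v i) {s : (Fin g → ℂ) → ℂ}
    (h : ∃ z, s z ≠ 0) : ∃ z : Fin g → ℂ, s (fun i => v i * z i) ≠ 0 := by
  obtain ⟨z, hz⟩ := h
  refine ⟨fun i => z i / v i, ?_⟩
  have e : (fun i => (v i : ℂ) * (z i / v i)) = z := by
    funext i
    have : (v i : ℂ) ≠ 0 := by exact_mod_cast (hv i).ne'
    field_simp
  rw [e]; exact hz

/-- the core data -/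
theorem exists_core {g : ℕ} (Y : Finset (Fin g)) (v1 v2 κ1 κ2 : Fin g → ℝ)
    (s1 s2 : (Fin g → ℂ) → ℂ) (O : AddSubgroup (Fin g → ℂ)) (hY : Y.Nonempty)
    (hv1 : ∀ i, 0 < v1 i) (hv2 : ∀ i, 0 < v2 i) (hk1 : ∀ i, 0 < κ1 i) (hk2 : ∀ i, 0 < κ2 i)
    (h1 : Differentiable ℂ s1) (h2 : Differentiable ℂ s2) (n1 : ∃ z, s1 z ≠ 0)
    (n2 : ∃ z, s2 z ≠ 0) (q1 : ∀ u ∈ O, QPn (fun z => s1 (fun i => v1 i * z i)) κ1 u)
    (q2 : ∀ u ∈ O, QPn (fun z => s2 (fun i => v2 i * z i)) κ2 (swu Y u))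
    (hcov : CovG (O : Set (Fin g → ℂ))) :
    ∃ c : CoreG (Fin g), c.Y = Y ∧ c.a = κ1 ∧ c.b = κ2 ∧
      c.T1 = (fun z => s1 (fun i => v1 i * z i)) ∧ c.T2 = (fun z => s2 (fun i => v2 i * z i)) := by
  exact ⟨⟨Y, hY, κ1, κ2, hk1, hk2, _, _, CoreMk_d v1 h1, CoreMk_d v2 h2, CoreMk_n v1 hv1 n1,
    CoreMk_n v2 hv2 n2, O, q1, q2, hcov⟩, rfl, rfl, rfl, rfl, rfl⟩

/-- the factors `∏ v_i^{A_i} (π/v_i)^{B_i}` -/
theorem scale_bound {g : ℕ} (v : Fin g → ℝ) (hv : ∀ i, 0 < v i) : ∃ C : ℝ, 0 ≤ C ∧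
    ∀ A B : Fin g → ℕ,
      (∏ i, v i ^ A i) * (∏ i, (Real.pi / v i) ^ B i) ≤ Real.exp (C * ord A B) ∧
      Real.exp (-(C * ord A B)) ≤ (∏ i, v i ^ A i) * (∏ i, (Real.pi / v i) ^ B i) := by
  set C : ℝ := ∑ i, (|Real.log (v i)| + |Real.log (Real.pi / v i)|) with hC
  have hC0 : 0 ≤ C := Finset.sum_nonneg (fun i _ => by positivity)
  have hle : ∀ i, |Real.log (v i)| + |Real.log (Real.pi / v i)| ≤ C := fun i =>
    Finset.single_le_sum (f := fun i => |Real.log (v i)| + |Real.log (Real.pi / v i)|)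
      (fun j _ => by positivity) (Finset.mem_univ i)
  refine ⟨C, hC0, fun A B => ?_⟩
  have hp : ∀ i, 0 < Real.pi / v i := fun i => div_pos Real.pi_pos (hv i)
  have e1 : (∏ i, v i ^ A i) * (∏ i, (Real.pi / v i) ^ B i) =
      Real.exp (∑ i, (A i * Real.log (v i) + B i * Real.log (Real.pi / v i))) := by
    rw [Real.exp_sum, ← Finset.prod_mul_distrib]
    refine Finset.prod_congr rfl (fun i _ => ?_)
    rw [Real.exp_add, Real.exp_nat_mul, Real.exp_nat_mul, Real.exp_log (hv i), Real.exp_log (hp i)]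
  have e2 : |∑ i, (A i * Real.log (v i) + B i * Real.log (Real.pi / v i))| ≤ C * ord A B := by
    calc |∑ i, (A i * Real.log (v i) + B i * Real.log (Real.pi / v i))|
        ≤ ∑ i, |A i * Real.log (v i) + B i * Real.log (Real.pi / v i)| :=
          Finset.abs_sum_le_sum_abs _ _
      _ ≤ ∑ i, C * ((A i + B i : ℕ) : ℝ) := by
          refine Finset.sum_le_sum (fun i _ => ?_)
          have h1 := hle i
          have h2 : |Real.log (v i)| ≤ C := by
            have := abs_nonneg (Real.log (Real.pi / v i)); linarith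
          have h3 : |Real.log (Real.pi / v i)| ≤ C := by
            have := abs_nonneg (Real.log (v i)); linarith
          calc |A i * Real.log (v i) + B i * Real.log (Real.pi / v i)|
              ≤ |A i * Real.log (v i)| + |B i * Real.log (Real.pi / v i)| := abs_add_le _ _
            _ = A i * |Real.log (v i)| + B i * |Real.log (Real.pi / v i)| := by
                rw [abs_mul, abs_mul, Nat.abs_cast, Nat.abs_cast]
            _ ≤ A i * C + B i * C := by gcongr
            _ = C * ((A i + B i : ℕ) : ℝ) := by push_cast; ring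
      _ = C * ord A B := by
          rw [← Finset.mul_sum, ord]; push_cast; rfl
  rw [abs_le] at e2
  rw [e1]
  exact ⟨Real.exp_le_exp.2 e2.2, Real.exp_le_exp.2 (by linarith [e2.1])⟩

/-- real inequalities for large `K`, all used in the assembly. `L = log K ≥ 1`. -/
theorem large_K (C r : ℝ) (hC : 0 ≤ C) (hr : 1 < r) : ∃ K0 : ℕ, 3 ≤ K0 ∧ ∀ K : ℕ, K0 ≤ K →
    1 ≤ Real.log K ∧
    C * (K * Real.log K + K + 1) * Real.log (K * Real.log K + K + 2) ^ 2 + C * K * Real.log K +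
      K * Real.log K ^ 3 ≤ K * Real.log K ^ 4 ∧
    (K : ℝ) ≤ (K : ℝ) ^ r ∧
    C * K + (K : ℝ) ^ r / Real.log K ^ 4 ≤ (K : ℝ) ^ r / Real.log K := by
  have t1 : Filter.Tendsto (fun K : ℕ => Real.log (K : ℝ)) Filter.atTop Filter.atTop :=
    Real.tendsto_log_atTop.comp tendsto_natCast_atTop_atTop
  have ev1 : ∀ᶠ K : ℕ in Filter.atTop, 28 * C + 2 ≤ Real.log (K : ℝ) :=
    t1.eventually_ge_atTop _
  have o1 : (fun x : ℝ => Real.log x) =o[Filter.atTop] fun x : ℝ => x ^ (r - 1) :=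
    isLittleO_log_rpow_atTop (by linarith)
  have ev2 : ∀ᶠ K : ℕ in Filter.atTop,
      ‖Real.log (K : ℝ)‖ ≤ (1 / (2 * C + 1)) * ‖((K : ℝ)) ^ (r - 1)‖ :=
    tendsto_natCast_atTop_atTop.eventually (o1.def (by positivity))
  obtain ⟨K0, hK0⟩ := Filter.eventually_atTop.1 (ev1.and ev2)
  refine ⟨max K0 3, le_max_right _ _, fun K hK => ?_⟩
  obtain ⟨h1, h2⟩ := hK0 K (le_trans (le_max_left _ _) hK)
  have hK3 : 3 ≤ K := le_trans (le_max_right _ _) hK
  have hk3 : (3 : ℝ) ≤ K := by exact_mod_cast hK3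
  set L := Real.log (K : ℝ) with hL
  have hL1 : 1 ≤ L := by linarith
  have hL2 : 2 ≤ L := by linarith
  have hK1 : (1 : ℝ) ≤ K := by linarith
  have hK0' : (0 : ℝ) < K := by linarith
  have hLK : L ≤ K := by
    rw [hL]
    exact (Real.log_le_sub_one_of_pos hK0').trans (by linarith)
  have hlog : Real.log (K * L + K + 2) ≤ 3 * L := by
    have e1 : (K : ℝ) * L + K + 2 ≤ (K : ℝ) ^ 3 := by
      nlinarith [mul_le_mul_of_nonneg_left hLK hK0'.le, mul_nonneg hK0'.le (sq_nonneg ((K : ℝ) - 3)),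
        mul_nonneg hK0'.le hK0'.le]
    calc Real.log (K * L + K + 2) ≤ Real.log ((K : ℝ) ^ 3) :=
          Real.log_le_log (by positivity) e1
      _ = 3 * L := by rw [Real.log_pow]; norm_num [hL]
  have hlog0 : 0 ≤ Real.log (K * L + K + 2) := Real.log_nonneg (by nlinarith)
  have hsq : Real.log (K * L + K + 2) ^ 2 ≤ 9 * L ^ 2 := by nlinarith
  refine ⟨hL1, ?_, ?_, ?_⟩
  · have a1 : (K : ℝ) * L + K + 1 ≤ 3 * (K * L) := by nlinarith
    have a2 : C * (K * L + K + 1) * Real.log (K * L + K + 2) ^ 2 ≤ C * (3 * (K * L)) * (9 * L ^ 2) := by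
      gcongr
    have a3 : C * K * L ≤ C * K * L ^ 3 := by
      have : L ≤ L ^ 3 := by nlinarith [sq_nonneg (L - 1), mul_nonneg (show 0 ≤ L by linarith) (show 0 ≤ L ^ 2 - 1 by nlinarith)]
      gcongr
    have a4 : (28 * C + 1) * (K * L ^ 3) ≤ L * (K * L ^ 3) := by
      have : 0 ≤ (K : ℝ) * L ^ 3 := by positivity
      exact mul_le_mul_of_nonneg_right (by linarith) this
    calc C * (K * L + K + 1) * Real.log (K * L + K + 2) ^ 2 + C * K * L + K * L ^ 3
        ≤ C * (3 * (K * L)) * (9 * L ^ 2) + C * K * L ^ 3 + K * L ^ 3 := by linarith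
      _ = (28 * C + 1) * (K * L ^ 3) := by ring
      _ ≤ L * (K * L ^ 3) := a4
      _ = K * L ^ 4 := by ring
  · exact Real.self_le_rpow_of_one_le hK1 hr.le
  · have hKr : (K : ℝ) ^ r = K * (K : ℝ) ^ (r - 1) := by
      rw [Real.rpow_sub_one hK0'.ne']; field_simp
    have b0 : 0 ≤ (K : ℝ) ^ (r - 1) := by positivity
    have b1 : 2 * C * L ≤ (K : ℝ) ^ (r - 1) := by
      rw [Real.norm_of_nonneg (by linarith), Real.norm_of_nonneg b0] at h2
      have hp : 0 < 2 * C + 1 := by linarith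
      have h3 : (2 * C + 1) * L ≤ (2 * C + 1) * (1 / (2 * C + 1) * (K : ℝ) ^ (r - 1)) :=
        mul_le_mul_of_nonneg_left h2 hp.le
      have h4 : (2 * C + 1) * (1 / (2 * C + 1) * (K : ℝ) ^ (r - 1)) = (K : ℝ) ^ (r - 1) := by
        field_simp
      rw [h4] at h3
      linarith
    have hLpos : 0 < L := by linarith
    rw [hKr]
    set X := (K : ℝ) ^ (r - 1) with hX
    have c1 : C * K * L ^ 4 + K * X ≤ K * X * L ^ 3 := by
      have d1 : 2 * X ≤ X * L ^ 3 := by
        have : (2 : ℝ) ≤ L ^ 3 := by nlinarith [sq_nonneg L]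
        nlinarith
      have d2 : (2 * C * L) * L ^ 3 ≤ X * L ^ 3 := by gcongr
      have d3 : C * L ^ 4 + X ≤ X * L ^ 3 := by nlinarith
      calc C * K * L ^ 4 + K * X = K * (C * L ^ 4 + X) := by ring
        _ ≤ K * (X * L ^ 3) := by gcongr
        _ = K * X * L ^ 3 := by ring
    rw [← sub_nonneg]
    have c2 : K * X / L - (C * K + K * X / L ^ 4) = (K * X * L ^ 3 - (C * K * L ^ 4 + K * X)) / L ^ 4 := by
      field_simp
    rw [c2]
    exact div_nonneg (by linarith) (by positivity)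

/-- number of pairs of multi-indices of small order -/
theorem small_card (g : ℕ) (hg : 0 < g) (ε : ℝ) (hε : 0 < ε) : ∃ ε1 : ℝ, 0 < ε1 ∧ ∃ K0 : ℕ,
    ∀ K : ℕ, K0 ≤ K → ∃ s : Finset ((Fin g → ℕ) × (Fin g → ℕ)),
      (∀ A B, (A, B) ∈ s ↔ (ord A B : ℝ) < ε1 * K) ∧
      (s.card : ℝ) ≤ ε * Fintype.card ((Fin g → Fin K) × (Fin g → Fin K)) := by
  classical
  set e : ℝ := min ε 1 with he
  have he0 : 0 < e := lt_min hε one_pos
  have he1 : e ≤ 1 := min_le_right _ _
  have hee : e ≤ ε := min_le_left _ _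
  refine ⟨e / 2, by linarith, ⌈2 / e⌉₊, fun K hK => ?_⟩
  have hK' : 1 ≤ e / 2 * K := by
    have h1 : 2 / e ≤ K := (Nat.le_ceil _).trans (by exact_mod_cast hK)
    rw [div_le_iff₀ he0] at h1
    linarith
  set N : ℕ := ⌈e / 2 * K⌉₊ with hN
  have hNle : (N : ℝ) ≤ e * K := by
    have h1 := Nat.ceil_lt_add_one (show 0 ≤ e / 2 * (K : ℝ) by linarith)
    rw [← hN] at h1
    linarith
  refine ⟨((Fintype.piFinset fun _ => range N) ×ˢ (Fintype.piFinset fun _ => range N)).filter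
    (fun q => (ord q.1 q.2 : ℝ) < e / 2 * K), fun A B => ?_, ?_⟩
  · simp only [Finset.mem_filter, Finset.mem_product, Fintype.mem_piFinset, Finset.mem_range]
    refine ⟨fun h => h.2, fun h => ⟨?_, h⟩⟩
    have h1 : ord A B < N := by
      rw [hN]; exact Nat.lt_ceil.2 h
    have h2 : ∀ i, A i + B i ≤ ord A B := fun i =>
      Finset.single_le_sum (f := fun i => A i + B i) (fun j _ => Nat.zero_le _) (Finset.mem_univ i)
    exact ⟨fun i => by have := h2 i; omega, fun i => by have := h2 i; omega⟩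
  · have h1 : (((Fintype.piFinset fun _ : Fin g => range N) ×ˢ
        (Fintype.piFinset fun _ : Fin g => range N)).filter
        (fun q => (ord q.1 q.2 : ℝ) < e / 2 * K)).card ≤ N ^ g * N ^ g := by
      refine (Finset.card_filter_le _ _).trans ?_
      rw [Finset.card_product, Fintype.card_piFinset]
      simp
    have h2 : (Fintype.card ((Fin g → Fin K) × (Fin g → Fin K)) : ℝ) = (K : ℝ) ^ g * (K : ℝ) ^ g := by
      rw [Fintype.card_prod]; simp
    rw [h2]
    have hKn : (0 : ℝ) ≤ K := Nat.cast_nonneg K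
    calc ((((Fintype.piFinset fun _ : Fin g => range N) ×ˢ
        (Fintype.piFinset fun _ : Fin g => range N)).filter
        (fun q => (ord q.1 q.2 : ℝ) < e / 2 * K)).card : ℝ) ≤ ((N ^ g * N ^ g : ℕ) : ℝ) := by
          exact_mod_cast h1
      _ = (N : ℝ) ^ g * (N : ℝ) ^ g := by push_cast; ring
      _ ≤ (e * K) ^ g * (e * K) ^ g := by gcongr
      _ = (e ^ g * e ^ g) * (K ^ g * K ^ g) := by rw [mul_pow]; ring
      _ ≤ ε * ((K : ℝ) ^ g * (K : ℝ) ^ g) := by
          have h3 : e ^ g * e ^ g ≤ ε := by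
            have h4 : e ^ g ≤ e := by
              calc e ^ g ≤ e ^ 1 := pow_le_pow_of_le_one he0.le he1 hg
                _ = e := pow_one e
            have h5 : e ^ g ≤ 1 := pow_le_one₀ he0.le he1
            have h6 : 0 ≤ e ^ g := by positivity
            nlinarith
          gcongr

end Pool.Agent.RHK
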