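import Pool.Agent.RHK.JRG
import Pool.Agent.RHK.CoreMk

/-!
# Project RHK, ARITH: assembly
-/

set_option autoImplicit false

namespace Pool.Agent.RHK

open Complex Finset MvPolynomial

theorem all_fin (g N : ℕ) : ∃ s : Finset ((Fin g → ℕ) × (Fin g → ℕ)),
    ∀ A B, (A, B) ∈ s ↔ ord A B ≤ N := by
  classical
  refine ⟨((Fintype.piFinset fun _ => range (N + 1)) ×ˢ
    (Fintype.piFinset fun _ => range (N + 1))).filter (fun q => ord q.1 q.2 ≤ N), ?_⟩
  intro A B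
  have hA : ∀ i, A i ≤ ord A B := by
    intro i
    unfold ord
    calc A i ≤ A i + B i := Nat.le_add_right _ _
      _ ≤ _ := single_le_sum (f := fun i => A i + B i) (fun _ _ => Nat.zero_le _) (mem_univ i)
  have hB : ∀ i, B i ≤ ord A B := by
    intro i
    unfold ord
    calc B i ≤ A i + B i := Nat.le_add_left _ _
      _ ≤ _ := single_le_sum (f := fun i => A i + B i) (fun _ _ => Nat.zero_le _) (mem_univ i)
  simp only [mem_filter, mem_product, Fintype.mem_piFinset, mem_range]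
  constructor
  · rintro ⟨-, h⟩; exact h
  · intro h
    exact ⟨⟨fun i => by have := hA i; omega, fun i => by have := hB i; omega⟩, h⟩

/-- the tuple of all numbers in play -/
theorem exists_tuple {σ : Type} [Fintype σ] (y : σ → ℂ) : ∃ (m : ℕ) (x : Fin m → ℂ)
    (j : σ → Fin m), (∀ s, x (j s) = y s) ∧ ∀ i, ∃ s, x i = y s := by
  refine ⟨Fintype.card σ, fun i => y ((Fintype.equivFin σ).symm i), Fintype.equivFin σ, ?_, ?_⟩
  · intro s; simp
  · intro i; exact ⟨_, rfl⟩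

/-- the two weights of a function -/
theorem prod_bound {g : ℕ} (v1 v2 : Fin g → ℝ) (hv1 : ∀ i, 0 < v1 i) (hv2 : ∀ i, 0 < v2 i) :
    ∃ C : ℝ, 0 ≤ C ∧ ∀ (K : ℕ) (m l : Fin g → Fin K),
      (∏ i, v1 i ^ (m i : ℕ)) * (∏ i, v2 i ^ (l i : ℕ)) ≤ Real.exp (C * K) ∧
      Real.exp (-(C * K)) ≤ (∏ i, v1 i ^ (m i : ℕ)) * (∏ i, v2 i ^ (l i : ℕ)) := by
  obtain ⟨C1, hC1, h1⟩ := scale_bound v1 hv1
  obtain ⟨C2, hC2, h2⟩ := scale_bound v2 hv2
  refine ⟨(C1 + C2) * g, by positivity, ?_⟩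
  intro K m l
  have hs : ∀ m : Fin g → Fin K, (ord (fun i => (m i : ℕ)) 0 : ℝ) ≤ g * K := by
    intro m
    have : ord (fun i => (m i : ℕ)) 0 ≤ g * K := by
      unfold ord
      calc ∑ i, ((m i : ℕ) + (0 : Fin g → ℕ) i) ≤ ∑ _i : Fin g, K :=
            sum_le_sum (fun i _ => by simp)
        _ = g * K := by simp
    exact_mod_cast this
  have a1 := h1 (fun i => (m i : ℕ)) 0
  have a2 := h2 (fun i => (l i : ℕ)) 0
  simp only [Pi.zero_apply, pow_zero, prod_const_one, mul_one] at a1 a2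
  have p1 : 0 < ∏ i, v1 i ^ (m i : ℕ) := prod_pos (fun i _ => pow_pos (hv1 i) _)
  have p2 : 0 < ∏ i, v2 i ^ (l i : ℕ) := prod_pos (fun i _ => pow_pos (hv2 i) _)
  have b1 : C1 * (ord (fun i => (m i : ℕ)) 0 : ℝ) ≤ C1 * (g * K) :=
    mul_le_mul_of_nonneg_left (hs m) hC1
  have b2 : C2 * (ord (fun i => (l i : ℕ)) 0 : ℝ) ≤ C2 * (g * K) :=
    mul_le_mul_of_nonneg_left (hs l) hC2
  constructor
  · calc (∏ i, v1 i ^ (m i : ℕ)) * (∏ i, v2 i ^ (l i : ℕ))
        ≤ Real.exp (C1 * (g * K)) * Real.exp (C2 * (g * K)) :=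
          mul_le_mul (a1.1.trans (Real.exp_le_exp.2 b1)) (a2.1.trans (Real.exp_le_exp.2 b2))
            p2.le (Real.exp_pos _).le
      _ = Real.exp ((C1 + C2) * g * K) := by rw [← Real.exp_add]; ring_nf
  · calc Real.exp (-((C1 + C2) * g * K))
        = Real.exp (-(C1 * (g * K))) * Real.exp (-(C2 * (g * K))) := by
          rw [← Real.exp_add]; ring_nf
      _ ≤ _ := mul_le_mul ((Real.exp_le_exp.2 (by linarith)).trans a1.2)
            ((Real.exp_le_exp.2 (by linarith)).trans a2.2) (Real.exp_pos _).le p1.le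

theorem est_main (hcore : CoreEst) {g m q1 q2 : ℕ} (Y : Finset (Fin g)) (hY : Y.Nonempty)
    (v1 v2 κ1 κ2 : Fin g → ℝ) {s1 s2 : (Fin g → ℂ) → ℂ} (O : AddSubgroup (Fin g → ℂ))
    (hv1 : ∀ i, 0 < v1 i) (hv2 : ∀ i, 0 < v2 i) (hk1 : ∀ i, 0 < κ1 i) (hk2 : ∀ i, 0 < κ2 i)
    (h1 : Differentiable ℂ s1) (h2 : Differentiable ℂ s2) (n1 : ∃ z, s1 z ≠ 0)
    (n2 : ∃ z, s2 z ≠ 0) (o1 : ∀ u ∈ O, QPn (fun z => s1 (fun i => v1 i * z i)) κ1 u)
    (o2 : ∀ u ∈ O, QPn (fun z => s2 (fun i => v2 i * z i)) κ2 (swu Y u))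
    (hcov : CovG (O : Set (Fin g → ℂ)))
    (w1 : Fin q1 → ℂ) (w2 : Fin q2 → ℂ) (C1 C2 : ℝ) (a1 : AT w1 C1 s1) (a2 : AT w2 C2 s2)
    (x : Fin m → ℂ) (jc ji ja jb : Fin g → Fin m) (j1 : Fin q1 → Fin m) (j2 : Fin q2 → Fin m)
    (hc : ∀ i, x (jc i) = ((cc Y v1 v2 i : ℝ) : ℂ))
    (hi : ∀ i, x (ji i) = (((cc Y v1 v2 i)⁻¹ : ℝ) : ℂ))
    (ha : ∀ i, x (ja i) = ((κ1 i / Real.pi : ℝ) : ℂ))
    (hb : ∀ i, x (jb i) = ((κ2 i / Real.pi : ℝ) : ℂ))
    (hw1 : ∀ i, x (j1 i) = w1 i) (hw2 : ∀ i, x (j2 i) = w2 i) :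
    Est x (1 + (g : ℝ) / Y.card) 4 := by
  classical
  intro ε hε
  have hg : 0 < g := by
    obtain ⟨i, _⟩ := hY
    exact lt_of_le_of_lt (Nat.zero_le _) i.2
  have hYc : 0 < (Y.card : ℝ) := by exact_mod_cast hY.card_pos
  have hr : 1 < 1 + (g : ℝ) / Y.card := by
    have : 0 < (g : ℝ) / Y.card := div_pos (by exact_mod_cast hg) hYc
    linarith
  set r : ℝ := 1 + (g : ℝ) / Y.card with hrdef
  obtain ⟨CJ, hCJ, hJ⟩ := JR_GG Y (cc Y v1 v2) (fun k => κ1 k / Real.pi) (fun k => κ2 k / Real.pi)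
    h1 h2 w1 w2 C1 C2 a1 a2 x jc ji ja jb j1 j2 hc hi ha hb hw1 hw2
  obtain ⟨Cs, hCs, hs⟩ := scale_bound v1 hv1
  obtain ⟨Cp, hCp, hp⟩ := prod_bound v1 v2 hv1 hv2
  obtain ⟨ε1, hε1, K1, hsm⟩ := small_card g hg ε hε
  obtain ⟨c, cY, ca, cb, cT1, cT2⟩ := exists_core Y v1 v2 κ1 κ2 s1 s2 O hY hv1 hv2 hk1 hk2 h1 h2
    n1 n2 o1 o2 hcov
  obtain ⟨K2, hK2, hest⟩ := hcore (Fin g) c ε1 hε1
  obtain ⟨K3, hK3, hlarge⟩ := large_K (CJ + Cs + Cp) r (by positivity) hr
  have htend : Filter.Tendsto (fun K : ℕ => Real.log (K : ℝ)) Filter.atTop Filter.atTop :=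
    Real.tendsto_log_atTop.comp tendsto_natCast_atTop_atTop
  obtain ⟨K4, hK4⟩ := Filter.eventually_atTop.1 (htend.eventually_ge_atTop ε1)
  refine ⟨K1 + K2 + K3 + K4 + 2 * g, ?_⟩
  intro K hK
  obtain ⟨hL1, hlA, hlB, hlC⟩ := hlarge K (by omega)
  have hKε : ε1 ≤ Real.log K := hK4 K (by omega)
  obtain ⟨smallS, hsmall1, hsmall2⟩ := hsm K (by omega)
  have hEst := hest K (by omega)
  have hcardι : (Fintype.card (Fin g) : ℝ) = g := by simp
  rw [cY, hcardι, ← hrdef] at hEst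
  have hKpos : (0 : ℝ) < K := by
    have : 0 < K := by omega
    exact_mod_cast this
  have hKL0 : 0 ≤ (K : ℝ) * Real.log K := by positivity
  set N : ℕ := ⌊(K : ℝ) * Real.log K⌋₊ with hNdef
  have hN1 : (N : ℝ) ≤ K * Real.log K := Nat.floor_le hKL0
  obtain ⟨D, hD, hDle, hDJ⟩ := hJ K N (by omega)
  have hDpos : (0 : ℝ) < D := by exact_mod_cast hD
  have hD1 : (1 : ℝ) ≤ D := by exact_mod_cast hD
  -- the size
  have hsz : CJ * (N + K + 1) * Real.log (N + K + 2) ^ 2 ≤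
      (CJ + Cs + Cp) * (K * Real.log K + K + 1) * Real.log (K * Real.log K + K + 2) ^ 2 := by
    have e0 : (0 : ℝ) ≤ N := Nat.cast_nonneg N
    have e1 : Real.log (N + K + 2) ≤ Real.log (K * Real.log K + K + 2) :=
      Real.log_le_log (by positivity) (by linarith)
    have e2 : 0 ≤ Real.log ((N : ℝ) + K + 2) := Real.log_nonneg (by linarith)
    have e3 : CJ * (N + K + 1) ≤ (CJ + Cs + Cp) * (K * Real.log K + K + 1) :=
      mul_le_mul (by linarith) (by linarith) (by positivity) (by positivity)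
    exact mul_le_mul e3 (pow_le_pow_left₀ e2 e1 2) (by positivity) (by positivity)
  set L : ℝ := Real.log K with hLdef
  have hCKL : (CJ + Cs + Cp) * K * L + K * L ^ 3 ≤ K * L ^ 4 := by
    have : 0 ≤ (CJ + Cs + Cp) * (K * L + K + 1) * Real.log (K * L + K + 2) ^ 2 := by positivity
    linarith
  have hCsKL : Cs * (K * L) + K * L ^ 3 ≤ K * L ^ 4 := by
    have : 0 ≤ (CJ + Cp) * (K * L) := by positivity
    nlinarith
  have hCpK : Cp * K + K * L ^ 3 ≤ K * L ^ 4 := by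
    have a : 0 ≤ (CJ + Cs) * (K * L) := by positivity
    have b : Cp * K ≤ Cp * (K * L) := by
      have : (K : ℝ) ≤ K * L := by nlinarith
      exact mul_le_mul_of_nonneg_left this hCp
    nlinarith
  have hn0 : CJ * (N + K + 1) * Real.log (N + K + 2) ^ 2 ≤ K * L ^ 4 := by
    have : 0 ≤ (CJ + Cs + Cp) * K * L + K * L ^ 3 := by positivity
    linarith
  set n0 : ℝ := CJ * (N + K + 1) * Real.log (N + K + 2) ^ 2 with hn0def
  have hn0pos : 0 ≤ n0 := by positivity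
  -- the polynomials
  have hP : ∀ (A : (Fin g → ℕ) × (Fin g → ℕ)) (k : (Fin g → Fin K) × (Fin g → Fin K)),
      ∃ P : MvPolynomial (Fin m) ℤ, Bd n0 P ∧ (ord A.1 A.2 ≤ N →
        (D : ℂ) * jet (GG Y (cc Y v1 v2) (fun k => κ1 k / Real.pi) (fun k => κ2 k / Real.pi) s1 s2
          (fun i => (k.1 i : ℕ)) (fun i => (k.2 i : ℕ))) A.1 A.2 = aeval x P) := by
    intro A k
    by_cases hA : ord A.1 A.2 ≤ N
    · obtain ⟨P, hP1, hP2⟩ := hDJ (fun i => (k.1 i : ℕ)) (fun i => (k.2 i : ℕ))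
        (fun i => (k.1 i).2) (fun i => (k.2 i).2) A.1 A.2 hA
      exact ⟨P, hP1, fun _ => hP2⟩
    · refine ⟨0, ⟨?_, ?_⟩, fun h => absurd h hA⟩
      · simpa using hn0pos
      · rw [L1_zero]; exact (Real.exp_pos _).le
  choose t ht1 ht2 using hP
  -- the factors
  have hρpos : ∀ k : (Fin g → Fin K) × (Fin g → Fin K),
      0 < (∏ i, v1 i ^ (k.1 i : ℕ)) * (∏ i, v2 i ^ (k.2 i : ℕ)) := fun k =>
    mul_pos (prod_pos (fun i _ => pow_pos (hv1 i) _)) (prod_pos (fun i _ => pow_pos (hv2 i) _))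
  set ρ : (Fin g → Fin K) × (Fin g → Fin K) → ℝ :=
    fun k => (∏ i, v1 i ^ (k.1 i : ℕ)) * (∏ i, v2 i ^ (k.2 i : ℕ)) with hρdef
  have hρne : ∀ k, ((ρ k : ℝ) : ℂ) ≠ 0 := fun k => by
    exact_mod_cast (hρpos k).ne'
  set Λ : (Fin g → ℕ) × (Fin g → ℕ) → ℝ :=
    fun A => (∏ i, v1 i ^ A.1 i) * (∏ i, (Real.pi / v1 i) ^ A.2 i) with hΛdef
  have hΛpos : ∀ A, 0 < Λ A := fun A =>
    mul_pos (prod_pos (fun i _ => pow_pos (hv1 i) _))
      (prod_pos (fun i _ => pow_pos (div_pos Real.pi_pos (hv1 i)) _))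
  set pq : ((Fin g → Fin K) × (Fin g → Fin K) → ℂ) → (Fin g → Fin K) → (Fin g → Fin K) → ℂ :=
    fun q m' l' => q (m', l') / ((ρ (m', l') : ℝ) : ℂ) with hpq
  have hjet : ∀ (q : (Fin g → Fin K) × (Fin g → Fin K) → ℂ) (A : (Fin g → ℕ) × (Fin g → ℕ)),
      ord A.1 A.2 ≤ N → (D : ℂ) * jet (c.f (pq q)) A.1 A.2 =
        ((Λ A : ℝ) : ℂ) * ∑ k, q k * aeval x (t A k) := by
    intro q A hA
    have e1 : jet (c.f (pq q)) A.1 A.2 = ((Λ A : ℝ) : ℂ) *
        ∑ k : (Fin g → Fin K) × (Fin g → Fin K), q k *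
          jet (GG Y (cc Y v1 v2) (fun k => κ1 k / Real.pi) (fun k => κ2 k / Real.pi) s1 s2
          (fun i => (k.1 i : ℕ)) (fun i => (k.2 i : ℕ))) A.1 A.2 := by
      unfold CoreG.f
      rw [cY, ca, cb, cT1, cT2, jet_ff Y v1 v2 κ1 κ2 hv1 hv2 h1 h2 (pq q) A.1 A.2,
        Fintype.sum_prod_type]
      congr 1
      · rw [hΛdef]; push_cast; rfl
      · apply sum_congr rfl; intro m' _
        apply sum_congr rfl; intro l' _
        congr 1
        have : ((∏ i, (v1 i : ℂ) ^ (m' i : ℕ)) * ∏ i, (v2 i : ℂ) ^ (l' i : ℕ)) =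
            ((ρ (m', l') : ℝ) : ℂ) := by rw [hρdef]; push_cast; rfl
        rw [this, hpq]
        exact div_mul_cancel₀ _ (hρne _)
    rw [e1, mul_left_comm, mul_sum]
    congr 1
    apply sum_congr rfl
    intro k _
    rw [← ht2 A k hA]; ring
  have hXi : ∀ (q : (Fin g → Fin K) × (Fin g → Fin K) → ℂ) (A : (Fin g → ℕ) × (Fin g → ℕ)),
      ord A.1 A.2 ≤ N → D * ‖jet (c.f (pq q)) A.1 A.2‖ =
        Λ A * ‖∑ k, q k * aeval x (t A k)‖ := by
    intro q A hA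
    have := congrArg norm (hjet q A hA)
    rw [norm_mul, norm_mul, Complex.norm_natCast, Complex.norm_real, Real.norm_of_nonneg
      (hΛpos A).le] at this
    exact this
  obtain ⟨allS, hall⟩ := all_fin g N
  have hordN : ∀ A B : Fin g → ℕ, ord A B ≤ N ↔ (ord A B : ℝ) ≤ K * L := by
    intro A B
    exact (Nat.le_floor_iff hKL0)
  have hΛle : ∀ A : (Fin g → ℕ) × (Fin g → ℕ), ord A.1 A.2 ≤ N →
      Λ A ≤ Real.exp (Cs * (K * L)) ∧ Real.exp (-(Cs * (K * L))) ≤ Λ A := by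
    intro A hA
    have h := hs A.1 A.2
    have hb : Cs * (ord A.1 A.2 : ℝ) ≤ Cs * (K * L) :=
      mul_le_mul_of_nonneg_left ((hordN _ _).1 hA) hCs
    exact ⟨h.1.trans (Real.exp_le_exp.2 hb), (Real.exp_le_exp.2 (by linarith)).trans h.2⟩
  have : Nonempty (Fin K) := ⟨⟨0, by omega⟩⟩
  refine ⟨(Fin g → Fin K) × (Fin g → Fin K), (Fin g → ℕ) × (Fin g → ℕ), inferInstance, smallS,
    allS, t, fun q => c.S (pq q) 0, ?_, hsmall2, Fintype.card_pos, ?_, ?_, ?_⟩
  · rintro ⟨A, B⟩ hAB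
    rw [hall, hordN]
    have := (hsmall1 A B).1 hAB
    have h2 : ε1 * K ≤ K * L := by nlinarith
    linarith
  · -- cardinality
    have e1 : (Fintype.card ((Fin g → Fin K) × (Fin g → Fin K)) : ℝ) = (K : ℝ) ^ (2 * g) := by
      simp only [Fintype.card_prod, Fintype.card_fun, Fintype.card_fin]
      push_cast
      ring
    rw [e1, ← Real.exp_log (pow_pos hKpos (2 * g)), Real.log_pow]
    apply Real.exp_le_exp.2
    have e2 : ((2 * g : ℕ) : ℝ) ≤ K := by exact_mod_cast (by omega : 2 * g ≤ K)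
    calc ((2 * g : ℕ) : ℝ) * Real.log K ≤ K * L := mul_le_mul_of_nonneg_right e2 (by linarith)
      _ ≤ K * L ^ 4 := by
        apply mul_le_mul_of_nonneg_left _ hKpos.le
        calc L = L ^ 1 := (pow_one L).symm
          _ ≤ L ^ 4 := pow_le_pow_right₀ hL1 (by norm_num)
  · intro A _ k
    exact (ht1 A k).mono hn0
  · intro q
    obtain ⟨hU1, hU2, hL, hE1, hE2⟩ := hEst (pq q)
    have hSnn : 0 ≤ c.S (pq q) 0 := by
      obtain ⟨k⟩ : Nonempty ((Fin g → Fin K) × (Fin g → Fin K)) := inferInstance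
      have := hL k.1 k.2
      by_contra hneg
      push Not at hneg
      have : Real.exp ((K : ℝ) ^ r * L ^ 3) * c.S (pq q) 0 < 0 :=
        mul_neg_of_pos_of_neg (Real.exp_pos _) hneg
      linarith [norm_nonneg (pq q k.1 k.2)]
    have hpB : ∀ B : ℝ, (∀ k, ‖q k‖ ≤ B) → ∀ m' l', ‖pq q m' l'‖ ≤ B * Real.exp (Cp * K) := by
      intro B hB m' l'
      have e1 : ‖pq q m' l'‖ = ‖q (m', l')‖ / ρ (m', l') := by
        rw [hpq]
        simp only
        rw [norm_div, Complex.norm_real, Real.norm_of_nonneg (hρpos _).le]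
      rw [e1, div_le_iff₀ (hρpos _)]
      have h := (hp K m' l').2
      have hB0 : 0 ≤ B := (norm_nonneg _).trans (hB (m', l'))
      calc ‖q (m', l')‖ ≤ B := hB _
        _ = B * (Real.exp (Cp * K) * Real.exp (-(Cp * K))) := by
          rw [← Real.exp_add]; simp
        _ ≤ B * (Real.exp (Cp * K) * ρ (m', l')) := by
          apply mul_le_mul_of_nonneg_left _ hB0
          exact mul_le_mul_of_nonneg_left h (Real.exp_pos _).le
        _ = _ := by ring
    have hBnn : ∀ B : ℝ, (∀ k, ‖q k‖ ≤ B) → 0 ≤ B := by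
      intro B hB
      obtain ⟨k⟩ : Nonempty ((Fin g → Fin K) × (Fin g → Fin K)) := inferInstance
      exact (norm_nonneg _).trans (hB k)
    refine ⟨?_, ?_, ?_, ?_, ?_⟩
    · intro B hB
      have hB0 := hBnn B hB
      calc c.S (pq q) 0 ≤ B * Real.exp (Cp * K) * Real.exp (K * L ^ 3) := hU1 _ (hpB B hB)
        _ = B * Real.exp (Cp * K + K * L ^ 3) := by rw [mul_assoc, ← Real.exp_add]
        _ ≤ _ := mul_le_mul_of_nonneg_left (Real.exp_le_exp.2 hCpK) hB0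
    · rintro ⟨A, B⟩ hAB
      have hN' := (hall A B).1 hAB
      have h2 := hU2 A B ((hordN A B).1 hN')
      have h3 := hXi q (A, B) hN'
      have h4 := (hΛle (A, B) hN').2
      have h5 : ‖∑ k, q k * aeval x (t (A, B) k)‖ = D * ‖jet (c.f (pq q)) A B‖ / Λ (A, B) := by
        rw [h3]; field_simp [(hΛpos (A, B)).ne']
      rw [h5, div_le_iff₀ (hΛpos _)]
      have hDle' : (D : ℝ) ≤ Real.exp n0 := hDle
      calc (D : ℝ) * ‖jet (c.f (pq q)) A B‖
          ≤ Real.exp n0 * (Real.exp (K * L ^ 3) * c.S (pq q) 0) :=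
            mul_le_mul hDle' h2 (norm_nonneg _) (Real.exp_pos _).le
        _ = Real.exp (n0 + Cs * (K * L) + K * L ^ 3) * c.S (pq q) 0 *
            Real.exp (-(Cs * (K * L))) := by
          have : Real.exp n0 * (Real.exp (K * L ^ 3) * c.S (pq q) 0) =
            Real.exp (n0 + K * L ^ 3) * c.S (pq q) 0 := by rw [Real.exp_add]; ring
          rw [this, mul_right_comm, ← Real.exp_add]
          ring_nf
        _ ≤ Real.exp (K * L ^ 4) * c.S (pq q) 0 * Λ (A, B) := by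
          apply mul_le_mul _ h4 (Real.exp_pos _).le (by positivity)
          apply mul_le_mul_of_nonneg_right _ hSnn
          apply Real.exp_le_exp.2
          have : 0 ≤ (CJ + Cp) * (K * L) := by positivity
          nlinarith
    · intro k
      have h := hL k.1 k.2
      have e1 : ‖q k‖ = ‖pq q k.1 k.2‖ * ρ k := by
        rw [hpq]
        simp only
        rw [norm_div, Complex.norm_real, Real.norm_of_nonneg (hρpos _).le]
        exact (div_mul_cancel₀ _ (hρpos _).ne').symm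
      rw [e1]
      have hr1 := (hp K k.1 k.2).1
      calc ‖pq q k.1 k.2‖ * ρ k
          ≤ (Real.exp ((K : ℝ) ^ r * L ^ 3) * c.S (pq q) 0) * Real.exp (Cp * K) :=
            mul_le_mul h hr1 (hρpos _).le (by positivity)
        _ = Real.exp ((K : ℝ) ^ r * L ^ 3 + Cp * K) * c.S (pq q) 0 := by
          rw [Real.exp_add]; ring
        _ ≤ _ := by
          apply mul_le_mul_of_nonneg_right _ hSnn
          apply Real.exp_le_exp.2
          -- `Cp ≤ L^4 - L^3`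
          have h6 : Cp + L ^ 3 ≤ L ^ 4 := by
            have : K * (Cp + L ^ 3) ≤ K * L ^ 4 := by linarith
            exact le_of_mul_le_mul_left this hKpos
          have h7 : 0 ≤ (K : ℝ) ^ r := by positivity
          nlinarith
    · intro B hB hsmall
      have hB0 := hBnn B hB
      have h6 := hE1 (B * Real.exp (Cp * K)) (hpB B hB) (by
        intro A A' hAA
        have hmem := (hsmall1 A A').2 hAA
        have hN' : ord A A' ≤ N := by
          rw [hordN]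
          have h2 : ε1 * K ≤ K * L := by nlinarith
          linarith
        have h7 := hsmall (A, A') hmem
        have h3 := hXi q (A, A') hN'
        have h4 := (hΛle (A, A') hN').1
        have h8 : ‖jet (c.f (pq q)) A A'‖ ≤ D * ‖jet (c.f (pq q)) A A'‖ := by
          have := norm_nonneg (jet (c.f (pq q)) A A')
          nlinarith
        calc ‖jet (c.f (pq q)) A A'‖ ≤ D * ‖jet (c.f (pq q)) A A'‖ := h8
          _ = Λ (A, A') * ‖∑ k, q k * aeval x (t (A, A') k)‖ := h3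
          _ ≤ Real.exp (Cs * (K * L)) * (Real.exp (-(K * L ^ 4)) * c.S (pq q) 0) :=
            mul_le_mul h4 h7 (norm_nonneg _) (Real.exp_pos _).le
          _ = Real.exp (Cs * (K * L) - K * L ^ 4) * c.S (pq q) 0 := by
            rw [← mul_assoc, ← Real.exp_add]; ring_nf
          _ ≤ _ := by
            apply mul_le_mul_of_nonneg_right _ hSnn
            exact Real.exp_le_exp.2 (by linarith))
      calc c.S (pq q) 0 ≤ B * Real.exp (Cp * K) * Real.exp (-((K : ℝ) ^ r / L)) := h6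
        _ = B * Real.exp (Cp * K - (K : ℝ) ^ r / L) := by
          rw [mul_assoc, ← Real.exp_add]; ring_nf
        _ ≤ _ := by
          apply mul_le_mul_of_nonneg_left _ hB0
          apply Real.exp_le_exp.2
          have : 0 ≤ (CJ + Cs) * K := by positivity
          linarith
    · obtain ⟨A, B, hAB, h⟩ := hE2
      have hN' := (hordN A B).2 hAB
      refine ⟨(A, B), (hall A B).2 hN', ?_⟩
      have h3 := hXi q (A, B) hN'
      have h4 := (hΛle (A, B) hN').1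
      have h5 : ‖∑ k, q k * aeval x (t (A, B) k)‖ = D * ‖jet (c.f (pq q)) A B‖ / Λ (A, B) := by
        rw [h3]; field_simp [(hΛpos (A, B)).ne']
      rw [h5, le_div_iff₀ (hΛpos _)]
      calc Real.exp (-(K * L ^ 4)) * c.S (pq q) 0 * Λ (A, B)
          ≤ Real.exp (-(K * L ^ 4)) * c.S (pq q) 0 * Real.exp (Cs * (K * L)) :=
            mul_le_mul_of_nonneg_left h4 (by positivity)
        _ = Real.exp (Cs * (K * L) - K * L ^ 4) * c.S (pq q) 0 := by
          rw [mul_right_comm, ← Real.exp_add]; ring_nf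
        _ ≤ Real.exp (-(K * L ^ 3)) * c.S (pq q) 0 := by
          apply mul_le_mul_of_nonneg_right _ hSnn
          exact Real.exp_le_exp.2 (by linarith)
        _ ≤ ‖jet (c.f (pq q)) A B‖ := h
        _ ≤ D * ‖jet (c.f (pq q)) A B‖ := by
          have := norm_nonneg (jet (c.f (pq q)) A B)
          nlinarith

theorem arith_of (hcore : CoreEst) (hpig : PigForm) (hcrit : CritForm) : ArithForm := by
  intro g Y v1 v2 κ1 κ2 s1 s2 O hY hv1 hv2 hk1 hk2 hα1 hα2 h1 h2 n1 n2 t1 t2 o1 o2 hcov k θ hθ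
  obtain ⟨q1, w1, C1, hw1, hC1, ht1⟩ := t1
  obtain ⟨q2, w2, C2, hw2, hC2, ht2⟩ := t2
  have hg : 0 < g := by
    obtain ⟨i, _⟩ := hY
    exact lt_of_le_of_lt (Nat.zero_le _) i.2
  have hYc : 0 < (Y.card : ℝ) := by exact_mod_cast hY.card_pos
  have hr : 1 < 1 + (g : ℝ) / Y.card := by
    have : 0 < (g : ℝ) / Y.card := div_pos (by exact_mod_cast hg) hYc
    linarith
  let y : Fin g ⊕ Fin g ⊕ Fin g ⊕ Fin g ⊕ Fin q1 ⊕ Fin q2 → ℂ := fun s =>
    match s with
    | Sum.inl i => ((cc Y v1 v2 i : ℝ) : ℂ)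
    | Sum.inr (Sum.inl i) => (((cc Y v1 v2 i)⁻¹ : ℝ) : ℂ)
    | Sum.inr (Sum.inr (Sum.inl i)) => ((κ1 i / Real.pi : ℝ) : ℂ)
    | Sum.inr (Sum.inr (Sum.inr (Sum.inl i))) => ((κ2 i / Real.pi : ℝ) : ℂ)
    | Sum.inr (Sum.inr (Sum.inr (Sum.inr (Sum.inl i)))) => w1 i
    | Sum.inr (Sum.inr (Sum.inr (Sum.inr (Sum.inr i)))) => w2 i
  obtain ⟨m, x, j, hj, hx⟩ := exists_tuple y
  have hest : Est x (1 + (g : ℝ) / Y.card) 4 :=
    est_main hcore Y hY v1 v2 κ1 κ2 O hv1 hv2 hk1 hk2 h1 h2 n1 n2 o1 o2 hcov w1 w2 C1 C2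
      ⟨hC1, ht1⟩ ⟨hC2, ht2⟩ x (fun i => j (Sum.inl i)) (fun i => j (Sum.inr (Sum.inl i)))
      (fun i => j (Sum.inr (Sum.inr (Sum.inl i))))
      (fun i => j (Sum.inr (Sum.inr (Sum.inr (Sum.inl i)))))
      (fun i => j (Sum.inr (Sum.inr (Sum.inr (Sum.inr (Sum.inl i))))))
      (fun i => j (Sum.inr (Sum.inr (Sum.inr (Sum.inr (Sum.inr i))))))
      (fun i => hj _) (fun i => hj _) (fun i => hj _) (fun i => hj _) (fun i => hj _)
      (fun i => hj _)
  obtain ⟨e', htwo⟩ := hpig m x _ 4 hr hest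
  have hQ : ∀ z : ℂ, IsAlgebraic ℚ z →
      IsAlgebraic (IntermediateField.adjoin ℚ (Set.range θ)) z :=
    fun z hz => hz.tower_top _
  have hreal : ∀ a : ℝ, IsAlgebraic ℚ a → IsAlgebraic ℚ (a : ℂ) := fun a ha =>
    ha.algebraMap (A := ℂ)
  have hall : ∀ i, IsAlgebraic (IntermediateField.adjoin ℚ (Set.range θ)) (x i) := by
    intro i
    obtain ⟨s, hs⟩ := hx i
    rw [hs]
    match s with
    | Sum.inl i => exact hθ i
    | Sum.inr (Sum.inl i) =>
      change IsAlgebraic _ (((cc Y v1 v2 i)⁻¹ : ℝ) : ℂ)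
      rw [Complex.ofReal_inv]
      exact (hθ i).inv
    | Sum.inr (Sum.inr (Sum.inl i)) => exact hQ _ (hreal _ (hα1 i))
    | Sum.inr (Sum.inr (Sum.inr (Sum.inl i))) => exact hQ _ (hreal _ (hα2 i))
    | Sum.inr (Sum.inr (Sum.inr (Sum.inr (Sum.inl i)))) => exact hQ _ (hw1 i)
    | Sum.inr (Sum.inr (Sum.inr (Sum.inr (Sum.inr i)))) => exact hQ _ (hw2 i)
  have := hcrit m x _ e' hr htwo k θ hall
  linarith

end Pool.Agent.RHK
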