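import Pool.Agent.RHK.Ent

/-!
# Project RHK, MV: entire functions are smooth; `dz`, `dw`, `opA` preserve entire functions and commute
-/

set_option autoImplicit false

namespace Pool.Agent.RHK

open Complex Finset

/-- Induction on `n` with `ent_fderiv` and `contDiff_succ_iff_fderiv_apply` (finite dimension). -/
theorem ent_contDiff {X : Type} [NormedAddCommGroup X] [NormedSpace ℂ X] [FiniteDimensional ℂ X]
    {Φ : X → ℂ} (h : Differentiable ℂ Φ) (n : ℕ) : ContDiff ℂ n Φ := by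
  induction n generalizing Φ with
  | zero =>
    rw [Nat.cast_zero]
    exact contDiff_zero.2 h.continuous
  | succ n ih =>
    rw [Nat.cast_add, Nat.cast_one]
    refine contDiff_succ_iff_fderiv_apply.2 ⟨h, ?_, fun y => ih (ent_fderiv h y)⟩
    intro hn
    exact absurd hn (by simp)

private theorem entc_comm {X : Type} [NormedAddCommGroup X] [NormedSpace ℂ X]
    [FiniteDimensional ℂ X] {Φ : X → ℂ} (h : Differentiable ℂ Φ) (a b v : X) :
    fderiv ℂ (fun v => fderiv ℂ Φ v a) v b = fderiv ℂ (fun v => fderiv ℂ Φ v b) v a := by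
  have h2 : ContDiff ℂ 2 Φ := ent_contDiff h 2
  have hd : Differentiable ℂ (fderiv ℂ Φ) := (h2.fderiv_right (m := 1) le_rfl).differentiable
    (by norm_num)
  have e : ∀ c d : X, fderiv ℂ (fun v => fderiv ℂ Φ v c) v d = fderiv ℂ (fderiv ℂ Φ) v d c := by
    intro c d
    have h3 : HasFDerivAt (fun v => fderiv ℂ Φ v c)
        ((fderiv ℂ (fderiv ℂ Φ) v).flip c) v := by
      have h4 := (hd v).hasFDerivAt.clm_apply (hasFDerivAt_const c v)
      simpa using h4
    rw [h3.fderiv]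
    rfl
  rw [e, e]
  exact (h2.contDiffAt.isSymmSndFDerivAt (by simp)) b a

variable {ι : Type} [Fintype ι] [DecidableEq ι]

theorem ent_dz (i : ι) {Φ : VV ι → ℂ} (h : Differentiable ℂ Φ) : Differentiable ℂ (dz i Φ) :=
  ent_fderiv h _

theorem ent_dw (i : ι) {Φ : VV ι → ℂ} (h : Differentiable ℂ Φ) : Differentiable ℂ (dw i Φ) :=
  ent_fderiv h _

omit [DecidableEq ι] in
private theorem entc_w (j : ι) : Differentiable ℂ (fun v : VV ι => v.2 j) := by
  fun_prop

theorem ent_opA (a : ι → ℝ) (i : ι) {Φ : VV ι → ℂ} (h : Differentiable ℂ Φ) :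
    Differentiable ℂ (opA a i Φ) :=
  (ent_dz i h).sub (((entc_w i).const_mul (a i : ℂ)).mul h)

/-- Symmetry of the second derivative (`ContDiffAt.isSymmSndFDerivAt`),
`fderiv (fun v => fderiv Φ v a) v b = fderiv (fderiv Φ) v b a`. -/
theorem dz_dz (i j : ι) {Φ : VV ι → ℂ} (h : Differentiable ℂ Φ) :
    dz i (dz j Φ) = dz j (dz i Φ) := by
  funext v
  exact entc_comm h _ _ v

theorem dw_dw (i j : ι) {Φ : VV ι → ℂ} (h : Differentiable ℂ Φ) :
    dw i (dw j Φ) = dw j (dw i Φ) := by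
  funext v
  exact entc_comm h _ _ v

theorem dz_dw (i j : ι) {Φ : VV ι → ℂ} (h : Differentiable ℂ Φ) :
    dz i (dw j Φ) = dw j (dz i Φ) := by
  funext v
  exact entc_comm h _ _ v

/-! rules of differentiation -/

theorem dz_add (i : ι) {Φ Ψ : VV ι → ℂ} (h : Differentiable ℂ Φ) (h' : Differentiable ℂ Ψ) :
    dz i (fun v => Φ v + Ψ v) = fun v => dz i Φ v + dz i Ψ v := by
  funext v
  unfold dz
  rw [fderiv_fun_add (h v) (h' v)]
  rfl

theorem dw_add (i : ι) {Φ Ψ : VV ι → ℂ} (h : Differentiable ℂ Φ) (h' : Differentiable ℂ Ψ) :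
    dw i (fun v => Φ v + Ψ v) = fun v => dw i Φ v + dw i Ψ v := by
  funext v
  unfold dw
  rw [fderiv_fun_add (h v) (h' v)]
  rfl

theorem dz_mul (i : ι) {Φ Ψ : VV ι → ℂ} (h : Differentiable ℂ Φ) (h' : Differentiable ℂ Ψ) :
    dz i (fun v => Φ v * Ψ v) = fun v => dz i Φ v * Ψ v + Φ v * dz i Ψ v := by
  funext v
  unfold dz
  rw [fderiv_fun_mul (h v) (h' v)]
  show Φ v * fderiv ℂ Ψ v _ + Ψ v * fderiv ℂ Φ v _ = _
  ring

theorem dw_mul (i : ι) {Φ Ψ : VV ι → ℂ} (h : Differentiable ℂ Φ) (h' : Differentiable ℂ Ψ) :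
    dw i (fun v => Φ v * Ψ v) = fun v => dw i Φ v * Ψ v + Φ v * dw i Ψ v := by
  funext v
  unfold dw
  rw [fderiv_fun_mul (h v) (h' v)]
  show Φ v * fderiv ℂ Ψ v _ + Ψ v * fderiv ℂ Φ v _ = _
  ring

theorem dz_const_mul (i : ι) (c : ℂ) {Φ : VV ι → ℂ} (h : Differentiable ℂ Φ) :
    dz i (fun v => c * Φ v) = fun v => c * dz i Φ v := by
  funext v
  unfold dz
  rw [((h v).hasFDerivAt.const_mul c).fderiv]
  rfl

theorem dw_const_mul (i : ι) (c : ℂ) {Φ : VV ι → ℂ} (h : Differentiable ℂ Φ) :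
    dw i (fun v => c * Φ v) = fun v => c * dw i Φ v := by
  funext v
  unfold dw
  rw [((h v).hasFDerivAt.const_mul c).fderiv]
  rfl

omit [Fintype ι] [DecidableEq ι] in
private theorem entc_coord (j : ι) (v a : VV ι) :
    fderiv ℂ (fun v : VV ι => v.2 j) v a = a.2 j := by
  have h : HasFDerivAt (fun v : VV ι => v.2 j)
      ((ContinuousLinearMap.proj j).comp (ContinuousLinearMap.snd ℂ (ι → ℂ) (ι → ℂ))) v :=
    ((ContinuousLinearMap.proj (R := ℂ) (φ := fun _ : ι => ℂ) j).comp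
      (ContinuousLinearMap.snd ℂ (ι → ℂ) (ι → ℂ))).hasFDerivAt
  rw [h.fderiv]
  rfl

theorem dz_coord_w (i j : ι) : dz i (fun v : VV ι => v.2 j) = fun _ => 0 := by
  funext v
  unfold dz
  rw [entc_coord]
  rfl

theorem dw_coord_w (i j : ι) : dw i (fun v : VV ι => v.2 j) = fun _ => if i = j then 1 else 0 := by
  funext v
  unfold dw
  rw [entc_coord]
  show (Pi.single i 1 : ι → ℂ) j = _
  rw [Pi.single_apply]
  simp only [eq_comm]

/-- the first coordinate function does not depend on `w` -/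
theorem dw_fst (i : ι) {s : (ι → ℂ) → ℂ} (h : Differentiable ℂ s) :
    dw i (fun v : VV ι => s v.1) = fun _ => 0 := by
  funext v
  unfold dw
  have h1 : HasFDerivAt (fun v : VV ι => s v.1)
      ((fderiv ℂ s v.1).comp (ContinuousLinearMap.fst ℂ (ι → ℂ) (ι → ℂ))) v :=
    (h v.1).hasFDerivAt.comp v hasFDerivAt_fst
  rw [h1.fderiv]
  show fderiv ℂ s v.1 0 = 0
  exact map_zero _

/-- `A_i A_j - A_j A_i = 0`: the coordinates `w_j` are constants for `∂_{z_i}`. -/
theorem opA_opA (a : ι → ℝ) (i j : ι) {Φ : VV ι → ℂ} (h : Differentiable ℂ Φ) :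
    opA a i (opA a j Φ) = opA a j (opA a i Φ) := by
  have key : ∀ i j : ι, dz i (opA a j Φ) =
      fun v => dz i (dz j Φ) v + (-(a j : ℂ)) * (v.2 j * dz i Φ v) := by
    intro i j
    have e : opA a j Φ = fun v => dz j Φ v + (-(a j : ℂ)) * (v.2 j * Φ v) := by
      funext v
      unfold opA
      ring
    have h1 : Differentiable ℂ (fun v : VV ι => v.2 j * Φ v) := (entc_w j).mul h
    rw [e, dz_add i (ent_dz j h) (h1.const_mul _), dz_const_mul i _ h1, dz_mul i (entc_w j) h,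
      dz_coord_w]
    funext v
    ring
  funext v
  show dz i (opA a j Φ) v - a i * v.2 i * opA a j Φ v =
    dz j (opA a i Φ) v - a j * v.2 j * opA a i Φ v
  rw [key i j, key j i, dz_dz i j h]
  show dz j (dz i Φ) v + -(a j : ℂ) * (v.2 j * dz i Φ v) -
      a i * v.2 i * (dz j Φ v - a j * v.2 j * Φ v) =
    dz j (dz i Φ) v + -(a i : ℂ) * (v.2 i * dz j Φ v) -
      a j * v.2 j * (dz i Φ v - a i * v.2 i * Φ v)
  ring

end Pool.Agent.RHK
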