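import Pool.Agent.RHK.L1

/-!
# Project RHK: the number of values of integer polynomials of bounded size

If all coordinates of `x : Fin m → ℂ` are algebraic over `ℤ[θ]`, `θ : Fin k → ℂ`, then the integer
polynomials of size at most `n` take at most `exp (C n ^ (k+1))` different values at `x`.
-/

namespace Pool.Agent.RHK

open MvPolynomial

/-- Structure constants: a finitely generated `ℤ[θ]`-module containing `1` and stable under the
multiplication by the `α(θ) x j`. -/
private theorem exists_struct {m k : ℕ} (x : Fin m → ℂ) (θ : Fin k → ℂ)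
    (hx : ∀ j, IsAlgebraic (Algebra.adjoin ℤ (Set.range θ)) (x j)) :
    ∃ (s : ℕ) (v : Fin s → ℂ) (α : MvPolynomial (Fin k) ℤ) (ε : Fin s → MvPolynomial (Fin k) ℤ)
      (ρ : Fin m → Fin s → Fin s → MvPolynomial (Fin k) ℤ),
      aeval θ α ≠ 0 ∧ (1 : ℂ) = ∑ l, aeval θ (ε l) * v l ∧
      ∀ j i, aeval θ α * x j * v i = ∑ l, aeval θ (ρ j i l) * v l := by
  classical
  have h1 : ∀ j, ∃ a : Algebra.adjoin ℤ (Set.range θ), a ≠ 0 ∧
      IsIntegral (Algebra.adjoin ℤ (Set.range θ)) (a • x j) :=
    fun j => (hx j).exists_integral_multiple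
  choose a ha0 ha using h1
  have hrep : ∀ r : Algebra.adjoin ℤ (Set.range θ), ∃ q : MvPolynomial (Fin k) ℤ,
      aeval θ q = (r : ℂ) := by
    intro r
    have hr : (r : ℂ) ∈ (aeval θ : MvPolynomial (Fin k) ℤ →ₐ[ℤ] ℂ).range := by
      rw [← Algebra.adjoin_range_eq_range_aeval]
      exact r.2
    exact hr
  have hA0 : (∏ j, a j) ≠ 0 := Finset.prod_ne_zero_iff.2 (fun j _ => ha0 j)
  have hint : ∀ j, IsIntegral (Algebra.adjoin ℤ (Set.range θ)) ((∏ i, a i) • x j) := by
    intro j
    rw [← Finset.mul_prod_erase Finset.univ a (Finset.mem_univ j), mul_comm, mul_smul]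
    exact IsIntegral.smul _ (ha j)
  have hfg := fg_adjoin_of_finite (s := Set.range (fun j => (∏ i, a i) • x j))
    (Set.finite_range _) (by rintro _ ⟨j, rfl⟩; exact hint j)
  obtain ⟨s, v, hv⟩ := Submodule.fg_iff_exists_fin_generating_family.1 hfg
  have hvmem : ∀ i, v i ∈ Algebra.adjoin (Algebra.adjoin ℤ (Set.range θ))
      (Set.range (fun j => (∏ i, a i) • x j)) := by
    intro i
    have h2 : v i ∈ Submodule.span (Algebra.adjoin ℤ (Set.range θ)) (Set.range v) :=
      Submodule.subset_span ⟨i, rfl⟩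
    rw [hv] at h2
    exact h2
  have hspan : ∀ z, z ∈ Algebra.adjoin (Algebra.adjoin ℤ (Set.range θ))
      (Set.range (fun j => (∏ i, a i) • x j)) →
      ∃ c : Fin s → MvPolynomial (Fin k) ℤ, z = ∑ l, aeval θ (c l) * v l := by
    intro z hz
    have h2 : z ∈ Submodule.span (Algebra.adjoin ℤ (Set.range θ)) (Set.range v) := by
      rw [hv]; exact hz
    obtain ⟨c, hc⟩ := (Submodule.mem_span_range_iff_exists_fun _).1 h2
    choose q hq using fun l => hrep (c l)
    refine ⟨q, ?_⟩
    rw [← hc]
    apply Finset.sum_congr rfl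
    intro l _
    rw [hq l]
    rfl
  obtain ⟨α, hα⟩ := hrep (∏ i, a i)
  obtain ⟨ε, hε⟩ := hspan 1 (Subalgebra.one_mem _)
  have hmul : ∀ j i, ∃ c : Fin s → MvPolynomial (Fin k) ℤ,
      aeval θ α * x j * v i = ∑ l, aeval θ (c l) * v l := by
    intro j i
    apply hspan
    have h3 : (∏ i, a i) • x j ∈ Algebra.adjoin (Algebra.adjoin ℤ (Set.range θ))
      (Set.range (fun j => (∏ i, a i) • x j)) := Algebra.subset_adjoin ⟨j, rfl⟩
    have h4 : (∏ i, a i) • x j = aeval θ α * x j := by
      rw [hα]; rfl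
    rw [← h4]
    exact Subalgebra.mul_mem _ h3 (hvmem i)
  choose ρ hρ using hmul
  refine ⟨s, v, α, ε, ρ, ?_, hε, hρ⟩
  rw [hα]
  intro h0
  apply hA0
  exact Subtype.ext h0

/-- The vectors `q` representing `α ^ N x ^ e`, `|e| = N`. -/
private theorem exists_rep {m k s : ℕ} (x : Fin m → ℂ) (θ : Fin k → ℂ) (v : Fin s → ℂ)
    (α : MvPolynomial (Fin k) ℤ) (ε : Fin s → MvPolynomial (Fin k) ℤ)
    (ρ : Fin m → Fin s → Fin s → MvPolynomial (Fin k) ℤ)
    (h1 : (1 : ℂ) = ∑ l, aeval θ (ε l) * v l)
    (h2 : ∀ j i, aeval θ α * x j * v i = ∑ l, aeval θ (ρ j i l) * v l)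
    (d : ℕ) (B : ℝ) (hB : 1 ≤ B) (hε : ∀ l, (ε l).totalDegree ≤ d ∧ L1 (ε l) ≤ B)
    (hρ : ∀ j i l, (ρ j i l).totalDegree ≤ d) (hρB : ∀ j l, ∑ i, L1 (ρ j i l) ≤ B) :
    ∀ (N : ℕ) (e : Fin m →₀ ℕ), e.degree = N → ∃ q : Fin s → MvPolynomial (Fin k) ℤ,
      aeval θ α ^ N * (e.prod fun i n => x i ^ n) = ∑ l, aeval θ (q l) * v l ∧
      ∀ l, (q l).totalDegree ≤ d * (N + 1) ∧ L1 (q l) ≤ B ^ (N + 1) := by
  classical
  intro N
  induction N with
  | zero =>
    intro e he
    have he0 : e = 0 := (Finsupp.degree_eq_zero_iff e).1 he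
    subst he0
    refine ⟨ε, ?_, ?_⟩
    · simpa using h1
    · intro l
      refine ⟨by simpa using (hε l).1, by simpa using (hε l).2⟩
  | succ N ih =>
    intro e he
    have hne : e ≠ 0 := by
      rintro rfl
      simp at he
    obtain ⟨j, hj⟩ : ∃ j, e j ≠ 0 := by
      by_contra hcon
      push Not at hcon
      exact hne (Finsupp.ext hcon)
    have hle : Finsupp.single j 1 ≤ e := by
      rw [Finsupp.single_le_iff]; omega
    have hsplit : e = (e - Finsupp.single j 1) + Finsupp.single j 1 := (tsub_add_cancel_of_le hle).symm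
    have hdeg : (e - Finsupp.single j 1).degree = N := by
      have h3 : e.degree = (e - Finsupp.single j 1).degree + (Finsupp.single j 1).degree := by
        conv_lhs => rw [hsplit]
        exact map_add _ _ _
      rw [he, Finsupp.degree_single] at h3
      omega
    obtain ⟨q, hq, hqb⟩ := ih _ hdeg
    have hprod : (e.prod fun i n => x i ^ n) =
        ((e - Finsupp.single j 1).prod fun i n => x i ^ n) * x j := by
      have h10 : ((Finsupp.single j 1).prod fun i n => x i ^ n) = x j := by
        refine (Finsupp.prod_single_index (h := fun i n => x i ^ n) (pow_zero _)).trans ?_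
        exact pow_one _
      have h11 := Finsupp.prod_add_index' (f := e - Finsupp.single j 1) (g := Finsupp.single j 1)
        (h := fun i n => x i ^ n) (fun i => pow_zero _) (fun i a b => pow_add _ _ _)
      rw [← hsplit, h10] at h11
      exact h11
    refine ⟨fun l => ∑ i, q i * ρ j i l, ?_, ?_⟩
    · rw [hprod]
      have h4 : aeval θ α ^ (N + 1) * (((e - Finsupp.single j 1).prod fun i n => x i ^ n) * x j)
          = (aeval θ α ^ N * ((e - Finsupp.single j 1).prod fun i n => x i ^ n)) *
            (aeval θ α * x j) := by ring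
      rw [h4, hq, Finset.sum_mul]
      have h5 : ∀ i, aeval θ (q i) * v i * (aeval θ α * x j) =
          ∑ l, aeval θ (q i) * aeval θ (ρ j i l) * v l := by
        intro i
        have h6 : aeval θ (q i) * v i * (aeval θ α * x j) =
          aeval θ (q i) * (aeval θ α * x j * v i) := by ring
        rw [h6, h2 j i, Finset.mul_sum]
        apply Finset.sum_congr rfl
        intro l _
        ring
      rw [Finset.sum_congr rfl (fun i _ => h5 i), Finset.sum_comm]
      apply Finset.sum_congr rfl
      intro l _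
      rw [map_sum, Finset.sum_mul]
      apply Finset.sum_congr rfl
      intro i _
      rw [map_mul]
    · intro l
      refine ⟨?_, ?_⟩
      · apply totalDegree_finsetSum_le
        intro i _
        refine (totalDegree_mul _ _).trans ?_
        have h7 := (hqb i).1
        have h8 := hρ j i l
        calc (q i).totalDegree + (ρ j i l).totalDegree ≤ d * (N + 1) + d := by omega
          _ = d * (N + 1 + 1) := by ring
      · refine (L1_sum_le _ _).trans ?_
        calc ∑ i, L1 (q i * ρ j i l) ≤ ∑ i, B ^ (N + 1) * L1 (ρ j i l) := by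
              apply Finset.sum_le_sum
              intro i _
              exact (L1_mul_le _ _).trans (mul_le_mul_of_nonneg_right (hqb i).2 (L1_nonneg _))
          _ = B ^ (N + 1) * ∑ i, L1 (ρ j i l) := by rw [Finset.mul_sum]
          _ ≤ B ^ (N + 1) * B := by
              apply mul_le_mul_of_nonneg_left (hρB j l)
              positivity
          _ = B ^ (N + 1 + 1) := by ring

/-- The coefficient code of a polynomial. -/
private theorem card_code (k s D : ℕ) (H : ℤ) (hH : 0 ≤ H) (S : Finset ℂ)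
    (θ : Fin k → ℂ) (v : Fin s → ℂ) (w : ℂ) (hw : w ≠ 0)
    (h : ∀ z ∈ S, ∃ q : Fin s → MvPolynomial (Fin k) ℤ, w * z = ∑ l, aeval θ (q l) * v l ∧
      ∀ l, (q l).totalDegree ≤ D ∧ ∀ e, |(q l).coeff e| ≤ H) :
    (S.card : ℝ) ≤ ((2 * H + 1 : ℤ) : ℝ) ^ ((D + 1) ^ k * s) := by
  classical
  choose! q hq hqb using h
  have hmem : ∀ z ∈ S, ∀ l e, (q z l).coeff e ∈ Finset.Icc (-H) H := by
    intro z hz l e
    have := (hqb z hz l).2 e
    rw [Finset.mem_Icc]
    exact abs_le.1 this
  let code : S → (Fin s → (Fin k → Fin (D + 1)) → (Finset.Icc (-H) H)) := fun z l f =>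
    ⟨(q z l).coeff (Finsupp.equivFunOnFinite.symm (fun i => (f i : ℕ))), hmem z z.2 l _⟩
  have hinj : Function.Injective code := by
    intro z z' hzz
    apply Subtype.ext
    have hqq : q z = q z' := by
      funext l
      ext e
      by_cases hz : ∀ i, e i ≤ D
      · have h1 := congrFun (congrFun hzz l) (fun i => ⟨e i, Nat.lt_succ_of_le (hz i)⟩)
        have h2 := congrArg (fun t : (Finset.Icc (-H) H) => (t : ℤ)) h1
        have h3 : Finsupp.equivFunOnFinite.symm (fun i => ((⟨e i, Nat.lt_succ_of_le (hz i)⟩ :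
            Fin (D + 1)) : ℕ)) = e := by
          ext i
          simp
        simp only [code] at h2
        rw [h3] at h2
        exact h2
      · push Not at hz
        obtain ⟨i, hi⟩ := hz
        have h4 : ∀ y ∈ S, (q y l).coeff e = 0 := by
          intro y hy
          by_contra hne
          have h5 := le_totalDegree (mem_support_iff.2 hne)
          have h6 := (hqb y hy l).1
          have h7 : e i ≤ e.sum fun _ n => n := by
            rw [Finsupp.sum_fintype _ _ (fun _ => rfl)]
            exact Finset.single_le_sum (f := fun i => e i) (fun _ _ => Nat.zero_le _)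
              (Finset.mem_univ i)
          omega
        rw [h4 z z.2, h4 z' z'.2]
    have h8 := hq z z.2
    rw [hqq, ← hq z' z'.2] at h8
    exact mul_left_cancel₀ hw h8
  have hcard := Fintype.card_le_of_injective code hinj
  rw [Fintype.card_coe] at hcard
  have hc2 : Fintype.card (Fin s → (Fin k → Fin (D + 1)) → (Finset.Icc (-H) H)) =
      ((2 * H + 1).toNat) ^ ((D + 1) ^ k * s) := by
    rw [Fintype.card_fun, Fintype.card_fun, Fintype.card_fun, Fintype.card_coe, Int.card_Icc,
      Fintype.card_fin, Fintype.card_fin, Fintype.card_fin, ← pow_mul]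
    have h9 : H + 1 - -H = 2 * H + 1 := by ring
    rw [h9]
  rw [hc2] at hcard
  have h10 : ((((2 * H + 1).toNat : ℕ) : ℤ)) = 2 * H + 1 := Int.toNat_of_nonneg (by omega)
  calc (S.card : ℝ) ≤ ((((2 * H + 1).toNat) ^ ((D + 1) ^ k * s) : ℕ) : ℝ) := by exact_mod_cast hcard
    _ = ((2 * H + 1 : ℤ) : ℝ) ^ ((D + 1) ^ k * s) := by
      rw [Nat.cast_pow]
      congr 1
      rw [← h10]
      push_cast
      rfl

/-- The number of different values at `x` of the integer polynomials of size at most `n` is at
most `exp (C n ^ (k + 1))` if the coordinates of `x` are algebraic over `ℤ[θ 1, ..., θ k]`. -/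
theorem count {m k : ℕ} (x : Fin m → ℂ) (θ : Fin k → ℂ)
    (hx : ∀ j, IsAlgebraic (Algebra.adjoin ℤ (Set.range θ)) (x j)) :
    ∃ C₀ : ℝ, 0 < C₀ ∧ ∀ n : ℕ, 1 ≤ n → ∀ S : Finset ℂ,
      (∀ z ∈ S, ∃ P : MvPolynomial (Fin m) ℤ, Bd (n : ℝ) P ∧ aeval x P = z) →
      (S.card : ℝ) ≤ Real.exp (C₀ * (n : ℝ) ^ (k + 1)) := by
  classical
  obtain ⟨s, v, α, ε, ρ, hα, h1, h2⟩ := exists_struct x θ hx
  -- the bounds
  obtain ⟨d, hd1, hd2, hd3⟩ : ∃ d : ℕ, α.totalDegree ≤ d ∧ (∀ l, (ε l).totalDegree ≤ d) ∧
      ∀ j i l, (ρ j i l).totalDegree ≤ d := by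
    refine ⟨α.totalDegree + ∑ l, (ε l).totalDegree + ∑ j, ∑ i, ∑ l, (ρ j i l).totalDegree,
      by omega, ?_, ?_⟩
    · intro l
      have := Finset.single_le_sum (f := fun l => (ε l).totalDegree) (fun _ _ => Nat.zero_le _)
        (Finset.mem_univ l)
      omega
    · intro j i l
      have e1 := Finset.single_le_sum (f := fun l => (ρ j i l).totalDegree)
        (fun _ _ => Nat.zero_le _) (Finset.mem_univ l)
      have e2 := Finset.single_le_sum (f := fun i => ∑ l, (ρ j i l).totalDegree)
        (fun _ _ => Nat.zero_le _) (Finset.mem_univ i)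
      have e3 := Finset.single_le_sum (f := fun j => ∑ i, ∑ l, (ρ j i l).totalDegree)
        (fun _ _ => Nat.zero_le _) (Finset.mem_univ j)
      omega
  obtain ⟨B, hB, hB1, hB2, hB3⟩ : ∃ B : ℝ, 1 ≤ B ∧ L1 α ≤ B ∧ (∀ l, L1 (ε l) ≤ B) ∧
      ∀ j l, ∑ i, L1 (ρ j i l) ≤ B := by
    have p1 := L1_nonneg α
    have p2 : 0 ≤ ∑ l, L1 (ε l) := Finset.sum_nonneg (fun _ _ => L1_nonneg _)
    have p3 : 0 ≤ ∑ j, ∑ l, ∑ i, L1 (ρ j i l) := Finset.sum_nonneg (fun _ _ =>
      Finset.sum_nonneg (fun _ _ => Finset.sum_nonneg (fun _ _ => L1_nonneg _)))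
    refine ⟨1 + L1 α + ∑ l, L1 (ε l) + ∑ j, ∑ l, ∑ i, L1 (ρ j i l), by linarith, by linarith,
      ?_, ?_⟩
    · intro l
      have := Finset.single_le_sum (f := fun l => L1 (ε l)) (fun _ _ => L1_nonneg _)
        (Finset.mem_univ l)
      linarith
    · intro j l
      have e1 := Finset.single_le_sum (f := fun l => ∑ i, L1 (ρ j i l))
        (fun _ _ => Finset.sum_nonneg (fun _ _ => L1_nonneg _)) (Finset.mem_univ l)
      have e2 := Finset.single_le_sum (f := fun j => ∑ l, ∑ i, L1 (ρ j i l))
        (fun _ _ => Finset.sum_nonneg (fun _ _ => Finset.sum_nonneg (fun _ _ => L1_nonneg _)))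
        (Finset.mem_univ j)
      linarith
  have hrep := exists_rep x θ v α ε ρ h1 h2 d B hB (fun l => ⟨hd2 l, hB2 l⟩) hd3 hB3
  -- logarithmic constants
  refine ⟨(3 + 2 * Real.log B) * ((2 * d + 1 : ℝ) ^ k * s) + 1, ?_, ?_⟩
  · have hlog : 0 ≤ Real.log B := Real.log_nonneg hB
    positivity
  intro n hn S hS
  have hlog : 0 ≤ Real.log B := Real.log_nonneg hB
  have hnR : (1 : ℝ) ≤ n := by exact_mod_cast hn
  set H : ℤ := ⌊Real.exp n * B ^ (n + 1)⌋ with hHdef
  have hpos : 1 ≤ Real.exp n * B ^ (n + 1) := by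
    have e1 : 1 ≤ Real.exp n := Real.one_le_exp (by positivity)
    have e2 : 1 ≤ B ^ (n + 1) := one_le_pow₀ hB
    nlinarith
  have hH : 0 ≤ H := Int.floor_nonneg.2 (by linarith)
  have hcode := card_code k s (d * (n + 1)) H hH S θ v (aeval θ α ^ n) (pow_ne_zero _ hα) (by
    intro z hz
    obtain ⟨P, hP, hPz⟩ := hS z hz
    have hdeg : P.totalDegree ≤ n := by exact_mod_cast hP.1
    have hrep' : ∀ e : Fin m →₀ ℕ, ∃ q : Fin s → MvPolynomial (Fin k) ℤ,
        aeval θ α ^ e.degree * (e.prod fun i n => x i ^ n) = ∑ l, aeval θ (q l) * v l ∧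
        ∀ l, (q l).totalDegree ≤ d * (e.degree + 1) ∧ L1 (q l) ≤ B ^ (e.degree + 1) :=
      fun e => hrep e.degree e rfl
    choose q hq hqb using hrep'
    have hle : ∀ e ∈ P.support, e.degree ≤ n := by
      intro e he
      have := le_totalDegree he
      rw [Finsupp.degree_eq_sum]
      rw [Finsupp.sum_fintype _ _ (fun _ => rfl)] at this
      omega
    refine ⟨fun l => ∑ e ∈ P.support, C (P.coeff e) * α ^ (n - e.degree) * q e l, ?_, ?_⟩
    · have hval : z = ∑ e ∈ P.support, (algebraMap ℤ ℂ) (P.coeff e) * ∏ i ∈ e.support, x i ^ e i := by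
        rw [← hPz]
        exact eval₂_eq _ _ _
      rw [hval, Finset.mul_sum]
      have h3 : ∀ e ∈ P.support, aeval θ α ^ n * ((algebraMap ℤ ℂ) (P.coeff e) *
          ∏ i ∈ e.support, x i ^ e i) =
          ∑ l, aeval θ (C (P.coeff e) * α ^ (n - e.degree) * q e l) * v l := by
        intro e he
        have h4 : aeval θ α ^ n = aeval θ α ^ (n - e.degree) * aeval θ α ^ e.degree := by
          rw [← pow_add]
          congr 1
          have := hle e he
          omega
        have h5 := hq e
        rw [Finsupp.prod] at h5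
        calc aeval θ α ^ n * ((algebraMap ℤ ℂ) (P.coeff e) * ∏ i ∈ e.support, x i ^ e i)
            = (algebraMap ℤ ℂ) (P.coeff e) * aeval θ α ^ (n - e.degree) *
              (aeval θ α ^ e.degree * ∏ i ∈ e.support, x i ^ e i) := by rw [h4]; ring
          _ = (algebraMap ℤ ℂ) (P.coeff e) * aeval θ α ^ (n - e.degree) *
              ∑ l, aeval θ (q e l) * v l := by rw [h5]
          _ = _ := by
              rw [Finset.mul_sum]
              apply Finset.sum_congr rfl
              intro l _
              rw [map_mul, map_mul, map_pow, aeval_C]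
              ring
      rw [Finset.sum_congr rfl h3, Finset.sum_comm]
      apply Finset.sum_congr rfl
      intro l _
      rw [map_sum, Finset.sum_mul]
    · intro l
      refine ⟨?_, ?_⟩
      · apply totalDegree_finsetSum_le
        intro e he
        refine (totalDegree_mul _ _).trans ?_
        have e1 := totalDegree_mul (C (P.coeff e)) (α ^ (n - e.degree))
        have e2 := totalDegree_pow α (n - e.degree)
        have e3 := totalDegree_C (σ := Fin k) (P.coeff e)
        have e4 := (hqb e l).1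
        have e5 : (n - e.degree) * α.totalDegree ≤ (n - e.degree) * d :=
          Nat.mul_le_mul_left _ hd1
        have e6 := hle e he
        have e7 : (n - e.degree) * d + d * (e.degree + 1) = d * (n + 1) := by
          have : n = (n - e.degree) + e.degree := by omega
          conv_rhs => rw [this]
          ring
        omega
      · intro e
        have h6 : L1 (∑ e ∈ P.support, C (P.coeff e) * α ^ (n - e.degree) * q e l) ≤
            Real.exp n * B ^ (n + 1) := by
          refine (L1_sum_le _ _).trans ?_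
          calc ∑ e ∈ P.support, L1 (C (P.coeff e) * α ^ (n - e.degree) * q e l)
              ≤ ∑ e ∈ P.support, |((P.coeff e : ℤ) : ℝ)| * B ^ (n + 1) := by
                apply Finset.sum_le_sum
                intro e he
                refine (L1_mul_le _ _).trans ?_
                have e1 := L1_C_mul_le (P.coeff e) (α ^ (n - e.degree))
                have e2 : L1 (α ^ (n - e.degree)) ≤ B ^ (n - e.degree) :=
                  (L1_pow_le _ _).trans (pow_le_pow_left₀ (L1_nonneg _) hB1 _)
                have e3 := (hqb e l).2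
                have e4 : B ^ (n + 1) = B ^ (n - e.degree) * B ^ (e.degree + 1) := by
                  rw [← pow_add]
                  congr 1
                  have := hle e he
                  omega
                rw [e4, ← mul_assoc]
                apply mul_le_mul _ e3 (L1_nonneg _) (by positivity)
                exact e1.trans (mul_le_mul_of_nonneg_left e2 (abs_nonneg _))
            _ = L1 P * B ^ (n + 1) := by
                rw [← Finset.sum_mul]; rfl
            _ ≤ Real.exp n * B ^ (n + 1) :=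
                mul_le_mul_of_nonneg_right hP.2 (by positivity)
        have h7 := (abs_coeff_le (∑ e ∈ P.support, C (P.coeff e) * α ^ (n - e.degree) * q e l)
          e).trans h6
        rw [hHdef, Int.le_floor]
        push_cast
        exact h7)
  refine hcode.trans ?_
  -- the estimate
  have hHle : ((2 * H + 1 : ℤ) : ℝ) ≤ Real.exp ((3 + 2 * Real.log B) * n) := by
    have e1 : (H : ℝ) ≤ Real.exp n * B ^ (n + 1) := Int.floor_le _
    have e2 : B ^ (n + 1) = Real.exp ((n + 1 : ℕ) * Real.log B) := by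
      rw [Real.exp_nat_mul, Real.exp_log (by linarith)]
    have e3 : ((2 * H + 1 : ℤ) : ℝ) ≤ 3 * (Real.exp n * B ^ (n + 1)) := by
      push_cast
      linarith
    refine e3.trans ?_
    have e4 : (3 : ℝ) ≤ Real.exp 2 := by
      have := Real.add_one_le_exp (2 : ℝ)
      linarith
    calc 3 * (Real.exp n * B ^ (n + 1)) ≤ Real.exp 2 * (Real.exp n * B ^ (n + 1)) := by
          apply mul_le_mul_of_nonneg_right e4; positivity
      _ = Real.exp (2 + (n + (n + 1 : ℕ) * Real.log B)) := by
          rw [e2, Real.exp_add, Real.exp_add]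
      _ ≤ _ := by
          apply Real.exp_le_exp.2
          push_cast
          nlinarith
  have hbase : (0 : ℝ) ≤ ((2 * H + 1 : ℤ) : ℝ) := by
    push_cast
    have : (0 : ℝ) ≤ H := by exact_mod_cast hH
    linarith
  calc ((2 * H + 1 : ℤ) : ℝ) ^ ((d * (n + 1) + 1) ^ k * s)
      ≤ (Real.exp ((3 + 2 * Real.log B) * n)) ^ ((d * (n + 1) + 1) ^ k * s) :=
        pow_le_pow_left₀ hbase hHle _
    _ = Real.exp (((d * (n + 1) + 1) ^ k * s : ℕ) * ((3 + 2 * Real.log B) * n)) := by
        rw [Real.exp_nat_mul]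
    _ ≤ _ := by
        apply Real.exp_le_exp.2
        have e1 : (((d * (n + 1) + 1) ^ k * s : ℕ) : ℝ) ≤ ((2 * d + 1 : ℝ) ^ k * s) * n ^ k := by
          push_cast
          have e2 : ((d : ℝ) * (n + 1) + 1) ≤ (2 * d + 1) * n := by
            have : (0 : ℝ) ≤ d := Nat.cast_nonneg d
            nlinarith
          have e3 : ((d : ℝ) * (n + 1) + 1) ^ k ≤ ((2 * d + 1) * n) ^ k :=
            pow_le_pow_left₀ (by positivity) e2 _
          rw [mul_pow] at e3
          have e4 : (0 : ℝ) ≤ s := Nat.cast_nonneg s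
          nlinarith
        have e5 : 0 ≤ (3 + 2 * Real.log B) * n := by positivity
        calc (((d * (n + 1) + 1) ^ k * s : ℕ) : ℝ) * ((3 + 2 * Real.log B) * n)
            ≤ (((2 * d + 1 : ℝ) ^ k * s) * n ^ k) * ((3 + 2 * Real.log B) * n) :=
              mul_le_mul_of_nonneg_right e1 e5
          _ = (3 + 2 * Real.log B) * ((2 * d + 1 : ℝ) ^ k * s) * (n : ℝ) ^ (k + 1) := by ring
          _ ≤ _ := by
              have : (0 : ℝ) ≤ (n : ℝ) ^ (k + 1) := by positivity
              nlinarith

end Pool.Agent.RHK
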