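import Pool.Agent.RHK.Dom

/-!
# Project RHK: the criterion (two-sided bounds)

If for all large `K` there is an integer polynomial of size `K ^ (1 + o(1))` whose value at `x` lies
between `exp (- K ^ (r + o(1)))` and `exp (- K ^ (r - o(1)))`, then the transcendence degree of
`ℚ(x)` is at least `r - 1`.
-/

namespace Pool.Agent.RHK

open MvPolynomial

/-- Separation of the numbers with different digits. -/
private theorem digit_sep (s b : ℕ) (g : Fin s → ℝ) (hg : ∀ i, 0 ≤ g i) (A : ℝ)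
    (hA : ∀ i : Fin s, ∃ G : ℝ, 0 ≤ G ∧ (∀ j : Fin s, j < i → g j ≤ G) ∧ A ≤ g i - s * (b * G))
    (a a' : Fin s → Fin (b + 1)) (hne : a ≠ a') :
    A ≤ |∑ i, ((a i : ℕ) : ℝ) * g i - ∑ i, ((a' i : ℕ) : ℝ) * g i| := by
  classical
  have hex : (Finset.univ.filter (fun i => a i ≠ a' i)).Nonempty := by
    by_contra hcon
    rw [Finset.not_nonempty_iff_eq_empty, Finset.filter_eq_empty_iff] at hcon
    apply hne
    funext i
    have := hcon (Finset.mem_univ i)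
    push Not at this
    exact this
  obtain ⟨i₀, hi₀, hmax⟩ := Finset.exists_max_image _ (fun i => i) hex
  rw [Finset.mem_filter] at hi₀
  obtain ⟨G, hG0, hG, hAG⟩ := hA i₀
  rw [← Finset.sum_sub_distrib]
  have h1 : ∀ i, ((a i : ℕ) : ℝ) * g i - ((a' i : ℕ) : ℝ) * g i =
      (((a i : ℕ) : ℝ) - ((a' i : ℕ) : ℝ)) * g i := fun i => by ring
  rw [Finset.sum_congr rfl (fun i _ => h1 i),
    ← Finset.add_sum_erase Finset.univ _ (Finset.mem_univ i₀)]
  have hbig : g i₀ ≤ |(((a i₀ : ℕ) : ℝ) - ((a' i₀ : ℕ) : ℝ)) * g i₀| := by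
    rw [abs_mul, abs_of_nonneg (hg i₀)]
    have h4 : (1 : ℝ) ≤ |(((a i₀ : ℕ) : ℝ) - ((a' i₀ : ℕ) : ℝ))| := by
      have h6 : ((a i₀ : ℕ) : ℤ) - ((a' i₀ : ℕ) : ℤ) ≠ 0 := by
        intro h7
        apply hi₀.2
        apply Fin.ext
        omega
      have h8 := Int.one_le_abs h6
      have h9 : ((|((a i₀ : ℕ) : ℤ) - ((a' i₀ : ℕ) : ℤ)| : ℤ) : ℝ) =
          |(((a i₀ : ℕ) : ℝ) - ((a' i₀ : ℕ) : ℝ))| := by
        push_cast; rfl
      rw [← h9]
      exact_mod_cast h8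
    have := hg i₀
    nlinarith
  have hsmall : |∑ i ∈ Finset.univ.erase i₀, (((a i : ℕ) : ℝ) - ((a' i : ℕ) : ℝ)) * g i| ≤
      s * (b * G) := by
    refine (Finset.abs_sum_le_sum_abs _ _).trans ?_
    have h9 : ∀ i ∈ Finset.univ.erase i₀, |(((a i : ℕ) : ℝ) - ((a' i : ℕ) : ℝ)) * g i| ≤
        b * G := by
      intro i hi
      have hine : i ≠ i₀ := Finset.ne_of_mem_erase hi
      by_cases hi2 : a i = a' i
      · rw [hi2, sub_self, zero_mul, abs_zero]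
        positivity
      · have h10 := hmax i (Finset.mem_filter.2 ⟨Finset.mem_univ _, hi2⟩)
        have h11 : i < i₀ := lt_of_le_of_ne h10 hine
        rw [abs_mul, abs_of_nonneg (hg i)]
        apply mul_le_mul _ (hG i h11) (hg i) (Nat.cast_nonneg _)
        have e1 := (a i).2
        have e2 := (a' i).2
        have e3 : ((a i : ℕ) : ℝ) ≤ b := by exact_mod_cast Nat.lt_succ_iff.1 e1
        have e4 : ((a' i : ℕ) : ℝ) ≤ b := by exact_mod_cast Nat.lt_succ_iff.1 e2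
        have e5 : (0 : ℝ) ≤ ((a i : ℕ) : ℝ) := Nat.cast_nonneg _
        have e6 : (0 : ℝ) ≤ ((a' i : ℕ) : ℝ) := Nat.cast_nonneg _
        rw [abs_le]
        constructor <;> linarith
    refine (Finset.sum_le_card_nsmul _ _ _ h9).trans ?_
    rw [nsmul_eq_mul]
    apply mul_le_mul_of_nonneg_right _ (by positivity)
    have h17 : (Finset.univ.erase i₀).card ≤ s := by
      calc (Finset.univ.erase i₀).card ≤ (Finset.univ : Finset (Fin s)).card :=
            Finset.card_le_card (Finset.erase_subset _ _)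
        _ = s := by simp
    exact_mod_cast h17
  have htri : |(((a i₀ : ℕ) : ℝ) - ((a' i₀ : ℕ) : ℝ)) * g i₀| ≤
      |(((a i₀ : ℕ) : ℝ) - ((a' i₀ : ℕ) : ℝ)) * g i₀ +
        ∑ i ∈ Finset.univ.erase i₀, (((a i : ℕ) : ℝ) - ((a' i : ℕ) : ℝ)) * g i| +
      |∑ i ∈ Finset.univ.erase i₀, (((a i : ℕ) : ℝ) - ((a' i : ℕ) : ℝ)) * g i| := by
    have := abs_sub ((((a i₀ : ℕ) : ℝ) - ((a' i₀ : ℕ) : ℝ)) * g i₀ +
      ∑ i ∈ Finset.univ.erase i₀, (((a i : ℕ) : ℝ) - ((a' i : ℕ) : ℝ)) * g i)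
      (∑ i ∈ Finset.univ.erase i₀, (((a i : ℕ) : ℝ) - ((a' i : ℕ) : ℝ)) * g i)
    rwa [add_sub_cancel_right] at this
  linarith

private theorem mul3 (u : ℝ) (A B : ℕ) : u * (u ^ A * u ^ B) = u ^ (1 + (A + B)) := by
  rw [pow_add u 1 (A + B), pow_add u A B, pow_one]

/-- **The criterion.**  Let the coordinates of `x` be algebraic over `ℤ[θ 1, ..., θ k]` and
`k + 2 ≤ r`.  Then it is impossible that for every `ε > 0` and all large `K` there is an integer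
polynomial `P` of size at most `K ^ (1 + ε)` with
`exp (- K ^ (r + ε)) ≤ |P(x)| ≤ exp (- K ^ (r - ε))`. -/
theorem crit {m k : ℕ} (x : Fin m → ℂ) (θ : Fin k → ℂ)
    (hx : ∀ j, IsAlgebraic (Algebra.adjoin ℤ (Set.range θ)) (x j)) (r : ℕ) (hr : k + 2 ≤ r)
    (h : ∀ ε : ℝ, 0 < ε → ∃ K₀ : ℕ, ∀ K : ℕ, K₀ ≤ K → ∃ P : MvPolynomial (Fin m) ℤ,
      Bd ((K : ℝ) ^ (1 + ε)) P ∧ aeval x P ≠ 0 ∧
      (K : ℝ) ^ ((r : ℝ) - ε) ≤ -Real.log ‖aeval x P‖ ∧
      -Real.log ‖aeval x P‖ ≤ (K : ℝ) ^ ((r : ℝ) + ε)) : False := by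
  classical
  obtain ⟨C₁, hC₁, hdom⟩ := dom x θ hx
  -- parameters: `J = r ^ 3`, `j₀ = r ^ 2 + 2`, `s = J - j₀ + 1`
  obtain ⟨q, rfl⟩ : ∃ q, r = q + 2 := ⟨r - 2, by omega⟩
  set r : ℕ := q + 2 with hrdef
  obtain ⟨s, hs⟩ : ∃ s : ℕ, s + r ^ 2 + 1 = r ^ 3 := by
    refine ⟨r ^ 3 - r ^ 2 - 1, ?_⟩
    have : r ^ 2 + 1 ≤ r ^ 3 := by
      have e1 : r ^ 3 = r ^ 2 * r := by ring
      have e2 : 1 ≤ r ^ 2 := Nat.one_le_pow _ _ (by omega)
      have e3 : 2 ≤ r := by omega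
      nlinarith
    omega
  have hexp : (r - 2) * (r ^ 3 + r) + 1 ≤ (r - 1) * s := by
    have e1 : r - 2 = q := by omega
    have e2 : r - 1 = q + 1 := by omega
    have e3 : s = r ^ 3 - r ^ 2 - 1 := by omega
    rw [e1, e2]
    have e4 : (q + 1) * (s + r ^ 2 + 1) = (q + 1) * r ^ 3 := by rw [hs]
    nlinarith [e4]
  have hkr : k ≤ r - 2 := by omega
  set ε : ℝ := 1 / (4 * (r ^ 3 + 1)) with hε
  have hε0 : 0 < ε := by positivity
  obtain ⟨K₀, hK₀⟩ := h ε hε0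
  -- the base
  obtain ⟨u, hu1, hu2, hu3, hu4⟩ : ∃ u : ℕ, K₀ ≤ u ∧ 16 * r * s + 2 ≤ u ∧ s + 2 ≤ u ∧
      C₁ < (u : ℝ) := by
    obtain ⟨w, hw⟩ := exists_nat_gt C₁
    refine ⟨K₀ + (16 * r * s + 2) + (s + 2) + w, by omega, by omega, by omega, ?_⟩
    push_cast
    have : (0 : ℝ) ≤ (K₀ : ℝ) + (16 * r * s + 2) + (s + 2) := by positivity
    linarith
  have hu0 : 2 ≤ u := by omega
  have huR : (2 : ℝ) ≤ u := by exact_mod_cast hu0
  have huR1 : (1 : ℝ) ≤ u := by linarith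
  have hupos : (0 : ℝ) < u := by linarith
  -- the scales
  have hscale : ∀ j : ℕ, 1 ≤ j → j ≤ r ^ 3 → ∃ P : MvPolynomial (Fin m) ℤ,
      Bd ((u : ℝ) ^ (4 * j + 1)) P ∧ aeval x P ≠ 0 ∧
      (u : ℝ) ^ (4 * (r * j) - 1) ≤ -Real.log ‖aeval x P‖ ∧
      -Real.log ‖aeval x P‖ ≤ (u : ℝ) ^ (4 * (r * j) + 1) := by
    intro j hj1 hjJ
    have hK : K₀ ≤ u ^ (4 * j) := by
      refine hu1.trans ?_
      calc u = u ^ 1 := (pow_one u).symm
        _ ≤ u ^ (4 * j) := Nat.pow_le_pow_right (by omega) (by omega)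
    obtain ⟨P, hP1, hP2, hP3, hP4⟩ := hK₀ (u ^ (4 * j)) hK
    have hjε : 4 * (j : ℝ) * ε ≤ 1 := by
      have e1 : (j : ℝ) ≤ (r : ℝ) ^ 3 := by exact_mod_cast hjJ
      rw [hε]
      rw [mul_one_div, div_le_one (by positivity)]
      linarith
    have hjε0 : 0 ≤ 4 * (j : ℝ) * ε := by positivity
    have hconv : ∀ y : ℝ, (((u ^ (4 * j) : ℕ)) : ℝ) ^ y = (u : ℝ) ^ (4 * (j : ℝ) * y) := by
      intro y
      rw [Nat.cast_pow, ← Real.rpow_natCast, ← Real.rpow_mul hupos.le]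
      push_cast
      rfl
    have hrj : 1 ≤ 4 * (r * j) := by
      have : 1 ≤ r * j := Nat.mul_pos (by omega) hj1
      omega
    refine ⟨P, hP1.mono ?_, hP2, ?_, ?_⟩
    · rw [hconv, ← Real.rpow_natCast (u : ℝ) (4 * j + 1)]
      apply Real.rpow_le_rpow_of_exponent_le huR1
      push_cast
      nlinarith
    · refine le_trans ?_ hP3
      rw [hconv, ← Real.rpow_natCast (u : ℝ) (4 * (r * j) - 1)]
      apply Real.rpow_le_rpow_of_exponent_le huR1
      rw [Nat.cast_sub hrj]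
      push_cast
      nlinarith
    · refine hP4.trans ?_
      rw [hconv, ← Real.rpow_natCast (u : ℝ) (4 * (r * j) + 1)]
      apply Real.rpow_le_rpow_of_exponent_le huR1
      push_cast
      nlinarith
  have hj0 : ∀ i : Fin s, 1 ≤ r ^ 2 + 2 + (i : ℕ) ∧ r ^ 2 + 2 + (i : ℕ) ≤ r ^ 3 := by
    intro i
    have := i.2
    constructor <;> omega
  have hch : ∀ i : Fin s, ∃ P : MvPolynomial (Fin m) ℤ,
      Bd ((u : ℝ) ^ (4 * (r ^ 2 + 2 + (i : ℕ)) + 1)) P ∧ aeval x P ≠ 0 ∧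
      (u : ℝ) ^ (4 * (r * (r ^ 2 + 2 + (i : ℕ))) - 1) ≤ -Real.log ‖aeval x P‖ ∧
      -Real.log ‖aeval x P‖ ≤ (u : ℝ) ^ (4 * (r * (r ^ 2 + 2 + (i : ℕ))) + 1) :=
    fun i => hscale _ (hj0 i).1 (hj0 i).2
  choose P hP1 hP2 hP3 hP4 using hch
  set b : ℕ := u ^ (4 * (r - 1)) with hb
  set n : ℕ := u ^ (4 * (r ^ 3 + r)) with hn
  have hn1 : 1 ≤ n := Nat.one_le_pow _ _ (by omega)
  have hnR : (n : ℝ) = (u : ℝ) ^ (4 * (r ^ 3 + r)) := by rw [hn]; push_cast; rfl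
  have hbR : (b : ℝ) = (u : ℝ) ^ (4 * (r - 1)) := by rw [hb]; push_cast; rfl
  have hsu : (s : ℝ) ≤ u := by
    have : s ≤ u := by omega
    exact_mod_cast this
  have hres := hdom n hn1 (Fin s → Fin (b + 1)) (fun a => ∏ i, P i ^ (a i : ℕ)) ?_ ?_ ?_ ?_
  · -- contradiction
    have hcard : Fintype.card (Fin s → Fin (b + 1)) = (b + 1) ^ s := by
      rw [Fintype.card_fun, Fintype.card_fin, Fintype.card_fin]
    rw [hcard] at hres
    push_cast at hres
    have h1 : (u : ℝ) ^ (4 * ((r - 1) * s)) ≤ ((b : ℝ) + 1) ^ s := by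
      have e1 : (u : ℝ) ^ (4 * ((r - 1) * s)) = (b : ℝ) ^ s := by
        rw [hbR, ← pow_mul]; congr 1; ring
      rw [e1]
      exact pow_le_pow_left₀ (Nat.cast_nonneg _) (by linarith) _
    have h2 : C₁ * (n : ℝ) ^ k ≤ C₁ * (u : ℝ) ^ (4 * ((r - 2) * (r ^ 3 + r))) := by
      apply mul_le_mul_of_nonneg_left _ hC₁.le
      rw [hnR, ← pow_mul]
      apply pow_le_pow_right₀ huR1
      calc 4 * (r ^ 3 + r) * k ≤ 4 * (r ^ 3 + r) * (r - 2) := Nat.mul_le_mul_left _ hkr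
        _ = 4 * ((r - 2) * (r ^ 3 + r)) := by ring
    have h3 : (u : ℝ) ^ (4 * ((r - 2) * (r ^ 3 + r)) + 4) ≤ (u : ℝ) ^ (4 * ((r - 1) * s)) := by
      apply pow_le_pow_right₀ huR1
      omega
    have h4 : (u : ℝ) ^ (4 * ((r - 2) * (r ^ 3 + r)) + 4) =
        (u : ℝ) ^ 4 * (u : ℝ) ^ (4 * ((r - 2) * (r ^ 3 + r))) := by ring
    have h5 : (u : ℝ) ^ 4 * (u : ℝ) ^ (4 * ((r - 2) * (r ^ 3 + r))) ≤
        C₁ * (u : ℝ) ^ (4 * ((r - 2) * (r ^ 3 + r))) := by
      rw [← h4]; linarith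
    have h6 := le_of_mul_le_mul_right h5 (by positivity)
    have h7 : (u : ℝ) ≤ (u : ℝ) ^ 4 := by
      calc (u : ℝ) = (u : ℝ) ^ 1 := (pow_one _).symm
        _ ≤ (u : ℝ) ^ 4 := pow_le_pow_right₀ huR1 (by norm_num)
    linarith
  · -- sizes
    intro a
    have h1 := Bd.prod Finset.univ
      (fun i : Fin s => ((a i : ℕ) : ℝ) * (u : ℝ) ^ (4 * (r ^ 2 + 2 + (i : ℕ)) + 1))
      (fun i => P i ^ (a i : ℕ)) (fun i _ => (hP1 i).pow (a i : ℕ))
    refine h1.mono ?_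
    have h2 : ∀ i ∈ (Finset.univ : Finset (Fin s)),
        ((a i : ℕ) : ℝ) * (u : ℝ) ^ (4 * (r ^ 2 + 2 + (i : ℕ)) + 1) ≤
        (b : ℝ) * (u : ℝ) ^ (4 * r ^ 3 + 1) := by
      intro i _
      apply mul_le_mul
      · exact_mod_cast Nat.lt_succ_iff.1 (a i).2
      · apply pow_le_pow_right₀ huR1
        have := (hj0 i).2
        omega
      · positivity
      · exact Nat.cast_nonneg _
    refine (Finset.sum_le_card_nsmul _ _ _ h2).trans ?_
    rw [nsmul_eq_mul, Finset.card_univ, Fintype.card_fin, hbR, hnR]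
    calc (s : ℝ) * ((u : ℝ) ^ (4 * (r - 1)) * (u : ℝ) ^ (4 * r ^ 3 + 1))
        ≤ (u : ℝ) * ((u : ℝ) ^ (4 * (r - 1)) * (u : ℝ) ^ (4 * r ^ 3 + 1)) :=
          mul_le_mul_of_nonneg_right hsu (by positivity)
      _ = (u : ℝ) ^ (1 + (4 * (r - 1) + (4 * r ^ 3 + 1))) := mul3 _ _ _
      _ ≤ _ := by
          apply pow_le_pow_right₀ huR1
          omega
  · -- values are not zero
    intro a
    rw [map_prod]
    apply Finset.prod_ne_zero_iff.2
    intro i _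
    rw [map_pow]
    exact pow_ne_zero _ (hP2 i)
  · -- separation
    intro a a' hne
    have hlog : ∀ c : Fin s → Fin (b + 1), Real.log ‖aeval x (∏ i, P i ^ (c i : ℕ))‖ =
        -∑ i, ((c i : ℕ) : ℝ) * (-Real.log ‖aeval x (P i)‖) := by
      intro c
      rw [map_prod, norm_prod, Real.log_prod]
      · rw [← Finset.sum_neg_distrib]
        apply Finset.sum_congr rfl
        intro i _
        rw [map_pow, norm_pow, Real.log_pow]
        ring
      · intro i _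
        rw [map_pow, norm_pow]
        exact pow_ne_zero _ (norm_ne_zero_iff.2 (hP2 i))
    rw [hlog a, hlog a']
    have h1 := digit_sep s b (fun i => -Real.log ‖aeval x (P i)‖)
      (fun i => le_trans (by positivity) (hP3 i)) (n : ℝ) ?_ a a' hne
    · refine h1.trans (le_of_eq ?_)
      rw [← abs_neg]
      congr 1
      ring
    · intro i
      refine ⟨(u : ℝ) ^ (4 * (r * (r ^ 2 + 2 + (i : ℕ) - 1)) + 1), by positivity, ?_, ?_⟩
      · intro j hj
        refine (hP4 j).trans ?_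
        apply pow_le_pow_right₀ huR1
        have hj' : (j : ℕ) < (i : ℕ) := hj
        have e1 : r * (r ^ 2 + 2 + (j : ℕ)) ≤ r * (r ^ 2 + 2 + (i : ℕ) - 1) :=
          Nat.mul_le_mul_left _ (by omega)
        omega
      · refine le_trans ?_ (sub_le_sub_right (hP3 i) _)
        -- exponents: `4 r j - 1`, `1 + 4 (r-1) + 4 r (j-1) + 1 = 4 r j - 2`
        obtain ⟨j, hj⟩ : ∃ j : ℕ, r ^ 2 + 2 + (i : ℕ) = j + 1 := ⟨r ^ 2 + 1 + i, by omega⟩
        have hjlow : r ^ 2 + 1 ≤ j := by omega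
        rw [hj, Nat.add_sub_cancel]
        have e0 : r * (j + 1) = r * j + r := by ring
        rw [e0]
        have e1 : (s : ℝ) * ((b : ℝ) * (u : ℝ) ^ (4 * (r * j) + 1)) ≤
            (u : ℝ) ^ (4 * (r * j + r) - 2) := by
          rw [hbR]
          calc (s : ℝ) * ((u : ℝ) ^ (4 * (r - 1)) * (u : ℝ) ^ (4 * (r * j) + 1))
              ≤ (u : ℝ) * ((u : ℝ) ^ (4 * (r - 1)) * (u : ℝ) ^ (4 * (r * j) + 1)) :=
                mul_le_mul_of_nonneg_right hsu (by positivity)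
            _ = (u : ℝ) ^ (1 + (4 * (r - 1) + (4 * (r * j) + 1))) := mul3 _ _ _
            _ = _ := congrArg (fun e => (u : ℝ) ^ e) (by omega)
        have e2 : (u : ℝ) ^ (4 * (r * j + r) - 1) =
            (u : ℝ) * (u : ℝ) ^ (4 * (r * j + r) - 2) := by
          rw [← pow_succ']
          exact congrArg (fun e => (u : ℝ) ^ e) (by omega)
        have e3 : (n : ℝ) ≤ (u : ℝ) ^ (4 * (r * j + r) - 2) := by
          rw [hnR]
          apply pow_le_pow_right₀ huR1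
          have e4 : r * (r ^ 2 + 1) ≤ r * j := Nat.mul_le_mul_left _ hjlow
          have e5 : r * (r ^ 2 + 1) = r ^ 3 + r := by ring
          omega
        rw [e2]
        have e6 : (0 : ℝ) ≤ (u : ℝ) ^ (4 * (r * j + r) - 2) := by positivity
        nlinarith
  · -- cardinality
    have hcard : Fintype.card (Fin s → Fin (b + 1)) = (b + 1) ^ s := by
      rw [Fintype.card_fun, Fintype.card_fin, Fintype.card_fin]
    rw [hcard]
    push_cast
    have h1 : (b : ℝ) + 1 ≤ (u : ℝ) ^ (4 * r) := by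
      rw [hbR]
      have e1 : (u : ℝ) ^ (4 * r) = (u : ℝ) ^ (4 * (r - 1)) * (u : ℝ) ^ 4 := by
        rw [← pow_add]
        exact congrArg (fun e => (u : ℝ) ^ e) (by omega)
      have e2 : (1 : ℝ) ≤ (u : ℝ) ^ (4 * (r - 1)) := one_le_pow₀ huR1
      have e3 : (2 : ℝ) ≤ (u : ℝ) ^ 4 := by
        calc (2 : ℝ) ≤ u := huR
          _ = (u : ℝ) ^ 1 := (pow_one _).symm
          _ ≤ (u : ℝ) ^ 4 := pow_le_pow_right₀ huR1 (by norm_num)
      rw [e1]
      nlinarith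
    have h2 : (u : ℝ) ≤ Real.exp u := by
      have := Real.add_one_le_exp (u : ℝ)
      linarith
    calc ((b : ℝ) + 1) ^ s ≤ ((u : ℝ) ^ (4 * r)) ^ s :=
          pow_le_pow_left₀ (by positivity) h1 _
      _ = (u : ℝ) ^ (4 * r * s) := by rw [← pow_mul]
      _ ≤ (Real.exp u) ^ (4 * r * s) := pow_le_pow_left₀ hupos.le h2 _
      _ = Real.exp ((4 * r * s : ℕ) * (u : ℝ)) := by rw [Real.exp_nat_mul]
      _ ≤ Real.exp ((n : ℝ) / 4) := by
          apply Real.exp_le_exp.2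
          have e1 : ((16 * r * s + 2 : ℕ) : ℝ) ≤ u := by exact_mod_cast hu2
          push_cast at e1
          have e2 : (u : ℝ) * u ≤ n := by
            rw [hnR]
            calc (u : ℝ) * u = (u : ℝ) ^ 2 := by ring
              _ ≤ _ := by
                apply pow_le_pow_right₀ huR1
                have : 1 ≤ r ^ 3 + r := by omega
                omega
          push_cast
          nlinarith

end Pool.Agent.RHK
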