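import Pool.Agent.RHK.Dom

/-!
# Project RHK: the criterion with two-sided bounds, real exponent

Version of the criterion with a real exponent `r > 1` and powers of `log K`.
-/

namespace Pool.Agent.RHK

open MvPolynomial

/-- Separation of the numbers with different digits. -/
private theorem digit_sep (s b : ℕ) (g : Fin s → ℝ) (hg : ∀ i, 0 ≤ g i) (A : ℝ)
    (hA : ∀ i : Fin s, ∃ G : ℝ, 0 ≤ G ∧ (∀ j : Fin s, j < i → g j ≤ G) ∧ A ≤ g i - s * (b * G))
    (a a' : Fin s → Fin (b + 1)) (hne : a ≠ a') :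
    A ≤ |∑ i, ((a i : ℕ) : ℝ) * g i - ∑ i, ((a' i : ℕ) : ℝ) * g i| := by
  classical
  have hex : (Finset.univ.filter (fun i => a i ≠ a' i)).Nonempty := by
    by_contra hcon
    rw [Finset.not_nonempty_iff_eq_empty, Finset.filter_eq_empty_iff] at hcon
    apply hne
    funext i
    have := hcon (Finset.mem_univ i)
    push Not at this
    exact this
  obtain ⟨i₀, hi₀, hmax⟩ := Finset.exists_max_image _ (fun i => i) hex
  rw [Finset.mem_filter] at hi₀
  obtain ⟨G, hG0, hG, hAG⟩ := hA i₀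
  rw [← Finset.sum_sub_distrib]
  have h1 : ∀ i, ((a i : ℕ) : ℝ) * g i - ((a' i : ℕ) : ℝ) * g i =
      (((a i : ℕ) : ℝ) - ((a' i : ℕ) : ℝ)) * g i := fun i => by ring
  rw [Finset.sum_congr rfl (fun i _ => h1 i),
    ← Finset.add_sum_erase Finset.univ _ (Finset.mem_univ i₀)]
  have hbig : g i₀ ≤ |(((a i₀ : ℕ) : ℝ) - ((a' i₀ : ℕ) : ℝ)) * g i₀| := by
    rw [abs_mul, abs_of_nonneg (hg i₀)]
    have h4 : (1 : ℝ) ≤ |(((a i₀ : ℕ) : ℝ) - ((a' i₀ : ℕ) : ℝ))| := by
      have h6 : ((a i₀ : ℕ) : ℤ) - ((a' i₀ : ℕ) : ℤ) ≠ 0 := by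
        intro h7
        apply hi₀.2
        apply Fin.ext
        omega
      have h8 := Int.one_le_abs h6
      have h9 : ((|((a i₀ : ℕ) : ℤ) - ((a' i₀ : ℕ) : ℤ)| : ℤ) : ℝ) =
          |(((a i₀ : ℕ) : ℝ) - ((a' i₀ : ℕ) : ℝ))| := by
        push_cast; rfl
      rw [← h9]
      exact_mod_cast h8
    have := hg i₀
    nlinarith
  have hsmall : |∑ i ∈ Finset.univ.erase i₀, (((a i : ℕ) : ℝ) - ((a' i : ℕ) : ℝ)) * g i| ≤
      s * (b * G) := by
    refine (Finset.abs_sum_le_sum_abs _ _).trans ?_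
    have h9 : ∀ i ∈ Finset.univ.erase i₀, |(((a i : ℕ) : ℝ) - ((a' i : ℕ) : ℝ)) * g i| ≤
        b * G := by
      intro i hi
      have hine : i ≠ i₀ := Finset.ne_of_mem_erase hi
      by_cases hi2 : a i = a' i
      · rw [hi2, sub_self, zero_mul, abs_zero]
        positivity
      · have h10 := hmax i (Finset.mem_filter.2 ⟨Finset.mem_univ _, hi2⟩)
        have h11 : i < i₀ := lt_of_le_of_ne h10 hine
        rw [abs_mul, abs_of_nonneg (hg i)]
        apply mul_le_mul _ (hG i h11) (hg i) (Nat.cast_nonneg _)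
        have e1 := (a i).2
        have e2 := (a' i).2
        have e3 : ((a i : ℕ) : ℝ) ≤ b := by exact_mod_cast Nat.lt_succ_iff.1 e1
        have e4 : ((a' i : ℕ) : ℝ) ≤ b := by exact_mod_cast Nat.lt_succ_iff.1 e2
        have e5 : (0 : ℝ) ≤ ((a i : ℕ) : ℝ) := Nat.cast_nonneg _
        have e6 : (0 : ℝ) ≤ ((a' i : ℕ) : ℝ) := Nat.cast_nonneg _
        rw [abs_le]
        constructor <;> linarith
    refine (Finset.sum_le_card_nsmul _ _ _ h9).trans ?_
    rw [nsmul_eq_mul]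
    apply mul_le_mul_of_nonneg_right _ (by positivity)
    have h17 : (Finset.univ.erase i₀).card ≤ s := by
      calc (Finset.univ.erase i₀).card ≤ (Finset.univ : Finset (Fin s)).card :=
            Finset.card_le_card (Finset.erase_subset _ _)
        _ = s := by simp
    exact_mod_cast h17
  have htri : |(((a i₀ : ℕ) : ℝ) - ((a' i₀ : ℕ) : ℝ)) * g i₀| ≤
      |(((a i₀ : ℕ) : ℝ) - ((a' i₀ : ℕ) : ℝ)) * g i₀ +
        ∑ i ∈ Finset.univ.erase i₀, (((a i : ℕ) : ℝ) - ((a' i : ℕ) : ℝ)) * g i| +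
      |∑ i ∈ Finset.univ.erase i₀, (((a i : ℕ) : ℝ) - ((a' i : ℕ) : ℝ)) * g i| := by
    have := abs_sub ((((a i₀ : ℕ) : ℝ) - ((a' i₀ : ℕ) : ℝ)) * g i₀ +
      ∑ i ∈ Finset.univ.erase i₀, (((a i : ℕ) : ℝ) - ((a' i : ℕ) : ℝ)) * g i)
      (∑ i ∈ Finset.univ.erase i₀, (((a i : ℕ) : ℝ) - ((a' i : ℕ) : ℝ)) * g i)
    rwa [add_sub_cancel_right] at this
  linarith

/-- The parameters: scales `u ^ (a j)`, `j₀ ≤ j ≤ J`, `s = J + 1 - j₀`. -/
private theorem params (r : ℝ) (k : ℕ) (hk : (k : ℝ) < r - 1) :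
    ∃ a R J j₀ s : ℕ, 1 ≤ a ∧ r * a ≤ R ∧ 3 ≤ r * a ∧ 1 ≤ j₀ ∧ j₀ + s = J + 1 ∧
      (a : ℝ) * J + R + 2 ≤ r * a * j₀ ∧ ((a : ℝ) * J + R) * k + 1 ≤ (r * a - 3) * s := by
  have hk0 : (0 : ℝ) ≤ k := Nat.cast_nonneg _
  have hr1 : 1 < r := by linarith
  set δ : ℝ := r - 1 - k with hδ
  have hδ0 : 0 < δ := by linarith
  obtain ⟨a, ha⟩ := exists_nat_gt (4 / δ + 4)
  have ha4 : (4 : ℝ) ≤ a := by
    have : 0 < 4 / δ := by positivity
    linarith
  have haδ : 4 ≤ a * δ := by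
    have h1 : 4 / δ ≤ a := by linarith
    rwa [div_le_iff₀ hδ0] at h1
  have hra : (4 : ℝ) ≤ r * a := by nlinarith
  have hra0 : 0 < r * a := by linarith
  obtain ⟨J, hJ⟩ := exists_nat_gt (2 * (r * a) + 6 + (r * a + 1) * k + 1 + 10 * r)
  set R : ℕ := ⌈r * a⌉₊ with hR
  have hR1 : r * a ≤ R := Nat.le_ceil _
  have hR2 : (R : ℝ) < r * a + 1 := Nat.ceil_lt_add_one hra0.le
  set j₀ : ℕ := ⌈((a : ℝ) * J + R + 2) / (r * a)⌉₊ with hj₀
  have hj1 : ((a : ℝ) * J + R + 2) / (r * a) ≤ j₀ := Nat.le_ceil _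
  have hnum : 0 < (a : ℝ) * J + R + 2 := by positivity
  have hj2 : (j₀ : ℝ) < ((a : ℝ) * J + R + 2) / (r * a) + 1 :=
    Nat.ceil_lt_add_one (by positivity)
  have hj3 : 1 ≤ j₀ := by
    rw [hj₀, Nat.one_le_ceil_iff]
    positivity
  have hj4 : (a : ℝ) * J + R + 2 ≤ r * a * j₀ := by
    rw [div_le_iff₀ hra0] at hj1
    linarith
  have hj5 : r * a * j₀ < (a : ℝ) * J + (r * a + 1) + 2 + r * a := by
    have e1 : (j₀ : ℝ) - 1 < ((a : ℝ) * J + R + 2) / (r * a) := by linarith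
    rw [lt_div_iff₀ hra0] at e1
    nlinarith
  have hJ0 : (0 : ℝ) ≤ J := Nat.cast_nonneg _
  -- `j₀ ≤ J`
  have hj6 : (j₀ : ℝ) ≤ J := by
    by_contra hcon
    push Not at hcon
    have e1 : r * a * J < r * a * j₀ := mul_lt_mul_of_pos_left hcon hra0
    have e2 : (r - 1) * a * J < 2 * (r * a) + 3 := by nlinarith
    have e3 : 4 ≤ (r - 1) * a := by
      have : δ ≤ r - 1 := by linarith
      nlinarith
    have e4 : 4 * (J : ℝ) ≤ (r - 1) * a * J := mul_le_mul_of_nonneg_right e3 hJ0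
    nlinarith
  have hj7 : j₀ ≤ J := by exact_mod_cast hj6
  obtain ⟨s, hs⟩ : ∃ s, j₀ + s = J + 1 := ⟨J + 1 - j₀, by omega⟩
  have hsR : (s : ℝ) = J + 1 - j₀ := by
    have : (j₀ : ℝ) + s = J + 1 := by exact_mod_cast hs
    linarith
  refine ⟨a, R, J, j₀, s, ?_, hR1, by linarith, hj3, hs, hj4, ?_⟩
  · have : (1 : ℝ) ≤ a := by linarith
    exact_mod_cast this
  · -- `(r a - 3) s`, multiply by `r a`
    have e1 : r * a * s ≥ (r - 1) * a * J - r * a - 3 := by
      rw [hsR]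
      nlinarith
    have e2 : ((a : ℝ) * J + R) * k + 1 ≤ (a * J + (r * a + 1)) * k + 1 := by
      have : ((a : ℝ) * J + R) ≤ (a * J + (r * a + 1)) := by linarith
      have := mul_le_mul_of_nonneg_right this hk0
      linarith
    refine e2.trans ?_
    -- `s ≤ J`
    have e3 : (s : ℝ) ≤ J := by
      rw [hsR]
      have : (1 : ℝ) ≤ j₀ := by exact_mod_cast hj3
      linarith
    have e4 : (r * a - 3) * s = r * a * s - 3 * s := by ring
    rw [e4]
    have e5 : a * δ * J ≥ 4 * J := mul_le_mul_of_nonneg_right haδ hJ0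
    have e6 : (r - 1) * a * J = a * δ * J + a * k * J := by rw [hδ]; ring
    nlinarith

/-- Powers of `log` are small. -/
private theorem exists_log_le (e : ℕ) (c : ℝ) (hc : 0 ≤ c) :
    ∃ u₀ : ℕ, ∀ u : ℕ, u₀ ≤ u → (c * Real.log u) ^ e ≤ u := by
  have h1 := (Real.isLittleO_pow_log_id_atTop (n := e)).def (c := 1 / (c ^ e + 1)) (by positivity)
  obtain ⟨w, hw⟩ := Filter.eventually_atTop.1 h1
  obtain ⟨u₀, hu₀⟩ := exists_nat_gt (max w 1)
  refine ⟨u₀, ?_⟩
  intro u hu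
  have hu' : (u₀ : ℝ) ≤ u := by exact_mod_cast hu
  have hu1 : (1 : ℝ) ≤ u := by
    have := le_max_right w 1
    linarith
  have h2 := hw u (by have := le_max_left w 1; linarith)
  have hl : 0 ≤ Real.log u := Real.log_nonneg hu1
  rw [Real.norm_of_nonneg (by positivity), id, Real.norm_of_nonneg (by linarith)] at h2
  rw [mul_pow]
  have h3 : 0 ≤ c ^ e := by positivity
  calc c ^ e * Real.log u ^ e ≤ c ^ e * (1 / (c ^ e + 1) * u) :=
        mul_le_mul_of_nonneg_left h2 h3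
    _ = (c ^ e / (c ^ e + 1)) * u := by ring
    _ ≤ 1 * u := by
        apply mul_le_mul_of_nonneg_right _ (by linarith)
        rw [div_le_one (by positivity)]
        linarith
    _ = u := one_mul _

/-- **The criterion, real exponent.** -/
theorem critR {m k : ℕ} (x : Fin m → ℂ) (θ : Fin k → ℂ)
    (hx : ∀ j, IsAlgebraic (Algebra.adjoin ℤ (Set.range θ)) (x j)) (r : ℝ)
    (hr : (k : ℝ) < r - 1) (e : ℕ)
    (h : ∃ K0 : ℕ, ∀ K : ℕ, K0 ≤ K → ∃ P : MvPolynomial (Fin m) ℤ, Bd (K * Real.log K ^ e) P ∧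
      Real.exp (-((K : ℝ) ^ r * Real.log K ^ e)) ≤ ‖aeval x P‖ ∧
      ‖aeval x P‖ ≤ Real.exp (-((K : ℝ) ^ r / Real.log K ^ e))) : False := by
  classical
  obtain ⟨C₁, hC₁, hdom⟩ := dom x θ hx
  have hk0 : (0 : ℝ) ≤ k := Nat.cast_nonneg _
  have hr1 : 1 < r := by linarith
  have hr0 : 0 < r := by linarith
  obtain ⟨a, R, J, j₀, s, ha1, hRa, hra3, hj01, hjs, hsep, hbig⟩ := params r k hr
  obtain ⟨K₀, hK₀⟩ := h
  obtain ⟨u₀, hu₀⟩ := exists_log_le e (a * J) (by positivity)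
  -- the base
  obtain ⟨u, hu1, hu2, hu3, hu4, hu5⟩ : ∃ u : ℕ, K₀ ≤ u ∧ u₀ ≤ u ∧ s + 3 ≤ u ∧
      C₁ < (u : ℝ) ∧ 4 * (r * a) * s + 1 ≤ (u : ℝ) := by
    obtain ⟨w, hw⟩ := exists_nat_gt (max C₁ (4 * (r * a) * s + 1))
    have h1 := le_max_left C₁ (4 * (r * a) * s + 1)
    have h2 := le_max_right C₁ (4 * (r * a) * s + 1)
    have h3 : (0 : ℝ) ≤ (K₀ : ℝ) + u₀ + (s + 3) := by positivity
    refine ⟨K₀ + u₀ + (s + 3) + w, by omega, by omega, by omega, ?_, ?_⟩
    · push_cast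
      linarith
    · push_cast
      linarith
  have hu0 : 3 ≤ u := by omega
  have huR : (3 : ℝ) ≤ u := by exact_mod_cast hu0
  have huR1 : (1 : ℝ) ≤ u := by linarith
  have huR1' : (1 : ℝ) < u := by linarith
  have hupos : (0 : ℝ) < u := by linarith
  have hmono : ∀ y z : ℝ, y ≤ z → (u : ℝ) ^ y ≤ (u : ℝ) ^ z := fun y z hyz =>
    Real.rpow_le_rpow_of_exponent_le huR1 hyz
  have hlogu : 1 ≤ Real.log u := by
    have h1 : Real.log (Real.exp 1) ≤ Real.log u := by
      apply Real.log_le_log (Real.exp_pos 1)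
      have := Real.exp_one_lt_d9
      linarith
    rwa [Real.log_exp] at h1
  -- the scales
  have hscale : ∀ j : ℕ, 1 ≤ j → j ≤ J → ∃ P : MvPolynomial (Fin m) ℤ,
      Bd ((u : ℝ) ^ ((a : ℝ) * j + 1)) P ∧ aeval x P ≠ 0 ∧
      (u : ℝ) ^ (r * a * j - 1) ≤ -Real.log ‖aeval x P‖ ∧
      -Real.log ‖aeval x P‖ ≤ (u : ℝ) ^ (r * a * j + 1) := by
    intro j hj1 hjJ
    have haj : 1 ≤ a * j := Nat.mul_pos ha1 hj1
    have hK : K₀ ≤ u ^ (a * j) := by
      refine hu1.trans ?_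
      calc u = u ^ 1 := (pow_one u).symm
        _ ≤ u ^ (a * j) := Nat.pow_le_pow_right (by omega) haj
    obtain ⟨P, hP1, hP2, hP3⟩ := hK₀ (u ^ (a * j)) hK
    have hKR : (((u ^ (a * j) : ℕ)) : ℝ) = (u : ℝ) ^ ((a : ℝ) * j) := by
      rw [Nat.cast_pow, ← Real.rpow_natCast]
      push_cast
      rfl
    rw [hKR] at hP1 hP2 hP3
    have hlog : Real.log ((u : ℝ) ^ ((a : ℝ) * j)) = ((a : ℝ) * j) * Real.log u :=
      Real.log_rpow hupos _
    rw [hlog] at hP1 hP2 hP3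
    have hjR : (j : ℝ) ≤ J := by exact_mod_cast hjJ
    have haR : (0 : ℝ) ≤ a := Nat.cast_nonneg _
    have hajR : (1 : ℝ) ≤ (a : ℝ) * j := by exact_mod_cast haj
    have hL1 : (((a : ℝ) * j) * Real.log u) ^ e ≤ u := by
      refine le_trans ?_ (hu₀ u hu2)
      apply pow_le_pow_left₀ (by positivity)
      apply mul_le_mul_of_nonneg_right _ (by linarith)
      exact mul_le_mul_of_nonneg_left hjR haR
    have hL2 : 1 ≤ (((a : ℝ) * j) * Real.log u) ^ e := by
      apply one_le_pow₀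
      nlinarith
    have hL0 : 0 < (((a : ℝ) * j) * Real.log u) ^ e := by linarith
    have hpow : ((u : ℝ) ^ ((a : ℝ) * j)) ^ r = (u : ℝ) ^ (r * a * j) := by
      rw [← Real.rpow_mul hupos.le]
      congr 1
      ring
    rw [hpow] at hP2 hP3
    have hpos : 0 < ‖aeval x P‖ := lt_of_lt_of_le (Real.exp_pos _) hP2
    have hlow := Real.log_le_log (Real.exp_pos _) hP2
    have hup := Real.log_le_log hpos hP3
    rw [Real.log_exp] at hlow hup
    refine ⟨P, hP1.mono ?_, norm_pos_iff.1 hpos, ?_, ?_⟩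
    · rw [Real.rpow_add hupos, Real.rpow_one]
      exact mul_le_mul_of_nonneg_left hL1 (by positivity)
    · have h1 : (u : ℝ) ^ (r * a * j - 1) ≤
          (u : ℝ) ^ (r * a * j) / (((a : ℝ) * j) * Real.log u) ^ e := by
        rw [Real.rpow_sub hupos, Real.rpow_one]
        exact div_le_div_of_nonneg_left (by positivity) hL0 hL1
      linarith
    · have h1 : (u : ℝ) ^ (r * a * j) * (((a : ℝ) * j) * Real.log u) ^ e ≤
          (u : ℝ) ^ (r * a * j + 1) := by
        rw [Real.rpow_add hupos, Real.rpow_one]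
        exact mul_le_mul_of_nonneg_left hL1 (by positivity)
      linarith
  have hch : ∀ i : Fin s, ∃ P : MvPolynomial (Fin m) ℤ,
      Bd ((u : ℝ) ^ ((a : ℝ) * ((j₀ + (i : ℕ) : ℕ) : ℝ) + 1)) P ∧ aeval x P ≠ 0 ∧
      (u : ℝ) ^ (r * a * ((j₀ + (i : ℕ) : ℕ) : ℝ) - 1) ≤ -Real.log ‖aeval x P‖ ∧
      -Real.log ‖aeval x P‖ ≤ (u : ℝ) ^ (r * a * ((j₀ + (i : ℕ) : ℕ) : ℝ) + 1) := by
    intro i
    have := i.2
    exact hscale _ (by omega) (by omega)
  choose P hP1 hP2 hP3 hP4 using hch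
  set b : ℕ := ⌊(u : ℝ) ^ (r * a - 3)⌋₊ with hb
  have hb1 : (b : ℝ) ≤ (u : ℝ) ^ (r * a - 3) := Nat.floor_le (by positivity)
  have hb2 : (u : ℝ) ^ (r * a - 3) ≤ (b : ℝ) + 1 := (Nat.lt_floor_add_one _).le
  set n : ℕ := u ^ (a * J + R) with hn
  have hn1 : 1 ≤ n := Nat.one_le_pow _ _ (by omega)
  have hnR : (n : ℝ) = (u : ℝ) ^ ((a : ℝ) * J + R) := by
    rw [hn, Nat.cast_pow, ← Real.rpow_natCast]
    push_cast
    rfl
  have hsu : (s : ℝ) ≤ u := by
    have : s ≤ u := by omega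
    exact_mod_cast this
  have hsu1 : (s : ℝ) + 1 ≤ u := by
    have : s + 1 ≤ u := by omega
    exact_mod_cast this
  have hcard : Fintype.card (Fin s → Fin (b + 1)) = (b + 1) ^ s := by
    rw [Fintype.card_fun, Fintype.card_fin, Fintype.card_fin]
  have hra0 : 0 < r * a := by linarith
  have hres := hdom n hn1 (Fin s → Fin (b + 1)) (fun c => ∏ i, P i ^ (c i : ℕ)) ?_ ?_ ?_ ?_
  · -- contradiction
    rw [hcard] at hres
    push_cast at hres
    have h1 : (u : ℝ) ^ ((r * a - 3) * s) ≤ ((b : ℝ) + 1) ^ s := by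
      rw [Real.rpow_mul hupos.le, Real.rpow_natCast]
      exact pow_le_pow_left₀ (by positivity) hb2 _
    have h2 : C₁ * (n : ℝ) ^ k = C₁ * (u : ℝ) ^ (((a : ℝ) * J + R) * k) := by
      rw [hnR, ← Real.rpow_natCast, ← Real.rpow_mul hupos.le]
    have h3 : (u : ℝ) ^ (((a : ℝ) * J + R) * k + 1) ≤ (u : ℝ) ^ ((r * a - 3) * s) :=
      hmono _ _ hbig
    rw [Real.rpow_add hupos, Real.rpow_one] at h3
    have h5 : (u : ℝ) ^ (((a : ℝ) * J + R) * k) * u ≤
        (u : ℝ) ^ (((a : ℝ) * J + R) * k) * C₁ := by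
      rw [mul_comm _ C₁, ← h2]
      linarith
    have h6 := le_of_mul_le_mul_left h5 (by positivity)
    linarith
  · -- sizes
    intro c
    have h1 := Bd.prod Finset.univ
      (fun i : Fin s => ((c i : ℕ) : ℝ) * (u : ℝ) ^ ((a : ℝ) * ((j₀ + (i : ℕ) : ℕ) : ℝ) + 1))
      (fun i => P i ^ (c i : ℕ)) (fun i _ => (hP1 i).pow (c i : ℕ))
    refine h1.mono ?_
    have h2 : ∀ i ∈ (Finset.univ : Finset (Fin s)),
        ((c i : ℕ) : ℝ) * (u : ℝ) ^ ((a : ℝ) * ((j₀ + (i : ℕ) : ℕ) : ℝ) + 1) ≤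
        (u : ℝ) ^ (r * a - 3) * (u : ℝ) ^ ((a : ℝ) * J + 1) := by
      intro i _
      apply mul_le_mul
      · refine le_trans ?_ hb1
        exact_mod_cast Nat.lt_succ_iff.1 (c i).2
      · apply hmono
        have h3 : ((j₀ + (i : ℕ) : ℕ) : ℝ) ≤ J := by
          have := i.2
          have h4 : j₀ + (i : ℕ) ≤ J := by omega
          exact_mod_cast h4
        have h5 : (a : ℝ) * ((j₀ + (i : ℕ) : ℕ) : ℝ) ≤ a * J :=
          mul_le_mul_of_nonneg_left h3 (Nat.cast_nonneg _)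
        linarith
      · positivity
      · positivity
    refine (Finset.sum_le_card_nsmul _ _ _ h2).trans ?_
    rw [nsmul_eq_mul, Finset.card_univ, Fintype.card_fin, hnR, ← Real.rpow_add hupos]
    calc (s : ℝ) * (u : ℝ) ^ (r * a - 3 + ((a : ℝ) * J + 1))
        ≤ (u : ℝ) * (u : ℝ) ^ (r * a - 3 + ((a : ℝ) * J + 1)) :=
          mul_le_mul_of_nonneg_right hsu (by positivity)
      _ = (u : ℝ) ^ (1 + (r * a - 3 + ((a : ℝ) * J + 1))) := by
          rw [Real.rpow_add hupos 1, Real.rpow_one]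
      _ ≤ _ := by
          apply hmono
          linarith
  · -- values are not zero
    intro c
    rw [map_prod]
    apply Finset.prod_ne_zero_iff.2
    intro i _
    rw [map_pow]
    exact pow_ne_zero _ (hP2 i)
  · -- separation
    intro c c' hne
    have hlog : ∀ c : Fin s → Fin (b + 1), Real.log ‖aeval x (∏ i, P i ^ (c i : ℕ))‖ =
        -∑ i, ((c i : ℕ) : ℝ) * (-Real.log ‖aeval x (P i)‖) := by
      intro c
      rw [map_prod, norm_prod, Real.log_prod]
      · rw [← Finset.sum_neg_distrib]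
        apply Finset.sum_congr rfl
        intro i _
        rw [map_pow, norm_pow, Real.log_pow]
        ring
      · intro i _
        rw [map_pow, norm_pow]
        exact pow_ne_zero _ (norm_ne_zero_iff.2 (hP2 i))
    rw [hlog c, hlog c']
    have h1 := digit_sep s b (fun i => -Real.log ‖aeval x (P i)‖)
      (fun i => le_trans (by positivity) (hP3 i)) (n : ℝ) ?_ c c' hne
    · refine h1.trans (le_of_eq ?_)
      rw [← abs_neg]
      congr 1
      ring
    · intro i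
      refine ⟨(u : ℝ) ^ (r * a * (((j₀ + (i : ℕ) : ℕ) : ℝ) - 1) + 1), by positivity, ?_, ?_⟩
      · intro j hj
        refine (hP4 j).trans ?_
        apply hmono
        have hj' : (j : ℕ) + 1 ≤ (i : ℕ) := hj
        have e0 : (((j₀ + (j : ℕ) : ℕ) : ℝ)) + 1 ≤ ((j₀ + (i : ℕ) : ℕ) : ℝ) := by
          have e1 : j₀ + (j : ℕ) + 1 ≤ j₀ + (i : ℕ) := by omega
          exact_mod_cast e1
        have e2 : r * a * ((j₀ + (j : ℕ) : ℕ) : ℝ) ≤
            r * a * (((j₀ + (i : ℕ) : ℕ) : ℝ) - 1) :=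
          mul_le_mul_of_nonneg_left (by linarith) hra0.le
        linarith
      · refine le_trans ?_ (sub_le_sub_right (hP3 i) _)
        set y : ℝ := ((j₀ + (i : ℕ) : ℕ) : ℝ) with hy
        have hy0 : (j₀ : ℝ) ≤ y := by
          rw [hy]
          push_cast
          have : (0 : ℝ) ≤ ((i : ℕ) : ℝ) := Nat.cast_nonneg _
          linarith
        have e1 : (s : ℝ) * ((b : ℝ) * (u : ℝ) ^ (r * a * (y - 1) + 1)) ≤
            (s : ℝ) * (u : ℝ) ^ (r * a * y - 2) := by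
          apply mul_le_mul_of_nonneg_left _ (Nat.cast_nonneg _)
          calc (b : ℝ) * (u : ℝ) ^ (r * a * (y - 1) + 1)
              ≤ (u : ℝ) ^ (r * a - 3) * (u : ℝ) ^ (r * a * (y - 1) + 1) :=
                mul_le_mul_of_nonneg_right hb1 (by positivity)
            _ = (u : ℝ) ^ (r * a * y - 2) := by
                rw [← Real.rpow_add hupos]
                congr 1
                ring
        have e2 : (u : ℝ) ^ (r * a * y - 1) = (u : ℝ) * (u : ℝ) ^ (r * a * y - 2) := by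
          have e3 : r * a * y - 1 = 1 + (r * a * y - 2) := by ring
          rw [e3, Real.rpow_add hupos 1, Real.rpow_one]
        have e4 : (n : ℝ) ≤ (u : ℝ) ^ (r * a * y - 2) := by
          rw [hnR]
          apply hmono
          have e5 : r * a * j₀ ≤ r * a * y := mul_le_mul_of_nonneg_left hy0 hra0.le
          linarith
        rw [e2]
        have e6 : (0 : ℝ) ≤ (u : ℝ) ^ (r * a * y - 2) := by positivity
        nlinarith
  · -- cardinality
    rw [hcard]
    push_cast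
    have h1 : (b : ℝ) + 1 ≤ (u : ℝ) ^ (r * a) := by
      have e1 : (u : ℝ) ^ (r * a) = (u : ℝ) ^ (r * a - 3) * (u : ℝ) ^ (3 : ℝ) := by
        rw [← Real.rpow_add hupos]
        congr 1
        ring
      have e2 : (1 : ℝ) ≤ (u : ℝ) ^ (r * a - 3) := by
        apply Real.one_le_rpow huR1
        linarith
      have e3 : (2 : ℝ) ≤ (u : ℝ) ^ (3 : ℝ) := by
        calc (2 : ℝ) ≤ u := by linarith
          _ = (u : ℝ) ^ (1 : ℝ) := (Real.rpow_one _).symm
          _ ≤ (u : ℝ) ^ (3 : ℝ) := hmono _ _ (by norm_num)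
      rw [e1]
      nlinarith
    have hL : Real.log u ≤ u := (Real.log_le_sub_one_of_pos hupos).trans (by linarith)
    calc ((b : ℝ) + 1) ^ s ≤ ((u : ℝ) ^ (r * a)) ^ s :=
          pow_le_pow_left₀ (by positivity) h1 _
      _ = (Real.exp (r * a * Real.log u)) ^ s := by
          rw [Real.rpow_def_of_pos hupos, mul_comm (Real.log (u : ℝ))]
      _ = Real.exp (s * (r * a * Real.log u)) := by rw [Real.exp_nat_mul]
      _ ≤ Real.exp ((n : ℝ) / 4) := by
          apply Real.exp_le_exp.2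
          have e2 : (u : ℝ) * u ≤ n := by
            have h7 : 2 ≤ a * J + R := by
              have h10 : (3 : ℝ) ≤ R := by linarith
              have h11 : 3 ≤ R := by exact_mod_cast h10
              exact (show 2 ≤ 3 by norm_num).trans (h11.trans (Nat.le_add_left _ _))
            rw [hn, Nat.cast_pow]
            calc (u : ℝ) * u = (u : ℝ) ^ 2 := by ring
              _ ≤ _ := pow_le_pow_right₀ huR1 h7
          have e3 : (s : ℝ) * (r * a * Real.log u) ≤ s * (r * a * u) := by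
            apply mul_le_mul_of_nonneg_left _ (Nat.cast_nonneg _)
            exact mul_le_mul_of_nonneg_left hL hra0.le
          have e4 : (4 * (r * a) * s) * u ≤ u * u := by
            apply mul_le_mul_of_nonneg_right _ hupos.le
            linarith
          nlinarith

end Pool.Agent.RHK
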