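import Pool.Agent.RHK.Count

/-!
# Project RHK: polynomials with separated values

Integer polynomials of size at most `n` whose values at `x` have logarithms which are pairwise at
distance at least `n` are at most `C n ^ k` in number (dominant term and counting of values).
-/

namespace Pool.Agent.RHK

open MvPolynomial

private theorem injective_comb {m : ℕ} (x : Fin m → ℂ) {ι : Type*} [Fintype ι] (n : ℝ) (X : ℕ)
    (hX : (Fintype.card ι : ℝ) * X * Real.exp (-n) < 1) (F : ι → MvPolynomial (Fin m) ℤ)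
    (h0 : ∀ i, aeval x (F i) ≠ 0)
    (hsep : ∀ i j, i ≠ j → n ≤ |Real.log ‖aeval x (F i)‖ - Real.log ‖aeval x (F j)‖|) :
    Function.Injective (fun a : ι → Fin (X + 1) =>
      aeval x (∑ i, C ((a i : ℕ) : ℤ) * F i)) := by
  classical
  intro a a' haa
  by_contra hne
  have hex : (Finset.univ.filter (fun i => a i ≠ a' i)).Nonempty := by
    by_contra hcon
    rw [Finset.not_nonempty_iff_eq_empty, Finset.filter_eq_empty_iff] at hcon
    apply hne
    funext i
    have := hcon (Finset.mem_univ i)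
    push Not at this
    exact this
  obtain ⟨i₀, hi₀, hmax⟩ := Finset.exists_max_image _ (fun i => ‖aeval x (F i)‖) hex
  rw [Finset.mem_filter] at hi₀
  have hpos : 0 < ‖aeval x (F i₀)‖ := norm_pos_iff.2 (h0 i₀)
  -- the relation
  have hrel : ∑ i, (((a i : ℕ) : ℂ) - ((a' i : ℕ) : ℂ)) * aeval x (F i) = 0 := by
    have h1 : aeval x (∑ i, C ((a i : ℕ) : ℤ) * F i) = ∑ i, ((a i : ℕ) : ℂ) * aeval x (F i) := by
      rw [map_sum]
      apply Finset.sum_congr rfl
      intro i _
      rw [map_mul, aeval_C]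
      simp
    have h2 : aeval x (∑ i, C ((a' i : ℕ) : ℤ) * F i) =
        ∑ i, ((a' i : ℕ) : ℂ) * aeval x (F i) := by
      rw [map_sum]
      apply Finset.sum_congr rfl
      intro i _
      rw [map_mul, aeval_C]
      simp
    have h3 : aeval x (∑ i, C ((a i : ℕ) : ℤ) * F i) = aeval x (∑ i, C ((a' i : ℕ) : ℤ) * F i) :=
      haa
    rw [h1, h2] at h3
    simp only [sub_mul]
    rw [Finset.sum_sub_distrib, h3, sub_self]
  have hbig : ‖aeval x (F i₀)‖ ≤
      ‖(((a i₀ : ℕ) : ℂ) - ((a' i₀ : ℕ) : ℂ)) * aeval x (F i₀)‖ := by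
    rw [norm_mul]
    have h4 : (1 : ℝ) ≤ ‖(((a i₀ : ℕ) : ℂ) - ((a' i₀ : ℕ) : ℂ))‖ := by
      have h5 : (((a i₀ : ℕ) : ℂ) - ((a' i₀ : ℕ) : ℂ)) = (((a i₀ : ℕ) : ℤ) - ((a' i₀ : ℕ) : ℤ) : ℤ) := by
        push_cast; ring
      rw [h5, Complex.norm_intCast]
      have h6 : ((a i₀ : ℕ) : ℤ) - ((a' i₀ : ℕ) : ℤ) ≠ 0 := by
        intro h7
        apply hi₀.2
        apply Fin.ext
        omega
      have h8 := Int.one_le_abs h6
      exact_mod_cast h8
    nlinarith
  have hsmall : ‖∑ i ∈ Finset.univ.erase i₀, (((a i : ℕ) : ℂ) - ((a' i : ℕ) : ℂ)) *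
      aeval x (F i)‖ ≤ (Fintype.card ι : ℝ) * (X * (Real.exp (-n) * ‖aeval x (F i₀)‖)) := by
    refine (norm_sum_le _ _).trans ?_
    have h9 : ∀ i ∈ Finset.univ.erase i₀, ‖(((a i : ℕ) : ℂ) - ((a' i : ℕ) : ℂ)) *
        aeval x (F i)‖ ≤ X * (Real.exp (-n) * ‖aeval x (F i₀)‖) := by
      intro i hi
      have hine : i ≠ i₀ := Finset.ne_of_mem_erase hi
      rw [norm_mul]
      by_cases hi2 : a i = a' i
      · rw [hi2, sub_self, norm_zero, zero_mul]
        positivity
      · have h10 := hmax i (Finset.mem_filter.2 ⟨Finset.mem_univ _, hi2⟩)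
        have hpi : 0 < ‖aeval x (F i)‖ := norm_pos_iff.2 (h0 i)
        have h11 : Real.log ‖aeval x (F i)‖ ≤ Real.log ‖aeval x (F i₀)‖ :=
          Real.log_le_log hpi h10
        have h12 := hsep i i₀ hine
        rw [abs_of_nonpos (by linarith)] at h12
        have h13 : Real.log ‖aeval x (F i)‖ ≤ -n + Real.log ‖aeval x (F i₀)‖ := by linarith
        have h14 : ‖aeval x (F i)‖ ≤ Real.exp (-n) * ‖aeval x (F i₀)‖ := by
          rw [← Real.exp_log hpi]
          calc Real.exp (Real.log ‖aeval x (F i)‖)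
              ≤ Real.exp (-n + Real.log ‖aeval x (F i₀)‖) := Real.exp_le_exp.2 h13
            _ = Real.exp (-n) * ‖aeval x (F i₀)‖ := by
                rw [Real.exp_add, Real.exp_log hpos]
        have h15 : ‖(((a i : ℕ) : ℂ) - ((a' i : ℕ) : ℂ))‖ ≤ X := by
          have h5 : (((a i : ℕ) : ℂ) - ((a' i : ℕ) : ℂ)) =
              (((a i : ℕ) : ℤ) - ((a' i : ℕ) : ℤ) : ℤ) := by
            push_cast; ring
          rw [h5, Complex.norm_intCast]
          have h16 : |((a i : ℕ) : ℤ) - ((a' i : ℕ) : ℤ)| ≤ X := by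
            have e1 := (a i).2
            have e2 := (a' i).2
            rw [abs_le]
            omega
          exact_mod_cast h16
        exact mul_le_mul h15 h14 (norm_nonneg _) (Nat.cast_nonneg _)
    refine (Finset.sum_le_card_nsmul _ _ _ h9).trans ?_
    rw [nsmul_eq_mul]
    apply mul_le_mul_of_nonneg_right _ (by positivity)
    have h17 : (Finset.univ.erase i₀).card ≤ Fintype.card ι := by
      rw [Fintype.card]
      exact Finset.card_le_card (Finset.erase_subset _ _)
    exact_mod_cast h17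
  have hsplit := Finset.add_sum_erase Finset.univ
    (fun i => (((a i : ℕ) : ℂ) - ((a' i : ℕ) : ℂ)) * aeval x (F i)) (Finset.mem_univ i₀)
  rw [hrel] at hsplit
  have h18 : ‖(((a i₀ : ℕ) : ℂ) - ((a' i₀ : ℕ) : ℂ)) * aeval x (F i₀)‖ =
      ‖∑ i ∈ Finset.univ.erase i₀, (((a i : ℕ) : ℂ) - ((a' i : ℕ) : ℂ)) * aeval x (F i)‖ := by
    rw [← norm_neg]
    congr 1
    exact neg_eq_of_add_eq_zero_right hsplit
  have h19 : (Fintype.card ι : ℝ) * (X * (Real.exp (-n) * ‖aeval x (F i₀)‖)) =
      ((Fintype.card ι : ℝ) * X * Real.exp (-n)) * ‖aeval x (F i₀)‖ := by ring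
  rw [h19] at hsmall
  nlinarith

/-- Polynomials of size at most `n` with values separated by `n` on the logarithmic scale are at
most `C n ^ k` in number. -/
theorem dom {m k : ℕ} (x : Fin m → ℂ) (θ : Fin k → ℂ)
    (hx : ∀ j, IsAlgebraic (Algebra.adjoin ℤ (Set.range θ)) (x j)) :
    ∃ C₁ : ℝ, 0 < C₁ ∧ ∀ n : ℕ, 1 ≤ n → ∀ (ι : Type) [Fintype ι]
      (F : ι → MvPolynomial (Fin m) ℤ), (∀ i, Bd (n : ℝ) (F i)) → (∀ i, aeval x (F i) ≠ 0) →
      (∀ i j, i ≠ j → (n : ℝ) ≤ |Real.log ‖aeval x (F i)‖ - Real.log ‖aeval x (F j)‖|) →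
      (Fintype.card ι : ℝ) ≤ Real.exp (n / 4) →
      (Fintype.card ι : ℝ) ≤ C₁ * (n : ℝ) ^ k := by
  classical
  obtain ⟨C₀, hC₀, hcount⟩ := count x θ hx
  refine ⟨2 ^ (k + 2) * C₀, by positivity, ?_⟩
  intro n hn ι _ F hF h0 hsep hcard
  have hnR : (1 : ℝ) ≤ n := by exact_mod_cast hn
  set X : ℕ := ⌊Real.exp (n / 2)⌋₊ with hXdef
  have hX1 : (X : ℝ) ≤ Real.exp (n / 2) := Nat.floor_le (Real.exp_pos _).le
  have hX2 : Real.exp (n / 2) ≤ X + 1 := (Nat.lt_floor_add_one _).le
  have hRX : (Fintype.card ι : ℝ) * X * Real.exp (-n) < 1 := by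
    calc (Fintype.card ι : ℝ) * X * Real.exp (-n)
        ≤ Real.exp (n / 4) * Real.exp (n / 2) * Real.exp (-n) := by
          apply mul_le_mul_of_nonneg_right _ (Real.exp_pos _).le
          exact mul_le_mul hcard hX1 (Nat.cast_nonneg _) (Real.exp_pos _).le
      _ = Real.exp (-(n / 4)) := by
          rw [← Real.exp_add, ← Real.exp_add]
          congr 1; ring
      _ < 1 := by
          rw [Real.exp_lt_one_iff]
          linarith
  have hinj := injective_comb x (n : ℝ) X hRX F h0 hsep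
  set S : Finset ℂ := Finset.univ.image (fun a : ι → Fin (X + 1) =>
    aeval x (∑ i, C ((a i : ℕ) : ℤ) * F i)) with hS
  have hScard : S.card = (X + 1) ^ Fintype.card ι := by
    rw [hS, Finset.card_image_of_injective _ hinj, Finset.card_univ, Fintype.card_fun,
      Fintype.card_fin]
  have hcnt := hcount (2 * n) (by omega) S (by
    intro z hz
    rw [hS, Finset.mem_image] at hz
    obtain ⟨a, _, ha⟩ := hz
    refine ⟨_, ⟨?_, ?_⟩, ha⟩
    · have h1 : (∑ i, C ((a i : ℕ) : ℤ) * F i).totalDegree ≤ n := by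
        apply totalDegree_finsetSum_le
        intro i _
        refine (totalDegree_mul _ _).trans ?_
        rw [totalDegree_C, zero_add]
        exact_mod_cast (hF i).1
      have h2 : (((∑ i, C ((a i : ℕ) : ℤ) * F i).totalDegree : ℕ) : ℝ) ≤ n := by exact_mod_cast h1
      push_cast
      linarith
    · refine (L1_sum_le _ _).trans ?_
      calc ∑ i, L1 (C ((a i : ℕ) : ℤ) * F i) ≤ ∑ _i : ι, (X : ℝ) * Real.exp n := by
            apply Finset.sum_le_sum
            intro i _
            refine (L1_C_mul_le _ _).trans ?_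
            apply mul_le_mul _ (hF i).2 (L1_nonneg _) (Nat.cast_nonneg _)
            have h3 := (a i).2
            have h4 : ((a i : ℕ) : ℝ) ≤ X := by exact_mod_cast Nat.lt_succ_iff.1 h3
            simpa using h4
        _ = (Fintype.card ι : ℝ) * (X * Real.exp n) := by
            rw [Finset.sum_const, Finset.card_univ, nsmul_eq_mul]
        _ ≤ Real.exp (n / 4) * (Real.exp (n / 2) * Real.exp n) := by
            apply mul_le_mul hcard _ (by positivity) (Real.exp_pos _).le
            exact mul_le_mul_of_nonneg_right hX1 (Real.exp_pos _).le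
        _ = Real.exp (n / 4 + (n / 2 + n)) := by rw [Real.exp_add, Real.exp_add]
        _ ≤ _ := by
            apply Real.exp_le_exp.2
            push_cast
            linarith)
  rw [hScard] at hcnt
  push_cast at hcnt
  have h5 : Real.exp ((Fintype.card ι : ℝ) * (n / 2)) ≤ Real.exp (C₀ * (2 * n) ^ (k + 1)) := by
    refine le_trans ?_ hcnt
    rw [Real.exp_nat_mul]
    exact pow_le_pow_left₀ (Real.exp_pos _).le hX2 _
  have h6 := Real.exp_le_exp.1 h5
  have h7 : C₀ * (2 * (n : ℝ)) ^ (k + 1) = (2 ^ (k + 2) * C₀ * (n : ℝ) ^ k) * (n / 2) := by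
    rw [mul_pow]; ring
  rw [h7] at h6
  exact le_of_mul_le_mul_right h6 (by linarith)

end Pool.Agent.RHK
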