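import Pool.Agent.RHK.CDefs

/-!
# Project RHK, MV: partial derivatives of entire functions are entire
-/

set_option autoImplicit false

namespace Pool.Agent.RHK

open Complex Finset

private lemma Ent_line {X : Type} [NormedAddCommGroup X] [NormedSpace ℂ X]
    {Φ : X → ℂ} (h : Differentiable ℂ Φ) (v w : X) (s : ℂ) :
    HasDerivAt (fun t : ℂ => Φ (v + t • w)) (fderiv ℂ Φ (v + s • w) w) s := by
  have h1 : HasDerivAt (fun t : ℂ => v + t • w) w s := by
    simpa using ((hasDerivAt_id s).smul_const w).const_add v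
  exact (h (v + s • w)).hasFDerivAt.comp_hasDerivAt s h1

private lemma Ent_bound {X : Type} [NormedAddCommGroup X] [NormedSpace ℂ X]
    {Φ : X → ℂ} (h : Differentiable ℂ Φ) (x : X) (M : ℝ)
    (hM : ∀ y, ‖y - x‖ ≤ 1 → ‖Φ y‖ ≤ M) : ‖fderiv ℂ Φ x‖ ≤ M := by
  have hM0 : 0 ≤ M := (norm_nonneg _).trans (hM x (by simp))
  refine ContinuousLinearMap.opNorm_le_bound _ hM0 (fun u => ?_)
  by_cases hu : u = 0
  · simp [hu]
  have hu' : 0 < ‖u‖ := norm_pos_iff.2 hu
  have h1 := Ent_line h x u 0
  rw [zero_smul, add_zero] at h1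
  have h2 : Differentiable ℂ (fun t : ℂ => Φ (x + t • u)) := fun s =>
    (Ent_line h x u s).differentiableAt
  have h3 := Complex.norm_deriv_le_of_forall_mem_sphere_norm_le (c := 0) (R := ‖u‖⁻¹) (C := M)
    (inv_pos.2 hu') h2.diffContOnCl (fun z hz => hM _ (by
      rw [add_sub_cancel_left, norm_smul]
      rw [mem_sphere_iff_norm, sub_zero] at hz
      rw [hz, inv_mul_cancel₀ hu'.ne']))
  rw [h1.deriv, div_inv_eq_mul] at h3
  exact h3

theorem ent_fderiv {X : Type} [NormedAddCommGroup X] [NormedSpace ℂ X] [FiniteDimensional ℂ X]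
    {Φ : X → ℂ} (h : Differentiable ℂ Φ) (w : X) : Differentiable ℂ (fun v => fderiv ℂ Φ v w) := by
  haveI : ProperSpace X := FiniteDimensional.proper ℂ X
  haveI : ProperSpace (X →L[ℂ] ℂ) := FiniteDimensional.proper ℂ (X →L[ℂ] ℂ)
  letI : MeasurableSpace X := borel X
  haveI : BorelSpace X := ⟨rfl⟩
  set c : ℝ → ℂ := fun θ => deriv (circleMap 0 1) θ * (1 / (circleMap 0 1 θ - 0) ^ 2) with hc
  have hcm : ∀ θ, ‖circleMap 0 1 θ‖ = 1 := fun θ => by simp
  have hcn : ∀ θ, ‖c θ‖ = 1 := fun θ => by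
    rw [hc]; simp
  have hne : ∀ θ, circleMap 0 1 θ ≠ 0 := fun θ h0 => by
    have := hcm θ
    rw [h0] at this
    simp at this
  have hcc : Continuous c := by
    rw [hc]
    have e : (fun θ => deriv (circleMap 0 1) θ * (1 / (circleMap 0 1 θ - 0) ^ 2)) =
        fun θ : ℝ => (circleMap 0 1 θ * I) * (1 / (circleMap 0 1 θ - 0) ^ 2) := by
      funext θ; rw [deriv_circleMap]
    rw [e]
    have h1 : Continuous (circleMap 0 1) := continuous_circleMap 0 1
    refine (h1.mul continuous_const).mul (continuous_const.div ((h1.sub continuous_const).pow 2) ?_)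
    intro θ
    rw [sub_zero]
    exact pow_ne_zero _ (hne θ)
  have hint : ∀ v, fderiv ℂ Φ v w = (2 * Real.pi * I)⁻¹ *
      ∫ θ in (0 : ℝ)..2 * Real.pi, c θ * Φ (v + circleMap 0 1 θ • w) := by
    intro v
    have h2 : Differentiable ℂ (fun t : ℂ => Φ (v + t • w)) := fun s =>
      (Ent_line h v w s).differentiableAt
    have h3 := (h2.differentiableOn (s := Metric.closedBall 0 1)).deriv_eq_smul_circleIntegral
      (c := 0) (R := 1) one_pos
    have h4 := (Ent_line h v w 0).deriv
    rw [zero_smul, add_zero] at h4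
    rw [h4, smul_eq_mul] at h3
    have h5 : (∮ z in C(0, 1), (1 / (z - 0) ^ 2) • Φ (v + z • w)) =
        ∫ θ in (0 : ℝ)..2 * Real.pi, c θ * Φ (v + circleMap 0 1 θ • w) := by
      rw [circleIntegral]
      refine intervalIntegral.integral_congr (fun θ _ => ?_)
      simp only [smul_eq_mul, hc]
      ring
    rw [h5] at h3
    rw [h3, inv_mul_cancel_left₀]
    exact Complex.two_pi_I_ne_zero
  have hfun : (fun v => fderiv ℂ Φ v w) = fun v => (2 * Real.pi * I)⁻¹ *
      ∫ θ in (0 : ℝ)..2 * Real.pi, c θ * Φ (v + circleMap 0 1 θ • w) := funext hint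
  rw [hfun]
  refine Differentiable.const_mul ?_ _
  intro x₀
  obtain ⟨M, hM⟩ := (isCompact_closedBall x₀ (‖w‖ + 2)).exists_bound_of_continuousOn
    (f := Φ) h.continuous.continuousOn
  have hshift : ∀ θ : ℝ, Continuous (fun θ : ℝ => circleMap 0 1 θ • w) := fun _ =>
    (continuous_circleMap 0 1).smul continuous_const
  have hcs : Continuous (fun θ : ℝ => circleMap 0 1 θ • w) := hshift 0
  have key := intervalIntegral.hasFDerivAt_integral_of_dominated_of_fderiv_le (𝕜 := ℂ)
    (μ := MeasureTheory.volume) (a := 0) (b := 2 * Real.pi)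
    (F := fun (x : X) (θ : ℝ) => c θ * Φ (x + circleMap 0 1 θ • w))
    (F' := fun (x : X) (θ : ℝ) => c θ • fderiv ℂ Φ (x + circleMap 0 1 θ • w))
    (x₀ := x₀) (s := Metric.ball x₀ 1) (bound := fun _ => M) (Metric.ball_mem_nhds x₀ one_pos)
    ?_ ?_ ?_ ?_ ?_ ?_
  · exact key.differentiableAt
  · refine Filter.Eventually.of_forall (fun x => ?_)
    refine Continuous.aestronglyMeasurable ?_
    exact hcc.mul (h.continuous.comp (continuous_const.add hcs))
  · refine Continuous.intervalIntegrable ?_ _ _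
    exact hcc.mul (h.continuous.comp (continuous_const.add hcs))
  · refine Measurable.aestronglyMeasurable ?_
    refine hcc.measurable.smul ?_
    exact (measurable_fderiv ℂ Φ).comp (continuous_const.add hcs).measurable
  · refine Filter.Eventually.of_forall (fun θ _ x hx => ?_)
    rw [norm_smul, hcn, one_mul]
    refine Ent_bound h _ M (fun y hy => hM y ?_)
    rw [Metric.mem_closedBall, dist_eq_norm]
    rw [Metric.mem_ball, dist_eq_norm] at hx
    calc ‖y - x₀‖ = ‖(y - (x + circleMap 0 1 θ • w)) + (x - x₀) + circleMap 0 1 θ • w‖ := by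
          congr 1; abel
      _ ≤ ‖y - (x + circleMap 0 1 θ • w)‖ + ‖x - x₀‖ + ‖circleMap 0 1 θ • w‖ := norm_add₃_le
      _ ≤ 1 + 1 + ‖w‖ := by
          rw [norm_smul, hcm, one_mul]
          linarith
      _ = ‖w‖ + 2 := by ring
  · exact intervalIntegrable_const
  · refine Filter.Eventually.of_forall (fun θ _ x _ => ?_)
    have h1 : HasFDerivAt (fun x : X => x + circleMap 0 1 θ • w) (ContinuousLinearMap.id ℂ X) x :=
      (hasFDerivAt_id x).add_const _
    have h2 := (h (x + circleMap 0 1 θ • w)).hasFDerivAt.comp x h1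
    rw [ContinuousLinearMap.comp_id] at h2
    exact h2.const_mul (c θ)

end Pool.Agent.RHK
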