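import Pool.Agent.RHK.FCyc

/-!
Project RHK, block FIN, part 6: the covering property of the lattice of the cyclotomic integers
(pigeonhole).
-/

set_option autoImplicit false

namespace Pool.Agent.RHK

open Complex ComplexConjugate Finset Polynomial

noncomputable section

variable {D g : ℕ} {t : Fin g → ℕ}

/-- `lam` as a linear map -/
def lamL (D : ℕ) {g : ℕ} (t : Fin g → ℕ) : (Fin (2 * g) → ℝ) →ₗ[ℝ] (Fin g → ℂ) where
  toFun := lam D t
  map_add' := by
    intro x y
    funext i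
    simp only [lam, Pi.add_apply]
    rw [← sum_add_distrib]
    refine sum_congr rfl fun j _ => ?_
    push_cast
    ring
  map_smul' := by
    intro q x
    funext i
    simp only [lam, Pi.smul_apply, RingHom.id_apply, smul_eq_mul]
    rw [Complex.real_smul, mul_sum]
    refine sum_congr rfl fun j _ => ?_
    push_cast
    ring

theorem lam_surj (h : Emb D g t) (z : Fin g → ℂ) : ∃ x, lam D t x = z := by
  have hinj : Function.Injective (lamL D t) := by
    rw [← LinearMap.ker_eq_bot, LinearMap.ker_eq_bot']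
    intro x hx
    exact lam_inj h fun i => congrFun hx i
  have hdim : Module.finrank ℝ (Fin (2 * g) → ℝ) = Module.finrank ℝ (Fin g → ℂ) := by
    rw [Module.finrank_fin_fun, Module.finrank_pi_fintype]
    simp [Complex.finrank_real_complex]
    ring
  obtain ⟨x, hx⟩ := (LinearMap.injective_iff_surjective_of_finrank_eq_finrank hdim).1 hinj z
  exact ⟨x, hx⟩

theorem norm_zt (hD : 0 < D) (s : ℕ) : ‖zt D ^ s‖ = 1 := by
  rw [norm_pow, (zt_prim hD.ne').norm'_eq_one hD.ne', one_pow]

theorem norm_lam_le (hD : 0 < D) {x : Fin (2 * g) → ℝ} {B : ℝ} (hx : ∀ j, |x j| ≤ B) (i : Fin g) :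
    ‖lam D t x i‖ ≤ 2 * g * B := by
  unfold lam
  refine (norm_sum_le _ _).trans ?_
  have h1 : ∀ j ∈ (univ : Finset (Fin (2 * g))), ‖(x j : ℂ) * (zt D ^ t i) ^ (j : ℕ)‖ ≤ B := by
    intro j _
    rw [norm_mul, norm_pow, norm_zt hD, one_pow, mul_one, Complex.norm_real]
    exact hx j
  refine (sum_le_sum h1).trans ?_
  rw [sum_const, card_univ, Fintype.card_fin, nsmul_eq_mul]
  push_cast
  exact le_refl _

/-- the integer polynomial of an integer vector -/
def pol {g : ℕ} (c : Fin (2 * g) → ℤ) : ℤ[X] := ∑ j, C (c j) * X ^ (j : ℕ)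

theorem pol_eval (c : Fin (2 * g) → ℤ) (i : Fin g) :
    (pol c).eval₂ (Int.castRingHom ℂ) (zt D ^ t i) = lam D t (fun j => (c j : ℝ)) i := by
  unfold pol lam
  rw [eval₂_finsetSum]
  refine sum_congr rfl fun j _ => ?_
  rw [eval₂_mul, eval₂_C, eval₂_X_pow]
  simp

theorem pol_coeff (c : Fin (2 * g) → ℤ) (j : Fin (2 * g)) : (pol c).coeff j = c j := by
  unfold pol
  rw [finsetSum_coeff, sum_eq_single j]
  · simp
  · intro b _ hb
    rw [coeff_C_mul_X_pow, if_neg]
    intro h2
    exact hb (Fin.ext h2.symm)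
  · intro h2
    exact absurd (mem_univ j) h2

theorem pol_natDegree (hg : 0 < g) (c : Fin (2 * g) → ℤ) : (pol c).natDegree < 2 * g := by
  unfold pol
  have : (∑ j : Fin (2 * g), C (c j) * X ^ (j : ℕ) : ℤ[X]).natDegree ≤ 2 * g - 1 := by
    apply natDegree_sum_le_of_forall_le
    intro j _
    refine (natDegree_C_mul_X_pow_le _ _).trans ?_
    have := j.2
    omega
  omega

/-- nonzero integer vectors have nonzero conjugates -/
theorem lam_ne (h : Emb D g t) (hg : 0 < g) {c : Fin (2 * g) → ℤ} (hc : c ≠ 0) (i : Fin g) :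
    lam D t (fun j => (c j : ℝ)) i ≠ 0 := by
  intro h0
  rw [← pol_eval] at h0
  have hprim : IsPrimitiveRoot (zt D ^ t i) D :=
    (zt_prim h.pos.ne').pow_of_coprime _ (h.cop i)
  have h1 : minpoly ℤ (zt D ^ t i) ∣ pol c := by
    apply minpoly.isIntegrallyClosed_dvd (hprim.isIntegral h.pos)
    rw [aeval_def]
    exact h0
  rw [← cyclotomic_eq_minpoly hprim h.pos] at h1
  have hp0 : pol c ≠ 0 := by
    intro h2
    apply hc
    funext j
    rw [← pol_coeff c j, h2, coeff_zero]
    rfl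
  have h2 := natDegree_le_of_dvd h1 hp0
  rw [natDegree_cyclotomic, ← h.card] at h2
  have := pol_natDegree hg c
  omega

/-- pigeonhole: small nonzero conjugates -/
theorem exists_small (h : Emb D g t) (hg : 0 < g) (δ : Fin g → ℝ) (hδ : ∀ i, 0 < δ i)
    (hprod : (16 * (g : ℝ) + 1) ^ g < ∏ i, δ i) : ∃ c : Fin (2 * g) → ℤ, c ≠ 0 ∧
      ∀ i, ‖lam D t (fun j => (c j : ℝ)) i‖ ≤ δ i := by
  classical
  have hgR : (0 : ℝ) < g := by exact_mod_cast hg
  -- the size of the box
  obtain ⟨M, hM0, hM⟩ : ∃ M : ℕ, 0 < M ∧ ∀ i, δ i ≤ M := by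
    obtain ⟨M, hM⟩ := exists_nat_ge (∑ i, δ i)
    refine ⟨M + 1, Nat.succ_pos _, fun i => ?_⟩
    have h1 : δ i ≤ ∑ i, δ i := single_le_sum (fun j _ => (hδ j).le) (mem_univ i)
    push_cast
    linarith
  have hMR : (0 : ℝ) < M := by exact_mod_cast hM0
  -- number of cells in one direction
  set L : Fin g → ℕ := fun i => ⌊8 * (g : ℝ) * M / (δ i)⌋₊ + 1 with hL
  set box : Finset (Fin (2 * g) → Fin M) := univ with hbox
  set v : (Fin (2 * g) → Fin M) → (Fin g → ℂ) := fun c => lam D t (fun j => ((c j : ℕ) : ℝ)) with hv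
  have hvb : ∀ c i, ‖v c i‖ ≤ 2 * g * M := fun c i => norm_lam_le h.pos (fun j => by
    rw [abs_of_nonneg (Nat.cast_nonneg _)]
    exact_mod_cast (c j).2.le) i
  set cell : (Fin (2 * g) → Fin M) → (Fin g → ℕ × ℕ) := fun c i =>
    (⌊((v c i).re + 2 * g * M) * 2 / δ i⌋₊, ⌊((v c i).im + 2 * g * M) * 2 / δ i⌋₊) with hcell
  set T : Finset (Fin g → ℕ × ℕ) := Fintype.piFinset fun i => range (L i) ×ˢ range (L i) with hT
  have hmaps : ∀ c ∈ box, cell c ∈ T := by
    intro c _
    rw [hT, Fintype.mem_piFinset]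
    intro i
    have h1 := hvb c i
    have h2 := (Complex.abs_re_le_norm (v c i)).trans h1
    have h3 := (Complex.abs_im_le_norm (v c i)).trans h1
    rw [mem_product, mem_range, mem_range]
    have key : ∀ y : ℝ, |y| ≤ 2 * g * M → ⌊(y + 2 * g * M) * 2 / δ i⌋₊ < L i := by
      intro y hy
      have h4 : (y + 2 * g * M) * 2 / δ i ≤ 8 * (g : ℝ) * M / (δ i) := by
        apply div_le_div_of_nonneg_right _ (hδ i).le
        have := (abs_le.1 hy).2
        linarith
      exact Nat.lt_succ_of_le (Nat.floor_le_floor h4)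
    exact ⟨key _ h2, key _ h3⟩
  have hcard : T.card < box.card := by
    rw [hT, Fintype.card_piFinset, hbox, card_univ, Fintype.card_fun, Fintype.card_fin,
      Fintype.card_fin]
    have h1 : ∀ i ∈ (univ : Finset (Fin g)),
        ((range (L i) ×ˢ range (L i)).card : ℝ) ≤ ((8 * g + 1) * M / δ i) ^ 2 := by
      intro i _
      rw [card_product, card_range]
      push_cast
      have h2 : (L i : ℝ) ≤ (8 * g + 1) * M / δ i := by
        rw [hL]
        push_cast
        have h3 : (⌊8 * (g : ℝ) * M / (δ i)⌋₊ : ℝ) ≤ 8 * (g : ℝ) * M / (δ i) :=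
          Nat.floor_le (by have := hδ i; positivity)
        have h4 : 1 ≤ (M : ℝ) / δ i := (one_le_div (hδ i)).2 (hM i)
        have h5 : (8 * (g : ℝ) + 1) * M / δ i = 8 * (g : ℝ) * M / δ i + M / δ i := by ring
        rw [h5]
        linarith
      have h3 : (0 : ℝ) ≤ L i := Nat.cast_nonneg _
      nlinarith
    have h2 : ((∏ i : Fin g, (range (L i) ×ˢ range (L i)).card : ℕ) : ℝ) < ((M ^ (2 * g) : ℕ) : ℝ) := by
      push_cast
      refine (prod_le_prod (fun i _ => Nat.cast_nonneg _) h1).trans_lt ?_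
      have h3 : ∏ i : Fin g, ((8 * (g : ℝ) + 1) * M / δ i) ^ 2 =
          (((8 * g + 1) * M) ^ g / ∏ i, δ i) ^ 2 := by
        rw [prod_pow]
        congr 1
        rw [prod_div_distrib, prod_const, card_univ, Fintype.card_fin]
      rw [h3, mul_pow]
      have hprod0 : 0 < ∏ i, δ i := prod_pos fun i _ => hδ i
      have h4 : (8 * (g : ℝ) + 1) ^ g ≤ (16 * (g : ℝ) + 1) ^ g :=
        pow_le_pow_left₀ (by positivity) (by linarith) g
      have h5 : (8 * (g : ℝ) + 1) ^ g * (M : ℝ) ^ g / ∏ i, δ i < (M : ℝ) ^ g := by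
        rw [div_lt_iff₀ hprod0, mul_comm ((M : ℝ) ^ g)]
        have : (0 : ℝ) < (M : ℝ) ^ g := by positivity
        exact mul_lt_mul_of_pos_right (h4.trans_lt hprod) this
      have h6 : (M : ℝ) ^ (2 * g) = ((M : ℝ) ^ g) ^ 2 := by rw [mul_comm, pow_mul]
      rw [h6]
      exact pow_lt_pow_left₀ h5 (by positivity) two_ne_zero
    exact_mod_cast h2
  obtain ⟨c, -, c', -, hne, heq⟩ := exists_ne_map_eq_of_card_lt_of_maps_to hcard hmaps
  refine ⟨fun j => ((c j : ℕ) : ℤ) - ((c' j : ℕ) : ℤ), ?_, fun i => ?_⟩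
  · intro h0
    apply hne
    funext j
    have h1 := congrFun h0 j
    simp only [Pi.zero_apply, sub_eq_zero, Nat.cast_inj] at h1
    exact Fin.ext h1
  · have h1 : lam D t (fun j => ((((c j : ℕ) : ℤ) - ((c' j : ℕ) : ℤ) : ℤ) : ℝ)) i = v c i - v c' i := by
      rw [hv]
      simp only [lam]
      rw [← sum_sub_distrib]
      refine sum_congr rfl fun j _ => ?_
      push_cast
      ring
    rw [h1]
    have h2 := congrFun heq i
    rw [hcell, Prod.mk.injEq] at h2
    have key : ∀ y y' : ℝ, |y| ≤ 2 * g * M → |y'| ≤ 2 * g * M →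
        ⌊(y + 2 * g * M) * 2 / δ i⌋₊ = ⌊(y' + 2 * g * M) * 2 / δ i⌋₊ → |y - y'| ≤ δ i / 2 := by
      intro y y' hy hy' he
      have hd := hδ i
      have a1 : 0 ≤ (y + 2 * g * M) * 2 / δ i := by
        have := (abs_le.1 hy).1
        exact div_nonneg (by linarith) hd.le
      have a2 : 0 ≤ (y' + 2 * g * M) * 2 / δ i := by
        have := (abs_le.1 hy').1
        exact div_nonneg (by linarith) hd.le
      have b1 := Nat.floor_le a1
      have b2 := Nat.floor_le a2
      have b3 := Nat.lt_floor_add_one ((y + 2 * g * M) * 2 / δ i)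
      have b4 := Nat.lt_floor_add_one ((y' + 2 * g * M) * 2 / δ i)
      rw [he] at b1 b3
      have c1 : (y - y') * 2 / δ i ≤ 1 := by
        have : (y - y') * 2 / δ i = (y + 2 * g * M) * 2 / δ i - (y' + 2 * g * M) * 2 / δ i := by ring
        rw [this]; linarith
      have c2 : -1 ≤ (y - y') * 2 / δ i := by
        have : (y - y') * 2 / δ i = (y + 2 * g * M) * 2 / δ i - (y' + 2 * g * M) * 2 / δ i := by ring
        rw [this]; linarith
      rw [div_le_one hd] at c1
      rw [le_div_iff₀ hd] at c2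
      rw [abs_le]
      constructor <;> linarith
    have n1 := hvb c i
    have n2 := hvb c' i
    have r1 := key _ _ ((Complex.abs_re_le_norm _).trans n1) ((Complex.abs_re_le_norm _).trans n2) h2.1
    have r2 := key _ _ ((Complex.abs_im_le_norm _).trans n1) ((Complex.abs_im_le_norm _).trans n2) h2.2
    refine (Complex.norm_le_abs_re_add_abs_im _).trans ?_
    rw [Complex.sub_re, Complex.sub_im]
    linarith

/-- **covering** -/
theorem cov_emb (h : Emb D g t) (hg : 0 < g) {N : ℕ} (hN : 0 < N) :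
    CovG {u : Fin g → ℂ | ∃ c : ℕ → ℤ, u = fun i => (N : ℂ) * emb D c (t i)} := by
  classical
  have hgR : (0 : ℝ) < g := by exact_mod_cast hg
  have hNR : (0 : ℝ) < N := by exact_mod_cast hN
  set K : ℝ := N * (2 * g) with hK
  have hK0 : 0 < K := by positivity
  refine ⟨(K * (16 * (g : ℝ) + 1)) ^ g + 1, by positivity, fun R hR hvol z => ?_⟩
  obtain ⟨c, hc, hsmall⟩ := exists_small h hg (fun i => R i / K) (fun i => div_pos (hR i) hK0) (by
    rw [prod_div_distrib, prod_const, card_univ, Fintype.card_fin, lt_div_iff₀ (by positivity),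
      ← mul_pow, mul_comm (16 * (g : ℝ) + 1)]
    linarith)
  set μ : Fin g → ℂ := fun i => lam D t (fun j => (c j : ℝ)) i with hμ
  have hμ0 : ∀ i, μ i ≠ 0 := fun i => lam_ne h hg hc i
  have hNC : (N : ℂ) ≠ 0 := by exact_mod_cast hN.ne'
  obtain ⟨x, hx⟩ := lam_surj h (fun i => z i / (N * μ i))
  set n : Fin (2 * g) → ℤ := fun j => round (x j) with hn
  obtain ⟨c', hc'⟩ := emb_poly h.pos.ne' (pol c * pol n)
  refine ⟨fun i => (N : ℂ) * emb D c' (t i), ⟨c', rfl⟩, fun i => ?_⟩
  have h1 : emb D c' (t i) = μ i * lam D t (fun j => (n j : ℝ)) i := by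
    rw [hc', eval₂_mul, pol_eval, pol_eval]
  have h2 : z i - (N : ℂ) * emb D c' (t i) = (N * μ i) * lam D t (fun j => x j - (n j : ℝ)) i := by
    have h3 : lam D t (fun j => x j - (n j : ℝ)) i =
        lam D t x i - lam D t (fun j => (n j : ℝ)) i := by
      simp only [lam]
      rw [← sum_sub_distrib]
      refine sum_congr rfl fun j _ => ?_
      push_cast
      ring
    rw [h1, h3, hx]
    have := hμ0 i
    field_simp
  rw [h2, norm_mul, norm_mul]
  have h4 : ‖lam D t (fun j => x j - (n j : ℝ)) i‖ ≤ 2 * g * (1 / 2) :=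
    norm_lam_le h.pos (fun j => abs_sub_round (x j)) i
  have h5 : ‖(N : ℂ)‖ = N := by rw [Complex.norm_natCast]
  rw [h5]
  have h6 : ‖μ i‖ ≤ R i / K := hsmall i
  have hRi := hR i
  have hRK : 0 ≤ (N : ℝ) * (R i / K) := mul_nonneg hNR.le (div_nonneg hRi.le hK0.le)
  calc (N : ℝ) * ‖μ i‖ * ‖lam D t (fun j => x j - (n j : ℝ)) i‖
      ≤ N * (R i / K) * (2 * g * (1 / 2)) := by gcongr
    _ = R i * (1 / 2) := by rw [hK]; field_simp
    _ ≤ R i := by have := hR i; linarith

end

end Pool.Agent.RHK
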