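import Pool.Agent.RHK.Ifc

/-!
Project RHK, block FIN, part 5: the covering property of the lattice of the cyclotomic integers.
-/

set_option autoImplicit false

namespace Pool.Agent.RHK

open Complex ComplexConjugate Finset Polynomial

noncomputable section

/-- the root of unity -/
def zt (D : ℕ) : ℂ := cexp (2 * Real.pi * I / D)

theorem zt_prim {D : ℕ} (hD : D ≠ 0) : IsPrimitiveRoot (zt D) D := Complex.isPrimitiveRoot_exp D hD

theorem emb_eq {D : ℕ} (c : ℕ → ℤ) (t : ℕ) :
    emb D c t = ∑ j ∈ range D, (c j : ℂ) * (zt D ^ t) ^ j := by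
  unfold emb
  refine sum_congr rfl fun j _ => ?_
  congr 1
  rw [zt, ← pow_mul, ← Complex.exp_nat_mul]
  congr 1
  push_cast
  ring

/-- values of integer polynomials -/
theorem emb_poly {D : ℕ} (hD : D ≠ 0) (P : ℤ[X]) : ∃ c : ℕ → ℤ, ∀ t : ℕ,
    emb D c t = P.eval₂ (Int.castRingHom ℂ) (zt D ^ t) := by
  induction P using Polynomial.induction_on' with
  | add p q hp hq =>
    obtain ⟨c, hc⟩ := hp
    obtain ⟨d, hd⟩ := hq
    refine ⟨fun j => c j + d j, fun t => ?_⟩
    rw [eval₂_add, ← hc, ← hd, emb_eq, emb_eq, emb_eq, ← sum_add_distrib]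
    refine sum_congr rfl fun j _ => ?_
    push_cast
    ring
  | monomial n a =>
    refine ⟨fun j => if j = n % D then a else 0, fun t => ?_⟩
    rw [eval₂_monomial, emb_eq]
    have h1 : ∀ j ∈ range D, (((if j = n % D then a else 0 : ℤ)) : ℂ) * (zt D ^ t) ^ j =
        if j = n % D then (a : ℂ) * (zt D ^ t) ^ (n % D) else 0 := by
      intro j _
      split_ifs with h
      · rw [h]
      · simp
    rw [sum_congr rfl h1, sum_ite_eq' (range D) (n % D),
      if_pos (mem_range.2 (Nat.mod_lt _ (Nat.pos_of_ne_zero hD)))]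
    have h2 : (zt D ^ t) ^ n = (zt D ^ t) ^ (n % D) := by
      conv_lhs => rw [← Nat.div_add_mod n D]
      rw [pow_add, pow_mul, ← pow_mul (zt D) t D, mul_comm t D, pow_mul (zt D) D t,
        (zt_prim hD).pow_eq_one, one_pow, one_pow, one_mul]
    rw [h2]
    rfl

/-- the data of a half-system of embeddings -/
structure Emb (D g : ℕ) (t : Fin g → ℕ) : Prop where
  pos : 0 < D
  cop : ∀ i, Nat.Coprime (t i) D
  card : 2 * g = D.totient
  surj : ∀ s : ℕ, Nat.Coprime s D → ∃ i, s ≡ t i [MOD D] ∨ D ∣ s + t i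

section

variable {D g : ℕ} {t : Fin g → ℕ}

/-- real combinations of powers -/
def lam (D : ℕ) {g : ℕ} (t : Fin g → ℕ) (x : Fin (2 * g) → ℝ) (i : Fin g) : ℂ :=
  ∑ j, (x j : ℂ) * (zt D ^ t i) ^ (j : ℕ)

theorem zt_conj (hD : 0 < D) {s s' : ℕ} (h : D ∣ s + s') : conj (zt D ^ s) = zt D ^ s' := by
  have h1 : zt D ^ s * zt D ^ s' = 1 := by
    obtain ⟨k, hk⟩ := h
    rw [← pow_add, hk, pow_mul, (zt_prim hD.ne').pow_eq_one, one_pow]
  have h2 : zt D ^ s * conj (zt D ^ s) = 1 := by
    rw [mul_conj, normSq_eq_norm_sq, norm_pow, (zt_prim hD.ne').norm'_eq_one hD.ne', one_pow]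
    norm_num
  have h3 : zt D ^ s ≠ 0 := left_ne_zero_of_mul_eq_one h1
  exact mul_left_cancel₀ h3 (h2.trans h1.symm)

theorem zt_mod (hD : 0 < D) {s s' : ℕ} (h : s ≡ s' [MOD D]) : zt D ^ s = zt D ^ s' := by
  have hz := (zt_prim hD.ne').pow_eq_one
  have : ∀ n : ℕ, zt D ^ n = zt D ^ (n % D) := fun n => by
    conv_lhs => rw [← Nat.div_add_mod n D]
    rw [pow_add, pow_mul, hz, one_pow, one_mul]
  rw [this s, this s', h]

theorem lam_inj (h : Emb D g t) {x : Fin (2 * g) → ℝ} (hx : ∀ i, lam D t x i = 0) : x = 0 := by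
  classical
  set P : ℂ[X] := ∑ j : Fin (2 * g), C (x j : ℂ) * X ^ (j : ℕ) with hP
  have heval : ∀ z : ℂ, P.eval z = ∑ j : Fin (2 * g), (x j : ℂ) * z ^ (j : ℕ) := by
    intro z
    rw [hP, eval_finsetSum]
    refine sum_congr rfl fun j _ => ?_
    simp
  have hconj : ∀ z : ℂ, P.eval (conj z) = conj (P.eval z) := by
    intro z
    rw [heval, heval, map_sum]
    refine sum_congr rfl fun j _ => ?_
    rw [map_mul, conj_ofReal, map_pow]
  have hroot : ∀ s : ℕ, s.Coprime D → P.eval (zt D ^ s) = 0 := by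
    intro s hs
    obtain ⟨i, hi | hi⟩ := h.surj s hs
    · rw [zt_mod h.pos hi, heval]
      exact hx i
    · rw [← zt_conj h.pos (s := t i) (s' := s) (by rwa [add_comm]), hconj, heval]
      have : ∑ j : Fin (2 * g), (x j : ℂ) * (zt D ^ t i) ^ (j : ℕ) = 0 := hx i
      rw [this, map_zero]
  set S : Finset ℂ := ((range D).filter fun s => s.Coprime D).image fun s => zt D ^ s with hS
  have hcard : S.card = 2 * g := by
    rw [hS, card_image_of_injOn, h.card, Nat.totient_eq_card_coprime]
    · congr 1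
      ext s
      rw [mem_filter, mem_filter, Nat.coprime_comm]
    · intro s hs s' hs' hss
      have h1 := (mem_filter.1 hs).1
      have h2 := (mem_filter.1 hs').1
      exact (zt_prim h.pos.ne').pow_inj (mem_range.1 h1) (mem_range.1 h2) hss
  have hdeg : P.degree < S.card := by
    rw [hcard, hP]
    refine (degree_sum_le _ _).trans_lt ?_
    rw [Finset.sup_lt_iff (by
      rcases Nat.eq_zero_or_pos (2 * g) with h0 | h0
      · have h1 : 0 < D.totient := Nat.totient_pos.2 h.pos
        have := h.card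
        omega
      · exact_mod_cast WithBot.bot_lt_coe (2 * g))]
    intro j _
    refine (degree_C_mul_X_pow_le _ _).trans_lt ?_
    exact_mod_cast j.2
  have hzero : P = 0 := by
    refine eq_zero_of_degree_lt_of_eval_finset_eq_zero S hdeg ?_
    intro z hz
    rw [hS, mem_image] at hz
    obtain ⟨s, hs, rfl⟩ := hz
    exact hroot s (mem_filter.1 hs).2
  funext j
  have h1 : P.coeff j = (x j : ℂ) := by
    rw [hP, finsetSum_coeff, sum_eq_single j]
    · simp
    · intro b _ hb
      rw [coeff_C_mul_X_pow, if_neg]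
      intro h2
      exact hb (Fin.ext h2.symm)
    · intro h2
      exact absurd (mem_univ j) h2
  rw [hzero, coeff_zero] at h1
  exact_mod_cast h1.symm

end

end

end Pool.Agent.RHK
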