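import Pool.Agent.RHK.Fin

/-!
Project RHK: draft of the final hand-in (MP_c2409d_nt), with the two blocks as hypotheses.
-/

namespace Pool.Agent.RHK.FDraft

/-- the gamma product is an algebraic multiple of `π ^ (r / 2)` -/
def GammaMult {r : ℕ} (a : Fin r → ℚ) : Prop :=
  ∃ α : ℝ, IsAlgebraic ℚ α ∧ ∏ i, Real.Gamma ((a i : ℚ) : ℝ) = α * Real.pi ^ ((r : ℝ) / 2)

/-- the fractional part identity for the common denominator `M` -/
def FracId (M : ℕ) {r : ℕ} (a : Fin r → ℚ) : Prop :=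
  ∀ m : ℕ, 1 ≤ m → m ≤ M → Nat.Coprime m M → ∑ i, Int.fract ((m : ℚ) * a i) = (r : ℚ) / 2

/-- `M` is a common denominator of the `a i` -/
def ComDen (M : ℕ) {r : ℕ} (a : Fin r → ℚ) : Prop := 0 < M ∧ ∀ i, ∃ z : ℤ, (M : ℚ) * a i = z

/-- the number of integers among the `a i` -/
def numInt {r : ℕ} (a : Fin r → ℚ) : ℕ :=
  (Finset.univ.filter fun i => Int.fract (a i) = 0).card

/-- `∑ {m a i}` only depends on `m` modulo `D`, for `m` prime to `M D` -/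
def ClassLevel (D M : ℕ) {r : ℕ} (a : Fin r → ℚ) : Prop :=
  ∀ m m' : ℕ, m.Coprime (M * D) → m'.Coprime (M * D) → m ≡ m' [MOD D] →
    ∑ i, Int.fract ((m : ℚ) * a i) = ∑ i, Int.fract ((m' : ℚ) * a i)

/-- the span of the class functions `m ↦ ∑ {m a i} - r / 2` of the tuples of non-integral rationals
of level `D` whose gamma product is an algebraic multiple of `π ^ (r / 2)` -/
def Rel (D : ℕ) : Submodule ℚ ((ZMod D)ˣ → ℚ) :=
  Submodule.span ℚ {f | ∃ (r : ℕ) (a : Fin r → ℚ), (∀ i, ∃ z : ℤ, (D : ℚ) * a i = z) ∧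
    (∀ (i : Fin r) (z : ℤ), a i ≠ z) ∧ GammaMult a ∧
    f = fun t : (ZMod D)ˣ => ∑ i, Int.fract (((t : ZMod D).val : ℚ) * a i) - (r : ℚ) / 2}

/-- algebraically independent numbers `Γ(j/D)/√π` -/
def Ind (D : ℕ) (J : Finset ℕ) : Prop := (∀ j ∈ J, 0 < j ∧ j < D) ∧
  AlgebraicIndependent ℚ (fun j : J => Real.Gamma ((j : ℕ) / D) / Real.sqrt Real.pi)

/-- `D` divides none of `a, b, a + b`, and one of these is prime to `D` -/
def Triple (D a b : ℕ) : Prop := ¬ D ∣ a ∧ ¬ D ∣ b ∧ ¬ D ∣ a + b ∧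
  (Nat.Coprime a D ∨ Nat.Coprime b D ∨ Nat.Coprime (a + b) D)

/-- the number of the `m < D` prime to `D` with `{ma/D} + {mb/D} > 1 ≥ {ma'/D} + {mb'/D}` -/
def dist (D a b a' b' : ℕ) : ℕ :=
  ((Finset.range D).filter fun m => Nat.Coprime m D ∧ D < (m * a) % D + (m * b) % D ∧
    ¬ D < (m * a') % D + (m * b') % D).card

/-- 42 levels -/
def levels : Finset ℕ := {3, 4, 5, 6, 7, 8, 9, 10, 11, 12, 13, 14, 15, 16, 17, 18, 19, 20, 21, 22,
  24, 25, 26, 27, 28, 30, 32, 33, 34, 35, 36, 38, 40, 42, 44, 45, 48, 50, 54, 66, 70, 90}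

theorem result (hA : ArithForm) (hT : ThetaForm) :
    (∀ D ∈ levels,
      (∃ J : Finset ℕ, Ind D J ∧ 2 * J.card = D.totient) ∧
      (∀ (r : ℕ) (a : Fin r → ℚ) (M : ℕ), ComDen M a → (∀ (i : Fin r) (z : ℤ), a i ≠ z) →
        ((∀ i, ∃ z : ℤ, (D : ℚ) * a i = z) ∨ ClassLevel D M a) → (GammaMult a ↔ FracId M a)) ∧
      ∃ U : ℕ → ℚ, (∃ m : ℕ, m.Coprime D ∧ U m ≠ 0) ∧
        ∀ (r : ℕ) (a : Fin r → ℚ) (M : ℕ), ComDen M a →
          (∀ (i : Fin r) (n : ℕ), a i ≠ -(n : ℚ)) →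
          ((∀ i, ∃ z : ℤ, (D : ℚ) * a i = z) ∨ ClassLevel D M a) →
          ¬ (GammaMult a ↔ FracId M a) → 0 < numInt a ∧ ∀ m : ℕ, m.Coprime (M * D) →
            ∑ i, Int.fract ((m : ℚ) * a i) = ((r : ℚ) - numInt a) / 2 + numInt a * U m) ∧
    (∀ D a b a' b' : ℕ, 2 < D → Triple D a b → Triple D a' b' → 0 < dist D a b a' b' →
      ∃ J : Finset ℕ, Ind D J ∧ D.totient ≤ 2 * dist D a b a' b' * J.card ∧
        2 * (Module.finrank ℚ (Rel D) + J.card) ≤ D.totient) ∧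
    ∀ p : ℕ, p.Prime → 67 ≤ p → ∃ J : Finset ℕ, Ind p J ∧ J.card = 6 := by
  refine ⟨fun D hD => ?_, fun D a b a' b' hD h h' hy => ?_, fun p hp h67 => ?_⟩
  · obtain ⟨J, hJ, hc⟩ := ind_level hA hT hD
    have hcl : ∀ {r : ℕ} {a : Fin r → ℚ} {M : ℕ},
        ((∀ i, ∃ z : ℤ, (D : ℚ) * a i = z) ∨ ClassLevel D M a) → RHK.ClassLevel D M a := by
      rintro r a M (h | h)
      · exact classLevel_of_dvd h
      · exact h
    refine ⟨⟨J, ⟨hJ.mem, hJ.ind⟩, le_antisymm hJ.card_le hc⟩, ?_, ?_⟩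
    · intro r a M hM hni h
      exact hJ.question hc a M hM.1 hM.2 hni (hcl h)
    · obtain ⟨U, hU0, hU⟩ := hJ.line hc
      exact ⟨U, hU0, fun r a M hM hnp h hne => hU r a M hM.1 hM.2 hnp (hcl h) hne⟩
  · obtain ⟨J, hJ, hc⟩ := exists_ind hA hT hD h h' (by rw [dst_eq]; exact hy)
    rw [dst_eq] at hc
    exact ⟨J, ⟨hJ.mem, hJ.ind⟩, hc, hJ.rel⟩
  · obtain ⟨J, hJ, hc⟩ := prime_six hA hT hp h67
    obtain ⟨J', hJ', hc'⟩ := Finset.exists_subset_card_eq hc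
    refine ⟨J', ⟨fun j hj => hJ.mem j (hJ' hj), ?_⟩, hc'⟩
    exact hJ.ind.comp (fun j : J' => (⟨j, hJ' j.2⟩ : J)) (fun i j hij => Subtype.ext (by
      have := congrArg Subtype.val hij
      exact this))

end Pool.Agent.RHK.FDraft
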