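import Pool.Agent.ROH8.ZPair

/-!
Project RHK, block FIN, part 1: algebraically independent families and multiplicative relations;
extraction of an independent subfamily from a lower bound of the transcendence degree.
-/

set_option autoImplicit false

namespace Pool.Agent.RHK

open Finset Pool.Agent.Helper99.Rohr Pool.Agent.ROH Pool.Agent.ROH8

theorem alg_zpow_mul {K : Type*} [Field K] [Algebra K ℝ] {ι : Type*} (s : Finset ι) (x : ι → ℝ)
    (e : ι → ℤ) (h : ∀ i ∈ s, IsAlgebraic K (x i)) : IsAlgebraic K (∏ i ∈ s, x i ^ e i) := by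
  classical
  induction s using Finset.induction_on with
  | empty => rw [prod_empty]; exact isAlgebraic_one
  | insert i s hi ih =>
    rw [prod_insert hi]
    exact (alg_zpow' _ (h i (mem_insert_self i s))).mul (ih fun j hj => h j (mem_insert_of_mem hj))

open IntermediateField.algebraAdjoinAdjoin in
/-- algebraically independent positive numbers are multiplicatively independent modulo the
algebraic numbers -/
theorem mult_ind_fam {ι : Type*} [Fintype ι] [DecidableEq ι] {x : ι → ℝ} (hx : ∀ i, 0 < x i)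
    (h : AlgebraicIndependent ℚ x) {c : ι → ℚ} (hc : ∑ i, (c i : ℝ) * Real.log (x i) ∈ LogAlg) :
    ∀ i, c i = 0 := by
  by_contra hcon
  push Not at hcon
  obtain ⟨i0, hi0⟩ := hcon
  -- integral exponents
  obtain ⟨n, hn, e, he⟩ : ∃ n : ℕ, 0 < n ∧ ∃ e : ι → ℤ, ∀ i, (n : ℚ) * c i = e i := by
    refine ⟨∏ i, (c i).den, prod_pos fun i _ => (c i).pos,
      fun i => (c i).num * ∏ j ∈ univ.erase i, ((c j).den : ℤ), fun i => ?_⟩
    rw [← mul_prod_erase univ (fun i => (c i).den) (mem_univ i)]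
    push_cast
    have := Rat.mul_den_eq_num (c i)
    rw [← this]
    ring
  have h1 := LogAlg_rsmul (n : ℚ) hc
  have h2 : ((n : ℚ) : ℝ) * ∑ i, (c i : ℝ) * Real.log (x i) = ∑ i, (e i : ℝ) * Real.log (x i) := by
    rw [mul_sum]
    refine sum_congr rfl fun i _ => ?_
    have := he i
    have h3 : ((n : ℚ) : ℝ) * (c i : ℝ) = (e i : ℝ) := by exact_mod_cast this
    rw [← mul_assoc, h3]
  rw [h2, mem_LogAlg, Real.exp_sum] at h1
  have h3 : ∀ i, Real.exp ((e i : ℝ) * Real.log (x i)) = x i ^ e i := by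
    intro i
    rw [mul_comm, Real.exp_mul, Real.exp_log (hx i), Real.rpow_intCast]
  rw [prod_congr rfl fun i _ => h3 i, ← mul_prod_erase univ _ (mem_univ i0)] at h1
  have he0 : e i0 ≠ 0 := by
    intro h0
    have := he i0
    rw [h0, Int.cast_zero] at this
    rcases mul_eq_zero.1 this with h4 | h4
    · exact hn.ne' (by exact_mod_cast h4)
    · exact hi0 h4
  set S : Set ι := {i | i ≠ i0} with hS
  set F := IntermediateField.adjoin ℚ (x '' S) with hF
  have hmem : ∀ i, i ≠ i0 → IsAlgebraic F (x i) := fun i hi =>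
    isAlgebraic_algebraMap (⟨x i, IntermediateField.subset_adjoin ℚ _ ⟨i, hi, rfl⟩⟩ : F)
  have hprod : IsAlgebraic F (∏ i ∈ univ.erase i0, x i ^ (-e i)) :=
    alg_zpow_mul _ _ _ fun i hi => hmem i (ne_of_mem_erase hi)
  have h4 : x i0 ^ e i0 = (x i0 ^ e i0 * ∏ i ∈ univ.erase i0, x i ^ e i) *
      ∏ i ∈ univ.erase i0, x i ^ (-e i) := by
    rw [mul_assoc, ← prod_mul_distrib]
    have : ∀ i ∈ univ.erase i0, x i ^ e i * x i ^ (-e i) = 1 := fun i _ => by
      rw [← zpow_add₀ (hx i).ne', add_neg_cancel, zpow_zero]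
    rw [prod_congr rfl this, prod_const_one, mul_one]
  have h5 : IsAlgebraic F (x i0) := by
    apply alg_of_zpow he0
    rw [h4]
    exact (h1.tower_top F).mul hprod
  have h6 : IsAlgebraic (Algebra.adjoin ℚ (x '' S)) (x i0) :=
    (IsFractionRing.isAlgebraic_iff (Algebra.adjoin ℚ (x '' S)) F ℝ).2 h5
  exact h.transcendental_adjoin (s := S) (i := i0) (fun h7 => h7 rfl) h6

/-- real and complex algebraic independence -/
theorem algInd_real {ι : Type*} {x : ι → ℝ} :
    AlgebraicIndependent ℚ (fun i => ((x i : ℝ) : ℂ)) ↔ AlgebraicIndependent ℚ x := by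
  have h6 : (fun i => ((x i : ℝ) : ℂ)) =
      (Complex.ofRealAm.restrictScalars ℚ : ℝ →ₐ[ℚ] ℂ) ∘ x := rfl
  rw [h6]
  constructor
  · intro h
    exact AlgebraicIndependent.of_comp _ h
  · intro h
    exact h.map' (Complex.ofRealAm.restrictScalars ℚ : ℝ →ₐ[ℚ] ℂ).injective

open IntermediateField.algebraAdjoinAdjoin in
/-- extraction of an independent subfamily -/
theorem extract {ι : Type*} [Fintype ι] [DecidableEq ι] (x : ι → ℝ) (G : ℝ)
    (h : ∀ (k : ℕ) (θ : Fin k → ℂ),
      (∀ i, IsAlgebraic (IntermediateField.adjoin ℚ (Set.range θ)) ((x i : ℝ) : ℂ)) → G ≤ k) :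
    ∃ J : Finset ι, AlgebraicIndependent ℚ (fun j : J => x j) ∧ G ≤ J.card := by
  classical
  set P : Finset ι → Prop := fun J => AlgebraicIndependent ℚ (fun j : J => ((x j : ℝ) : ℂ)) with hP
  have hP0 : P ∅ := by
    have : IsEmpty (∅ : Finset ι) := by infer_instance
    rw [hP]
    simp only
    rw [algebraicIndependent_empty_type_iff]
    exact (algebraMap ℚ ℂ).injective
  obtain ⟨J, hJ, hmax⟩ := exists_max_image (univ.filter P) card ⟨∅, mem_filter.2 ⟨mem_univ _, hP0⟩⟩
  have hJP : P J := (mem_filter.1 hJ).2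
  refine ⟨J, algInd_real.1 hJP, ?_⟩
  set X : ι → ℂ := fun i => ((x i : ℝ) : ℂ) with hX
  have hJon : AlgebraicIndepOn ℚ X (J : Set ι) := hJP
  set θ : Fin J.card → ℂ := fun i => X (J.equivFin.symm i) with hθ
  have hrange : Set.range θ = X '' (J : Set ι) := by
    ext z
    constructor
    · rintro ⟨i, rfl⟩
      exact ⟨_, (J.equivFin.symm i).2, rfl⟩
    · rintro ⟨i, hi, rfl⟩
      exact ⟨J.equivFin ⟨i, hi⟩, by simp [hθ]⟩
  refine h J.card θ fun i => ?_
  rw [hrange]
  by_contra hcon
  have hi : i ∉ J := fun hi => hcon (isAlgebraic_algebraMap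
    (⟨X i, IntermediateField.subset_adjoin ℚ _ ⟨i, hi, rfl⟩⟩ :
      IntermediateField.adjoin ℚ (X '' (J : Set ι))))
  have h1 : Transcendental (Algebra.adjoin ℚ (X '' (J : Set ι))) (X i) := by
    intro h2
    exact hcon (h2.extendScalars (FaithfulSMul.algebraMap_injective _ _))
  have h2 := hJon.insert h1
  have h3 : P (insert i J) := by
    have e : ((insert i J : Finset ι) : Set ι) = insert i (J : Set ι) := coe_insert i J
    show AlgebraicIndepOn ℚ X ((insert i J : Finset ι) : Set ι)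
    rw [e]
    exact h2
  have h4 := hmax _ (mem_filter.2 ⟨mem_univ _, h3⟩)
  rw [card_insert_of_notMem hi] at h4
  omega

end Pool.Agent.RHK
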