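import Pool.Agent.RHK.FBook

/-!
Project RHK, block FIN, part 8: the 42 levels with two Fermat types which differ at one place.
-/

set_option autoImplicit false

namespace Pool.Agent.RHK

open Finset Pool.Agent.ROH Pool.Agent.ROH8

/-- computable form of `dst` -/
def dstB (D a b a' b' : ℕ) : ℕ :=
  ((range D).filter fun s => Nat.Coprime s D ∧ D < (s * a) % D + (s * b) % D ∧
    ¬ D < (s * a') % D + (s * b') % D).card

theorem dst_eq (D a b a' b' : ℕ) : dst D a b a' b' = dstB D a b a' b' := by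
  classical
  unfold dst dstB
  congr 1
  ext s
  simp only [mem_filter, mem_range, InType]
  tauto

instance (D a b : ℕ) : Decidable (Triple D a b) := by
  unfold Triple
  infer_instance

/-- levels and two types -/
def levs : List (ℕ × ℕ × ℕ × ℕ × ℕ) :=
  [(3, 1, 1, 2, 2), (4, 1, 1, 2, 3), (5, 1, 1, 1, 2), (6, 1, 1, 2, 5), (7, 1, 1, 1, 2),
   (8, 1, 1, 1, 2), (9, 1, 1, 1, 2), (10, 1, 1, 1, 3), (11, 1, 1, 1, 3), (12, 1, 1, 1, 2),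
   (13, 1, 1, 1, 3), (14, 1, 1, 1, 2), (15, 1, 1, 1, 2), (16, 1, 1, 1, 2), (17, 1, 1, 1, 3),
   (18, 1, 1, 1, 2), (19, 1, 1, 1, 5), (20, 1, 1, 1, 4), (21, 1, 1, 1, 6), (22, 1, 1, 1, 2),
   (24, 1, 1, 1, 2), (25, 1, 1, 1, 5), (26, 1, 1, 1, 3), (27, 1, 1, 1, 9), (28, 1, 1, 1, 3),
   (30, 1, 1, 1, 5), (32, 1, 1, 1, 3), (33, 1, 1, 1, 3), (34, 1, 1, 1, 5), (35, 1, 1, 1, 7),
   (36, 1, 1, 1, 3), (38, 1, 1, 1, 3), (40, 1, 1, 1, 5), (42, 1, 1, 1, 13), (44, 1, 1, 1, 3),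
   (45, 1, 1, 1, 15), (48, 1, 1, 1, 3), (50, 1, 1, 1, 3), (54, 1, 1, 1, 3), (66, 1, 1, 1, 12),
   (70, 1, 1, 1, 13), (90, 1, 1, 1, 30)]

theorem levs_ok : ∀ q ∈ levs, 2 < q.1 ∧ Triple q.1 q.2.1 q.2.2.1 ∧
    Triple q.1 q.2.2.2.1 q.2.2.2.2 ∧ dstB q.1 q.2.1 q.2.2.1 q.2.2.2.1 q.2.2.2.2 = 1 := by
  decide +kernel

/-- the 42 levels -/
def levels : Finset ℕ := {3, 4, 5, 6, 7, 8, 9, 10, 11, 12, 13, 14, 15, 16, 17, 18, 19, 20, 21, 22,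
  24, 25, 26, 27, 28, 30, 32, 33, 34, 35, 36, 38, 40, 42, 44, 45, 48, 50, 54, 66, 70, 90}

theorem levels_ok : ∀ D ∈ levels, ∃ q ∈ levs, q.1 = D := by
  decide +kernel

/-- **full levels** -/
theorem ind_level (hA : ArithForm) (hT : ThetaForm) {D : ℕ} (hD : D ∈ levels) :
    ∃ J : Finset ℕ, Ind D J ∧ D.totient ≤ 2 * J.card := by
  obtain ⟨q, hq, rfl⟩ := levels_ok D hD
  obtain ⟨h2, h, h', hy⟩ := levs_ok q hq
  rw [← dst_eq] at hy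
  obtain ⟨J, hJ, hc⟩ := exists_ind hA hT h2 h h' (by rw [hy]; exact one_pos)
  refine ⟨J, hJ, ?_⟩
  rw [hy, mul_one] at hc
  exact hc

end Pool.Agent.RHK
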