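import Pool.Agent.RHK.FInd
import Pool.Agent.ROH8.ZMain

/-!
Project RHK, block FIN, part 2: odd class functions modulo `D`, and Rohrlich's question from
`φ(D)/2` algebraically independent gamma values.
-/

set_option autoImplicit false

namespace Pool.Agent.RHK

open Finset Pool.Agent.Helper99.Rohr Pool.Agent.ROH Pool.Agent.ROH8

/-- Koblitz-Ogus for tuples, indexed version -/
theorem tuple_ko' {r : ℕ} (a : Fin r → ℚ) {N : ℕ} (hN : 0 < N)
    (hNa : ∀ i, ∃ z : ℤ, (N : ℚ) * a i = z) {ι : Type*} {s : Finset ι} {c : ι → ℚ} {y : ι → ℚ}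
    (hs : ∀ j ∈ s, IsPt N (y j))
    (h : ∀ m : ℕ, m.Coprime N →
      ∑ i ∈ nonInt a, saw m (Int.fract (a i)) = ∑ j ∈ s, c j * saw m (y j)) :
    ∑ i ∈ nonInt a, lg (Int.fract (a i)) - ∑ j ∈ s, (c j : ℝ) * lg (y j) ∈ LogAlg := by
  have h1 := ko hN ((nonInt a).disjSum s) (Sum.elim (fun _ => 1) (fun j => -c j))
    (Sum.elim (fun i => Int.fract (a i)) y) (by
      intro i hi
      rcases i with i | j
      · rw [inl_mem_disjSum] at hi
        exact isPt_fract (hNa i) (mem_filter.1 hi).2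
      · rw [inr_mem_disjSum] at hi
        exact hs j hi) (by
      intro m hm
      rw [sum_disjSum]
      simp only [Sum.elim_inl, Sum.elim_inr, one_mul, neg_mul, sum_neg_distrib]
      rw [h m hm, add_neg_cancel])
  rw [sum_disjSum] at h1
  simp only [Sum.elim_inl, Sum.elim_inr, Rat.cast_one, one_mul, Rat.cast_neg, neg_mul,
    sum_neg_distrib] at h1
  rwa [sub_eq_add_neg]

section

variable (D : ℕ)

/-- odd functions on the units -/
def oddW : Submodule ℚ ((ZMod D)ˣ → ℚ) where
  carrier := {f | ∀ t, f (-t) = -f t}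
  add_mem' := by
    intro f g hf hg t
    simp only [Pi.add_apply]
    rw [hf t, hg t]
    ring
  zero_mem' := fun t => by simp
  smul_mem' := by
    intro q f hf t
    simp only [Pi.smul_apply, smul_eq_mul]
    rw [hf t]
    ring

/-- even functions on the units -/
def evenW : Submodule ℚ ((ZMod D)ˣ → ℚ) where
  carrier := {f | ∀ t, f (-t) = f t}
  add_mem' := by
    intro f g hf hg t
    simp only [Pi.add_apply]
    rw [hf t, hg t]
  zero_mem' := fun t => by simp
  smul_mem' := by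
    intro q f hf t
    simp only [Pi.smul_apply, smul_eq_mul]
    rw [hf t]

/-- the sawtooth of a point as a function on the units -/
def Sf (x : ℚ) : (ZMod D)ˣ → ℚ := fun t => saw (t : ZMod D).val x

end

theorem saw_congr {D : ℕ} {m m' : ℕ} (h : m ≡ m' [MOD D]) {x : ℚ} (hx : ∃ z : ℤ, (D : ℚ) * x = z) :
    saw m x = saw m' x := by
  unfold saw
  rw [ROH.fract_congr h hx]

theorem saw_neg_pt {D : ℕ} {m m' : ℕ} (hm : m.Coprime D) (h : D ∣ m + m') {x : ℚ} (hx : IsPt D x) :
    saw m' x = -saw m x := by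
  obtain ⟨k, hk⟩ := h
  have h1 := not_int hm hx
  obtain ⟨-, -, z, hz⟩ := hx
  have hkq : (m : ℚ) + m' = D * k := by exact_mod_cast hk
  have h2 : (m' : ℚ) * x = -((m : ℚ) * x) + ((k * z : ℤ) : ℚ) := by
    push_cast
    rw [← hz]
    linear_combination x * hkq
  have h3 : Int.fract ((m : ℚ) * x) ≠ 0 := by
    intro h
    rw [Int.fract_eq_iff] at h
    obtain ⟨-, -, w, hw⟩ := h
    exact h1 w (by rw [← hw]; ring)
  unfold saw
  rw [h2, Int.fract_add_intCast, Int.fract_neg h3]
  ring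

section

variable {D : ℕ}

theorem unit_neg_val [NeZero D] (t : (ZMod D)ˣ) :
    D ∣ (t : ZMod D).val + ((-t : (ZMod D)ˣ) : ZMod D).val := by
  rw [← ZMod.natCast_eq_zero_iff]
  push_cast
  rw [ZMod.natCast_zmod_val, ZMod.natCast_zmod_val]
  ring

theorem Sf_odd [NeZero D] {x : ℚ} (hx : IsPt D x) : Sf D x ∈ oddW D := fun t =>
  saw_neg_pt (ZMod.val_coe_unit_coprime t) (unit_neg_val t) hx

theorem finrank_odd (hD : 2 < D) : 2 * Module.finrank ℚ (oddW D) ≤ D.totient := by
  have : NeZero D := ⟨by omega⟩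
  have hDq : (0 : ℚ) < D := by
    have : 0 < D := by omega
    exact_mod_cast this
  -- a nowhere vanishing odd function
  have hpt : IsPt D (((1 : ℕ) : ℚ) / D) := by
    refine ⟨by positivity, ?_, 1, ?_⟩
    · rw [div_lt_one hDq]
      have : 1 < D := by omega
      exact_mod_cast this
    · rw [mul_div_cancel₀ _ hDq.ne']
      simp
  set g := Sf D (((1 : ℕ) : ℚ) / D) with hg
  have hgodd : g ∈ oddW D := Sf_odd hpt
  have hg0 : ∀ t, g t ≠ 0 := by
    intro t h0
    have h1 : g t = (((t : ZMod D).val % D : ℕ) : ℚ) / D - 1 / 2 := by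
      rw [hg]
      unfold Sf
      rw [saw_div (by omega), mul_one]
    rw [h1, Nat.mod_eq_of_lt (ZMod.val_lt _), sub_eq_zero, div_eq_div_iff hDq.ne' two_ne_zero] at h0
    have h2 : (t : ZMod D).val * 2 = D := by
      have : ((t : ZMod D).val : ℚ) * 2 = D := by rw [h0, one_mul]
      exact_mod_cast this
    have h3 := ZMod.val_coe_unit_coprime t
    have h4 : (t : ZMod D).val ∣ D := ⟨2, h2.symm⟩
    have h5 : (t : ZMod D).val = 1 := Nat.Coprime.eq_one_of_dvd h3 h4
    omega
  set μ : ((ZMod D)ˣ → ℚ) →ₗ[ℚ] ((ZMod D)ˣ → ℚ) := LinearMap.mulLeft ℚ g with hμ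
  have hinj : Function.Injective μ := by
    intro f f' hff
    funext t
    have h1 := congrFun hff t
    rw [hμ, LinearMap.mulLeft_apply, LinearMap.mulLeft_apply, Pi.mul_apply, Pi.mul_apply] at h1
    exact mul_left_cancel₀ (hg0 t) h1
  have hmap : (oddW D).map μ ≤ evenW D := by
    rintro _ ⟨f, hf, rfl⟩ t
    have hf' : f (-t) = -f t := hf t
    rw [hμ, LinearMap.mulLeft_apply, Pi.mul_apply, Pi.mul_apply, hf', hgodd t]
    ring
  have h1 : Module.finrank ℚ (oddW D) ≤ Module.finrank ℚ (evenW D) := by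
    rw [(Submodule.equivMapOfInjective μ hinj (oddW D)).finrank_eq]
    exact Submodule.finrank_mono hmap
  have h2 : oddW D ⊓ evenW D = ⊥ := by
    rw [Submodule.eq_bot_iff]
    rintro f ⟨hf1, hf2⟩
    funext t
    have a1 : f (-t) = -f t := hf1 t
    have a2 : f (-t) = f t := hf2 t
    have : f t = 0 := by linarith
    rw [this]
    rfl
  have h3 := Submodule.finrank_sup_add_finrank_inf_eq (oddW D) (evenW D)
  rw [h2, finrank_bot, add_zero] at h3
  have h4 : Module.finrank ℚ ((oddW D ⊔ evenW D : Submodule ℚ ((ZMod D)ˣ → ℚ))) ≤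
      Module.finrank ℚ ((ZMod D)ˣ → ℚ) := Submodule.finrank_le _
  rw [Module.finrank_fintype_fun_eq_card, ZMod.card_units_eq_totient] at h4
  omega

end

end Pool.Agent.RHK
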