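import Pool.Agent.RHK.FLev

/-!
Project RHK, block FIN, part 9: the final theorem (MP_c2409d_nt), from the blocks ARITH and III.
-/

set_option autoImplicit false

namespace Pool.Agent.RHK

open Finset Pool.Agent.Helper99.Rohr Pool.Agent.ROH Pool.Agent.ROH8

theorem prime_dst {p : ℕ} (hp : p.Prime) (h67 : 67 ≤ p) :
    0 < dst p 1 1 1 3 ∧ 12 * dst p 1 1 1 3 ≤ p + 12 := by
  classical
  rw [dst_eq]
  unfold dstB
  constructor
  · rw [card_pos]
    refine ⟨(2 * p + 2) / 3, ?_⟩
    set s := (2 * p + 2) / 3 with hs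
    have h3 : p % 3 ≠ 0 := by
      intro h0
      have := (Nat.prime_dvd_prime_iff_eq Nat.prime_three hp).1 (Nat.dvd_of_mod_eq_zero h0)
      omega
    have h1 : s < p := by omega
    have h2 : 2 * p ≤ 3 * s := by omega
    have h4 : 4 * s ≤ 3 * p := by omega
    rw [mem_filter, mem_range]
    refine ⟨h1, ?_, ?_, ?_⟩
    · exact (Nat.coprime_of_lt_prime (by omega) h1 hp).symm
    · rw [mul_one, Nat.mod_eq_of_lt h1]
      omega
    · rw [mul_one, Nat.mod_eq_of_lt h1]
      have : s * 3 % p = s * 3 - 2 * p := by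
        rw [show s * 3 = (s * 3 - 2 * p) + 2 * p by omega, Nat.add_mul_mod_self_right,
          Nat.mod_eq_of_lt (by omega)]
        omega
      omega
  · have hsub : (range p).filter (fun s => Nat.Coprime s p ∧ p < (s * 1) % p + (s * 1) % p ∧
        ¬ p < (s * 1) % p + (s * 3) % p) ⊆ Icc ((2 * p + 2) / 3) (3 * p / 4) := by
      intro s hs
      rw [mem_filter, mem_range] at hs
      obtain ⟨h1, -, h2, h3⟩ := hs
      rw [mul_one, Nat.mod_eq_of_lt h1] at h2 h3
      rw [mem_Icc]
      by_cases h4 : s * 3 < 2 * p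
      · exfalso
        have : s * 3 % p = s * 3 - p := by
          rw [show s * 3 = (s * 3 - p) + 1 * p by omega, Nat.add_mul_mod_self_right,
            Nat.mod_eq_of_lt (by omega)]
          omega
        omega
      · have : s * 3 % p = s * 3 - 2 * p := by
          rw [show s * 3 = (s * 3 - 2 * p) + 2 * p by omega, Nat.add_mul_mod_self_right,
            Nat.mod_eq_of_lt (by omega)]
          omega
        omega
    have h1 := card_le_card hsub
    rw [Nat.card_Icc] at h1
    omega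

theorem prime_triple {p : ℕ} (hp : p.Prime) (h67 : 67 ≤ p) : Triple p 1 1 ∧ Triple p 1 3 := by
  have h1 : ∀ n : ℕ, 0 < n → n < 67 → ¬ p ∣ n := fun n h0 h hd => by
    have := Nat.le_of_dvd h0 hd
    omega
  exact ⟨⟨h1 1 (by norm_num) (by norm_num), h1 1 (by norm_num) (by norm_num),
    h1 2 (by norm_num) (by norm_num), Or.inl (Nat.coprime_one_left _)⟩,
    ⟨h1 1 (by norm_num) (by norm_num), h1 3 (by norm_num) (by norm_num),
    h1 4 (by norm_num) (by norm_num), Or.inl (Nat.coprime_one_left _)⟩⟩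

/-- six algebraically independent values for every prime `≥ 67` -/
theorem prime_six (hA : ArithForm) (hT : ThetaForm) {p : ℕ} (hp : p.Prime) (h67 : 67 ≤ p) :
    ∃ J : Finset ℕ, Ind p J ∧ 6 ≤ J.card := by
  obtain ⟨h1, h2⟩ := prime_triple hp h67
  obtain ⟨h3, h4⟩ := prime_dst hp h67
  obtain ⟨J, hJ, hc⟩ := exists_ind hA hT (by omega) h1 h2 h3
  refine ⟨J, hJ, ?_⟩
  by_contra h5
  rw [Nat.totient_prime hp] at hc
  have h6 : 2 * dst p 1 1 1 3 * J.card ≤ 2 * dst p 1 1 1 3 * 5 := Nat.mul_le_mul_left _ (by omega)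
  omega

/-- Rohrlich's question for non-integral tuples with class function of full level -/
theorem Ind.question {D : ℕ} {J : Finset ℕ} (h : Ind D J) (hfull : D.totient ≤ 2 * J.card) {r : ℕ}
    (a : Fin r → ℚ) (M : ℕ) (hM : 0 < M) (hMa : ∀ i, ∃ z : ℤ, (M : ℚ) * a i = z)
    (hni : ∀ (i : Fin r) (z : ℤ), a i ≠ z) (hcl : ClassLevel D M a) :
    GammaMult a ↔ ∀ m : ℕ, 1 ≤ m → m ≤ M → Nat.Coprime m M →
      ∑ i, Int.fract ((m : ℚ) * a i) = (r : ℚ) / 2 := by
  by_contra hne
  obtain ⟨U, -, hU⟩ := h.line hfull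
  have h1 := (hU r a M hM hMa (fun i n h0 => hni i (-(n : ℤ)) (by push_cast; exact h0)) hcl hne).1
  rw [intCount_eq_zero hni] at h1
  exact lt_irrefl _ h1

end Pool.Agent.RHK
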