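import Pool.Agent.RHK.Jet
import Pool.Agent.RHK.Ifc

/-!
# Project RHK, ARITH: representation of jets by integer polynomials

`JR x D Φ N n`: the jets of `Φ` of order `≤ N` times `D` are values at `x` of integer polynomials of
size `≤ n`.
-/

set_option autoImplicit false

namespace Pool.Agent.RHK

open Complex Finset MvPolynomial

variable {ι : Type} [Fintype ι] [DecidableEq ι] {m : ℕ}

/-- representation of the jets of order `≤ N` -/
def JR (x : Fin m → ℂ) (D : ℕ) (Φ : VV ι → ℂ) (N : ℕ) (n : ℝ) : Prop :=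
  ∀ A B : ι → ℕ, ord A B ≤ N → ∃ P : MvPolynomial (Fin m) ℤ, Bd n P ∧
    (D : ℂ) * jet Φ A B = aeval x P

theorem Bd.rename' {q : ℕ} (j : Fin q → Fin m) {n : ℝ} {P : MvPolynomial (Fin q) ℤ} (h : Bd n P) :
    Bd n (rename j P) := by
  classical
  obtain ⟨h1, h2⟩ := h
  refine ⟨?_, ?_⟩
  · refine le_trans ?_ h1
    exact_mod_cast totalDegree_rename_le j P
  · refine le_trans ?_ h2
    have e : rename j P = ∑ e ∈ P.support, monomial (e.mapDomain j) (P.coeff e) := by
      conv_lhs => rw [P.as_sum]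
      rw [map_sum]
      refine Finset.sum_congr rfl fun e _ => ?_
      rw [rename_monomial]
    rw [e]
    refine (L1_sum_le _ _).trans ?_
    unfold L1
    refine Finset.sum_le_sum fun e _ => ?_
    have := L1_monomial (e.mapDomain j) (P.coeff e)
    unfold L1 at this
    rw [this]

/-- PLAN. `jet_fst`, `Bd.rename'`, `aeval_rename`; for `B ≠ 0` take `P = 0`. -/
theorem JR_fst {q : ℕ} (w : Fin q → ℂ) (x : Fin m → ℂ) (j : Fin q → Fin m) (hj : ∀ i, x (j i) = w i)
    {s : (ι → ℂ) → ℂ} (hs : Differentiable ℂ s) (D N : ℕ) (n : ℝ) (hn : 0 ≤ n)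
    (h : ∀ A : ι → ℕ, ∑ i, A i ≤ N → ∃ P : MvPolynomial (Fin q) ℤ, Bd n P ∧
      (D : ℂ) * jet1 s A = aeval w P) :
    JR x D (fun v : VV ι => s v.1) N n := by
  intro A B hAB
  rw [jet_fst hs]
  by_cases hB : B = 0
  · rw [if_pos hB]
    subst hB
    obtain ⟨P, hP, hP2⟩ := h A (by
      unfold ord at hAB
      simpa using hAB)
    refine ⟨rename j P, hP.rename' j, ?_⟩
    unfold jet1 at hP2
    rw [hP2, aeval_rename]
    congr 1
    have : x ∘ j = w := by
      funext i
      exact hj i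
    rw [this]
  · rw [if_neg hB]
    refine ⟨0, ⟨?_, ?_⟩, ?_⟩
    · simpa using hn
    · simpa using (Real.exp_pos n).le
    · simp

/-- PLAN. `jet_opA`: `P = P₁ - B_i X_j P₂`, degree `≤ n + 1`, length `≤ e^n (1 + N) ≤ e^{n + log (N+2)}`. -/
theorem JR_opA (x : Fin m → ℂ) (D : ℕ) {Φ : VV ι → ℂ} (h : Differentiable ℂ Φ) (N : ℕ) (n : ℝ)
    (a : ι → ℝ) (i : ι) (j : Fin m) (hj : x j = ((a i : ℝ) : ℂ)) (hΦ : JR x D Φ (N + 1) n) :
    JR x D (opA a i Φ) N (n + 1 + Real.log (N + 2)) := by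
  intro A B hAB
  have hlog : 0 ≤ Real.log ((N : ℝ) + 2) := Real.log_nonneg (by
    have : (0 : ℝ) ≤ N := Nat.cast_nonneg N
    linarith)
  have o1 : ord (A + Pi.single i 1) B ≤ N + 1 := by
    unfold ord at hAB ⊢
    have e : ∑ k, ((A + (Pi.single i 1 : ι → ℕ)) k + B k) = ∑ k, (A k + B k) + 1 := by
      have e2 : ∀ k, (A + (Pi.single i 1 : ι → ℕ)) k + B k = (A k + B k) + (Pi.single i 1 : ι → ℕ) k := by
        intro k
        rw [Pi.add_apply]
        ring
      rw [Finset.sum_congr rfl fun k _ => e2 k, Finset.sum_add_distrib, Finset.sum_pi_single',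
        if_pos (Finset.mem_univ i)]
    rw [e]
    omega
  obtain ⟨P1, b1, q1⟩ := hΦ _ _ o1
  rw [jet_opA a h]
  by_cases hB : B i = 0
  · rw [if_pos hB, sub_zero]
    exact ⟨P1, b1.mono (by linarith), q1⟩
  · rw [if_neg hB]
    have o2 : ord A (B - Pi.single i 1) ≤ N + 1 := by
      unfold ord at hAB ⊢
      refine le_trans (Finset.sum_le_sum fun k _ => ?_) (hAB.trans (Nat.le_succ N))
      rw [Pi.sub_apply]
      omega
    obtain ⟨P2, b2, q2⟩ := hΦ _ _ o2
    have hBi : B i ≤ N := by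
      unfold ord at hAB
      have h3 : A i + B i ≤ ∑ k, (A k + B k) :=
        Finset.single_le_sum (f := fun k => A k + B k) (fun _ _ => Nat.zero_le _) (Finset.mem_univ i)
      omega
    refine ⟨P1 - C (B i : ℤ) * (X j * P2), ⟨?_, ?_⟩, ?_⟩
    · have d2 : (C (B i : ℤ) * (X j * P2)).totalDegree ≤ 1 + P2.totalDegree := by
        refine (totalDegree_mul _ _).trans ?_
        rw [totalDegree_C, zero_add]
        refine (totalDegree_mul _ _).trans ?_
        rw [totalDegree_X]
      have d3 : (P1 - C (B i : ℤ) * (X j * P2)).totalDegree ≤ max P1.totalDegree (1 + P2.totalDegree) :=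
        (totalDegree_sub _ _).trans (max_le_max le_rfl d2)
      have d4 : ((P1 - C (B i : ℤ) * (X j * P2)).totalDegree : ℝ) ≤
          max (P1.totalDegree : ℝ) (1 + (P2.totalDegree : ℝ)) := by
        exact_mod_cast d3
      refine d4.trans (max_le ?_ ?_)
      · linarith [b1.1]
      · linarith [b2.1]
    · have l1 : L1 (P1 - C (B i : ℤ) * (X j * P2)) ≤ Real.exp n + (N : ℝ) * Real.exp n := by
        refine (L1_sub_le _ _).trans (add_le_add b1.2 ?_)
        refine (L1_C_mul_le _ _).trans ?_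
        have h4 : |(((B i : ℤ) : ℝ))| ≤ (N : ℝ) := by
          rw [Int.cast_natCast, abs_of_nonneg (Nat.cast_nonneg _)]
          exact_mod_cast hBi
        have h5 : L1 (X j * P2 : MvPolynomial (Fin m) ℤ) ≤ Real.exp n := by
          refine (L1_mul_le _ _).trans ?_
          have h6 : L1 (X j : MvPolynomial (Fin m) ℤ) = 1 := by
            have h7 := L1_monomial (Finsupp.single j 1) (1 : ℤ)
            simpa [X] using h7
          rw [h6, one_mul]
          exact b2.2
        exact mul_le_mul h4 h5 (L1_nonneg _) (Nat.cast_nonneg _)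
      refine l1.trans ?_
      have hN2 : (0 : ℝ) < (N : ℝ) + 2 := by
        have : (0 : ℝ) ≤ N := Nat.cast_nonneg N
        linarith
      have e1 : Real.exp (n + 1 + Real.log ((N : ℝ) + 2)) = Real.exp n * Real.exp 1 * ((N : ℝ) + 2) := by
        rw [Real.exp_add, Real.exp_add, Real.exp_log hN2]
      rw [e1]
      have e2 : (1 : ℝ) ≤ Real.exp 1 := Real.one_le_exp (by norm_num)
      have e3 := Real.exp_pos n
      have e4 : Real.exp n * 1 * ((N : ℝ) + 2) ≤ Real.exp n * Real.exp 1 * ((N : ℝ) + 2) := by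
        gcongr
      nlinarith
    · rw [map_sub, map_mul, map_mul, aeval_X, ← q2, aeval_C, hj, mul_sub, q1]
      simp only [algebraMap_int_eq, eq_intCast, Int.cast_natCast]
      ring

/-- PLAN. Induction on `∑ i, m' i` (`exp_induction`, `iter_add_single`) with `JR_opA`; the statement for `N`
needs the input for `N + |m'|`. -/
theorem JR_iter (x : Fin m → ℂ) (D : ℕ) {Φ : VV ι → ℂ} (h : Differentiable ℂ Φ) (a : ι → ℝ)
    (j : ι → Fin m) (hj : ∀ i, x (j i) = ((a i : ℝ) : ℂ)) (m' : ι → ℕ) (N : ℕ) (n : ℝ)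
    (hΦ : JR x D Φ (N + ∑ i, m' i) n) :
    JR x D (iter (opA a) m' Φ) N
      (n + (∑ i, m' i : ℕ) * (1 + Real.log (N + (∑ i, m' i : ℕ) + 2))) := by
  refine exp_induction (Q := fun m' => ∀ N : ℕ, JR x D Φ (N + ∑ i, m' i) n →
    JR x D (iter (opA a) m' Φ) N
      (n + (∑ i, m' i : ℕ) * (1 + Real.log (N + (∑ i, m' i : ℕ) + 2)))) ?_ ?_ m' N hΦ
  · intro N hN
    rw [iter_zero]
    simpa using hN
  · intro m' i0 ih N hN
    have es : ∑ k, (m' + (Pi.single i0 1 : ι → ℕ)) k = ∑ k, m' k + 1 := by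
      simp only [Pi.add_apply]
      rw [Finset.sum_add_distrib, Finset.sum_pi_single', if_pos (Finset.mem_univ i0)]
    rw [es] at hN ⊢
    have h1 := ih (N + 1) (by
      have e : N + 1 + ∑ k, m' k = N + (∑ k, m' k + 1) := by ring
      rw [e]
      exact hN)
    have h2 := JR_opA x D (iter_mem (comm_opA a) m' h) N _ a i0 (j i0) (hj i0) h1
    rw [iter_add_single (comm_opA a) m' i0 h]
    intro A B hAB
    obtain ⟨P, b, q⟩ := h2 A B hAB
    refine ⟨P, b.mono ?_, q⟩
    generalize ∑ k, m' k = s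
    push_cast
    have hN0 : (0 : ℝ) ≤ N := Nat.cast_nonneg N
    have hs0 : (0 : ℝ) ≤ s := Nat.cast_nonneg s
    have e1 : (N : ℝ) + 1 + s + 2 = N + (s + 1) + 2 := by ring
    rw [e1]
    have e2 : Real.log ((N : ℝ) + 2) ≤ Real.log ((N : ℝ) + (s + 1) + 2) :=
      Real.log_le_log (by linarith) (by linarith)
    nlinarith

end Pool.Agent.RHK
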