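import Pool.Agent.RHK.Jet

/-!
# Project RHK, MV: swap and scaling
-/

set_option autoImplicit false

namespace Pool.Agent.RHK

open Complex Finset

variable {ι : Type} [Fintype ι] [DecidableEq ι]

private def jsw_lin (Y : Finset ι) : VV ι →ₗ[ℂ] VV ι where
  toFun := sw Y
  map_add' := by
    intro v w
    refine Prod.ext ?_ ?_
    · funext i
      by_cases h : i ∈ Y <;> simp [sw, h]
    · funext i
      by_cases h : i ∈ Y <;> simp [sw, h]
  map_smul' := by
    intro c v
    refine Prod.ext ?_ ?_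
    · funext i
      by_cases h : i ∈ Y <;> simp [sw, h]
    · funext i
      by_cases h : i ∈ Y <;> simp [sw, h]

private noncomputable def jsw_cl (Y : Finset ι) : VV ι →L[ℂ] VV ι := LinearMap.toContinuousLinearMap (jsw_lin Y)

private theorem jsw_cl_apply (Y : Finset ι) (v : VV ι) : jsw_cl Y v = sw Y v := rfl

theorem ent_sw (Y : Finset ι) {Φ : VV ι → ℂ} (h : Differentiable ℂ Φ) :
    Differentiable ℂ (fun v => Φ (sw Y v)) :=
  h.comp (jsw_cl Y).differentiable

private theorem jsw_fderiv (Y : Finset ι) {Φ : VV ι → ℂ} (h : Differentiable ℂ Φ) (v e : VV ι) :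
    fderiv ℂ (fun v => Φ (sw Y v)) v e = fderiv ℂ Φ (sw Y v) (sw Y e) := by
  have h1 : HasFDerivAt (fun v => Φ (sw Y v)) ((fderiv ℂ Φ (sw Y v)).comp (jsw_cl Y)) v :=
    ((h (sw Y v)).hasFDerivAt).comp v (jsw_cl Y).hasFDerivAt
  rw [h1.fderiv]
  rfl

private theorem jsw_ez (Y : Finset ι) (i : ι) :
    sw Y (Pi.single i 1, 0) = if i ∈ Y then (0, Pi.single i 1) else ((Pi.single i 1 : ι → ℂ), 0) := by
  by_cases h : i ∈ Y
  · rw [if_pos h]
    refine Prod.ext ?_ ?_
    · funext j
      by_cases hj : j = i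
      · subst hj
        simp [sw, h]
      · simp [sw, Pi.single_eq_of_ne hj]
    · funext j
      by_cases hj : j = i
      · subst hj
        simp [sw, h]
      · simp [sw, Pi.single_eq_of_ne hj]
  · rw [if_neg h]
    refine Prod.ext ?_ ?_
    · funext j
      by_cases hj : j = i
      · subst hj
        simp [sw, h]
      · simp [sw, Pi.single_eq_of_ne hj]
    · funext j
      by_cases hj : j = i
      · subst hj
        simp [sw, h]
      · simp [sw, Pi.single_eq_of_ne hj]

private theorem jsw_ew (Y : Finset ι) (i : ι) :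
    sw Y (0, Pi.single i 1) = if i ∈ Y then ((Pi.single i 1 : ι → ℂ), 0) else (0, Pi.single i 1) := by
  by_cases h : i ∈ Y
  · rw [if_pos h]
    refine Prod.ext ?_ ?_
    · funext j
      by_cases hj : j = i
      · subst hj
        simp [sw, h]
      · simp [sw, Pi.single_eq_of_ne hj]
    · funext j
      by_cases hj : j = i
      · subst hj
        simp [sw, h]
      · simp [sw, Pi.single_eq_of_ne hj]
  · rw [if_neg h]
    refine Prod.ext ?_ ?_
    · funext j
      by_cases hj : j = i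
      · subst hj
        simp [sw, h]
      · simp [sw, Pi.single_eq_of_ne hj]
    · funext j
      by_cases hj : j = i
      · subst hj
        simp [sw, h]
      · simp [sw, Pi.single_eq_of_ne hj]

theorem dz_sw (Y : Finset ι) (i : ι) {Φ : VV ι → ℂ} (h : Differentiable ℂ Φ) :
    dz i (fun v => Φ (sw Y v)) = fun v => if i ∈ Y then dw i Φ (sw Y v) else dz i Φ (sw Y v) := by
  funext v
  unfold dz dw
  rw [jsw_fderiv Y h, jsw_ez]
  by_cases hi : i ∈ Y
  · rw [if_pos hi, if_pos hi]
  · rw [if_neg hi, if_neg hi]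

theorem dw_sw (Y : Finset ι) (i : ι) {Φ : VV ι → ℂ} (h : Differentiable ℂ Φ) :
    dw i (fun v => Φ (sw Y v)) = fun v => if i ∈ Y then dz i Φ (sw Y v) else dw i Φ (sw Y v) := by
  funext v
  unfold dz dw
  rw [jsw_fderiv Y h, jsw_ew]
  by_cases hi : i ∈ Y
  · rw [if_pos hi, if_pos hi]
  · rw [if_neg hi, if_neg hi]

/-- exchange of the exponents in `Y` -/
def swn (Y : Finset ι) (A B : ι → ℕ) : ι → ℕ := fun i => if i ∈ Y then B i else A i

theorem ord_swn (Y : Finset ι) (A B : ι → ℕ) : ord (swn Y A B) (swn Y B A) = ord A B := by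
  unfold ord swn
  refine Finset.sum_congr rfl fun i _ => ?_
  by_cases hi : i ∈ Y
  · rw [if_pos hi, if_pos hi, add_comm]
  · rw [if_neg hi, if_neg hi]

private theorem jsw_swn_left (Y : Finset ι) (A B : ι → ℕ) (i : ι) :
    swn Y (A + Pi.single i 1) B = if i ∈ Y then swn Y A B else swn Y A B + Pi.single i 1 := by
  by_cases hi : i ∈ Y
  · rw [if_pos hi]
    funext j
    by_cases hj : j = i
    · subst hj
      simp [swn, hi]
    · by_cases hjY : j ∈ Y <;> simp [swn, hjY, Pi.single_eq_of_ne hj]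
  · rw [if_neg hi]
    funext j
    by_cases hj : j = i
    · subst hj
      simp [swn, hi]
    · by_cases hjY : j ∈ Y <;> simp [swn, hjY, Pi.single_eq_of_ne hj]

private theorem jsw_swn_right (Y : Finset ι) (A B : ι → ℕ) (i : ι) :
    swn Y A (B + Pi.single i 1) = if i ∈ Y then swn Y A B + Pi.single i 1 else swn Y A B := by
  by_cases hi : i ∈ Y
  · rw [if_pos hi]
    funext j
    by_cases hj : j = i
    · subst hj
      simp [swn, hi]
    · by_cases hjY : j ∈ Y <;> simp [swn, hjY, Pi.single_eq_of_ne hj]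
  · rw [if_neg hi]
    funext j
    by_cases hj : j = i
    · subst hj
      simp [swn, hi]
    · by_cases hjY : j ∈ Y <;> simp [swn, hjY, Pi.single_eq_of_ne hj]

theorem jet_sw (Y : Finset ι) {Φ : VV ι → ℂ} (h : Differentiable ℂ Φ) (A B : ι → ℕ) :
    jet (fun v => Φ (sw Y v)) A B = jet Φ (swn Y A B) (swn Y B A) := by
  have key : ∀ A : ι → ℕ, ∀ Φ : VV ι → ℂ, Differentiable ℂ Φ →
      jet (fun v => Φ (sw Y v)) A B = jet Φ (swn Y A B) (swn Y B A) := by
    intro A
    refine exp_induction (Q := fun A => ∀ Φ : VV ι → ℂ, Differentiable ℂ Φ →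
      jet (fun v => Φ (sw Y v)) A B = jet Φ (swn Y A B) (swn Y B A)) ?_ ?_ A
    · refine exp_induction (Q := fun B => ∀ Φ : VV ι → ℂ, Differentiable ℂ Φ →
        jet (fun v => Φ (sw Y v)) 0 B = jet Φ (swn Y 0 B) (swn Y B 0)) ?_ ?_ B
      · intro Φ _
        have h0 : swn Y (0 : ι → ℕ) 0 = 0 := by
          funext j
          by_cases hj : j ∈ Y <;> simp [swn, hj]
        rw [h0, jet_zero, jet_zero]
        have h1 : sw Y (0 : VV ι) = 0 := (jsw_lin Y).map_zero
        rw [h1]
      · intro B i ih Φ hΦ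
        rw [jet_addw (ent_sw Y hΦ), dw_sw Y i hΦ, jsw_swn_right, jsw_swn_left]
        by_cases hi : i ∈ Y
        · simp only [if_pos hi]
          rw [ih _ (ent_dz i hΦ), jet_addz hΦ]
        · simp only [if_neg hi]
          rw [ih _ (ent_dw i hΦ), jet_addw hΦ]
    · intro A i ih Φ hΦ
      rw [jet_addz (ent_sw Y hΦ), dz_sw Y i hΦ, jsw_swn_right, jsw_swn_left]
      by_cases hi : i ∈ Y
      · simp only [if_pos hi]
        rw [ih _ (ent_dw i hΦ), jet_addw hΦ]
      · simp only [if_neg hi]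
        rw [ih _ (ent_dz i hΦ), jet_addz hΦ]
  exact key A Φ h

/-- scaling of the coordinates -/
def dg (l r : ι → ℂ) (v : VV ι) : VV ι := (fun i => l i * v.1 i, fun i => r i * v.2 i)

private def jsw_dlin (l r : ι → ℂ) : VV ι →ₗ[ℂ] VV ι where
  toFun := dg l r
  map_add' := by
    intro v w
    refine Prod.ext ?_ ?_
    · funext i
      simp [dg, mul_add]
    · funext i
      simp [dg, mul_add]
  map_smul' := by
    intro c v
    refine Prod.ext ?_ ?_
    · funext i
      simp only [dg, Prod.smul_fst, Pi.smul_apply, smul_eq_mul, RingHom.id_apply]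
      ring
    · funext i
      simp only [dg, Prod.smul_snd, Pi.smul_apply, smul_eq_mul, RingHom.id_apply]
      ring

private noncomputable def jsw_dcl (l r : ι → ℂ) : VV ι →L[ℂ] VV ι :=
  LinearMap.toContinuousLinearMap (jsw_dlin l r)

theorem ent_dg (l r : ι → ℂ) {Φ : VV ι → ℂ} (h : Differentiable ℂ Φ) :
    Differentiable ℂ (fun v => Φ (dg l r v)) :=
  h.comp (jsw_dcl l r).differentiable

private theorem jsw_dfderiv (l r : ι → ℂ) {Φ : VV ι → ℂ} (h : Differentiable ℂ Φ) (v e : VV ι) :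
    fderiv ℂ (fun v => Φ (dg l r v)) v e = fderiv ℂ Φ (dg l r v) (dg l r e) := by
  have h1 : HasFDerivAt (fun v => Φ (dg l r v)) ((fderiv ℂ Φ (dg l r v)).comp (jsw_dcl l r)) v :=
    ((h (dg l r v)).hasFDerivAt).comp v (jsw_dcl l r).hasFDerivAt
  rw [h1.fderiv]
  rfl

theorem dz_dg (l r : ι → ℂ) (i : ι) {Φ : VV ι → ℂ} (h : Differentiable ℂ Φ) :
    dz i (fun v => Φ (dg l r v)) = fun v => l i * dz i Φ (dg l r v) := by
  funext v
  unfold dz
  rw [jsw_dfderiv l r h]
  have h1 : dg l r (Pi.single i 1, 0) = l i • ((Pi.single i 1 : ι → ℂ), (0 : ι → ℂ)) := by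
    refine Prod.ext ?_ ?_
    · funext j
      by_cases hj : j = i
      · subst hj
        simp [dg]
      · simp [dg, Pi.single_eq_of_ne hj]
    · funext j
      simp [dg]
  rw [h1, map_smul, smul_eq_mul]

theorem dw_dg (l r : ι → ℂ) (i : ι) {Φ : VV ι → ℂ} (h : Differentiable ℂ Φ) :
    dw i (fun v => Φ (dg l r v)) = fun v => r i * dw i Φ (dg l r v) := by
  funext v
  unfold dw
  rw [jsw_dfderiv l r h]
  have h1 : dg l r (0, Pi.single i 1) = r i • ((0 : ι → ℂ), (Pi.single i 1 : ι → ℂ)) := by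
    refine Prod.ext ?_ ?_
    · funext j
      simp [dg]
    · funext j
      by_cases hj : j = i
      · subst hj
        simp [dg]
      · simp [dg, Pi.single_eq_of_ne hj]
  rw [h1, map_smul, smul_eq_mul]

private theorem jsw_prod (l : ι → ℂ) (A : ι → ℕ) (i : ι) :
    ∏ j, l j ^ (A + (Pi.single i 1 : ι → ℕ)) j = l i * ∏ j, l j ^ A j := by
  have h1 : ∏ j, l j ^ (A + (Pi.single i 1 : ι → ℕ)) j =
      (∏ j, l j ^ A j) * ∏ j, l j ^ (Pi.single i 1 : ι → ℕ) j := by
    rw [← Finset.prod_mul_distrib]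
    refine Finset.prod_congr rfl fun j _ => ?_
    rw [Pi.add_apply, pow_add]
  have h2 : ∏ j, l j ^ (Pi.single i 1 : ι → ℕ) j = l i := by
    rw [Finset.prod_eq_single i]
    · rw [Pi.single_eq_same, pow_one]
    · intro j _ hj
      rw [Pi.single_eq_of_ne hj, pow_zero]
    · intro hi
      exact absurd (Finset.mem_univ i) hi
  rw [h1, h2, mul_comm]

theorem jet_dg (l r : ι → ℂ) {Φ : VV ι → ℂ} (h : Differentiable ℂ Φ) (A B : ι → ℕ) :
    jet (fun v => Φ (dg l r v)) A B = (∏ i, l i ^ A i) * (∏ i, r i ^ B i) * jet Φ A B := by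
  have key : ∀ A : ι → ℕ, ∀ Φ : VV ι → ℂ, Differentiable ℂ Φ →
      jet (fun v => Φ (dg l r v)) A B = (∏ i, l i ^ A i) * (∏ i, r i ^ B i) * jet Φ A B := by
    intro A
    refine exp_induction (Q := fun A => ∀ Φ : VV ι → ℂ, Differentiable ℂ Φ →
      jet (fun v => Φ (dg l r v)) A B = (∏ i, l i ^ A i) * (∏ i, r i ^ B i) * jet Φ A B) ?_ ?_ A
    · refine exp_induction (Q := fun B => ∀ Φ : VV ι → ℂ, Differentiable ℂ Φ →
        jet (fun v => Φ (dg l r v)) 0 B =
          (∏ i, l i ^ (0 : ι → ℕ) i) * (∏ i, r i ^ B i) * jet Φ 0 B) ?_ ?_ B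
      · intro Φ _
        rw [jet_zero, jet_zero]
        have h1 : dg l r (0 : VV ι) = 0 := (jsw_dlin l r).map_zero
        rw [h1]
        simp
      · intro B i ih Φ hΦ
        rw [jet_addw (ent_dg l r hΦ), dw_dg l r i hΦ,
          jet_const_mul (r i) (ent_dg l r (ent_dw i hΦ)), ih _ (ent_dw i hΦ), jsw_prod,
          jet_addw hΦ]
        ring
    · intro A i ih Φ hΦ
      rw [jet_addz (ent_dg l r hΦ), dz_dg l r i hΦ,
        jet_const_mul (l i) (ent_dg l r (ent_dz i hΦ)), ih _ (ent_dz i hΦ), jsw_prod,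
        jet_addz hΦ]
      ring
  exact key A Φ h

end Pool.Agent.RHK
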