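import Pool.Agent.RHK.Jet
import Pool.Agent.RHK.JetSw
import Pool.Agent.RHK.Ifc

/-!
# Project RHK, ARITH: the family `f_p` in the coordinates scaled by the periods
-/

set_option autoImplicit false

namespace Pool.Agent.RHK

open Complex Finset

variable {ι : Type} [Fintype ι] [DecidableEq ι]

/-- scaling of `V` by the periods `v_i` and `π / v_i` -/
noncomputable def dgv (v : ι → ℝ) : VV ι → VV ι :=
  dg (fun i => ((v i : ℝ) : ℂ)) (fun i => ((Real.pi / v i : ℝ) : ℂ))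

/-- PLAN. `dz_dg` and `κ_i w_i = v_i (κ_i/π) ((π/v_i) w_i)`. -/
theorem opA_dgv (v κ : ι → ℝ) (hv : ∀ i, 0 < v i) (i : ι) {Φ : VV ι → ℂ}
    (h : Differentiable ℂ Φ) :
    opA κ i (fun u => Φ (dgv v u)) =
      fun u => (v i : ℂ) * opA (fun k => κ k / Real.pi) i Φ (dgv v u) := by
  funext u
  have h1 : dz i (fun u => Φ (dgv v u)) u = (v i : ℂ) * dz i Φ (dgv v u) := by
    have := congrFun (dz_dg (fun i => ((v i : ℝ) : ℂ)) (fun i => ((Real.pi / v i : ℝ) : ℂ)) i h) u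
    exact this
  have h2 : (dgv v u).2 i = ((Real.pi / v i : ℝ) : ℂ) * u.2 i := rfl
  have hv' : (v i : ℂ) ≠ 0 := by exact_mod_cast (hv i).ne'
  have hp : (Real.pi : ℂ) ≠ 0 := by exact_mod_cast Real.pi_ne_zero
  unfold opA
  rw [h1, h2]
  push_cast
  field_simp

/-- PLAN. Induction on `m` (`exp_induction`, `iter_add_single`), `opA` is linear. -/
theorem FF_scale (v κ : ι → ℝ) (hv : ∀ i, 0 < v i) {s : (ι → ℂ) → ℂ} (hs : Differentiable ℂ s)
    (m : ι → ℕ) (u : VV ι) :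
    FF κ (fun z => s (fun i => v i * z i)) m u =
      (∏ i, (v i : ℂ) ^ m i) * FF (fun k => κ k / Real.pi) s m (dgv v u) := by
  have hS : Differentiable ℂ (fun w : VV ι => s w.1) := hs.comp differentiable_fst
  have hS' : Differentiable ℂ (fun w : VV ι => s (fun i => v i * w.1 i)) :=
    ent_dg (fun i => ((v i : ℝ) : ℂ)) (fun i => ((Real.pi / v i : ℝ) : ℂ)) hS
  have key : ∀ m : ι → ℕ, FF κ (fun z => s (fun i => v i * z i)) m =
      fun u => (∏ i, (v i : ℂ) ^ m i) * FF (fun k => κ k / Real.pi) s m (dgv v u) := by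
    intro m
    refine exp_induction (Q := fun m => FF κ (fun z => s (fun i => v i * z i)) m =
      fun u => (∏ i, (v i : ℂ) ^ m i) * FF (fun k => κ k / Real.pi) s m (dgv v u)) ?_ ?_ m
    · funext u
      unfold FF
      rw [iter_zero, iter_zero]
      simp [dgv, dg]
    · intro m i ih
      have e1 : FF κ (fun z => s (fun i => v i * z i)) (m + Pi.single i 1) =
          opA κ i (FF κ (fun z => s (fun i => v i * z i)) m) :=
        iter_add_single (comm_opA κ) m i hS'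
      have e2 : FF (fun k => κ k / Real.pi) s (m + Pi.single i 1) =
          opA (fun k => κ k / Real.pi) i (FF (fun k => κ k / Real.pi) s m) :=
        iter_add_single (comm_opA _) m i hS
      have hF : Differentiable ℂ (FF (fun k => κ k / Real.pi) s m) :=
        iter_mem (comm_opA _) m hS
      rw [e1, e2, ih]
      have e3 : opA κ i (fun u => (∏ i, (v i : ℂ) ^ m i) *
          FF (fun k => κ k / Real.pi) s m (dgv v u)) =
          fun u => (∏ i, (v i : ℂ) ^ m i) * opA κ i (fun u =>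
            FF (fun k => κ k / Real.pi) s m (dgv v u)) u := by
        funext u
        unfold opA dz
        rw [fderiv_const_mul]
        · simp only [ContinuousLinearMap.coe_smul', Pi.smul_apply, smul_eq_mul]
          ring
        · exact (ent_dg (fun i => ((v i : ℝ) : ℂ)) (fun i => ((Real.pi / v i : ℝ) : ℂ)) hF) u
      rw [e3, opA_dgv v κ hv i hF]
      funext u
      have e4 : ∏ j, (v j : ℂ) ^ (m + (Pi.single i 1 : ι → ℕ)) j =
          (v i : ℂ) * ∏ j, (v j : ℂ) ^ m j := by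
        have h1 : ∏ j, (v j : ℂ) ^ (m + (Pi.single i 1 : ι → ℕ)) j =
            (∏ j, (v j : ℂ) ^ m j) * ∏ j, (v j : ℂ) ^ (Pi.single i 1 : ι → ℕ) j := by
          rw [← Finset.prod_mul_distrib]
          refine Finset.prod_congr rfl fun j _ => ?_
          rw [Pi.add_apply, pow_add]
        have h2 : ∏ j, (v j : ℂ) ^ (Pi.single i 1 : ι → ℕ) j = v i := by
          rw [Finset.prod_eq_single i]
          · rw [Pi.single_eq_same, pow_one]
          · intro j _ hj
            rw [Pi.single_eq_of_ne hj, pow_zero]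
          · intro hi
            exact absurd (Finset.mem_univ i) hi
        rw [h1, h2, mul_comm]
      rw [e4]
      ring
  exact congrFun (key m) u

/-- the coordinates of the second function: `dgv v2 (sw Y u) = sw Y (dg c c⁻¹ (dgv v1 u))` -/
theorem dgv_sw (Y : Finset ι) (v1 v2 : ι → ℝ) (h1 : ∀ i, 0 < v1 i) (h2 : ∀ i, 0 < v2 i)
    (u : VV ι) :
    dgv v2 (sw Y u) = sw Y (dg (fun i => ((cc Y v1 v2 i : ℝ) : ℂ))
      (fun i => (((cc Y v1 v2 i)⁻¹ : ℝ) : ℂ)) (dgv v1 u)) := by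
  have hp : (Real.pi : ℂ) ≠ 0 := by exact_mod_cast Real.pi_ne_zero
  refine Prod.ext ?_ ?_
  · funext i
    have hv1 : (v1 i : ℂ) ≠ 0 := by exact_mod_cast (h1 i).ne'
    have hv2 : (v2 i : ℂ) ≠ 0 := by exact_mod_cast (h2 i).ne'
    by_cases hi : i ∈ Y
    · simp only [dgv, dg, sw, cc, if_pos hi]
      push_cast
      field_simp
    · simp only [dgv, dg, sw, cc, if_neg hi]
      push_cast
      field_simp
  · funext i
    have hv1 : (v1 i : ℂ) ≠ 0 := by exact_mod_cast (h1 i).ne'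
    have hv2 : (v2 i : ℂ) ≠ 0 := by exact_mod_cast (h2 i).ne'
    by_cases hi : i ∈ Y
    · simp only [dgv, dg, sw, cc, if_pos hi]
      push_cast
      field_simp
    · simp only [dgv, dg, sw, cc, if_neg hi]
      push_cast
      field_simp

/-- the product `F̂_m(u) Ĥ_l(sw (dg c c⁻¹ u))` -/
noncomputable def GG (Y : Finset ι) (c : ι → ℝ) (α β : ι → ℝ) (s1 s2 : (ι → ℂ) → ℂ) (m l : ι → ℕ)
    (u : VV ι) : ℂ :=
  FF α s1 m u * FF β s2 l (sw Y (dg (fun i => ((c i : ℝ) : ℂ)) (fun i => (((c i)⁻¹ : ℝ) : ℂ)) u))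

theorem ent_FF (a : ι → ℝ) {s : (ι → ℂ) → ℂ} (hs : Differentiable ℂ s) (m : ι → ℕ) :
    Differentiable ℂ (FF a s m) :=
  iter_mem (comm_opA a) m (hs.comp differentiable_fst)

theorem ent_GG (Y : Finset ι) (c : ι → ℝ) (α β : ι → ℝ) {s1 s2 : (ι → ℂ) → ℂ}
    (h1 : Differentiable ℂ s1) (h2 : Differentiable ℂ s2) (m l : ι → ℕ) :
    Differentiable ℂ (GG Y c α β s1 s2 m l) := by
  have e1 : Differentiable ℂ (fun u : VV ι => FF β s2 l (sw Y u)) := ent_sw Y (ent_FF β h2 l)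
  exact (ent_FF α h1 m).mul (ent_dg _ _ e1)

/-- jets of the family in the original coordinates. PLAN. `FF_scale` twice, `dgv_sw`, `jet_sum`, `jet_const_mul`,
`jet_dg`. -/
theorem jet_ff (Y : Finset ι) (v1 v2 κ1 κ2 : ι → ℝ) (hv1 : ∀ i, 0 < v1 i) (hv2 : ∀ i, 0 < v2 i)
    {s1 s2 : (ι → ℂ) → ℂ} (h1 : Differentiable ℂ s1) (h2 : Differentiable ℂ s2) {K : ℕ}
    (p : (ι → Fin K) → (ι → Fin K) → ℂ) (A B : ι → ℕ) :
    jet (ff Y κ1 κ2 (fun z => s1 (fun i => v1 i * z i)) (fun z => s2 (fun i => v2 i * z i)) p) A B =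
      (∏ i, (v1 i : ℂ) ^ A i) * (∏ i, ((Real.pi / v1 i : ℝ) : ℂ) ^ B i) *
      ∑ m, ∑ l, (p m l * ((∏ i, (v1 i : ℂ) ^ (m i : ℕ)) * ∏ i, (v2 i : ℂ) ^ (l i : ℕ))) *
        jet (GG Y (cc Y v1 v2) (fun k => κ1 k / Real.pi) (fun k => κ2 k / Real.pi) s1 s2
          (fun i => (m i : ℕ)) (fun i => (l i : ℕ))) A B := by
  have hG : ∀ (m l : ι → Fin K), Differentiable ℂ (GG Y (cc Y v1 v2) (fun k => κ1 k / Real.pi)
      (fun k => κ2 k / Real.pi) s1 s2 (fun i => (m i : ℕ)) (fun i => (l i : ℕ))) :=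
    fun m l => ent_GG Y _ _ _ h1 h2 _ _
  have hGd : ∀ (m l : ι → Fin K), Differentiable ℂ (fun u => GG Y (cc Y v1 v2)
      (fun k => κ1 k / Real.pi) (fun k => κ2 k / Real.pi) s1 s2 (fun i => (m i : ℕ))
      (fun i => (l i : ℕ)) (dgv v1 u)) := fun m l => ent_dg _ _ (hG m l)
  have e0 : ff Y κ1 κ2 (fun z => s1 (fun i => v1 i * z i)) (fun z => s2 (fun i => v2 i * z i)) p =
      fun u => ∑ m, ∑ l, (p m l * ((∏ i, (v1 i : ℂ) ^ (m i : ℕ)) * ∏ i, (v2 i : ℂ) ^ (l i : ℕ))) *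
        GG Y (cc Y v1 v2) (fun k => κ1 k / Real.pi) (fun k => κ2 k / Real.pi) s1 s2
          (fun i => (m i : ℕ)) (fun i => (l i : ℕ)) (dgv v1 u) := by
    funext u
    unfold ff
    refine Finset.sum_congr rfl fun m _ => Finset.sum_congr rfl fun l _ => ?_
    rw [FF_scale v1 κ1 hv1 h1, FF_scale v2 κ2 hv2 h2, dgv_sw Y v1 v2 hv1 hv2]
    unfold GG
    ring
  rw [e0, jet_sum _ _ (fun m => ?_), Finset.mul_sum]
  · refine Finset.sum_congr rfl fun m _ => ?_
    rw [jet_sum _ _ (fun l => ?_), Finset.mul_sum]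
    · refine Finset.sum_congr rfl fun l _ => ?_
      rw [jet_const_mul _ (hGd m l)]
      have e5 := jet_dg (fun i => ((v1 i : ℝ) : ℂ)) (fun i => ((Real.pi / v1 i : ℝ) : ℂ))
        (hG m l) A B
      have e6 : jet (fun u => GG Y (cc Y v1 v2) (fun k => κ1 k / Real.pi)
          (fun k => κ2 k / Real.pi) s1 s2 (fun i => (m i : ℕ)) (fun i => (l i : ℕ)) (dgv v1 u)) A B =
          (∏ i, (v1 i : ℂ) ^ A i) * (∏ i, ((Real.pi / v1 i : ℝ) : ℂ) ^ B i) *
            jet (GG Y (cc Y v1 v2) (fun k => κ1 k / Real.pi) (fun k => κ2 k / Real.pi) s1 s2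
              (fun i => (m i : ℕ)) (fun i => (l i : ℕ))) A B := e5
      rw [e6]
      ring
    · exact (hGd m l).const_mul _
  · exact Differentiable.fun_sum fun l _ => (hGd m l).const_mul _

end Pool.Agent.RHK
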