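import Pool.Agent.RHK.JRM
import Pool.Agent.RHK.Scale

/-!
# Project RHK, ARITH: the jets of the products `F̂_m(u) Ĥ_l(sw (dg c c⁻¹ u))` are represented
-/

set_option autoImplicit false

namespace Pool.Agent.RHK

open Complex Finset MvPolynomial

/-- `AlgTay` for a given tuple and a given constant -/
def AT {ι : Type} [Fintype ι] [DecidableEq ι] {q : ℕ} (w : Fin q → ℂ) (C : ℝ) (s : (ι → ℂ) → ℂ) :
    Prop :=
  0 ≤ C ∧ ∀ N : ℕ, ∃ D : ℕ, 0 < D ∧ (D : ℝ) ≤ Real.exp (C * (N + 1) * Real.log (N + 2) ^ 2) ∧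
    ∀ A : ι → ℕ, ∑ i, A i ≤ N → ∃ P : MvPolynomial (Fin q) ℤ,
      Bd (C * (N + 1) * Real.log (N + 2) ^ 2) P ∧ (D : ℂ) * jet1 s A = aeval w P

private theorem jrg_mono {ι : Type} [Fintype ι] [DecidableEq ι] {m : ℕ} {x : Fin m → ℂ} {D : ℕ}
    {Φ : VV ι → ℂ} {N N' : ℕ} {n n' : ℝ} (h : JR x D Φ N' n) (hN : N ≤ N') (hn : n ≤ n') :
    JR x D Φ N n' := by
  intro A B hAB
  obtain ⟨P, hP, e⟩ := h A B (hAB.trans hN)
  exact ⟨P, hP.mono hn, e⟩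

private theorem jrg_one {g m q : ℕ} (x : Fin m → ℂ) (w : Fin q → ℂ) {s : (Fin g → ℂ) → ℂ}
    (hs : Differentiable ℂ s) (j1 : Fin q → Fin m) (hw : ∀ i, x (j1 i) = w i) (a : Fin g → ℝ)
    (ja : Fin g → Fin m) (ha : ∀ i, x (ja i) = ((a i : ℝ) : ℂ)) (D N K : ℕ) (n : ℝ) (hn : 0 ≤ n)
    (h : ∀ A : Fin g → ℕ, ∑ i, A i ≤ N + g * K → ∃ P : MvPolynomial (Fin q) ℤ, Bd n P ∧
      (D : ℂ) * jet1 s A = aeval w P) (m' : Fin g → ℕ) (hm : ∀ i, m' i < K) :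
    JR x D (FF a s m') N (n + ((g : ℝ) * K) * (1 + Real.log (N + (g : ℝ) * K + 2))) := by
  have h0 := JR_fst w x j1 hw hs D (N + g * K) n hn h
  have hsum : ∑ i, m' i ≤ g * K := by
    have h1 := Finset.sum_le_card_nsmul (Finset.univ : Finset (Fin g)) m' K (fun i _ => (hm i).le)
    rwa [Finset.card_univ, Fintype.card_fin, smul_eq_mul] at h1
  have hd : Differentiable ℂ (fun v : VV (Fin g) => s v.1) := hs.comp differentiable_fst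
  have h1 := JR_iter x D hd a ja ha m' N n (jrg_mono h0 (by omega) le_rfl)
  refine jrg_mono h1 le_rfl ?_
  have hsum' : ((∑ i, m' i : ℕ) : ℝ) ≤ (g : ℝ) * K := by
    have : ((∑ i, m' i : ℕ) : ℝ) ≤ ((g * K : ℕ) : ℝ) := Nat.cast_le.2 hsum
    rwa [Nat.cast_mul] at this
  have h2 : 0 ≤ ((∑ i, m' i : ℕ) : ℝ) := Nat.cast_nonneg _
  have h3 : (0 : ℝ) ≤ N := Nat.cast_nonneg _
  have h4 : Real.log (N + ((∑ i, m' i : ℕ) : ℝ) + 2) ≤ Real.log (N + (g : ℝ) * K + 2) :=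
    Real.log_le_log (by linarith) (by linarith)
  have h5 : 0 ≤ Real.log (N + ((∑ i, m' i : ℕ) : ℝ) + 2) := Real.log_nonneg (by linarith)
  have h6 : ((∑ i, m' i : ℕ) : ℝ) * (1 + Real.log (N + ((∑ i, m' i : ℕ) : ℝ) + 2)) ≤
      ((g : ℝ) * K) * (1 + Real.log (N + (g : ℝ) * K + 2)) :=
    mul_le_mul hsum' (by linarith) (by linarith) (h2.trans hsum')
  linarith

private theorem jrg_num (g N K : ℕ) (hK : 1 ≤ K) (C1 C2 : ℝ) (h1 : 0 ≤ C1) (h2 : 0 ≤ C2) :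
    C1 * (N + (g : ℝ) * K + 1) * Real.log (N + (g : ℝ) * K + 2) ^ 2 +
      C2 * (N + (g : ℝ) * K + 1) * Real.log (N + (g : ℝ) * K + 2) ^ 2 +
      2 * (((g : ℝ) * K) * (1 + Real.log (N + (g : ℝ) * K + 2))) + 2 * N ≤
    ((C1 + C2) * (g + 1) * (1 + Real.log (g + 1)) ^ 2 + 4 * g * (1 + Real.log (g + 1)) + 2) *
      (N + K + 1) * Real.log (N + K + 2) ^ 2 := by
  have hK' : (1 : ℝ) ≤ K := by exact_mod_cast hK
  have hN : (0 : ℝ) ≤ N := Nat.cast_nonneg _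
  have hg : (0 : ℝ) ≤ g := Nat.cast_nonneg _
  have hgK : (0 : ℝ) ≤ (g : ℝ) * K := by positivity
  have hgN : (0 : ℝ) ≤ (g : ℝ) * N := by positivity
  set A : ℝ := N + K + 1 with hA
  set L : ℝ := Real.log (N + K + 2) with hL
  set lam : ℝ := 1 + Real.log (g + 1) with hlam
  set Y : ℝ := Real.log (N + (g : ℝ) * K + 2) with hY
  have hL1 : 1 ≤ L := by
    rw [hL, Real.le_log_iff_exp_le (by linarith)]
    have := Real.exp_one_lt_d9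
    linarith
  have hlg : 0 ≤ Real.log ((g : ℝ) + 1) := Real.log_nonneg (by linarith)
  have hlam1 : 1 ≤ lam := by
    rw [hlam]
    linarith
  have hY0 : 0 ≤ Y := Real.log_nonneg (by linarith)
  have hYL : Y ≤ lam * L := by
    have e1 : Y ≤ Real.log (((g : ℝ) + 1) * (N + K + 2)) := by
      rw [hY]
      refine Real.log_le_log (by linarith) ?_
      nlinarith
    rw [Real.log_mul (by linarith) (by linarith)] at e1
    have e2 : Real.log ((g : ℝ) + 1) ≤ Real.log ((g : ℝ) + 1) * L := le_mul_of_one_le_right hlg hL1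
    rw [hlam]
    linarith
  have hA1 : 1 ≤ A := by
    rw [hA]
    linarith
  have hX : N + (g : ℝ) * K + 1 ≤ (g + 1) * A := by
    rw [hA]
    nlinarith
  have hX0 : 0 ≤ N + (g : ℝ) * K + 1 := by linarith
  have hGA : (g : ℝ) * K ≤ g * A := by
    rw [hA]
    nlinarith
  have hL2 : L ≤ L ^ 2 := by nlinarith
  have hY2 : Y ^ 2 ≤ (lam * L) ^ 2 := pow_le_pow_left₀ hY0 hYL 2
  have hXY : (N + (g : ℝ) * K + 1) * Y ^ 2 ≤ ((g + 1) * A) * (lam * L) ^ 2 :=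
    mul_le_mul hX hY2 (by positivity) (by positivity)
  have t1 : C1 * ((N + (g : ℝ) * K + 1) * Y ^ 2) ≤ C1 * (((g + 1) * A) * (lam * L) ^ 2) :=
    mul_le_mul_of_nonneg_left hXY h1
  have t2 : C2 * ((N + (g : ℝ) * K + 1) * Y ^ 2) ≤ C2 * (((g + 1) * A) * (lam * L) ^ 2) :=
    mul_le_mul_of_nonneg_left hXY h2
  have e3 : 1 + Y ≤ 2 * (lam * L ^ 2) := by
    have e4 : lam * L ≤ lam * L ^ 2 := mul_le_mul_of_nonneg_left hL2 (by linarith)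
    have e5 : 1 ≤ lam * L ^ 2 := by nlinarith
    linarith
  have t3 : ((g : ℝ) * K) * (1 + Y) ≤ (g * A) * (2 * (lam * L ^ 2)) :=
    mul_le_mul hGA e3 (by linarith) (by positivity)
  have t4 : (N : ℝ) ≤ A * L ^ 2 := by
    have e6 : A * 1 ≤ A * L ^ 2 := mul_le_mul_of_nonneg_left (by nlinarith) (by linarith)
    have e7 : (N : ℝ) ≤ A := by
      rw [hA]
      linarith
    linarith
  calc C1 * (N + (g : ℝ) * K + 1) * Y ^ 2 + C2 * (N + (g : ℝ) * K + 1) * Y ^ 2 +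
      2 * (((g : ℝ) * K) * (1 + Y)) + 2 * N =
      C1 * ((N + (g : ℝ) * K + 1) * Y ^ 2) + C2 * ((N + (g : ℝ) * K + 1) * Y ^ 2) +
      2 * (((g : ℝ) * K) * (1 + Y)) + 2 * N := by ring
    _ ≤ C1 * (((g + 1) * A) * (lam * L) ^ 2) + C2 * (((g + 1) * A) * (lam * L) ^ 2) +
      2 * ((g * A) * (2 * (lam * L ^ 2))) + 2 * (A * L ^ 2) := by linarith
    _ = ((C1 + C2) * (g + 1) * lam ^ 2 + 4 * g * lam + 2) * A * L ^ 2 := by ring

/-- The jets of the product functions are represented, with explicit sizes. -/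
theorem JR_GG {g m q1 q2 : ℕ} (Y : Finset (Fin g)) (c α β : Fin g → ℝ)
    {s1 s2 : (Fin g → ℂ) → ℂ} (h1 : Differentiable ℂ s1) (h2 : Differentiable ℂ s2)
    (w1 : Fin q1 → ℂ) (w2 : Fin q2 → ℂ) (C1 C2 : ℝ) (a1 : AT w1 C1 s1) (a2 : AT w2 C2 s2)
    (x : Fin m → ℂ) (jc ji ja jb : Fin g → Fin m) (j1 : Fin q1 → Fin m) (j2 : Fin q2 → Fin m)
    (hc : ∀ i, x (jc i) = ((c i : ℝ) : ℂ)) (hi : ∀ i, x (ji i) = (((c i)⁻¹ : ℝ) : ℂ))
    (ha : ∀ i, x (ja i) = ((α i : ℝ) : ℂ)) (hb : ∀ i, x (jb i) = ((β i : ℝ) : ℂ))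
    (hw1 : ∀ i, x (j1 i) = w1 i) (hw2 : ∀ i, x (j2 i) = w2 i) :
    ∃ C : ℝ, 0 ≤ C ∧ ∀ K N : ℕ, 1 ≤ K → ∃ D : ℕ, 0 < D ∧
      (D : ℝ) ≤ Real.exp (C * (N + K + 1) * Real.log (N + K + 2) ^ 2) ∧
      ∀ m' l' : Fin g → ℕ, (∀ i, m' i < K) → (∀ i, l' i < K) →
        JR x D (GG Y c α β s1 s2 m' l') N (C * (N + K + 1) * Real.log (N + K + 2) ^ 2) := by
  obtain ⟨hC1, a1⟩ := a1
  obtain ⟨hC2, a2⟩ := a2
  have hg : (0 : ℝ) ≤ g := Nat.cast_nonneg _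
  have hlg : 0 ≤ Real.log ((g : ℝ) + 1) := Real.log_nonneg (by linarith)
  refine ⟨(C1 + C2) * (g + 1) * (1 + Real.log (g + 1)) ^ 2 + 4 * g * (1 + Real.log (g + 1)) + 2,
    by positivity, fun K N hK => ?_⟩
  obtain ⟨D1, hD1, hD1', b1⟩ := a1 (N + g * K)
  obtain ⟨D2, hD2, hD2', b2⟩ := a2 (N + g * K)
  have hcast : ((N + g * K : ℕ) : ℝ) = N + (g : ℝ) * K := by push_cast; ring
  rw [hcast] at hD1' hD2' b1 b2
  have hN : (0 : ℝ) ≤ N := Nat.cast_nonneg _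
  have hgK : (0 : ℝ) ≤ (g : ℝ) * K := by positivity
  set Y' : ℝ := Real.log (N + (g : ℝ) * K + 2) with hY'
  have hY0 : 0 ≤ Y' := Real.log_nonneg (by linarith)
  have hn1 : 0 ≤ C1 * (N + (g : ℝ) * K + 1) * Y' ^ 2 := by positivity
  have hn2 : 0 ≤ C2 * (N + (g : ℝ) * K + 1) * Y' ^ 2 := by positivity
  have hGY : 0 ≤ ((g : ℝ) * K) * (1 + Y') := by positivity
  have num := jrg_num g N K hK C1 C2 hC1 hC2
  rw [← hY'] at num
  refine ⟨D1 * D2, Nat.mul_pos hD1 hD2, ?_, ?_⟩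
  · have e1 : ((D1 * D2 : ℕ) : ℝ) ≤ Real.exp (C1 * (N + (g : ℝ) * K + 1) * Y' ^ 2) *
        Real.exp (C2 * (N + (g : ℝ) * K + 1) * Y' ^ 2) := by
      rw [Nat.cast_mul]
      exact mul_le_mul hD1' hD2' (Nat.cast_nonneg _) (Real.exp_pos _).le
    rw [← Real.exp_add] at e1
    refine e1.trans (Real.exp_le_exp.2 ?_)
    linarith
  · intro m' l' hm' hl'
    have c1 := jrg_one x w1 h1 j1 hw1 α ja ha D1 N K _ hn1 b1 m' hm'
    have c2 := jrg_one x w2 h2 j2 hw2 β jb hb D2 N K _ hn2 b2 l' hl'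
    have d1 : Differentiable ℂ (FF α s1 m') := ent_FF α h1 m'
    have d2 : Differentiable ℂ (FF β s2 l') := ent_FF β h2 l'
    have c3 := JR_sw x D2 Y d2 N _ c2
    have d3 := ent_sw Y d2
    have c4 := JR_dg x D2 (fun i => ((c i : ℝ) : ℂ)) (fun i => (((c i)⁻¹ : ℝ) : ℂ)) jc ji hc hi d3 N _ c3
    have d4 := ent_dg (fun i => ((c i : ℝ) : ℂ)) (fun i => (((c i)⁻¹ : ℝ) : ℂ)) d3
    have c5 := JR_mul x D1 D2 d1 d4 N _ _ (by positivity) (by positivity) c1 c4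
    refine jrg_mono c5 le_rfl ?_
    linarith

end Pool.Agent.RHK
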