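import Pool.Agent.RHK.JR
import Pool.Agent.RHK.JetMul
import Pool.Agent.RHK.JetSw

/-!
# Project RHK, ARITH: products, swap and scaling of represented jets
-/

set_option autoImplicit false

namespace Pool.Agent.RHK

open Complex Finset MvPolynomial

variable {ι : Type} [Fintype ι] [DecidableEq ι] {m : ℕ}

/-- PLAN. `jet_mul`: sum of `bin A C * bin B D * (P_{C,D} * Q_{A-C,B-D})`, degree `≤ n₁ + n₂`, length
`≤ 2^{ord A B} e^{n₁ + n₂}` (`sum_bin`), `2^N ≤ e^N`. -/
theorem JR_mul (x : Fin m → ℂ) (D1 D2 : ℕ) {Φ Ψ : VV ι → ℂ} (h : Differentiable ℂ Φ)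
    (h' : Differentiable ℂ Ψ) (N : ℕ) (n1 n2 : ℝ) (hn1 : 0 ≤ n1) (hn2 : 0 ≤ n2)
    (hΦ : JR x D1 Φ N n1) (hΨ : JR x D2 Ψ N n2) :
    JR x (D1 * D2) (fun v => Φ v * Ψ v) N (n1 + n2 + N) := by
  intro A B hAB
  unfold JR at hΦ hΨ
  choose! P hP using hΦ
  choose! Q hQ using hΨ
  have hC : ∀ C ∈ below A, ∀ E ∈ below B, ord C E ≤ N ∧ ord (A - C) (B - E) ≤ N := by
    intro C hC E hE
    unfold below at hC hE
    rw [Fintype.mem_piFinset] at hC hE
    simp only [mem_range] at hC hE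
    refine ⟨le_trans ?_ hAB, le_trans ?_ hAB⟩
    · unfold ord
      refine Finset.sum_le_sum fun i _ => ?_
      have := hC i
      have := hE i
      omega
    · unfold ord
      refine Finset.sum_le_sum fun i _ => ?_
      simp only [Pi.sub_apply]
      omega
  refine ⟨∑ C ∈ below A, ∑ E ∈ below B, MvPolynomial.C ((bin A C * bin B E : ℕ) : ℤ) *
    (P C E * Q (A - C) (B - E)), ⟨?_, ?_⟩, ?_⟩
  · have h1 : ((∑ C ∈ below A, ∑ E ∈ below B, MvPolynomial.C ((bin A C * bin B E : ℕ) : ℤ) *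
        (P C E * Q (A - C) (B - E))).totalDegree : ℝ) ≤ (⌊n1 + n2⌋₊ : ℝ) := by
      norm_cast
      refine totalDegree_finsetSum_le fun C hCA => totalDegree_finsetSum_le fun E hEB => ?_
      refine Nat.le_floor ?_
      have h2 := hC C hCA E hEB
      have h3 := ((hP C E h2.1).1.mul (hQ (A - C) (B - E) h2.2).1).1
      refine le_trans ?_ h3
      norm_cast
      refine (totalDegree_mul _ _).trans ?_
      rw [totalDegree_C, zero_add]
    refine h1.trans ((Nat.floor_le (by positivity)).trans ?_)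
    have : (0 : ℝ) ≤ N := Nat.cast_nonneg N
    linarith
  · refine (L1_sum_le _ _).trans ?_
    have h1 : ∀ C ∈ below A, L1 (∑ E ∈ below B, MvPolynomial.C ((bin A C * bin B E : ℕ) : ℤ) *
        (P C E * Q (A - C) (B - E))) ≤ (bin A C : ℝ) * (∑ E ∈ below B, (bin B E : ℝ)) *
          Real.exp (n1 + n2) := by
      intro C hCA
      refine (L1_sum_le _ _).trans ?_
      rw [Finset.mul_sum, Finset.sum_mul]
      refine Finset.sum_le_sum fun E hEB => ?_
      have h2 := hC C hCA E hEB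
      have h3 := ((hP C E h2.1).1.mul (hQ (A - C) (B - E) h2.2).1).2
      refine (L1_C_mul_le _ _).trans ?_
      have h4 : |((((bin A C * bin B E : ℕ) : ℤ) : ℤ) : ℝ)| = (bin A C : ℝ) * (bin B E : ℝ) := by
        rw [abs_of_nonneg (by positivity)]
        push_cast
        ring
      rw [h4]
      exact mul_le_mul_of_nonneg_left h3 (by positivity)
    refine (Finset.sum_le_sum h1).trans ?_
    rw [← Finset.sum_mul, ← Finset.sum_mul]
    have h5 : (∑ C ∈ below A, (bin A C : ℝ)) = 2 ^ (∑ i, A i) := by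
      have := sum_bin A
      exact_mod_cast this
    have h6 : (∑ E ∈ below B, (bin B E : ℝ)) = 2 ^ (∑ i, B i) := by
      have := sum_bin B
      exact_mod_cast this
    have e : Real.exp (n1 + n2 + N) = Real.exp (n1 + n2) * Real.exp N := Real.exp_add _ _
    rw [e, h5, h6, ← pow_add, ← Finset.sum_add_distrib, mul_comm]
    refine mul_le_mul_of_nonneg_left ?_ (Real.exp_pos _).le
    have h7 : (2 : ℝ) ^ (∑ i, (A i + B i)) ≤ 2 ^ N := pow_le_pow_right₀ (by norm_num) hAB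
    refine h7.trans ?_
    have h8 : Real.exp (N : ℝ) = Real.exp 1 ^ N := by
      rw [← Real.exp_nat_mul, mul_one]
    rw [h8]
    refine pow_le_pow_left₀ (by norm_num) ?_ N
    have := Real.add_one_le_exp (1 : ℝ)
    linarith
  · rw [jet_mul h h', map_sum, Finset.mul_sum]
    refine Finset.sum_congr rfl fun C hCA => ?_
    rw [map_sum, Finset.mul_sum]
    refine Finset.sum_congr rfl fun E hEB => ?_
    have h2 := hC C hCA E hEB
    rw [map_mul, map_mul, ← (hP C E h2.1).2, ← (hQ (A - C) (B - E) h2.2).2, aeval_C]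
    push_cast
    ring

theorem JR_sw (x : Fin m → ℂ) (D : ℕ) (Y : Finset ι) {Φ : VV ι → ℂ} (h : Differentiable ℂ Φ)
    (N : ℕ) (n : ℝ) (hΦ : JR x D Φ N n) : JR x D (fun v => Φ (sw Y v)) N n := by
  intro A B hAB
  obtain ⟨P, hP, hP'⟩ := hΦ (swn Y A B) (swn Y B A) (by rw [ord_swn]; exact hAB)
  exact ⟨P, hP, by rw [jet_sw Y h, hP']⟩

private theorem JRM_X (j : Fin m) : Bd 1 (X j : MvPolynomial (Fin m) ℤ) := by
  refine ⟨?_, ?_⟩
  · rw [totalDegree_X]
    norm_num
  · have h1 : L1 (X j : MvPolynomial (Fin m) ℤ) = 1 := by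
      show L1 (monomial (Finsupp.single j 1) (1 : ℤ)) = 1
      rw [L1_monomial]
      norm_num
    rw [h1]
    have := Real.add_one_le_exp (1 : ℝ)
    linarith

/-- PLAN. `jet_dg`; multiply by the monomial `∏ X_{j i}^{A i} X_{j' i}^{B i}`. -/
theorem JR_dg (x : Fin m → ℂ) (D : ℕ) (l r : ι → ℂ) (j j' : ι → Fin m) (hj : ∀ i, x (j i) = l i)
    (hj' : ∀ i, x (j' i) = r i) {Φ : VV ι → ℂ} (h : Differentiable ℂ Φ)
    (N : ℕ) (n : ℝ) (hΦ : JR x D Φ N n) : JR x D (fun v => Φ (dg l r v)) N (n + N) := by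
  intro A B hAB
  obtain ⟨P, hP, hP'⟩ := hΦ A B hAB
  refine ⟨(∏ i, X (j i) ^ A i) * (∏ i, X (j' i) ^ B i) * P, ?_, ?_⟩
  · have h1 : Bd (∑ i, (A i : ℝ) * 1) (∏ i, (X (j i) : MvPolynomial (Fin m) ℤ) ^ A i) :=
      Bd.prod _ _ _ fun i _ => (JRM_X (j i)).pow (A i)
    have h2 : Bd (∑ i, (B i : ℝ) * 1) (∏ i, (X (j' i) : MvPolynomial (Fin m) ℤ) ^ B i) :=
      Bd.prod _ _ _ fun i _ => (JRM_X (j' i)).pow (B i)
    refine ((h1.mul h2).mul hP).mono ?_
    have h3 : (∑ i, (A i : ℝ) * 1) + (∑ i, (B i : ℝ) * 1) = (ord A B : ℝ) := by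
      unfold ord
      rw [← Finset.sum_add_distrib]
      push_cast
      exact Finset.sum_congr rfl fun i _ => by ring
    rw [h3]
    have h4 : (ord A B : ℝ) ≤ N := by exact_mod_cast hAB
    linarith
  · rw [jet_dg l r h, map_mul, map_mul, ← hP', map_prod, map_prod]
    simp only [map_pow, aeval_X, hj, hj']
    ring

end Pool.Agent.RHK
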