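import Mathlib

/-!
# Project RHK: the sum of the absolute values of the coefficients of an integer polynomial

`L1 P` is the sum of the absolute values of the coefficients of `P`; `Bd S` is the set of the
polynomials of total degree at most `S` and with `L1 P ≤ exp S`.
-/

namespace Pool.Agent.RHK

open MvPolynomial

/-- The sum of the absolute values of the coefficients. -/
noncomputable def L1 {σ : Type*} (P : MvPolynomial σ ℤ) : ℝ := ∑ e ∈ P.support, |((P.coeff e : ℤ) : ℝ)|

theorem L1_eq_of_subset {σ : Type*} (P : MvPolynomial σ ℤ) (s : Finset (σ →₀ ℕ))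
    (hs : P.support ⊆ s) : L1 P = ∑ e ∈ s, |((P.coeff e : ℤ) : ℝ)| := by
  unfold L1
  apply Finset.sum_subset hs
  intro e _ he
  rw [notMem_support_iff] at he
  simp [he]

theorem L1_nonneg {σ : Type*} (P : MvPolynomial σ ℤ) : 0 ≤ L1 P :=
  Finset.sum_nonneg (fun _ _ => abs_nonneg _)

@[simp] theorem L1_zero {σ : Type*} : L1 (0 : MvPolynomial σ ℤ) = 0 := by
  simp [L1]

theorem L1_monomial {σ : Type*} (e : σ →₀ ℕ) (a : ℤ) : L1 (monomial e a) = |(a : ℝ)| := by
  classical
  rw [L1_eq_of_subset (monomial e a) {e} support_monomial_subset]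
  simp

theorem L1_C {σ : Type*} (a : ℤ) : L1 (C a : MvPolynomial σ ℤ) = |(a : ℝ)| := L1_monomial 0 a

@[simp] theorem L1_one {σ : Type*} : L1 (1 : MvPolynomial σ ℤ) = 1 := by
  have h := L1_C (σ := σ) 1
  rw [C_1] at h
  rw [h]; simp

theorem L1_neg {σ : Type*} (P : MvPolynomial σ ℤ) : L1 (-P) = L1 P := by
  unfold L1
  rw [support_neg]
  simp

theorem L1_add_le {σ : Type*} (P Q : MvPolynomial σ ℤ) : L1 (P + Q) ≤ L1 P + L1 Q := by
  classical
  rw [L1_eq_of_subset (P + Q) (P.support ∪ Q.support) support_add,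
    L1_eq_of_subset P (P.support ∪ Q.support) Finset.subset_union_left,
    L1_eq_of_subset Q (P.support ∪ Q.support) Finset.subset_union_right, ← Finset.sum_add_distrib]
  apply Finset.sum_le_sum
  intro e _
  rw [coeff_add]
  push_cast
  exact abs_add_le _ _

theorem L1_sub_le {σ : Type*} (P Q : MvPolynomial σ ℤ) : L1 (P - Q) ≤ L1 P + L1 Q := by
  rw [sub_eq_add_neg]
  exact (L1_add_le _ _).trans (by rw [L1_neg])

theorem L1_sum_le {σ ι : Type*} (s : Finset ι) (f : ι → MvPolynomial σ ℤ) :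
    L1 (∑ i ∈ s, f i) ≤ ∑ i ∈ s, L1 (f i) := by
  classical
  induction s using Finset.induction_on with
  | empty => simp
  | insert a s ha ih =>
    rw [Finset.sum_insert ha, Finset.sum_insert ha]
    exact (L1_add_le _ _).trans (by gcongr)

theorem L1_mul_le {σ : Type*} (P Q : MvPolynomial σ ℤ) : L1 (P * Q) ≤ L1 P * L1 Q := by
  classical
  have h : P * Q = ∑ e ∈ P.support, ∑ f ∈ Q.support, monomial (e + f) (P.coeff e * Q.coeff f) := by
    conv_lhs => rw [P.as_sum, Q.as_sum]
    rw [Finset.sum_mul_sum]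
    apply Finset.sum_congr rfl
    intro e _
    apply Finset.sum_congr rfl
    intro f _
    rw [monomial_mul]
  rw [h]
  refine (L1_sum_le _ _).trans ?_
  unfold L1
  rw [Finset.sum_mul]
  apply Finset.sum_le_sum
  intro e _
  refine (L1_sum_le _ _).trans ?_
  rw [Finset.mul_sum]
  apply Finset.sum_le_sum
  intro f _
  rw [L1_monomial]
  push_cast
  rw [abs_mul]

theorem L1_pow_le {σ : Type*} (P : MvPolynomial σ ℤ) (n : ℕ) : L1 (P ^ n) ≤ L1 P ^ n := by
  induction n with
  | zero => simp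
  | succ n ih =>
    rw [pow_succ, pow_succ]
    exact (L1_mul_le _ _).trans (mul_le_mul_of_nonneg_right ih (L1_nonneg P))

theorem L1_prod_le {σ ι : Type*} (s : Finset ι) (f : ι → MvPolynomial σ ℤ) :
    L1 (∏ i ∈ s, f i) ≤ ∏ i ∈ s, L1 (f i) := by
  classical
  induction s using Finset.induction_on with
  | empty => simp
  | insert a s ha ih =>
    rw [Finset.prod_insert ha, Finset.prod_insert ha]
    exact (L1_mul_le _ _).trans (mul_le_mul_of_nonneg_left ih (L1_nonneg _))

theorem abs_coeff_le {σ : Type*} (P : MvPolynomial σ ℤ) (e : σ →₀ ℕ) :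
    |((P.coeff e : ℤ) : ℝ)| ≤ L1 P := by
  classical
  by_cases he : e ∈ P.support
  · exact Finset.single_le_sum (f := fun e => |((P.coeff e : ℤ) : ℝ)|) (fun _ _ => abs_nonneg _) he
  · rw [notMem_support_iff] at he
    rw [he]; simpa using L1_nonneg P

theorem L1_C_mul_le {σ : Type*} (a : ℤ) (P : MvPolynomial σ ℤ) :
    L1 (C a * P) ≤ |(a : ℝ)| * L1 P := by
  have h := L1_mul_le (C a) P
  rwa [L1_C] at h

/-- A polynomial is bounded at a point by `L1 P * B ^ deg P` if the coordinates are bounded by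
`B ≥ 1`. -/
theorem norm_aeval_le {σ : Type*} (x : σ → ℂ) (B : ℝ) (hB : 1 ≤ B) (hx : ∀ i, ‖x i‖ ≤ B)
    (P : MvPolynomial σ ℤ) (D : ℕ) (hD : P.totalDegree ≤ D) : ‖aeval x P‖ ≤ L1 P * B ^ D := by
  classical
  rw [aeval_def, eval₂_eq]
  refine (norm_sum_le _ _).trans ?_
  unfold L1
  rw [Finset.sum_mul]
  apply Finset.sum_le_sum
  intro e he
  rw [norm_mul, norm_prod]
  have h1 : ‖(algebraMap ℤ ℂ) (P.coeff e)‖ = |((P.coeff e : ℤ) : ℝ)| := by
    rw [algebraMap_int_eq]
    simp
  rw [h1]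
  apply mul_le_mul_of_nonneg_left _ (abs_nonneg _)
  calc ∏ i ∈ e.support, ‖x i ^ e i‖ ≤ ∏ i ∈ e.support, B ^ e i := by
        apply Finset.prod_le_prod
        · intro i _; positivity
        · intro i _
          rw [norm_pow]
          exact pow_le_pow_left₀ (norm_nonneg _) (hx i) _
    _ = B ^ (e.sum fun _ n => n) := by
        rw [Finset.prod_pow_eq_pow_sum]; rfl
    _ ≤ B ^ D := by
        apply pow_le_pow_right₀ hB
        exact (le_totalDegree he).trans hD

/-- The polynomials of size at most `S`. -/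
def Bd {σ : Type*} (S : ℝ) (P : MvPolynomial σ ℤ) : Prop :=
  (P.totalDegree : ℝ) ≤ S ∧ L1 P ≤ Real.exp S

theorem Bd.mono {σ : Type*} {S S' : ℝ} (h : S ≤ S') {P : MvPolynomial σ ℤ} (hP : Bd S P) :
    Bd S' P := ⟨hP.1.trans h, hP.2.trans (Real.exp_le_exp.2 h)⟩

theorem Bd.mul {σ : Type*} {S S' : ℝ} {P Q : MvPolynomial σ ℤ} (hP : Bd S P) (hQ : Bd S' Q) :
    Bd (S + S') (P * Q) := by
  refine ⟨?_, ?_⟩
  · have h := totalDegree_mul P Q
    have h' : ((P * Q).totalDegree : ℝ) ≤ P.totalDegree + Q.totalDegree := by exact_mod_cast h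
    linarith [hP.1, hQ.1]
  · rw [Real.exp_add]
    exact (L1_mul_le P Q).trans (mul_le_mul hP.2 hQ.2 (L1_nonneg _) (Real.exp_pos _).le)

theorem Bd.pow {σ : Type*} {S : ℝ} {P : MvPolynomial σ ℤ} (hP : Bd S P) (n : ℕ) :
    Bd (n * S) (P ^ n) := by
  induction n with
  | zero =>
    refine ⟨?_, ?_⟩
    · simp
    · simp
  | succ n ih =>
    have h := ih.mul hP
    rw [pow_succ]
    push_cast
    have e : ((n : ℝ) + 1) * S = n * S + S := by ring
    rw [e]
    exact h

theorem Bd.prod {σ ι : Type*} (s : Finset ι) (S : ι → ℝ) (f : ι → MvPolynomial σ ℤ)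
    (h : ∀ i ∈ s, Bd (S i) (f i)) : Bd (∑ i ∈ s, S i) (∏ i ∈ s, f i) := by
  classical
  induction s using Finset.induction_on with
  | empty => simp [Bd]
  | insert a s ha ih =>
    rw [Finset.sum_insert ha, Finset.prod_insert ha]
    exact (h a (Finset.mem_insert_self a s)).mul
      (ih (fun i hi => h i (Finset.mem_insert_of_mem hi)))

end Pool.Agent.RHK
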